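import Mathlib
import Pool.Agent.Lib.MP_ec946a_sdp.Relax

/-!
# The combined semidefinite and affine integer relaxation of a 2-to-1 game
-/

set_option autoImplicit false

namespace Pool.Agent.MP_ec946a

open Finset

/-- A solution, with vectors in `ℝ^n`, of the combined relaxation of the game `G` which runs the
basic semidefinite relaxation with perfect value together with the affine integer relaxation.

The semidefinite part is a solution of the basic semidefinite relaxation which is perfect: for
every edge `e` and label `b` the vectors `x (src e) a` of the labels `a` with `proj e a = b` have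
sum `y (tgt e) b`.

The affine integer part is an integer solution of the linear equations of the basic linear
programming relaxation: for every vertex the integers of the labels have sum one, and for every
edge `e` and label `b` the integers `ξ (src e) a` of the labels `a` with `proj e a = b` have sum
`η (tgt e) b`.

The two parts are linked: a label with a nonzero integer has a nonzero vector. -/
structure Game.SDASolution {q : ℕ} (G : Game q) (n : ℕ) extends Game.SDPSolution G n where
  marg : ∀ e b, ∑ a ∈ univ.filter (fun a => G.proj e a = b), x (G.src e) a = y (G.tgt e) b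
  ξ : G.U → Fin q → ℤ
  η : G.V → Fin q → ℤ
  sum_ξ : ∀ u, ∑ a, ξ u a = 1
  sum_η : ∀ v, ∑ b, η v b = 1
  marg_int : ∀ e b, ∑ a ∈ univ.filter (fun a => G.proj e a = b), ξ (G.src e) a = η (G.tgt e) b
  supp_ξ : ∀ u a, ξ u a ≠ 0 → x u a ≠ 0
  supp_η : ∀ v b, η v b ≠ 0 → y v b ≠ 0

namespace SDA

/-- A perfect semidefinite solution with nonzero vectors for the labels of `U`, in an arbitrary
inner product space, for a game in which the sizes of the fibres depend only on the vertex of
`V`. -/
structure Perf {q : ℕ} (G : Game q) (F : Type) [NormedAddCommGroup F] [InnerProductSpace ℝ F]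
    where
  x₀ : F
  x : G.U → Fin q → F
  y : G.V → Fin q → F
  cnt : G.V → Fin q → ℕ
  norm_x₀ : ‖x₀‖ = 1
  sum_x : ∀ u, ∑ a, x u a = x₀
  orth : ∀ u a a', a ≠ a' → inner ℝ (x u a) (x u a') = 0
  ne : ∀ u a, x u a ≠ 0
  surj : Function.Surjective G.tgt
  marg : ∀ e b, ∑ a ∈ univ.filter (fun a => G.proj e a = b), x (G.src e) a = y (G.tgt e) b
  card : ∀ e b, (univ.filter fun a => G.proj e a = b).card = cnt (G.tgt e) b

/-- The combined solution from orthogonal vectors and integers for the labels of `U` and their
sums over the fibres. -/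
theorem nonempty_sda {q : ℕ} (G : Game q) {F : Type} [NormedAddCommGroup F]
    [InnerProductSpace ℝ F] [FiniteDimensional ℝ F] (x₀ : F) (x : G.U → Fin q → F)
    (y : G.V → Fin q → F) (ξ : G.U → Fin q → ℤ) (η : G.V → Fin q → ℤ)
    (norm_x₀ : ‖x₀‖ = 1) (sum_x : ∀ u, ∑ a, x u a = x₀)
    (orth : ∀ u a a', a ≠ a' → inner ℝ (x u a) (x u a') = 0) (ne : ∀ u a, x u a ≠ 0)
    (surj : Function.Surjective G.tgt)
    (marg : ∀ e b, ∑ a ∈ univ.filter (fun a => G.proj e a = b), x (G.src e) a = y (G.tgt e) b)
    (sum_ξ : ∀ u, ∑ a, ξ u a = 1)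
    (marg_int : ∀ e b, ∑ a ∈ univ.filter (fun a => G.proj e a = b), ξ (G.src e) a
      = η (G.tgt e) b) : ∃ n, Nonempty (G.SDASolution n) := by
  classical
  let T := (stdOrthonormalBasis ℝ F).repr
  have hin : ∀ e a b, inner ℝ (x (G.src e) a) (y (G.tgt e) b)
      = if G.proj e a = b then inner ℝ (x (G.src e) a) (x (G.src e) a) else (0 : ℝ) := by
    intro e a b
    rw [← marg, inner_sum]
    split_ifs with h
    · rw [sum_eq_single_of_mem a (mem_filter.mpr ⟨mem_univ _, h⟩)]
      intro a' _ ha'
      exact orth _ _ _ (Ne.symm ha')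
    · refine sum_eq_zero fun a' ha' => ?_
      refine orth _ _ _ ?_
      rintro rfl
      exact h (mem_filter.mp ha').2
  refine ⟨Module.finrank ℝ F, ⟨{
    x₀ := T x₀
    x := fun u a => T (x u a)
    y := fun v b => T (y v b)
    norm_x₀ := by rw [LinearIsometryEquiv.norm_map, norm_x₀]
    sum_x := fun u => by rw [← map_sum, sum_x]
    sum_y := ?_
    orth_x := fun u a a' h => by rw [LinearIsometryEquiv.inner_map_map, orth u a a' h]
    orth_y := ?_
    nonneg := ?_
    marg := fun e b => by rw [← map_sum, marg]
    ξ := ξ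
    η := η
    sum_ξ := sum_ξ
    sum_η := ?_
    marg_int := marg_int
    supp_ξ := fun u a _ h => ne u a ?_
    supp_η := ?_ }⟩⟩
  · intro v
    obtain ⟨e, rfl⟩ := surj v
    rw [← map_sum, sum_congr rfl fun b _ => (marg e b).symm, sum_fiberwise, sum_x]
  · intro v b b' hb
    obtain ⟨e, rfl⟩ := surj v
    rw [LinearIsometryEquiv.inner_map_map, ← marg e b, sum_inner]
    refine sum_eq_zero fun a ha => ?_
    rw [hin, if_neg]
    rw [(mem_filter.mp ha).2]
    exact hb
  · intro e a b
    rw [LinearIsometryEquiv.inner_map_map, hin]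
    split_ifs
    · exact real_inner_self_nonneg
    · exact le_refl _
  · intro v
    obtain ⟨e, rfl⟩ := surj v
    rw [sum_congr rfl fun b _ => (marg_int e b).symm, sum_fiberwise, sum_ξ]
  · exact (LinearIsometryEquiv.map_eq_zero_iff T).mp h
  · intro v b hb h
    obtain ⟨e, rfl⟩ := surj v
    rw [LinearIsometryEquiv.map_eq_zero_iff] at h
    rw [← marg_int] at hb
    obtain ⟨a, ha, -⟩ := exists_ne_zero_of_sum_ne_zero hb
    have h1 := hin e a b
    rw [h, inner_zero_right, if_pos (mem_filter.mp ha).2, eq_comm, inner_self_eq_zero] at h1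
    exact ne _ _ h1

end SDA

end Pool.Agent.MP_ec946a
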