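import Mathlib
import Pool.Agent.Lib.MP_ec946a_sda.Relax3

/-!
# The sum of two games

The labels of the sum of two games are the labels of both; the vertices and edges are pairs.  An
edge acts on the labels of each game as the corresponding edge of this game.  The value is at most
the sum of the values.
-/

set_option autoImplicit false

namespace Pool.Agent.MP_ec946a

open Finset

section sums

variable {m n : ℕ} (f : Fin m → Fin m) (g : Fin n → Fin n)

/-- the map on the labels of the sum -/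
def sumMap (a : Fin (m + n)) : Fin (m + n) :=
  finSumFinEquiv (Sum.map f g (finSumFinEquiv.symm a))

lemma sumMap_inl (a : Fin m) :
    sumMap f g (finSumFinEquiv (Sum.inl a)) = finSumFinEquiv (Sum.inl (f a)) := by
  unfold sumMap
  rw [Equiv.symm_apply_apply]
  rfl

lemma sumMap_inr (a : Fin n) :
    sumMap f g (finSumFinEquiv (Sum.inr a)) = finSumFinEquiv (Sum.inr (g a)) := by
  unfold sumMap
  rw [Equiv.symm_apply_apply]
  rfl

lemma sum_labels {M : Type} [AddCommMonoid M] (φ : Fin (m + n) → M) :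
    ∑ a, φ a = ∑ a : Fin m, φ (finSumFinEquiv (Sum.inl a))
      + ∑ b : Fin n, φ (finSumFinEquiv (Sum.inr b)) := by
  rw [← Equiv.sum_comp finSumFinEquiv φ, Fintype.sum_sum_type]

lemma sum_fibre_inl {M : Type} [AddCommMonoid M] (φ : Fin (m + n) → M) (b : Fin m) :
    ∑ a ∈ univ.filter (fun a => sumMap f g a = finSumFinEquiv (Sum.inl b)), φ a
      = ∑ a ∈ univ.filter (fun a => f a = b), φ (finSumFinEquiv (Sum.inl a)) := by
  rw [sum_filter, sum_labels, sum_filter]
  have h1 : ∑ a : Fin n, (if sumMap f g (finSumFinEquiv (Sum.inr a))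
      = finSumFinEquiv (Sum.inl b) then φ (finSumFinEquiv (Sum.inr a)) else 0) = 0 := by
    refine sum_eq_zero fun a _ => ?_
    rw [if_neg]
    rw [sumMap_inr]
    intro h
    exact absurd (finSumFinEquiv.injective h) (by simp)
  rw [h1, add_zero]
  refine sum_congr rfl fun a _ => ?_
  rw [sumMap_inl]
  by_cases h : f a = b
  · rw [if_pos h, if_pos (by rw [h])]
  · rw [if_neg h, if_neg]
    intro h2
    exact h (Sum.inl_injective (finSumFinEquiv.injective h2))

lemma sum_fibre_inr {M : Type} [AddCommMonoid M] (φ : Fin (m + n) → M) (b : Fin n) :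
    ∑ a ∈ univ.filter (fun a => sumMap f g a = finSumFinEquiv (Sum.inr b)), φ a
      = ∑ a ∈ univ.filter (fun a => g a = b), φ (finSumFinEquiv (Sum.inr a)) := by
  rw [sum_filter, sum_labels, sum_filter]
  have h1 : ∑ a : Fin m, (if sumMap f g (finSumFinEquiv (Sum.inl a))
      = finSumFinEquiv (Sum.inr b) then φ (finSumFinEquiv (Sum.inl a)) else 0) = 0 := by
    refine sum_eq_zero fun a _ => ?_
    rw [if_neg]
    rw [sumMap_inl]
    intro h
    exact absurd (finSumFinEquiv.injective h) (by simp)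
  rw [h1, zero_add]
  refine sum_congr rfl fun a _ => ?_
  rw [sumMap_inr]
  by_cases h : g a = b
  · rw [if_pos h, if_pos (by rw [h])]
  · rw [if_neg h, if_neg]
    intro h2
    exact h (Sum.inr_injective (finSumFinEquiv.injective h2))

lemma card_fibre_inl (b : Fin m) :
    (univ.filter fun a => sumMap f g a = finSumFinEquiv (Sum.inl b)).card
      = (univ.filter fun a => f a = b).card := by
  rw [card_eq_sum_ones, sum_fibre_inl, ← card_eq_sum_ones]

lemma card_fibre_inr (b : Fin n) :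
    (univ.filter fun a => sumMap f g a = finSumFinEquiv (Sum.inr b)).card
      = (univ.filter fun a => g a = b).card := by
  rw [card_eq_sum_ones, sum_fibre_inr, ← card_eq_sum_ones]

end sums

lemma natcard_fibre {q : ℕ} (f : Fin q → Fin q) (b : Fin q) :
    Nat.card {a // f a = b} = (univ.filter fun a => f a = b).card := by
  rw [Nat.card_eq_fintype_card, Fintype.card_subtype]

/-- The sum of two games. -/
def Game.sum {m n : ℕ} (G : Game m) (H : Game n) : Game (m + n) where
  U := G.U × H.U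
  V := G.V × H.V
  E := G.E × H.E
  src := fun e => (G.src e.1, H.src e.2)
  tgt := fun e => (G.tgt e.1, H.tgt e.2)
  proj := fun e => sumMap (G.proj e.1) (H.proj e.2)
  two_to_one := by
    intro e b
    obtain ⟨s, rfl⟩ := finSumFinEquiv.surjective b
    rw [natcard_fibre]
    rcases s with b | b
    · rw [card_fibre_inl, ← natcard_fibre]
      exact G.two_to_one _ _
    · rw [card_fibre_inr, ← natcard_fibre]
      exact H.two_to_one _ _

namespace SDA

lemma natcard_set {α : Type} [Fintype α] (S : Set α) [DecidablePred (· ∈ S)] :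
    Nat.card S = (univ.filter fun a => a ∈ S).card := by
  rw [Nat.card_eq_fintype_card, Fintype.card_subtype]

lemma sat_le {q : ℕ} (G : Game q) (LU : G.U → Fin q) (LV : G.V → Fin q) :
    (Nat.card (G.satisfied LU LV) : ℝ) ≤ G.value * (Nat.card G.E : ℝ) := by
  have hE : (0 : ℝ) < (Nat.card G.E : ℝ) := by exact_mod_cast Nat.card_pos
  have h1 : BddAbove (Set.range fun L : (G.U → Fin q) × (G.V → Fin q) =>
      (Nat.card (G.satisfied L.1 L.2) : ℝ) / (Nat.card G.E : ℝ)) := by
    refine ⟨1, ?_⟩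
    rintro r ⟨L, rfl⟩
    show (Nat.card (G.satisfied L.1 L.2) : ℝ) / (Nat.card G.E : ℝ) ≤ 1
    rw [div_le_one hE]
    exact_mod_cast Nat.card_le_card_of_injective (Subtype.val : G.satisfied L.1 L.2 → G.E)
      Subtype.val_injective
  have h2 := le_ciSup h1 (LU, LV)
  rw [← div_le_iff₀ hE]
  exact h2

variable {m n : ℕ} [NeZero m] [NeZero n]

/-- the label of the first game -/
def fstLab (a : Fin (m + n)) : Fin m := Sum.elim id (fun _ => 0) (finSumFinEquiv.symm a)

/-- the label of the second game -/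
def sndLab (a : Fin (m + n)) : Fin n := Sum.elim (fun _ => 0) id (finSumFinEquiv.symm a)

theorem value_sum (G : Game m) (H : Game n) :
    (G.sum H).value ≤ G.value + H.value := by
  classical
  have hne : Nonempty (((G.sum H).U → Fin (m + n)) × ((G.sum H).V → Fin (m + n))) := by
    have : Nonempty (Fin (m + n)) := ⟨finSumFinEquiv (Sum.inl 0)⟩
    infer_instance
  refine ciSup_le fun L => ?_
  obtain ⟨LU, LV⟩ := L
  have hG : (0 : ℝ) < (Nat.card G.E : ℝ) := by exact_mod_cast Nat.card_pos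
  have hH : (0 : ℝ) < (Nat.card H.E : ℝ) := by exact_mod_cast Nat.card_pos
  have hE : (Nat.card (G.sum H).E : ℝ) = (Nat.card G.E : ℝ) * (Nat.card H.E : ℝ) := by
    show ((Nat.card (G.E × H.E) : ℕ) : ℝ) = _
    rw [Nat.card_prod]
    push_cast
    rfl
  show (Nat.card ((G.sum H).satisfied LU LV) : ℝ) / (Nat.card (G.sum H).E : ℝ) ≤ _
  rw [hE, div_le_iff₀ (mul_pos hG hH)]
  -- the two labelings
  let S₁ : H.E → Set G.E := fun e₂ => G.satisfied
    (fun u => fstLab (LU (u, H.src e₂))) (fun v => fstLab (LV (v, H.tgt e₂)))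
  let S₂ : G.E → Set H.E := fun e₁ => H.satisfied
    (fun u => sndLab (LU (G.src e₁, u))) (fun v => sndLab (LV (G.tgt e₁, v)))
  have hsub : (univ.filter fun e : G.E × H.E => e ∈ (G.sum H).satisfied LU LV)
      ⊆ (univ.filter fun e : G.E × H.E => e.1 ∈ S₁ e.2)
        ∪ (univ.filter fun e : G.E × H.E => e.2 ∈ S₂ e.1) := by
    intro e he
    rw [mem_filter] at he
    have he' : sumMap (G.proj e.1) (H.proj e.2) (LU (G.src e.1, H.src e.2))
        = LV (G.tgt e.1, H.tgt e.2) := he.2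
    rw [mem_union, mem_filter, mem_filter]
    obtain ⟨s, hs⟩ := finSumFinEquiv.surjective (LU (G.src e.1, H.src e.2))
    rw [← hs] at he'
    rcases s with a | a
    · left
      refine ⟨mem_univ _, ?_⟩
      show G.proj e.1 (fstLab (LU (G.src e.1, H.src e.2))) = fstLab (LV (G.tgt e.1, H.tgt e.2))
      rw [← hs, ← he', sumMap_inl]
      unfold fstLab
      rw [Equiv.symm_apply_apply, Equiv.symm_apply_apply]
      rfl
    · right
      refine ⟨mem_univ _, ?_⟩
      show H.proj e.2 (sndLab (LU (G.src e.1, H.src e.2))) = sndLab (LV (G.tgt e.1, H.tgt e.2))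
      rw [← hs, ← he', sumMap_inr]
      unfold sndLab
      rw [Equiv.symm_apply_apply, Equiv.symm_apply_apply]
      rfl
  have hc : (Nat.card ((G.sum H).satisfied LU LV) : ℝ)
      ≤ ((univ.filter fun e : G.E × H.E => e.1 ∈ S₁ e.2).card : ℝ)
        + ((univ.filter fun e : G.E × H.E => e.2 ∈ S₂ e.1).card : ℝ) := by
    have h1 := (card_le_card hsub).trans (card_union_le _ _)
    have h2 : Nat.card ((G.sum H).satisfied LU LV)
        = (univ.filter fun e : G.E × H.E => e ∈ (G.sum H).satisfied LU LV).card :=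
      natcard_set (α := G.E × H.E) ((G.sum H).satisfied LU LV)
    rw [h2]
    exact_mod_cast h1
  have h1 : ((univ.filter fun e : G.E × H.E => e.1 ∈ S₁ e.2).card : ℝ)
      ≤ (Nat.card H.E : ℝ) * (G.value * (Nat.card G.E : ℝ)) := by
    have e1 : (univ.filter fun e : G.E × H.E => e.1 ∈ S₁ e.2).card
        = ∑ e₂ : H.E, (univ.filter fun e₁ : G.E => e₁ ∈ S₁ e₂).card := by
      simp only [card_filter]
      rw [Fintype.sum_prod_type_right]
    rw [e1]
    push_cast
    have h2 : ∀ e₂ : H.E, ((univ.filter fun e₁ : G.E => e₁ ∈ S₁ e₂).card : ℝ)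
        ≤ G.value * (Nat.card G.E : ℝ) := by
      intro e₂
      rw [← natcard_set]
      exact sat_le G _ _
    refine (sum_le_sum fun e₂ _ => h2 e₂).trans (le_of_eq ?_)
    rw [sum_const, card_univ, nsmul_eq_mul, Nat.card_eq_fintype_card (α := H.E)]
  have h2 : ((univ.filter fun e : G.E × H.E => e.2 ∈ S₂ e.1).card : ℝ)
      ≤ (Nat.card G.E : ℝ) * (H.value * (Nat.card H.E : ℝ)) := by
    have e1 : (univ.filter fun e : G.E × H.E => e.2 ∈ S₂ e.1).card
        = ∑ e₁ : G.E, (univ.filter fun e₂ : H.E => e₂ ∈ S₂ e₁).card := by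
      simp only [card_filter]
      rw [Fintype.sum_prod_type]
    rw [e1]
    push_cast
    have h2 : ∀ e₁ : G.E, ((univ.filter fun e₂ : H.E => e₂ ∈ S₂ e₁).card : ℝ)
        ≤ H.value * (Nat.card H.E : ℝ) := by
      intro e₁
      rw [← natcard_set]
      exact sat_le H _ _
    refine (sum_le_sum fun e₁ _ => h2 e₁).trans (le_of_eq ?_)
    rw [sum_const, card_univ, nsmul_eq_mul, Nat.card_eq_fintype_card (α := G.E)]
  refine hc.trans ((add_le_add h1 h2).trans (le_of_eq ?_))
  ring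

end SDA

namespace SDA

section embed

variable (F₁ F₂ : Type) [NormedAddCommGroup F₁] [InnerProductSpace ℝ F₁]
  [NormedAddCommGroup F₂] [InnerProductSpace ℝ F₂]

/-- the first embedding, with norms divided by the root of two -/
noncomputable def i₁ : F₁ →ₗ[ℝ] WithLp 2 (F₁ × F₂) where
  toFun a := WithLp.toLp 2 ((√2)⁻¹ • a, 0)
  map_add' a b := by
    rw [← WithLp.toLp_add, Prod.mk_add_mk, smul_add, add_zero]
  map_smul' c a := by
    rw [RingHom.id_apply, ← WithLp.toLp_smul, Prod.smul_mk, smul_zero, smul_comm]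

/-- the second embedding, with norms divided by the root of two -/
noncomputable def i₂ : F₂ →ₗ[ℝ] WithLp 2 (F₁ × F₂) where
  toFun a := WithLp.toLp 2 (0, (√2)⁻¹ • a)
  map_add' a b := by
    rw [← WithLp.toLp_add, Prod.mk_add_mk, smul_add, add_zero]
  map_smul' c a := by
    rw [RingHom.id_apply, ← WithLp.toLp_smul, Prod.smul_mk, smul_zero, smul_comm]

variable {F₁ F₂}

lemma sqrt_two_inv_sq : (√2)⁻¹ * (√2)⁻¹ = (1 / 2 : ℝ) := by
  rw [← mul_inv, Real.mul_self_sqrt (by norm_num)]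
  norm_num

lemma inner_i₁ (a b : F₁) : inner ℝ (i₁ F₁ F₂ a) (i₁ F₁ F₂ b) = (1 / 2) * inner ℝ a b := by
  rw [WithLp.prod_inner_apply]
  show inner ℝ ((√2)⁻¹ • a) ((√2)⁻¹ • b) + inner ℝ (0 : F₂) 0 = (1 / 2) * inner ℝ a b
  rw [inner_zero_left, add_zero, real_inner_smul_left, real_inner_smul_right, ← mul_assoc,
    sqrt_two_inv_sq]

lemma inner_i₂ (a b : F₂) : inner ℝ (i₂ F₁ F₂ a) (i₂ F₁ F₂ b) = (1 / 2) * inner ℝ a b := by
  rw [WithLp.prod_inner_apply]
  show inner ℝ (0 : F₁) 0 + inner ℝ ((√2)⁻¹ • a) ((√2)⁻¹ • b) = (1 / 2) * inner ℝ a b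
  rw [inner_zero_left, zero_add, real_inner_smul_left, real_inner_smul_right, ← mul_assoc,
    sqrt_two_inv_sq]

lemma inner_i₁_i₂ (a : F₁) (b : F₂) : inner ℝ (i₁ F₁ F₂ a) (i₂ F₁ F₂ b) = (0 : ℝ) := by
  rw [WithLp.prod_inner_apply]
  show inner ℝ ((√2)⁻¹ • a) (0 : F₁) + inner ℝ (0 : F₂) ((√2)⁻¹ • b) = (0 : ℝ)
  rw [inner_zero_left, inner_zero_right, add_zero]

lemma i₁_ne {a : F₁} (h : a ≠ 0) : i₁ F₁ F₂ a ≠ 0 := by
  intro h1
  have h2 := inner_i₁ (F₂ := F₂) a a
  rw [h1, inner_zero_left] at h2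
  have h3 : inner ℝ a a = (0 : ℝ) := by linarith
  exact h (inner_self_eq_zero.mp h3)

lemma i₂_ne {a : F₂} (h : a ≠ 0) : i₂ F₁ F₂ a ≠ 0 := by
  intro h1
  have h2 := inner_i₂ (F₁ := F₁) a a
  rw [h1, inner_zero_left] at h2
  have h3 : inner ℝ a a = (0 : ℝ) := by linarith
  exact h (inner_self_eq_zero.mp h3)

/-- a value on the labels of the sum -/
def onLab {m n : ℕ} {M : Type} (f : Fin m → M) (g : Fin n → M) (a : Fin (m + n)) : M :=
  Sum.elim f g (finSumFinEquiv.symm a)

lemma onLab_inl {m n : ℕ} {M : Type} (f : Fin m → M) (g : Fin n → M) (a : Fin m) :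
    onLab f g (finSumFinEquiv (Sum.inl a)) = f a := by
  unfold onLab
  rw [Equiv.symm_apply_apply]
  rfl

lemma onLab_inr {m n : ℕ} {M : Type} (f : Fin m → M) (g : Fin n → M) (a : Fin n) :
    onLab f g (finSumFinEquiv (Sum.inr a)) = g a := by
  unfold onLab
  rw [Equiv.symm_apply_apply]
  rfl

/-- The sum of two games with perfect semidefinite solutions, fibres of sizes depending only on
the vertex and coprime numbers of labels is accepted by the combined relaxation. -/
theorem sum_sda {m n : ℕ} {G : Game m} {H : Game n} [FiniteDimensional ℝ F₁]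
    [FiniteDimensional ℝ F₂] (p₁ : Perf G F₁) (p₂ : Perf H F₂) {s t : ℤ}
    (hst : (m : ℤ) * s + (n : ℤ) * t = 1) : ∃ N, Nonempty ((G.sum H).SDASolution N) := by
  have hfd : FiniteDimensional ℝ (WithLp 2 (F₁ × F₂)) := by infer_instance
  refine nonempty_sda (G.sum H) (F := WithLp 2 (F₁ × F₂))
    (i₁ F₁ F₂ p₁.x₀ + i₂ F₁ F₂ p₂.x₀)
    (fun u => onLab (fun a => i₁ F₁ F₂ (p₁.x u.1 a)) (fun b => i₂ F₁ F₂ (p₂.x u.2 b)))
    (fun v => onLab (fun a => i₁ F₁ F₂ (p₁.y v.1 a)) (fun b => i₂ F₁ F₂ (p₂.y v.2 b)))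
    (fun _ => onLab (fun _ => s) (fun _ => t))
    (fun v => onLab (fun a => (p₁.cnt v.1 a : ℤ) * s) (fun b => (p₂.cnt v.2 b : ℤ) * t))
    ?_ ?_ ?_ ?_ ?_ ?_ ?_ ?_
  · have hz : inner ℝ (i₂ F₁ F₂ p₂.x₀) (i₁ F₁ F₂ p₁.x₀) = (0 : ℝ) := by
      rw [real_inner_comm]
      exact inner_i₁_i₂ _ _
    have h : ‖i₁ F₁ F₂ p₁.x₀ + i₂ F₁ F₂ p₂.x₀‖ ^ 2 = 1 := by
      rw [← real_inner_self_eq_norm_sq, inner_add_left, inner_add_right, inner_add_right,
        inner_i₁, inner_i₂, inner_i₁_i₂, hz,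
        real_inner_self_eq_norm_sq, real_inner_self_eq_norm_sq, p₁.norm_x₀, p₂.norm_x₀]
      norm_num
    exact (pow_eq_one_iff_of_nonneg (norm_nonneg _) two_ne_zero).mp h
  · intro u
    rw [sum_labels]
    simp only [onLab_inl, onLab_inr]
    rw [← map_sum, ← map_sum, p₁.sum_x, p₂.sum_x]
  · intro u a a' h
    obtain ⟨s, rfl⟩ := finSumFinEquiv.surjective a
    obtain ⟨s', rfl⟩ := finSumFinEquiv.surjective a'
    rcases s with a | a <;> rcases s' with a' | a' <;> simp only [onLab_inl, onLab_inr]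
    · rw [inner_i₁, p₁.orth, mul_zero]
      rintro rfl
      exact h rfl
    · exact inner_i₁_i₂ _ _
    · rw [real_inner_comm]
      exact inner_i₁_i₂ _ _
    · rw [inner_i₂, p₂.orth, mul_zero]
      rintro rfl
      exact h rfl
  · intro u a
    obtain ⟨s, rfl⟩ := finSumFinEquiv.surjective a
    rcases s with a | a
    · rw [onLab_inl]
      exact i₁_ne (p₁.ne _ _)
    · rw [onLab_inr]
      exact i₂_ne (p₂.ne _ _)
  · rintro ⟨v₁, v₂⟩
    obtain ⟨e₁, rfl⟩ := p₁.surj v₁
    obtain ⟨e₂, rfl⟩ := p₂.surj v₂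
    exact ⟨(e₁, e₂), rfl⟩
  · intro e b
    obtain ⟨s, rfl⟩ := finSumFinEquiv.surjective b
    rcases s with b | b
    · show ∑ a ∈ univ.filter (fun a => sumMap (G.proj e.1) (H.proj e.2) a
        = finSumFinEquiv (Sum.inl b)), onLab (fun a => i₁ F₁ F₂ (p₁.x (G.src e.1) a))
          (fun b => i₂ F₁ F₂ (p₂.x (H.src e.2) b)) a
        = onLab (fun a => i₁ F₁ F₂ (p₁.y (G.tgt e.1) a)) (fun b => i₂ F₁ F₂ (p₂.y (H.tgt e.2) b))
          (finSumFinEquiv (Sum.inl b))
      rw [sum_fibre_inl, onLab_inl]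
      simp only [onLab_inl]
      rw [← map_sum, p₁.marg]
    · show ∑ a ∈ univ.filter (fun a => sumMap (G.proj e.1) (H.proj e.2) a
        = finSumFinEquiv (Sum.inr b)), onLab (fun a => i₁ F₁ F₂ (p₁.x (G.src e.1) a))
          (fun b => i₂ F₁ F₂ (p₂.x (H.src e.2) b)) a
        = onLab (fun a => i₁ F₁ F₂ (p₁.y (G.tgt e.1) a)) (fun b => i₂ F₁ F₂ (p₂.y (H.tgt e.2) b))
          (finSumFinEquiv (Sum.inr b))
      rw [sum_fibre_inr, onLab_inr]
      simp only [onLab_inr]
      rw [← map_sum, p₂.marg]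
  · intro u
    rw [sum_labels]
    simp only [onLab_inl, onLab_inr, sum_const, card_univ, Fintype.card_fin, nsmul_eq_mul]
    exact hst
  · intro e b
    obtain ⟨r, rfl⟩ := finSumFinEquiv.surjective b
    rcases r with b | b
    · show ∑ a ∈ univ.filter (fun a => sumMap (G.proj e.1) (H.proj e.2) a
        = finSumFinEquiv (Sum.inl b)), onLab (fun _ => s) (fun _ => t) a
        = onLab (fun a => (p₁.cnt (G.tgt e.1) a : ℤ) * s) (fun b => (p₂.cnt (H.tgt e.2) b : ℤ) * t)
          (finSumFinEquiv (Sum.inl b))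
      rw [sum_fibre_inl, onLab_inl]
      simp only [onLab_inl, sum_const, nsmul_eq_mul, p₁.card]
    · show ∑ a ∈ univ.filter (fun a => sumMap (G.proj e.1) (H.proj e.2) a
        = finSumFinEquiv (Sum.inr b)), onLab (fun _ => s) (fun _ => t) a
        = onLab (fun a => (p₁.cnt (G.tgt e.1) a : ℤ) * s) (fun b => (p₂.cnt (H.tgt e.2) b : ℤ) * t)
          (finSumFinEquiv (Sum.inr b))
      rw [sum_fibre_inr, onLab_inr]
      simp only [onLab_inr, sum_const, nsmul_eq_mul, p₂.card]

end embed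

end SDA

end Pool.Agent.MP_ec946a
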