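import Mathlib
import Pool.Agent.Lib.MP_ec946a_sda.Sum

/-!
# Rounding the semidefinite relaxation on expanding 2-to-1 games
-/

set_option autoImplicit false

namespace Pool.Agent.MP_ec946a

open Finset

/-- All but at most `m` of the singular values of the bipartite graph of the game (every edge has
the same weight) are at most `σ`: there are `m` functions of the end in `U` such that the
correlation of a function of the end in `U` which is orthogonal to all of them and a function of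
the end in `V` is at most `σ`.  The constant functions give the singular value one. -/
def Game.Expands {q : ℕ} (G : Game q) (m : ℕ) (σ : ℝ) : Prop :=
  ∃ φ : Fin m → G.U → ℝ, ∀ (f : G.U → ℝ) (g : G.V → ℝ),
    (∀ i, ∑ e, f (G.src e) * φ i (G.src e) = 0) →
    ∑ e, f (G.src e) * g (G.tgt e)
      ≤ σ * (√(∑ e, f (G.src e) ^ 2) * √(∑ e, g (G.tgt e) ^ 2))

namespace SDA

variable {q : ℕ}

/-- fractional labelings satisfy at most the value -/
lemma frac_le_value (G : Game q) (A : G.U → Fin q → ℝ) (B : G.V → Fin q → ℝ)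
    (hA0 : ∀ u a, 0 ≤ A u a) (hA1 : ∀ u, ∑ a, A u a ≤ 1)
    (hB0 : ∀ v b, 0 ≤ B v b) (hB1 : ∀ v, ∑ b, B v b ≤ 1) (hq : 0 < q) :
    ∑ e, ∑ a, A (G.src e) a * B (G.tgt e) (G.proj e a) ≤ G.value * (Nat.card G.E : ℝ) := by
  classical
  have hne : Nonempty (Fin q) := ⟨⟨0, hq⟩⟩
  -- the scores of the labels of `U`
  let sc : G.U → Fin q → ℝ := fun u a => ∑ e ∈ univ.filter (fun e => G.src e = u),
    B (G.tgt e) (G.proj e a)
  have hex : ∀ u, ∃ a, ∀ a', sc u a' ≤ sc u a := fun u => Finite.exists_max (sc u)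
  choose LU hLU using hex
  let ct : G.V → Fin q → ℝ := fun v b => ∑ e ∈ univ.filter (fun e => G.tgt e = v),
    if G.proj e (LU (G.src e)) = b then (1 : ℝ) else 0
  have hex2 : ∀ v, ∃ b, ∀ b', ct v b' ≤ ct v b := fun v => Finite.exists_max (ct v)
  choose LV hLV using hex2
  have hsc0 : ∀ u a, 0 ≤ sc u a := fun u a => sum_nonneg fun e _ => hB0 _ _
  have hct0 : ∀ v b, 0 ≤ ct v b := fun v b => sum_nonneg fun e _ => by split_ifs <;> norm_num
  have h1 : ∑ e, ∑ a, A (G.src e) a * B (G.tgt e) (G.proj e a)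
      ≤ ∑ e, B (G.tgt e) (G.proj e (LU (G.src e))) := by
    rw [← sum_fiberwise univ G.src fun e => ∑ a, A (G.src e) a * B (G.tgt e) (G.proj e a),
      ← sum_fiberwise univ G.src fun e => B (G.tgt e) (G.proj e (LU (G.src e)))]
    refine sum_le_sum fun u _ => ?_
    have e1 : ∑ e ∈ univ.filter (fun e => G.src e = u),
        ∑ a, A (G.src e) a * B (G.tgt e) (G.proj e a) = ∑ a, A u a * sc u a := by
      rw [sum_comm]
      refine sum_congr rfl fun a _ => ?_
      rw [mul_sum]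
      refine sum_congr rfl fun e he => ?_
      rw [(mem_filter.mp he).2]
    have e2 : ∑ e ∈ univ.filter (fun e => G.src e = u), B (G.tgt e) (G.proj e (LU (G.src e)))
        = sc u (LU u) := by
      refine sum_congr rfl fun e he => ?_
      rw [(mem_filter.mp he).2]
    rw [e1, e2]
    calc ∑ a, A u a * sc u a ≤ ∑ a, A u a * sc u (LU u) :=
          sum_le_sum fun a _ => mul_le_mul_of_nonneg_left (hLU u a) (hA0 u a)
      _ = (∑ a, A u a) * sc u (LU u) := by rw [sum_mul]
      _ ≤ 1 * sc u (LU u) := mul_le_mul_of_nonneg_right (hA1 u) (hsc0 _ _)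
      _ = sc u (LU u) := one_mul _
  have h2 : ∑ e, B (G.tgt e) (G.proj e (LU (G.src e)))
      ≤ ∑ e, if G.proj e (LU (G.src e)) = LV (G.tgt e) then (1 : ℝ) else 0 := by
    rw [← sum_fiberwise univ G.tgt fun e => B (G.tgt e) (G.proj e (LU (G.src e))),
      ← sum_fiberwise univ G.tgt fun e =>
        if G.proj e (LU (G.src e)) = LV (G.tgt e) then (1 : ℝ) else 0]
    refine sum_le_sum fun v _ => ?_
    have e1 : ∑ e ∈ univ.filter (fun e => G.tgt e = v), B (G.tgt e) (G.proj e (LU (G.src e)))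
        = ∑ b, B v b * ct v b := by
      have e3 : ∀ e ∈ univ.filter (fun e => G.tgt e = v), B (G.tgt e) (G.proj e (LU (G.src e)))
          = ∑ b, B v b * if G.proj e (LU (G.src e)) = b then (1 : ℝ) else 0 := by
        intro e he
        rw [(mem_filter.mp he).2]
        simp
      rw [sum_congr rfl e3, sum_comm]
      refine sum_congr rfl fun b _ => ?_
      rw [mul_sum]
    have e2 : ∑ e ∈ univ.filter (fun e => G.tgt e = v),
        (if G.proj e (LU (G.src e)) = LV (G.tgt e) then (1 : ℝ) else 0) = ct v (LV v) := by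
      refine sum_congr rfl fun e he => ?_
      rw [(mem_filter.mp he).2]
    rw [e1, e2]
    calc ∑ b, B v b * ct v b ≤ ∑ b, B v b * ct v (LV v) :=
          sum_le_sum fun b _ => mul_le_mul_of_nonneg_left (hLV v b) (hB0 v b)
      _ = (∑ b, B v b) * ct v (LV v) := by rw [sum_mul]
      _ ≤ 1 * ct v (LV v) := mul_le_mul_of_nonneg_right (hB1 v) (hct0 _ _)
      _ = ct v (LV v) := one_mul _
  have h3 : ∑ e, (if G.proj e (LU (G.src e)) = LV (G.tgt e) then (1 : ℝ) else 0)
      = (Nat.card (G.satisfied LU LV) : ℝ) := by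
    rw [natcard_set, card_filter]
    push_cast
    refine sum_congr rfl fun e _ => ?_
    by_cases h : G.proj e (LU (G.src e)) = LV (G.tgt e)
    · rw [if_pos h, if_pos (show e ∈ G.satisfied LU LV from h)]
    · rw [if_neg h, if_neg (show e ∉ G.satisfied LU LV from h)]
  rw [h3] at h2
  exact (h1.trans h2).trans (sat_le G LU LV)

/-- an orthonormal family of functions in place of `φ` -/
lemma exists_onb {G : Game q} {m : ℕ} {σ : ℝ} (hG : G.Expands m σ) :
    ∃ (r : ℕ) (ψ : Fin r → G.U → ℝ), r ≤ m ∧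
      (∀ i j, ∑ e, ψ i (G.src e) * ψ j (G.src e) = if i = j then (1 : ℝ) else 0) ∧
      ∀ (f : G.U → ℝ) (g : G.V → ℝ), (∀ i, ∑ e, f (G.src e) * ψ i (G.src e) = 0) →
        ∑ e, f (G.src e) * g (G.tgt e)
          ≤ σ * (√(∑ e, f (G.src e) ^ 2) * √(∑ e, g (G.tgt e) ^ 2)) := by
  classical
  obtain ⟨φ, hφ⟩ := hG
  let ι : (G.U → ℝ) →ₗ[ℝ] EuclideanSpace ℝ G.E :=
    { toFun := fun f => WithLp.toLp 2 fun e => f (G.src e)
      map_add' := fun f g => rfl
      map_smul' := fun c f => rfl }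
  have hι : ∀ f g : G.U → ℝ, inner ℝ (ι f) (ι g) = ∑ e, f (G.src e) * g (G.src e) := by
    intro f g
    rw [PiLp.inner_apply]
    refine sum_congr rfl fun e _ => ?_
    rw [RCLike.inner_apply, conj_trivial, mul_comm]
    rfl
  set S : Submodule ℝ (EuclideanSpace ℝ G.E) :=
    Submodule.span ℝ (Set.range fun i => ι (φ i)) with hS
  have hr : Module.finrank ℝ S ≤ m := by
    have := finrank_range_le_card (R := ℝ) (b := fun i => ι (φ i))
    rwa [Fintype.card_fin] at this
  let b := stdOrthonormalBasis ℝ S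
  have hle : S ≤ LinearMap.range ι := by
    rw [hS, Submodule.span_le]
    rintro _ ⟨i, rfl⟩
    exact ⟨φ i, rfl⟩
  have hex : ∀ j, ∃ f : G.U → ℝ, ι f = (b j : EuclideanSpace ℝ G.E) := fun j => hle (b j).2
  choose ψ hψ using hex
  refine ⟨Module.finrank ℝ S, ψ, hr, ?_, ?_⟩
  · intro i j
    rw [← hι, hψ, hψ, ← Submodule.coe_inner, b.inner_eq_ite]
  · intro f g hf
    refine hφ f g fun i => ?_
    rw [← hι]
    have hmem : ι (φ i) ∈ S := Submodule.subset_span ⟨i, rfl⟩
    have h1 := b.sum_repr ⟨ι (φ i), hmem⟩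
    have h2 : ι (φ i) = ∑ j, b.repr ⟨ι (φ i), hmem⟩ j • (b j : EuclideanSpace ℝ G.E) := by
      have h3 := congrArg (Subtype.val) h1
      rw [AddSubmonoidClass.coe_finsetSum] at h3
      exact h3.symm
    rw [h2, inner_sum]
    refine sum_eq_zero fun j _ => ?_
    rw [inner_smul_right, ← hψ, hι, hf j, mul_zero]

section kernel

variable {G : Game q} {r : ℕ} (ψ : Fin r → G.U → ℝ)

/-- the kernel of the projection -/
def kern (e' e : G.E) : ℝ := ∑ j, ψ j (G.src e') * ψ j (G.src e)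

lemma kern_sq (h : ∀ i j, ∑ e, ψ i (G.src e) * ψ j (G.src e) = if i = j then (1 : ℝ) else 0) :
    ∑ e', ∑ e, kern ψ e' e ^ 2 = (r : ℝ) := by
  have h1 : ∀ e' e, kern ψ e' e ^ 2 = ∑ i, ∑ j, (ψ i (G.src e') * ψ j (G.src e'))
      * (ψ i (G.src e) * ψ j (G.src e)) := by
    intro e' e
    rw [sq]
    unfold kern
    rw [sum_mul_sum]
    refine sum_congr rfl fun i _ => sum_congr rfl fun j _ => ?_
    ring
  have h2 : ∑ e', ∑ e, kern ψ e' e ^ 2 = ∑ i, ∑ j, (∑ e', ψ i (G.src e') * ψ j (G.src e'))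
      * (∑ e, ψ i (G.src e) * ψ j (G.src e)) := by
    simp only [h1, sum_mul_sum]
    rw [sum_congr rfl fun e' _ => sum_comm]
    rw [sum_comm]
    refine sum_congr rfl fun i _ => ?_
    rw [sum_congr rfl fun e' _ => sum_comm]
    rw [sum_comm]
  rw [h2]
  simp only [h, mul_ite, mul_one, mul_zero]
  simp

/-- the projection of a function -/
def prc (f : G.U → ℝ) (u : G.U) : ℝ := ∑ j, ψ j u * ∑ e', ψ j (G.src e') * f (G.src e')

lemma prc_eq (f : G.U → ℝ) (e : G.E) : prc ψ f (G.src e) = ∑ e', kern ψ e' e * f (G.src e') := by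
  unfold prc kern
  simp only [mul_sum, sum_mul]
  rw [sum_comm]
  refine sum_congr rfl fun e' _ => sum_congr rfl fun j _ => ?_
  ring

lemma prc_orth (h : ∀ i j, ∑ e, ψ i (G.src e) * ψ j (G.src e) = if i = j then (1 : ℝ) else 0)
    (f : G.U → ℝ) (i : Fin r) :
    ∑ e, prc ψ f (G.src e) * ψ i (G.src e) = ∑ e, ψ i (G.src e) * f (G.src e) := by
  have h1 : ∀ e, prc ψ f (G.src e) * ψ i (G.src e)
      = ∑ j, (ψ j (G.src e) * ψ i (G.src e)) * ∑ e', ψ j (G.src e') * f (G.src e') := by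
    intro e
    unfold prc
    rw [sum_mul]
    exact sum_congr rfl fun j _ => by ring
  simp only [h1]
  rw [sum_comm]
  simp only [← sum_mul, h]
  simp

lemma prc_pyth (h : ∀ i j, ∑ e, ψ i (G.src e) * ψ j (G.src e) = if i = j then (1 : ℝ) else 0)
    (f : G.U → ℝ) :
    ∑ e, f (G.src e) ^ 2
      = ∑ e, prc ψ f (G.src e) ^ 2 + ∑ e, (f (G.src e) - prc ψ f (G.src e)) ^ 2 := by
  have h1 : ∑ e, prc ψ f (G.src e) * (f (G.src e) - prc ψ f (G.src e)) = 0 := by
    have h2 : ∀ e, prc ψ f (G.src e) * (f (G.src e) - prc ψ f (G.src e))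
        = ∑ j, (ψ j (G.src e) * f (G.src e) - prc ψ f (G.src e) * ψ j (G.src e))
          * ∑ e', ψ j (G.src e') * f (G.src e') := by
      intro e
      conv_lhs => rw [show prc ψ f (G.src e)
        = ∑ j, ψ j (G.src e) * ∑ e', ψ j (G.src e') * f (G.src e') from rfl, sum_mul]
      refine sum_congr rfl fun j _ => ?_
      rw [show (∑ j, ψ j (G.src e) * ∑ e', ψ j (G.src e') * f (G.src e'))
        = prc ψ f (G.src e) from rfl]
      ring
    simp only [h2]
    rw [sum_comm]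
    refine sum_eq_zero fun j _ => ?_
    rw [← sum_mul, sum_sub_distrib, prc_orth ψ h, sub_self, zero_mul]
  have h2 : ∀ e, f (G.src e) ^ 2 = prc ψ f (G.src e) ^ 2
      + (f (G.src e) - prc ψ f (G.src e)) ^ 2
      + 2 * (prc ψ f (G.src e) * (f (G.src e) - prc ψ f (G.src e))) := fun e => by ring
  rw [sum_congr rfl fun e _ => h2 e, sum_add_distrib, sum_add_distrib, ← mul_sum, h1]
  ring

end kernel

/-- expansion for functions with several components -/
lemma expands_vec {G : Game q} {σ : ℝ} (hσ : 0 ≤ σ) {r : ℕ} {ψ : Fin r → G.U → ℝ}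
    (h : ∀ i j, ∑ e, ψ i (G.src e) * ψ j (G.src e) = if i = j then (1 : ℝ) else 0)
    (hG : ∀ (f : G.U → ℝ) (g : G.V → ℝ), (∀ i, ∑ e, f (G.src e) * ψ i (G.src e) = 0) →
        ∑ e, f (G.src e) * g (G.tgt e)
          ≤ σ * (√(∑ e, f (G.src e) ^ 2) * √(∑ e, g (G.tgt e) ^ 2)))
    {ι : Type} [Fintype ι] (F : G.U → ι → ℝ) (H : G.V → ι → ℝ) :
    ∑ e, ∑ i, F (G.src e) i * H (G.tgt e) i
      ≤ ∑ e, ∑ i, prc ψ (fun u => F u i) (G.src e) * H (G.tgt e) i
        + σ * (√(∑ e, ∑ i, F (G.src e) i ^ 2) * √(∑ e, ∑ i, H (G.tgt e) i ^ 2)) := by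
  have h1 : ∀ i, ∑ e, (F (G.src e) i - prc ψ (fun u => F u i) (G.src e)) * H (G.tgt e) i
      ≤ σ * (√(∑ e, F (G.src e) i ^ 2) * √(∑ e, H (G.tgt e) i ^ 2)) := by
    intro i
    have h2 := hG (fun u => F u i - prc ψ (fun u => F u i) u) (fun v => H v i) (by
      intro j
      have h3 : ∀ e, (F (G.src e) i - prc ψ (fun u => F u i) (G.src e)) * ψ j (G.src e)
          = ψ j (G.src e) * F (G.src e) i
            - prc ψ (fun u => F u i) (G.src e) * ψ j (G.src e) := fun e => by ring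
      rw [sum_congr rfl fun e _ => h3 e, sum_sub_distrib, prc_orth ψ h, sub_self])
    refine h2.trans (mul_le_mul_of_nonneg_left ?_ hσ)
    refine mul_le_mul_of_nonneg_right (Real.sqrt_le_sqrt ?_) (Real.sqrt_nonneg _)
    rw [prc_pyth ψ h fun u => F u i]
    have : 0 ≤ ∑ e, prc ψ (fun u => F u i) (G.src e) ^ 2 := sum_nonneg fun _ _ => sq_nonneg _
    linarith
  have h2 : ∑ e, ∑ i, F (G.src e) i * H (G.tgt e) i
      = ∑ e, ∑ i, prc ψ (fun u => F u i) (G.src e) * H (G.tgt e) i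
        + ∑ i, ∑ e, (F (G.src e) i - prc ψ (fun u => F u i) (G.src e)) * H (G.tgt e) i := by
    rw [sum_comm (s := univ) (t := univ)
      (f := fun i e => (F (G.src e) i - prc ψ (fun u => F u i) (G.src e)) * H (G.tgt e) i),
      ← sum_add_distrib]
    refine sum_congr rfl fun e _ => ?_
    rw [← sum_add_distrib]
    refine sum_congr rfl fun i _ => ?_
    ring
  rw [h2]
  refine add_le_add le_rfl ((sum_le_sum fun i _ => h1 i).trans ?_)
  rw [← mul_sum]
  refine mul_le_mul_of_nonneg_left ?_ hσ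
  have h3 := Real.sum_sqrt_mul_sqrt_le (s := univ)
    (f := fun i => ∑ e, F (G.src e) i ^ 2) (g := fun i => ∑ e, H (G.tgt e) i ^ 2)
    (fun i => sum_nonneg fun e _ => sq_nonneg _) (fun i => sum_nonneg fun e _ => sq_nonneg _)
  refine h3.trans (le_of_eq ?_)
  rw [sum_comm, sum_comm (f := fun i e => H (G.tgt e) i ^ 2)]

end SDA

end Pool.Agent.MP_ec946a
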