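import Mathlib
import Pool.Agent.Lib.MP_ec946a_sda.Round

/-!
# Cubic tensors of orthogonal vectors
-/

set_option autoImplicit false

namespace Pool.Agent.MP_ec946a.SDA

open Finset

variable {n q : ℕ}

/-- the space of the vectors -/
abbrev EE (n : ℕ) : Type := EuclideanSpace ℝ (Fin n)

/-- the tensor of three vectors -/
def tri (a b c : EE n) (t : Fin n × Fin n × Fin n) : ℝ := a t.1 * (b t.2.1 * c t.2.2)

lemma inner_EE (a a' : EE n) : inner ℝ a a' = ∑ i, a i * a' i := by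
  rw [PiLp.inner_apply]
  refine sum_congr rfl fun i _ => ?_
  rw [RCLike.inner_apply, conj_trivial, mul_comm]

lemma sum_tri (a b c a' b' c' : EE n) :
    ∑ t, tri a b c t * tri a' b' c' t = inner ℝ a a' * (inner ℝ b b' * inner ℝ c c') := by
  rw [inner_EE, inner_EE, inner_EE, Fintype.sum_prod_type, sum_mul]
  refine sum_congr rfl fun i _ => ?_
  rw [Fintype.sum_prod_type, sum_mul_sum, mul_sum]
  refine sum_congr rfl fun j _ => ?_
  rw [mul_sum]
  refine sum_congr rfl fun l _ => ?_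
  show a i * (b j * c l) * (a' i * (b' j * c' l)) = _
  ring

/-- the normalised vector -/
noncomputable def nrm (x : EE n) : EE n := ‖x‖⁻¹ • x

lemma norm_smul_nrm (x : EE n) : ‖x‖ • nrm x = x := by
  unfold nrm
  by_cases h : x = 0
  · rw [h]
    simp
  · rw [smul_smul, mul_inv_cancel₀ (norm_ne_zero_iff.mpr h), one_smul]

lemma inner_nrm_self (x : EE n) : inner ℝ (nrm x) (nrm x) = if x = 0 then (0 : ℝ) else 1 := by
  unfold nrm
  split_ifs with h
  · rw [h]
    simp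
  · rw [real_inner_smul_left, real_inner_smul_right, real_inner_self_eq_norm_sq]
    have := norm_ne_zero_iff.mpr h
    field_simp

lemma inner_nrm_self_le (x : EE n) : inner ℝ (nrm x) (nrm x) ≤ (1 : ℝ) := by
  rw [inner_nrm_self]
  split_ifs <;> norm_num

lemma inner_nrm_self_nonneg (x : EE n) : (0 : ℝ) ≤ inner ℝ (nrm x) (nrm x) :=
  real_inner_self_nonneg

lemma norm_mul_inner_nrm (x : EE n) : ‖x‖ * inner ℝ (nrm x) (nrm x) = ‖x‖ := by
  rw [inner_nrm_self]
  split_ifs with h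
  · rw [h]
    simp
  · rw [mul_one]

lemma norm_nrm_le (x : EE n) : ‖nrm x‖ ^ 2 ≤ 1 := by
  rw [← real_inner_self_eq_norm_sq]
  exact inner_nrm_self_le x

lemma inner_nrm_eq (x y : EE n) : inner ℝ x y = ‖x‖ * (‖y‖ * inner ℝ (nrm x) (nrm y)) := by
  conv_lhs => rw [← norm_smul_nrm x, ← norm_smul_nrm y]
  rw [real_inner_smul_left, real_inner_smul_right]

lemma inner_nrm_nonneg {x y : EE n} (h : 0 ≤ inner ℝ x y) :
    (0 : ℝ) ≤ inner ℝ (nrm x) (nrm y) := by
  unfold nrm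
  rw [real_inner_smul_left, real_inner_smul_right]
  have h1 : (0 : ℝ) ≤ ‖x‖⁻¹ := by positivity
  have h2 : (0 : ℝ) ≤ ‖y‖⁻¹ := by positivity
  exact mul_nonneg h1 (mul_nonneg h2 h)

/-- the vectors are pairwise orthogonal -/
def Orth (z : Fin q → EE n) : Prop := ∀ a a', a ≠ a' → inner ℝ (z a) (z a') = 0

lemma Orth.nrm {z : Fin q → EE n} (h : Orth z) {a a' : Fin q} (ha : a ≠ a') :
    inner ℝ (nrm (z a)) (nrm (z a')) = (0 : ℝ) := by
  unfold SDA.nrm
  rw [real_inner_smul_left, real_inner_smul_right, h a a' ha, mul_zero, mul_zero]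

lemma Orth.norm_sum {z : Fin q → EE n} (h : Orth z) (S : Finset (Fin q)) :
    inner ℝ (∑ a ∈ S, z a) (∑ a ∈ S, z a) = ∑ a ∈ S, ‖z a‖ ^ 2 := by
  rw [sum_inner]
  refine sum_congr rfl fun a ha => ?_
  rw [inner_sum, sum_eq_single_of_mem a ha, real_inner_self_eq_norm_sq]
  intro b _ hb
  exact h a b (Ne.symm hb)

/-- the inequality of Bessel -/
lemma Orth.bessel {z : Fin q → EE n} (h : Orth z) (v : EE n) :
    ∑ a, inner ℝ (SDA.nrm (z a)) v ^ 2 ≤ ‖v‖ ^ 2 := by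
  set P : EE n := ∑ a, (inner ℝ (SDA.nrm (z a)) v : ℝ) • SDA.nrm (z a) with hP
  have h0 : (0 : ℝ) ≤ inner ℝ (v - P) (v - P) := real_inner_self_nonneg
  have h1 : inner ℝ v P = ∑ a, inner ℝ (SDA.nrm (z a)) v ^ 2 := by
    rw [hP, inner_sum]
    refine sum_congr rfl fun a _ => ?_
    rw [real_inner_smul_right, real_inner_comm, sq]
  have h2 : inner ℝ P P ≤ ∑ a, inner ℝ (SDA.nrm (z a)) v ^ 2 := by
    conv_lhs => rw [hP]
    rw [sum_inner]
    refine sum_le_sum fun a _ => ?_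
    rw [inner_sum, sum_eq_single_of_mem a (mem_univ _)]
    · rw [real_inner_smul_left, real_inner_smul_right]
      have h3 := inner_nrm_self_le (z a)
      nlinarith [sq_nonneg (inner ℝ (SDA.nrm (z a)) v : ℝ)]
    · intro b _ hb
      rw [real_inner_smul_left, real_inner_smul_right, h.nrm (Ne.symm hb), mul_zero, mul_zero]
  rw [inner_sub_left, inner_sub_right, inner_sub_right, real_inner_self_eq_norm_sq,
    real_inner_comm v P] at h0
  have h3 : inner ℝ P v = inner ℝ v P := real_inner_comm _ _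
  rw [h1] at h0
  linarith

/-- the cubic tensor of a family -/
noncomputable def cube (z : Fin q → EE n) (t : Fin n × Fin n × Fin n) : ℝ :=
  ∑ a, ‖z a‖ * tri (nrm (z a)) (nrm (z a)) (nrm (z a)) t

lemma cube_eq (z : Fin q → EE n) (t : Fin n × Fin n × Fin n) :
    cube z t = ∑ a, tri (z a) (nrm (z a)) (nrm (z a)) t := by
  unfold cube
  refine sum_congr rfl fun a _ => ?_
  unfold tri
  have h : z a t.1 = ‖z a‖ * nrm (z a) t.1 := by
    conv_lhs => rw [← norm_smul_nrm (z a)]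
    rfl
  rw [h]
  ring

/-- sums of products of sums of tensors -/
lemma sum_mul_sum_tri {ι κ : Type} (S : Finset ι) (T : Finset κ) (f : ι → ℝ) (g : κ → ℝ)
    (a b c : ι → EE n) (a' b' c' : κ → EE n) :
    ∑ t, (∑ i ∈ S, f i * tri (a i) (b i) (c i) t) * (∑ j ∈ T, g j * tri (a' j) (b' j) (c' j) t)
      = ∑ i ∈ S, ∑ j ∈ T, f i * g j
        * (inner ℝ (a i) (a' j) * (inner ℝ (b i) (b' j) * inner ℝ (c i) (c' j))) := by
  simp only [sum_mul_sum]
  rw [sum_comm]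
  refine sum_congr rfl fun i _ => ?_
  rw [sum_comm]
  refine sum_congr rfl fun j _ => ?_
  rw [← sum_tri, mul_sum]
  exact sum_congr rfl fun t _ => by ring

lemma cube_sq {z : Fin q → EE n} (h : Orth z) : ∑ t, cube z t ^ 2 = ∑ a, ‖z a‖ ^ 2 := by
  have h1 : ∀ t, cube z t ^ 2 = cube z t * cube z t := fun t => sq _
  rw [sum_congr rfl fun t _ => h1 t]
  unfold cube
  rw [sum_mul_sum_tri]
  refine sum_congr rfl fun a _ => ?_
  rw [sum_eq_single_of_mem a (mem_univ _)]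
  · have h2 := norm_mul_inner_nrm (z a)
    set r : ℝ := inner ℝ (nrm (z a)) (nrm (z a))
    have h3 : ‖z a‖ * ‖z a‖ * (r * (r * r)) = (‖z a‖ * r) * ((‖z a‖ * r) * r) := by ring
    rw [h3, h2]
    have h4 : ‖z a‖ * (‖z a‖ * r) = ‖z a‖ * ‖z a‖ := by rw [h2]
    rw [h4, sq]
  · intro b _ hb
    rw [h.nrm (Ne.symm hb), zero_mul, mul_zero]

lemma amgm3 {A B D m : ℝ} (hA : 0 ≤ A) (hB : 0 ≤ B) (hD : 0 ≤ D) (hm : 0 ≤ m)
    (h : A * B * D = m ^ 3) : 3 * m ≤ A + B + D := by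
  have h1 : (3 * m) ^ 3 ≤ (A + B + D) ^ 3 := by
    have h2 : (3 * m) ^ 3 = 27 * (A * B * D) := by rw [h]; ring
    rw [h2]
    nlinarith [mul_nonneg hA (sq_nonneg (B - D)), mul_nonneg hB (sq_nonneg (A - D)),
      mul_nonneg hD (sq_nonneg (A - B)), mul_nonneg hA (sq_nonneg (A - B)),
      mul_nonneg hA (sq_nonneg (A - D)), mul_nonneg hB (sq_nonneg (B - A)),
      mul_nonneg hB (sq_nonneg (B - D)), mul_nonneg hD (sq_nonneg (D - A)),
      mul_nonneg hD (sq_nonneg (D - B))]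
  exact (pow_le_pow_iff_left₀ (by positivity) (by positivity) (by norm_num)).mp h1

lemma edge_term {P S κ C : ℝ} (hP : 0 ≤ P) (hS : 0 ≤ S) (hκ : 0 ≤ κ) (hC : 0 ≤ C) :
    3 / 2 * C ^ 2 * (P * (S * κ)) ≤ P * S * κ ^ 3 + C ^ 3 / 2 * P ^ 2 + C ^ 3 / 4 * S ^ 2 := by
  have h := amgm3 (A := P * S * κ ^ 3) (B := C ^ 3 / 2 * P ^ 2) (D := C ^ 3 / 4 * S ^ 2)
    (m := C ^ 2 * P * S * κ / 2) (by positivity) (by positivity) (by positivity) (by positivity)
    (by ring)
  linarith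

/-- the scalar product of the cubic tensors of the ends of an edge -/
lemma edge_ineq {x y : Fin q → EE n}
    (hxs : ∑ a, ‖x a‖ ^ 2 = 1) (hys : ∑ b, ‖y b‖ ^ 2 = 1) (π : Fin q → Fin q)
    (hπ : ∀ b, (univ.filter fun a => π a = b).card ≤ 2)
    (hnn : ∀ a b, 0 ≤ inner ℝ (x a) (y b)) {C : ℝ} (hC : 0 ≤ C) :
    3 / 2 * C ^ 2 * (∑ a, inner ℝ (x a) (y (π a))) - C ^ 3 ≤ ∑ t, cube x t * cube y t := by
  have h1 : ∑ t, cube x t * cube y t = ∑ a, ∑ b, ‖x a‖ * ‖y b‖
      * (inner ℝ (nrm (x a)) (nrm (y b)) * (inner ℝ (nrm (x a)) (nrm (y b))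
        * inner ℝ (nrm (x a)) (nrm (y b)))) := by
    unfold cube
    exact sum_mul_sum_tri _ _ _ _ _ _ _ _ _ _
  rw [h1]
  have h2 : ∀ a, ‖x a‖ * ‖y (π a)‖ * inner ℝ (nrm (x a)) (nrm (y (π a))) ^ 3
      ≤ ∑ b, ‖x a‖ * ‖y b‖
      * (inner ℝ (nrm (x a)) (nrm (y b)) * (inner ℝ (nrm (x a)) (nrm (y b))
        * inner ℝ (nrm (x a)) (nrm (y b)))) := by
    intro a
    have h3 := single_le_sum (s := (univ : Finset (Fin q))) (f := fun b => ‖x a‖ * ‖y b‖
      * (inner ℝ (nrm (x a)) (nrm (y b)) * (inner ℝ (nrm (x a)) (nrm (y b))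
        * inner ℝ (nrm (x a)) (nrm (y b))))) (fun b _ => by
          have := inner_nrm_nonneg (hnn a b)
          positivity) (mem_univ (π a))
    refine le_trans (le_of_eq ?_) h3
    ring
  refine le_trans ?_ (sum_le_sum fun a _ => h2 a)
  have h3 : ∀ a, 3 / 2 * C ^ 2 * inner ℝ (x a) (y (π a))
      ≤ ‖x a‖ * ‖y (π a)‖ * inner ℝ (nrm (x a)) (nrm (y (π a))) ^ 3
        + C ^ 3 / 2 * ‖x a‖ ^ 2 + C ^ 3 / 4 * ‖y (π a)‖ ^ 2 := by
    intro a
    rw [inner_nrm_eq (x a) (y (π a))]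
    exact edge_term (norm_nonneg _) (norm_nonneg _) (inner_nrm_nonneg (hnn a _)) hC
  have h4 : ∑ a, ‖y (π a)‖ ^ 2 ≤ 2 := by
    have h5 : ∑ a, ‖y (π a)‖ ^ 2
        = ∑ b, ((univ.filter fun a => π a = b).card : ℝ) * ‖y b‖ ^ 2 := by
      rw [← sum_fiberwise univ π fun a => ‖y (π a)‖ ^ 2]
      refine sum_congr rfl fun b _ => ?_
      rw [sum_congr rfl fun a ha => by rw [(mem_filter.mp ha).2], sum_const, nsmul_eq_mul]
    rw [h5]
    have h6 : ∀ b, ((univ.filter fun a => π a = b).card : ℝ) * ‖y b‖ ^ 2 ≤ 2 * ‖y b‖ ^ 2 := by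
      intro b
      refine mul_le_mul_of_nonneg_right ?_ (sq_nonneg _)
      exact_mod_cast hπ b
    refine (sum_le_sum fun b _ => h6 b).trans (le_of_eq ?_)
    rw [← mul_sum, hys, mul_one]
  have h5 := sum_le_sum (s := univ) fun a _ => h3 a
  rw [← mul_sum, sum_add_distrib, sum_add_distrib, ← mul_sum, ← mul_sum, hxs] at h5
  have h6 : C ^ 3 / 4 * ∑ a, ‖y (π a)‖ ^ 2 ≤ C ^ 3 / 4 * 2 :=
    mul_le_mul_of_nonneg_left h4 (by positivity)
  linarith

/-- the mixed tensor of an edge -/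
noncomputable def mix (x y : Fin q → EE n) (π : Fin q → Fin q) (t : Fin n × Fin n × Fin n) : ℝ :=
  ∑ a, tri (x a) (nrm (y (π a))) (nrm (y (π a))) t

lemma mix_sub {x y : Fin q → EE n} (π : Fin q → Fin q) (t : Fin n × Fin n × Fin n) :
    mix x y π t - cube y t
      = ∑ b, (1 : ℝ) * tri ((∑ a ∈ univ.filter (fun a => π a = b), x a) - y b) (nrm (y b))
        (nrm (y b)) t := by
  rw [cube_eq]
  unfold mix
  rw [← sum_fiberwise univ π fun a => tri (x a) (nrm (y (π a))) (nrm (y (π a))) t,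
    ← sum_sub_distrib]
  refine sum_congr rfl fun b _ => ?_
  have h1 : ∑ a ∈ univ.filter (fun a => π a = b), tri (x a) (nrm (y (π a))) (nrm (y (π a))) t
      = ∑ a ∈ univ.filter (fun a => π a = b), tri (x a) (nrm (y b)) (nrm (y b)) t :=
    sum_congr rfl fun a ha => by rw [(mem_filter.mp ha).2]
  rw [h1]
  unfold tri
  rw [← sum_mul, one_mul]
  have h2 : ((∑ a ∈ univ.filter (fun a => π a = b), x a) - y b) t.1
      = ∑ a ∈ univ.filter (fun a => π a = b), x a t.1 - y b t.1 := by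
    show (∑ a ∈ univ.filter (fun a => π a = b), x a) t.1 - y b t.1 = _
    congr 1
    simp only [WithLp.ofLp_sum, Finset.sum_apply]
  rw [h2]
  ring

lemma mix_sub_sq {x y : Fin q → EE n} (hx : Orth x) (hy : Orth y)
    (hxs : ∑ a, ‖x a‖ ^ 2 = 1) (hys : ∑ b, ‖y b‖ ^ 2 = 1) (π : Fin q → Fin q) :
    ∑ t, (mix x y π t - cube y t) ^ 2 ≤ 2 * (1 - ∑ a, inner ℝ (x a) (y (π a))) := by
  have h1 : ∀ t, (mix x y π t - cube y t) ^ 2
      = (∑ b, (1 : ℝ) * tri ((∑ a ∈ univ.filter (fun a => π a = b), x a) - y b) (nrm (y b))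
        (nrm (y b)) t) * (∑ b, (1 : ℝ) * tri ((∑ a ∈ univ.filter (fun a => π a = b), x a) - y b)
        (nrm (y b)) (nrm (y b)) t) := by
    intro t
    rw [mix_sub, sq]
  rw [sum_congr rfl fun t _ => h1 t, sum_mul_sum_tri]
  have h2 : ∀ b, ∑ b', (1 : ℝ) * 1 * (inner ℝ ((∑ a ∈ univ.filter (fun a => π a = b), x a) - y b)
      ((∑ a ∈ univ.filter (fun a => π a = b'), x a) - y b')
        * (inner ℝ (nrm (y b)) (nrm (y b')) * inner ℝ (nrm (y b)) (nrm (y b'))))
      ≤ ∑ a ∈ univ.filter (fun a => π a = b), ‖x a‖ ^ 2 + ‖y b‖ ^ 2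
        - 2 * ∑ a ∈ univ.filter (fun a => π a = b), inner ℝ (x a) (y (π a)) := by
    intro b
    rw [sum_eq_single_of_mem b (mem_univ _)]
    · have h3 : (0 : ℝ) ≤ inner ℝ ((∑ a ∈ univ.filter (fun a => π a = b), x a) - y b)
        ((∑ a ∈ univ.filter (fun a => π a = b), x a) - y b) := real_inner_self_nonneg
      have h4 : inner ℝ ((∑ a ∈ univ.filter (fun a => π a = b), x a) - y b)
          ((∑ a ∈ univ.filter (fun a => π a = b), x a) - y b)
          = ∑ a ∈ univ.filter (fun a => π a = b), ‖x a‖ ^ 2 + ‖y b‖ ^ 2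
        - 2 * ∑ a ∈ univ.filter (fun a => π a = b), inner ℝ (x a) (y (π a)) := by
        rw [inner_sub_left, inner_sub_right, inner_sub_right, hx.norm_sum,
          real_inner_self_eq_norm_sq (y b),
          real_inner_comm (∑ a ∈ univ.filter (fun a => π a = b), x a) (y b), sum_inner]
        have h5 : ∑ a ∈ univ.filter (fun a => π a = b), inner ℝ (x a) (y (π a))
            = ∑ a ∈ univ.filter (fun a => π a = b), inner ℝ (x a) (y b) :=
          sum_congr rfl fun a ha => by rw [(mem_filter.mp ha).2]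
        rw [h5]
        ring
      rw [← h4]
      have h5 := inner_nrm_self_le (y b)
      have h6 := inner_nrm_self_nonneg (y b)
      have h7 : inner ℝ (nrm (y b)) (nrm (y b)) * inner ℝ (nrm (y b)) (nrm (y b)) ≤ (1 : ℝ) := by
        nlinarith
      have h8 := mul_le_mul_of_nonneg_left h7 h3
      linarith
    · intro b' _ hb'
      rw [hy.nrm (Ne.symm hb'), mul_zero, mul_zero, mul_zero]
  refine (sum_le_sum fun b _ => h2 b).trans (le_of_eq ?_)
  rw [sum_sub_distrib, sum_add_distrib, hys, sum_fiberwise, hxs, ← mul_sum, sum_fiberwise]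
  ring

end Pool.Agent.MP_ec946a.SDA
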