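import Mathlib
import Pool.Agent.Lib.MP_ec946a_sda.Tri

/-!
# The semidefinite relaxation on expanding games
-/

set_option autoImplicit false

namespace Pool.Agent.MP_ec946a.SDA

open Finset

variable {q n : ℕ} {G : Game q}

lemma sdp_orth_x (s : G.SDPSolution n) (u : G.U) : Orth (s.x u) := fun a a' h => s.orth_x u a a' h

lemma sdp_orth_y (s : G.SDPSolution n) (v : G.V) : Orth (s.y v) := fun b b' h => s.orth_y v b b' h

lemma sdp_sum_x (s : G.SDPSolution n) (u : G.U) : ∑ a, ‖s.x u a‖ ^ 2 = 1 := by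
  rw [← (sdp_orth_x s u).norm_sum, s.sum_x, real_inner_self_eq_norm_sq, s.norm_x₀, one_pow]

lemma sdp_sum_y (s : G.SDPSolution n) (v : G.V) : ∑ b, ‖s.y v b‖ ^ 2 = 1 := by
  rw [← (sdp_orth_y s v).norm_sum, s.sum_y, real_inner_self_eq_norm_sq, s.norm_x₀, one_pow]

lemma sdp_q_pos (s : G.SDPSolution n) : 0 < q := by
  rcases Nat.eq_zero_or_pos q with h | h
  · subst h
    exfalso
    obtain ⟨e⟩ := G.neE
    have h1 := sdp_sum_x s (G.src e)
    simp at h1
  · exact h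

/-- the probability that the edge is satisfied -/
noncomputable def cc (s : G.SDPSolution n) (e : G.E) : ℝ :=
  ∑ a, inner ℝ (s.x (G.src e) a) (s.y (G.tgt e) (G.proj e a))

lemma sum_cc (s : G.SDPSolution n) : ∑ e, cc s e = (Fintype.card G.E : ℝ) * s.obj := by
  have hE : (0 : ℝ) < (Fintype.card G.E : ℝ) := by exact_mod_cast Fintype.card_pos
  unfold Game.SDPSolution.obj
  rw [Nat.card_eq_fintype_card, mul_div_cancel₀ _ hE.ne']
  rfl

lemma obj_nonneg (s : G.SDPSolution n) : 0 ≤ s.obj := by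
  unfold Game.SDPSolution.obj
  exact div_nonneg (sum_nonneg fun e _ => sum_nonneg fun a _ => s.nonneg _ _ _)
    (Nat.cast_nonneg _)

lemma proj_card (e : G.E) (b : Fin q) : (univ.filter fun a => G.proj e a = b).card ≤ 2 := by
  rw [← natcard_fibre]
  exact G.two_to_one e b

/-- the lower bound for the correlation with the mixed tensors -/
lemma lower {σ : ℝ} (hσ : 0 ≤ σ) {r : ℕ} {ψ : Fin r → G.U → ℝ}
    (h : ∀ i j, ∑ e, ψ i (G.src e) * ψ j (G.src e) = if i = j then (1 : ℝ) else 0)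
    (hG : ∀ (f : G.U → ℝ) (g : G.V → ℝ), (∀ i, ∑ e, f (G.src e) * ψ i (G.src e) = 0) →
        ∑ e, f (G.src e) * g (G.tgt e)
          ≤ σ * (√(∑ e, f (G.src e) ^ 2) * √(∑ e, g (G.tgt e) ^ 2))) (s : G.SDPSolution n) :
    (Fintype.card G.E : ℝ) * (s.obj ^ 3 / 2 - σ - √(2 * (1 - s.obj)))
      ≤ ∑ e', ∑ e, kern ψ e' e * ∑ t, cube (s.x (G.src e')) t
        * mix (s.x (G.src e)) (s.y (G.tgt e)) (G.proj e) t := by
  set N : ℝ := (Fintype.card G.E : ℝ) with hN
  have hN0 : 0 < N := by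
    rw [hN]
    exact_mod_cast Fintype.card_pos
  have hC0 := obj_nonneg s
  have hC1 := SDP.obj_le_one s
  set C := s.obj with hC
  -- the projected tensors
  let P : G.E → (Fin n × Fin n × Fin n) → ℝ := fun e t => prc ψ (fun u => cube (s.x u) t) (G.src e)
  -- expansion
  have h1 : ∑ e, ∑ t, cube (s.x (G.src e)) t * cube (s.y (G.tgt e)) t
      ≤ ∑ e, ∑ t, P e t * cube (s.y (G.tgt e)) t
        + σ * (√(∑ e, ∑ t, cube (s.x (G.src e)) t ^ 2) * √(∑ e, ∑ t, cube (s.y (G.tgt e)) t ^ 2)) :=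
    expands_vec hσ h hG (fun u => cube (s.x u)) (fun v => cube (s.y v))
  have e1 : ∑ e, ∑ t, cube (s.x (G.src e)) t ^ 2 = N := by
    have : ∀ e, ∑ t, cube (s.x (G.src e)) t ^ 2 = 1 := fun e => by
      rw [cube_sq (sdp_orth_x s _), sdp_sum_x]
    rw [sum_congr rfl fun e _ => this e, sum_const, card_univ, nsmul_eq_mul, mul_one]
  have e2 : ∑ e, ∑ t, cube (s.y (G.tgt e)) t ^ 2 = N := by
    have : ∀ e, ∑ t, cube (s.y (G.tgt e)) t ^ 2 = 1 := fun e => by
      rw [cube_sq (sdp_orth_y s _), sdp_sum_y]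
    rw [sum_congr rfl fun e _ => this e, sum_const, card_univ, nsmul_eq_mul, mul_one]
  rw [e1, e2, Real.mul_self_sqrt hN0.le] at h1
  -- the edges
  have h2 : N * (C ^ 3 / 2) ≤ ∑ e, ∑ t, cube (s.x (G.src e)) t * cube (s.y (G.tgt e)) t := by
    have h3 : ∀ e, 3 / 2 * C ^ 2 * cc s e - C ^ 3
        ≤ ∑ t, cube (s.x (G.src e)) t * cube (s.y (G.tgt e)) t := fun e =>
      edge_ineq (sdp_sum_x s _) (sdp_sum_y s _) (G.proj e) (proj_card e)
        (fun a b => s.nonneg e a b) hC0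
    refine le_trans (le_of_eq ?_) (sum_le_sum fun e _ => h3 e)
    rw [sum_sub_distrib, ← mul_sum, sum_cc, sum_const, card_univ, nsmul_eq_mul, ← hN, ← hC]
    ring
  have h3 : N * (C ^ 3 / 2 - σ) ≤ ∑ e, ∑ t, P e t * cube (s.y (G.tgt e)) t := by
    have h4 := h2.trans h1
    linarith
  -- the difference
  have hP : ∑ e, ∑ t, P e t ^ 2 ≤ N := by
    rw [← e1, sum_comm, sum_comm (f := fun e t => cube (s.x (G.src e)) t ^ 2)]
    refine sum_le_sum fun t _ => ?_
    rw [prc_pyth ψ h fun u => cube (s.x u) t]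
    have : 0 ≤ ∑ e, (cube (s.x (G.src e)) t - prc ψ (fun u => cube (s.x u) t) (G.src e)) ^ 2 :=
      sum_nonneg fun _ _ => sq_nonneg _
    show ∑ e, prc ψ (fun u => cube (s.x u) t) (G.src e) ^ 2 ≤ _
    linarith
  have hD : ∑ e, ∑ t, (mix (s.x (G.src e)) (s.y (G.tgt e)) (G.proj e) t
      - cube (s.y (G.tgt e)) t) ^ 2 ≤ N * (2 * (1 - C)) := by
    have h9 : ∀ e, ∑ t, (mix (s.x (G.src e)) (s.y (G.tgt e)) (G.proj e) t
      - cube (s.y (G.tgt e)) t) ^ 2 ≤ 2 * (1 - cc s e) := fun e =>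
      mix_sub_sq (sdp_orth_x s _) (sdp_orth_y s _) (sdp_sum_x s _) (sdp_sum_y s _) (G.proj e)
    refine (sum_le_sum fun e _ => h9 e).trans (le_of_eq ?_)
    rw [← mul_sum, sum_sub_distrib, sum_cc, sum_const, card_univ, nsmul_eq_mul, ← hN, ← hC]
    ring
  have h4 : -(N * √(2 * (1 - C))) ≤ ∑ e, ∑ t, P e t
      * (mix (s.x (G.src e)) (s.y (G.tgt e)) (G.proj e) t - cube (s.y (G.tgt e)) t) := by
    have h5 := sum_mul_sq_le_sq_mul_sq univ
      (fun i : G.E × (Fin n × Fin n × Fin n) => P i.1 i.2)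
      (fun i => mix (s.x (G.src i.1)) (s.y (G.tgt i.1)) (G.proj i.1) i.2
        - cube (s.y (G.tgt i.1)) i.2)
    rw [Fintype.sum_prod_type, Fintype.sum_prod_type, Fintype.sum_prod_type] at h5
    have h10 : (∑ e, ∑ t, P e t
      * (mix (s.x (G.src e)) (s.y (G.tgt e)) (G.proj e) t - cube (s.y (G.tgt e)) t)) ^ 2
        ≤ (N * √(2 * (1 - C))) ^ 2 := by
      refine h5.trans ?_
      have h11 : (0 : ℝ) ≤ ∑ e, ∑ t, (mix (s.x (G.src e)) (s.y (G.tgt e)) (G.proj e) t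
        - cube (s.y (G.tgt e)) t) ^ 2 := sum_nonneg fun _ _ => sum_nonneg fun t _ => sq_nonneg _
      refine (mul_le_mul hP hD h11 hN0.le).trans (le_of_eq ?_)
      rw [mul_pow, Real.sq_sqrt (by linarith)]
      ring
    exact (abs_le_of_sq_le_sq' h10 (by positivity)).1
  have h5 : ∑ e', ∑ e, kern ψ e' e * ∑ t, cube (s.x (G.src e')) t
        * mix (s.x (G.src e)) (s.y (G.tgt e)) (G.proj e) t
      = ∑ e, ∑ t, P e t * mix (s.x (G.src e)) (s.y (G.tgt e)) (G.proj e) t := by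
    rw [sum_comm]
    refine sum_congr rfl fun e _ => ?_
    simp only [mul_sum]
    rw [sum_comm]
    refine sum_congr rfl fun t _ => ?_
    show _ = prc ψ (fun u => cube (s.x u) t) (G.src e) * _
    rw [prc_eq, sum_mul]
    exact sum_congr rfl fun e' _ => by ring
  have h6 : ∑ e, ∑ t, P e t * mix (s.x (G.src e)) (s.y (G.tgt e)) (G.proj e) t
      = ∑ e, ∑ t, P e t * cube (s.y (G.tgt e)) t
        + ∑ e, ∑ t, P e t
      * (mix (s.x (G.src e)) (s.y (G.tgt e)) (G.proj e) t - cube (s.y (G.tgt e)) t) := by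
    rw [← sum_add_distrib]
    refine sum_congr rfl fun e _ => ?_
    rw [← sum_add_distrib]
    refine sum_congr rfl fun t _ => ?_
    ring
  rw [h5, h6]
  nlinarith [h3, h4]

/-- the correlation with the mixed tensors as a sum -/
lemma corr (x y z : Fin q → EE n) (π : Fin q → Fin q) :
    ∑ t, cube z t * mix x y π t
      = ∑ c, ∑ a, (‖z c‖ * (inner ℝ (nrm (z c)) (nrm (x a)) * inner ℝ (nrm (z c)) (nrm (y (π a)))))
        * (‖x a‖ * inner ℝ (nrm (z c)) (nrm (y (π a)))) := by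
  have h1 : ∀ t, mix x y π t = ∑ a, (1 : ℝ) * tri (x a) (nrm (y (π a))) (nrm (y (π a))) t := by
    intro t
    unfold mix
    exact sum_congr rfl fun a _ => (one_mul _).symm
  have h2 : ∀ t, cube z t * mix x y π t = (∑ c, ‖z c‖ * tri (nrm (z c)) (nrm (z c)) (nrm (z c)) t)
      * (∑ a, (1 : ℝ) * tri (x a) (nrm (y (π a))) (nrm (y (π a))) t) := by
    intro t
    rw [h1]
    rfl
  rw [sum_congr rfl fun t _ => h2 t, sum_mul_sum_tri]
  refine sum_congr rfl fun c _ => sum_congr rfl fun a _ => ?_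
  have h3 : inner ℝ (nrm (z c)) (x a) = ‖x a‖ * inner ℝ (nrm (z c)) (nrm (x a)) := by
    conv_lhs => rw [← norm_smul_nrm (x a)]
    rw [real_inner_smul_right]
  rw [h3]
  ring

/-- the square of the correlation with the mixed tensor of an edge -/
lemma corr_sq (s : G.SDPSolution n) (e' e : G.E) :
    (∑ t, cube (s.x (G.src e')) t * mix (s.x (G.src e)) (s.y (G.tgt e)) (G.proj e) t) ^ 2
      ≤ ∑ c, ‖s.x (G.src e') c‖ ^ 2 * ∑ a,
        inner ℝ (nrm (s.x (G.src e) a)) (nrm (s.x (G.src e') c)) ^ 2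
          * inner ℝ (nrm (s.y (G.tgt e) (G.proj e a))) (nrm (s.x (G.src e') c)) ^ 2 := by
  rw [corr]
  let α : Fin q × Fin q → ℝ := fun i => ‖s.x (G.src e') i.1‖
    * (inner ℝ (nrm (s.x (G.src e') i.1)) (nrm (s.x (G.src e) i.2))
      * inner ℝ (nrm (s.x (G.src e') i.1)) (nrm (s.y (G.tgt e) (G.proj e i.2))))
  let β : Fin q × Fin q → ℝ := fun i => ‖s.x (G.src e) i.2‖
    * inner ℝ (nrm (s.x (G.src e') i.1)) (nrm (s.y (G.tgt e) (G.proj e i.2)))
  have h2 : (∑ i, α i * β i) ^ 2 ≤ (∑ i, α i ^ 2) * (∑ i, β i ^ 2) :=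
    sum_mul_sq_le_sq_mul_sq univ α β
  rw [Fintype.sum_prod_type, Fintype.sum_prod_type, Fintype.sum_prod_type] at h2
  refine h2.trans ?_
  have h3 : ∑ c, ∑ a, β (c, a) ^ 2 ≤ 1 := by
    rw [sum_comm]
    have h5 : ∀ a, ∑ c, β (c, a) ^ 2 ≤ ‖s.x (G.src e) a‖ ^ 2 := by
      intro a
      have h6 := (sdp_orth_x s (G.src e')).bessel (nrm (s.y (G.tgt e) (G.proj e a)))
      have h7 : ∑ c, β (c, a) ^ 2 = ‖s.x (G.src e) a‖ ^ 2
          * ∑ c, inner ℝ (nrm (s.x (G.src e') c)) (nrm (s.y (G.tgt e) (G.proj e a))) ^ 2 := by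
        rw [mul_sum]
        refine sum_congr rfl fun c _ => ?_
        exact mul_pow _ _ _
      rw [h7]
      have h8 := h6.trans (norm_nrm_le _)
      exact mul_le_of_le_one_right (sq_nonneg _) h8
    refine (sum_le_sum fun a _ => h5 a).trans (le_of_eq ?_)
    exact sdp_sum_x s _
  have h6 : (0 : ℝ) ≤ ∑ c, ∑ a, α (c, a) ^ 2 :=
    sum_nonneg fun _ _ => sum_nonneg fun _ _ => sq_nonneg _
  refine (mul_le_of_le_one_right h6 h3).trans (le_of_eq ?_)
  refine sum_congr rfl fun c _ => ?_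
  rw [mul_sum]
  refine sum_congr rfl fun a _ => ?_
  show (‖s.x (G.src e') c‖ * (inner ℝ (nrm (s.x (G.src e') c)) (nrm (s.x (G.src e) a))
    * inner ℝ (nrm (s.x (G.src e') c)) (nrm (s.y (G.tgt e) (G.proj e a))))) ^ 2 = _
  rw [real_inner_comm (nrm (s.x (G.src e) a)) (nrm (s.x (G.src e') c)),
    real_inner_comm (nrm (s.y (G.tgt e) (G.proj e a))) (nrm (s.x (G.src e') c))]
  ring

/-- the sum of the squares of the correlations with the mixed tensors -/
lemma upper (s : G.SDPSolution n) :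
    ∑ e', ∑ e, (∑ t, cube (s.x (G.src e')) t
        * mix (s.x (G.src e)) (s.y (G.tgt e)) (G.proj e) t) ^ 2
      ≤ (Fintype.card G.E : ℝ) ^ 2 * G.value := by
  set N : ℝ := (Fintype.card G.E : ℝ) with hN
  have h5 : ∀ e' : G.E, ∑ e, (∑ t, cube (s.x (G.src e')) t
        * mix (s.x (G.src e)) (s.y (G.tgt e)) (G.proj e) t) ^ 2 ≤ N * G.value := by
    intro e'
    refine (sum_le_sum fun e _ => corr_sq s e' e).trans ?_
    rw [sum_comm]
    have h6 : ∀ c, ∑ e, ‖s.x (G.src e') c‖ ^ 2 * ∑ a,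
        inner ℝ (nrm (s.x (G.src e) a)) (nrm (s.x (G.src e') c)) ^ 2
          * inner ℝ (nrm (s.y (G.tgt e) (G.proj e a))) (nrm (s.x (G.src e') c)) ^ 2
        ≤ ‖s.x (G.src e') c‖ ^ 2 * (G.value * N) := by
      intro c
      set z : EE n := nrm (s.x (G.src e') c) with hz
      have hz1 : ‖z‖ ^ 2 ≤ 1 := norm_nrm_le _
      have h7 := frac_le_value G (fun u a => inner ℝ (nrm (s.x u a)) z ^ 2)
        (fun v b => inner ℝ (nrm (s.y v b)) z ^ 2) (fun u a => sq_nonneg _)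
        (fun u => ((sdp_orth_x s u).bessel z).trans hz1) (fun v b => sq_nonneg _)
        (fun v => ((sdp_orth_y s v).bessel z).trans hz1) (sdp_q_pos s)
      rw [Nat.card_eq_fintype_card, ← hN] at h7
      rw [← mul_sum]
      exact mul_le_mul_of_nonneg_left h7 (sq_nonneg _)
    refine (sum_le_sum fun c _ => h6 c).trans (le_of_eq ?_)
    rw [← sum_mul, sdp_sum_x]
    ring
  refine (sum_le_sum fun e' _ => h5 e').trans (le_of_eq ?_)
  rw [sum_const, card_univ, nsmul_eq_mul, ← hN]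
  ring

/-- the semidefinite relaxation approximates games with few large singular values -/
theorem value_ge_of_expands {m : ℕ} {σ : ℝ} (hσ : 0 ≤ σ) (hG : G.Expands m σ)
    (s : G.SDPSolution n) (h : 0 ≤ s.obj ^ 3 / 2 - σ - √(2 * (1 - s.obj))) :
    (s.obj ^ 3 / 2 - σ - √(2 * (1 - s.obj))) ^ 2 ≤ m * G.value := by
  obtain ⟨r, ψ, hr, h1, h2⟩ := exists_onb hG
  have h3 := lower hσ h1 h2 s
  have h4 := upper s
  have h5 := kern_sq ψ h1
  set N : ℝ := (Fintype.card G.E : ℝ) with hN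
  have hN0 : 0 < N := by
    rw [hN]
    exact_mod_cast Fintype.card_pos
  set ρ := s.obj ^ 3 / 2 - σ - √(2 * (1 - s.obj)) with hρ
  have h6 := sum_mul_sq_le_sq_mul_sq univ (fun i : G.E × G.E => kern ψ i.1 i.2)
    (fun i => ∑ t, cube (s.x (G.src i.1)) t
        * mix (s.x (G.src i.2)) (s.y (G.tgt i.2)) (G.proj i.2) t)
  rw [Fintype.sum_prod_type, Fintype.sum_prod_type, Fintype.sum_prod_type] at h6
  have hv : 0 ≤ N ^ 2 * G.value :=
    (sum_nonneg fun _ _ => sum_nonneg fun _ _ => sq_nonneg _).trans h4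
  have h7 : (N * ρ) ^ 2 ≤ (m : ℝ) * (N ^ 2 * G.value) := by
    refine (pow_le_pow_left₀ (by positivity) h3 2).trans (h6.trans ?_)
    rw [h5]
    refine mul_le_mul (by exact_mod_cast hr) h4
      (sum_nonneg fun _ _ => sum_nonneg fun _ _ => sq_nonneg _) (by positivity)
  have h8 : N ^ 2 * ρ ^ 2 ≤ N ^ 2 * (m * G.value) := by
    refine le_trans (le_of_eq ?_) (h7.trans (le_of_eq ?_)) <;> ring
  exact le_of_mul_le_mul_left h8 (by positivity)

end Pool.Agent.MP_ec946a.SDA
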