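import Mathlib
import Pool.Agent.Lib.MP_ec946a_sda.Alg

/-!
# Correlations of the vectors of two vertices
-/

set_option autoImplicit false

namespace Pool.Agent.MP_ec946a.SDA

open Finset

variable {n q : ℕ}

/-- the tensor of two vectors -/
def duo (a b : EE n) (t : Fin n × Fin n) : ℝ := a t.1 * b t.2

lemma sum_duo (a b a' b' : EE n) :
    ∑ t, duo a b t * duo a' b' t = inner ℝ a a' * inner ℝ b b' := by
  rw [inner_EE, inner_EE, Fintype.sum_prod_type, sum_mul_sum]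
  refine sum_congr rfl fun i _ => sum_congr rfl fun j _ => ?_
  show a i * b j * (a' i * b' j) = _
  ring

/-- sums of products of sums of tensors -/
lemma sum_mul_sum_duo {ι κ : Type} (S : Finset ι) (T : Finset κ) (f : ι → ℝ) (g : κ → ℝ)
    (a b : ι → EE n) (a' b' : κ → EE n) :
    ∑ t, (∑ i ∈ S, f i * duo (a i) (b i) t) * (∑ j ∈ T, g j * duo (a' j) (b' j) t)
      = ∑ i ∈ S, ∑ j ∈ T, f i * g j * (inner ℝ (a i) (a' j) * inner ℝ (b i) (b' j)) := by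
  simp only [sum_mul_sum]
  rw [sum_comm]
  refine sum_congr rfl fun i _ => ?_
  rw [sum_comm]
  refine sum_congr rfl fun j _ => ?_
  rw [← sum_duo, mul_sum]
  exact sum_congr rfl fun t _ => by ring

/-- the quadratic tensor of a family -/
noncomputable def squ (z : Fin q → EE n) (t : Fin n × Fin n) : ℝ :=
  ∑ a, ‖z a‖ * duo (nrm (z a)) (nrm (z a)) t

lemma squ_sq {z : Fin q → EE n} (h : Orth z) : ∑ t, squ z t * squ z t = ∑ a, ‖z a‖ ^ 2 := by
  unfold squ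
  rw [sum_mul_sum_duo]
  refine sum_congr rfl fun a _ => ?_
  rw [sum_eq_single_of_mem a (mem_univ _)]
  · have h2 := norm_mul_inner_nrm (z a)
    set r : ℝ := inner ℝ (nrm (z a)) (nrm (z a))
    have h3 : ‖z a‖ * ‖z a‖ * (r * r) = (‖z a‖ * r) * (‖z a‖ * r) := by ring
    rw [h3, h2, sq]
  · intro b _ hb
    rw [h.nrm (Ne.symm hb), zero_mul, mul_zero]

/-- the collision probability of the label -/
noncomputable def kap (z : Fin q → EE n) : ℝ := ∑ a, (‖z a‖ ^ 2) ^ 2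

/-- the sum of the cubes of the norms -/
noncomputable def kat (z : Fin q → EE n) : ℝ := ∑ a, ‖z a‖ ^ 3

/-- the quadratic tensor without the part of the common vector -/
noncomputable def squR (w : EE n) (z : Fin q → EE n) (t : Fin n × Fin n) : ℝ :=
  squ z t - kat z * duo w w t

/-- the vectors are orthogonal with sum `w` -/
structure Dec (w : EE n) (z : Fin q → EE n) : Prop where
  norm : ‖w‖ = 1
  orth : Orth z
  sum : ∑ a, z a = w

lemma kap_nonneg (z : Fin q → EE n) : 0 ≤ kap z := sum_nonneg fun _ _ => sq_nonneg _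

lemma kat_nonneg (z : Fin q → EE n) : 0 ≤ kat z := sum_nonneg fun _ _ => by positivity

section dec

variable {w : EE n} {x y : Fin q → EE n}

lemma Dec.sum_sq (h : Dec w x) : ∑ a, ‖x a‖ ^ 2 = 1 := by
  rw [← h.orth.norm_sum, h.sum, real_inner_self_eq_norm_sq, h.norm, one_pow]

lemma Dec.inner_w (h : Dec w x) (a : Fin q) : inner ℝ (x a) w = ‖x a‖ ^ 2 := by
  rw [← h.sum, inner_sum, sum_eq_single_of_mem a (mem_univ _), real_inner_self_eq_norm_sq]
  intro b _ hb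
  exact h.orth a b (Ne.symm hb)

lemma Dec.sum_inner_right (hy : Dec w y) (hx : Dec w x) (a : Fin q) :
    ∑ b, inner ℝ (x a) (y b) = ‖x a‖ ^ 2 := by
  rw [← inner_sum, hy.sum, hx.inner_w]

lemma Dec.sum_inner_left (hy : Dec w y) (hx : Dec w x) (b : Fin q) :
    ∑ a, inner ℝ (x a) (y b) = ‖y b‖ ^ 2 := by
  rw [← sum_inner, hx.sum, real_inner_comm, hy.inner_w]

lemma Dec.sq_le_one (h : Dec w x) (a : Fin q) : ‖x a‖ ^ 2 ≤ 1 := by
  rw [← h.sum_sq]
  exact single_le_sum (f := fun a => ‖x a‖ ^ 2) (fun _ _ => sq_nonneg _) (mem_univ a)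

lemma Dec.le_one (h : Dec w x) (a : Fin q) : ‖x a‖ ≤ 1 := by
  have h1 := h.sq_le_one a
  nlinarith [norm_nonneg (x a)]

lemma Dec.kap_le (h : Dec w x) : kap x ≤ 1 := by
  rw [← h.sum_sq]
  refine sum_le_sum fun a _ => ?_
  rw [sq (‖x a‖ ^ 2)]
  exact mul_le_of_le_one_left (sq_nonneg _) (h.sq_le_one a)

lemma Dec.kat_le (h : Dec w x) : kat x ≤ 1 := by
  rw [← h.sum_sq]
  refine sum_le_sum fun a _ => ?_
  rw [pow_succ]
  exact mul_le_of_le_one_right (sq_nonneg _) (h.le_one a)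

/-- the inequality of Cauchy and Schwarz -/
lemma Dec.kat_sq (h : Dec w x) : kat x ^ 2 ≤ kap x := by
  have h1 := sum_mul_sq_le_sq_mul_sq univ (fun a => ‖x a‖) (fun a => ‖x a‖ ^ 2)
  rw [h.sum_sq, one_mul] at h1
  refine le_trans (le_of_eq ?_) h1
  unfold kat
  congr 1
  exact sum_congr rfl fun a _ => by ring

lemma duo_sq (h : ‖w‖ = 1) : ∑ t, duo w w t * duo w w t = 1 := by
  rw [sum_duo, real_inner_self_eq_norm_sq, h]
  norm_num

lemma squ_duo (h : Dec w x) : ∑ t, squ x t * duo w w t = kat x := by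
  have h1 : ∀ t, squ x t * duo w w t
      = (∑ a, ‖x a‖ * duo (nrm (x a)) (nrm (x a)) t)
        * (∑ _j ∈ ({()} : Finset Unit), (1 : ℝ) * duo w w t) := by
    intro t
    rw [sum_singleton, one_mul]
    rfl
  rw [sum_congr rfl fun t _ => h1 t, sum_mul_sum_duo]
  unfold kat
  refine sum_congr rfl fun a _ => ?_
  rw [sum_singleton]
  have h2 : inner ℝ (nrm (x a)) w = ‖x a‖ := by
    unfold nrm
    rw [real_inner_smul_left, h.inner_w]
    by_cases h0 : ‖x a‖ = 0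
    · rw [h0]
      simp
    · field_simp
  rw [h2]
  ring

lemma squR_mul (hx : Dec w x) (hy : Dec w y) :
    ∑ t, squR w x t * squR w y t = ∑ t, squ x t * squ y t - kat x * kat y := by
  have h1 : ∀ t, squR w x t * squR w y t = squ x t * squ y t
      - kat y * (squ x t * duo w w t) - kat x * (squ y t * duo w w t)
      + kat x * kat y * (duo w w t * duo w w t) := by
    intro t
    unfold squR
    ring
  rw [sum_congr rfl fun t _ => h1 t, sum_add_distrib, sum_sub_distrib, sum_sub_distrib,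
    ← mul_sum, ← mul_sum, ← mul_sum, squ_duo hx, squ_duo hy, duo_sq hx.norm]
  ring

lemma squR_sq (hx : Dec w x) : ∑ t, squR w x t ^ 2 ≤ 1 := by
  have h1 := squR_mul hx hx
  rw [squ_sq hx.orth, hx.sum_sq] at h1
  rw [sum_congr rfl fun t _ => sq (squR w x t), h1]
  nlinarith [mul_self_nonneg (kat x)]

/-- the terms of the correlation -/
lemma squ_squ : ∑ t, squ x t * squ y t
    = ∑ a, ∑ b, inner ℝ (x a) (y b) ^ 2 / (‖x a‖ * ‖y b‖) := by
  have h1 : ∑ t, squ x t * squ y t = ∑ a, ∑ b, ‖x a‖ * ‖y b‖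
      * (inner ℝ (nrm (x a)) (nrm (y b)) * inner ℝ (nrm (x a)) (nrm (y b))) := by
    unfold squ
    exact sum_mul_sum_duo _ _ _ _ _ _ _ _
  rw [h1]
  refine sum_congr rfl fun a _ => sum_congr rfl fun b _ => ?_
  unfold nrm
  rw [real_inner_smul_left, real_inner_smul_right]
  by_cases ha : ‖x a‖ = 0
  · rw [ha]
    simp
  · by_cases hb : ‖y b‖ = 0
    · rw [hb]
      simp
    · field_simp

/-- the expected increase of the collision probability of the label of the first vertex when the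
label of the second vertex is fixed -/
noncomputable def dd (x y : Fin q → EE n) : ℝ :=
  ∑ a, ∑ b, (inner ℝ (x a) (y b) - ‖x a‖ ^ 2 * ‖y b‖ ^ 2) ^ 2 / ‖y b‖ ^ 2

lemma dd_term (P p : ℝ) {r : ℝ} (hr : r ≠ 0) :
    (P - p * r) ^ 2 / r = P ^ 2 / r - 2 * p * P + p ^ 2 * r := by
  field_simp
  ring

lemma dd_eq (hx : Dec w x) (hy : Dec w y) (hnn : ∀ a b, 0 ≤ inner ℝ (x a) (y b)) :
    ∑ a, ∑ b, inner ℝ (x a) (y b) ^ 2 / ‖y b‖ ^ 2 = kap x + dd x y := by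
  have h0 : ∀ a b, ‖y b‖ ^ 2 = 0 → inner ℝ (x a) (y b) = (0 : ℝ) := by
    intro a b h
    have h1 := hy.sum_inner_left hx b
    rw [h] at h1
    exact (sum_eq_zero_iff_of_nonneg fun a _ => hnn a b).mp h1 a (mem_univ _)
  have h1 : ∀ a, ∑ b, (inner ℝ (x a) (y b) - ‖x a‖ ^ 2 * ‖y b‖ ^ 2) ^ 2 / ‖y b‖ ^ 2
      = ∑ b, inner ℝ (x a) (y b) ^ 2 / ‖y b‖ ^ 2 - (‖x a‖ ^ 2) ^ 2 := by
    intro a
    have h2 : ∀ b, (inner ℝ (x a) (y b) - ‖x a‖ ^ 2 * ‖y b‖ ^ 2) ^ 2 / ‖y b‖ ^ 2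
        = inner ℝ (x a) (y b) ^ 2 / ‖y b‖ ^ 2 - 2 * ‖x a‖ ^ 2 * inner ℝ (x a) (y b)
          + (‖x a‖ ^ 2) ^ 2 * ‖y b‖ ^ 2 := by
      intro b
      by_cases h : ‖y b‖ ^ 2 = 0
      · rw [h0 a b h, h]
        simp
      · exact dd_term _ _ h
    rw [sum_congr rfl fun b _ => h2 b, sum_add_distrib, sum_sub_distrib, ← mul_sum, ← mul_sum,
      hy.sum_inner_right hx, hy.sum_sq]
    ring
  unfold dd kap
  rw [sum_congr rfl fun a _ => h1 a, sum_sub_distrib]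
  ring

lemma dd_nonneg : 0 ≤ dd x y :=
  sum_nonneg fun _ _ => sum_nonneg fun _ _ => div_nonneg (sq_nonneg _) (sq_nonneg _)

lemma dd_le_one (hx : Dec w x) (hy : Dec w y) (hnn : ∀ a b, 0 ≤ inner ℝ (x a) (y b)) :
    dd x y ≤ 1 := by
  have h1 := dd_eq hx hy hnn
  have hk := kap_nonneg x
  have h2 : ∑ a, ∑ b, inner ℝ (x a) (y b) ^ 2 / ‖y b‖ ^ 2 ≤ ∑ a, ∑ b, inner ℝ (x a) (y b) := by
    refine sum_le_sum fun a _ => sum_le_sum fun b _ => ?_
    have h3 : inner ℝ (x a) (y b) ≤ ‖y b‖ ^ 2 := by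
      rw [← hy.sum_inner_left hx b]
      exact single_le_sum (f := fun a => inner ℝ (x a) (y b)) (fun a _ => hnn a b) (mem_univ a)
    by_cases h : ‖y b‖ ^ 2 = 0
    · rw [h, div_zero]
      exact hnn a b
    · have h4 : 0 < ‖y b‖ ^ 2 := lt_of_le_of_ne (sq_nonneg _) (Ne.symm h)
      rw [div_le_iff₀ h4, sq]
      exact mul_le_mul_of_nonneg_left h3 (hnn a b)
  have h3 : ∑ a, ∑ b, inner ℝ (x a) (y b) = (1 : ℝ) := by
    rw [sum_congr rfl fun a _ => hy.sum_inner_right hx a, hx.sum_sq]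
  linarith

/-- the other order -/
lemma dd_symm_le (hx : Dec w x) (hy : Dec w y) (hnn : ∀ a b, 0 ≤ inner ℝ (x a) (y b)) :
    ∑ a, ∑ b, (inner ℝ (x a) (y b) - ‖x a‖ ^ 2 * ‖y b‖ ^ 2) ^ 2 / ‖x a‖ ^ 2 ≤ 1 := by
  have h1 := dd_le_one hy hx fun a b => by
    rw [real_inner_comm]
    exact hnn b a
  refine le_trans (le_of_eq ?_) h1
  unfold dd
  rw [sum_comm]
  refine sum_congr rfl fun b _ => sum_congr rfl fun a _ => ?_
  rw [real_inner_comm, mul_comm (‖x a‖ ^ 2)]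

lemma term_eq {P u v : ℝ} (hP : u = 0 ∨ v = 0 → P = 0) :
    P ^ 2 / (u * v) - u ^ 3 * v ^ 3
      = (P - u ^ 2 * v ^ 2) ^ 2 / (u * v) + 2 * ((P - u ^ 2 * v ^ 2) * (u * v)) := by
  by_cases hu : u = 0
  · rw [hP (Or.inl hu), hu]
    simp
  · by_cases hv : v = 0
    · rw [hP (Or.inr hv), hv]
      simp
    · field_simp
      ring

/-- the correlation of the tensors is bounded by the expected increase -/
lemma squR_pair (hx : Dec w x) (hy : Dec w y) (hnn : ∀ a b, 0 ≤ inner ℝ (x a) (y b)) :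
    (∑ t, squR w x t * squR w y t) ^ 2 ≤ 9 * dd x y := by
  have hD0 := dd_nonneg (x := x) (y := y)
  have hD1 := dd_le_one hx hy hnn
  have hP0 : ∀ a b, ‖x a‖ = 0 ∨ ‖y b‖ = 0 → inner ℝ (x a) (y b) = (0 : ℝ) := by
    rintro a b (h | h)
    · rw [norm_eq_zero.mp h, inner_zero_left]
    · rw [norm_eq_zero.mp h, inner_zero_right]
  set A : ℝ := ∑ a, ∑ b, (inner ℝ (x a) (y b) - ‖x a‖ ^ 2 * ‖y b‖ ^ 2) ^ 2 / (‖x a‖ * ‖y b‖)
    with hA
  set B : ℝ := ∑ a, ∑ b, (inner ℝ (x a) (y b) - ‖x a‖ ^ 2 * ‖y b‖ ^ 2) * (‖x a‖ * ‖y b‖) with hB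
  have h1 : ∑ t, squR w x t * squR w y t = A + 2 * B := by
    rw [squR_mul hx hy, squ_squ]
    have h2 : kat x * kat y = ∑ a, ∑ b, ‖x a‖ ^ 3 * ‖y b‖ ^ 3 := by
      unfold kat
      rw [sum_mul_sum]
    rw [h2, ← sum_sub_distrib, hA, hB, mul_sum, ← sum_add_distrib]
    refine sum_congr rfl fun a _ => ?_
    rw [← sum_sub_distrib, mul_sum, ← sum_add_distrib]
    refine sum_congr rfl fun b _ => ?_
    exact term_eq (hP0 a b)
  have hA0 : 0 ≤ A := sum_nonneg fun _ _ => sum_nonneg fun _ _ => by positivity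
  have hA2 : A ^ 2 ≤ dd x y := by
    have h3 := sum_mul_sq_le_sq_mul_sq univ
      (fun i : Fin q × Fin q => |inner ℝ (x i.1) (y i.2) - ‖x i.1‖ ^ 2 * ‖y i.2‖ ^ 2| / ‖y i.2‖)
      (fun i => |inner ℝ (x i.1) (y i.2) - ‖x i.1‖ ^ 2 * ‖y i.2‖ ^ 2| / ‖x i.1‖)
    rw [Fintype.sum_prod_type, Fintype.sum_prod_type, Fintype.sum_prod_type] at h3
    have e1 : ∑ a, ∑ b, |inner ℝ (x a) (y b) - ‖x a‖ ^ 2 * ‖y b‖ ^ 2| / ‖y b‖
        * (|inner ℝ (x a) (y b) - ‖x a‖ ^ 2 * ‖y b‖ ^ 2| / ‖x a‖) = A := by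
      rw [hA]
      refine sum_congr rfl fun a _ => sum_congr rfl fun b _ => ?_
      rw [div_mul_div_comm, ← sq, sq_abs, mul_comm ‖y b‖]
    have e2 : ∑ a, ∑ b, (|inner ℝ (x a) (y b) - ‖x a‖ ^ 2 * ‖y b‖ ^ 2| / ‖y b‖) ^ 2
        = dd x y := by
      unfold dd
      refine sum_congr rfl fun a _ => sum_congr rfl fun b _ => ?_
      rw [div_pow, sq_abs]
    have e3 : ∑ a, ∑ b, (|inner ℝ (x a) (y b) - ‖x a‖ ^ 2 * ‖y b‖ ^ 2| / ‖x a‖) ^ 2 ≤ 1 := by
      refine le_trans (le_of_eq ?_) (dd_symm_le hx hy hnn)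
      refine sum_congr rfl fun a _ => sum_congr rfl fun b _ => ?_
      rw [div_pow, sq_abs]
    rw [e1, e2] at h3
    exact h3.trans (mul_le_of_le_one_right hD0 e3)
  have hB2 : B ^ 2 ≤ dd x y := by
    have h3 := sum_mul_sq_le_sq_mul_sq univ
      (fun i : Fin q × Fin q => (inner ℝ (x i.1) (y i.2) - ‖x i.1‖ ^ 2 * ‖y i.2‖ ^ 2) / ‖y i.2‖)
      (fun i => ‖x i.1‖ * ‖y i.2‖ ^ 2)
    rw [Fintype.sum_prod_type, Fintype.sum_prod_type, Fintype.sum_prod_type] at h3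
    have e1 : ∑ a, ∑ b, (inner ℝ (x a) (y b) - ‖x a‖ ^ 2 * ‖y b‖ ^ 2) / ‖y b‖
        * (‖x a‖ * ‖y b‖ ^ 2) = B := by
      rw [hB]
      refine sum_congr rfl fun a _ => sum_congr rfl fun b _ => ?_
      by_cases h : ‖y b‖ = 0
      · rw [h]
        simp
      · field_simp
    have e2 : ∑ a, ∑ b, ((inner ℝ (x a) (y b) - ‖x a‖ ^ 2 * ‖y b‖ ^ 2) / ‖y b‖) ^ 2
        = dd x y := by
      unfold dd
      refine sum_congr rfl fun a _ => sum_congr rfl fun b _ => ?_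
      rw [div_pow]
    have e3 : ∑ a, ∑ b, (‖x a‖ * ‖y b‖ ^ 2) ^ 2 ≤ 1 := by
      have h4 : ∀ a b, (‖x a‖ * ‖y b‖ ^ 2) ^ 2 ≤ ‖x a‖ ^ 2 * ‖y b‖ ^ 2 := by
        intro a b
        rw [mul_pow]
        refine mul_le_mul_of_nonneg_left ?_ (sq_nonneg _)
        rw [sq (‖y b‖ ^ 2)]
        exact mul_le_of_le_one_left (sq_nonneg _) (hy.sq_le_one b)
      refine (sum_le_sum fun a _ => sum_le_sum fun b _ => h4 a b).trans (le_of_eq ?_)
      rw [← sum_mul_sum, hx.sum_sq, hy.sum_sq, one_mul]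
    rw [e1, e2] at h3
    exact h3.trans (mul_le_of_le_one_right hD0 e3)
  rw [h1]
  nlinarith [sq_nonneg (A - B)]

lemma edge_term2 {p s r : ℝ} (hp : 0 ≤ p) (hs : 0 ≤ s) (hr : r ^ 2 = 2) (hr0 : 0 < r)
    (h0 : s = 0 → p = 0) : 3 / (2 * r) * p ^ 2 - 1 / (4 * r) * s ^ 2 ≤ p ^ 3 / s := by
  rcases hs.eq_or_lt with h | h
  · rw [← h, h0 h.symm]
    simp
  · rw [le_div_iff₀ h]
    have h1 : 0 ≤ (r * p - s) ^ 2 * (2 * (r * p) + s) := by positivity
    have h2 : (r * p - s) ^ 2 * (2 * (r * p) + s)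
        = 2 * (r ^ 2 * r * p ^ 3) - 3 * (r ^ 2 * p ^ 2 * s) + s ^ 3 := by ring
    rw [h2, hr] at h1
    have h3 : (3 / (2 * r) * p ^ 2 - 1 / (4 * r) * s ^ 2) * s
        = (6 * p ^ 2 * s - s ^ 3) / (4 * r) := by
      field_simp
      ring
    rw [h3, div_le_iff₀ (by positivity)]
    linarith

/-- the correlation over a satisfied constraint -/
lemma edge_ineq2 (hx : Dec w x) (hy : Dec w y) (π : Fin q → Fin q)
    (hπ : ∀ b, (univ.filter fun a => π a = b).card ≤ 2)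
    (hP : ∀ a, inner ℝ (x a) (y (π a)) = ‖x a‖ ^ 2) :
    (1 - kat y) / √2 ≤ ∑ t, squR w x t * squR w y t := by
  have hr : √2 ^ 2 = (2 : ℝ) := Real.sq_sqrt (by norm_num)
  have hr0 : 0 < √2 := Real.sqrt_pos.mpr (by norm_num)
  have h0 : ∀ a, ‖y (π a)‖ = 0 → ‖x a‖ = 0 := by
    intro a h
    have h1 := hP a
    rw [norm_eq_zero.mp h, inner_zero_right] at h1
    exact pow_eq_zero_iff two_ne_zero |>.mp h1.symm
  have h1 : ∑ a, ‖x a‖ ^ 3 / ‖y (π a)‖ ≤ ∑ t, squ x t * squ y t := by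
    rw [squ_squ]
    refine sum_le_sum fun a _ => ?_
    have h2 := single_le_sum (s := (univ : Finset (Fin q)))
      (f := fun b => inner ℝ (x a) (y b) ^ 2 / (‖x a‖ * ‖y b‖))
      (fun b _ => by positivity) (mem_univ (π a))
    refine le_trans (le_of_eq ?_) h2
    show _ = inner ℝ (x a) (y (π a)) ^ 2 / (‖x a‖ * ‖y (π a)‖)
    rw [hP a]
    by_cases h : ‖x a‖ = 0
    · rw [h]
      simp
    · have h3 : ‖y (π a)‖ ≠ 0 := fun h4 => h (h0 a h4)
      field_simp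
  have h2 : kat x ≤ ∑ a, ‖x a‖ ^ 3 / ‖y (π a)‖ := by
    unfold kat
    refine sum_le_sum fun a _ => ?_
    rcases (norm_nonneg (y (π a))).eq_or_lt with h | h
    · rw [h0 a h.symm, ← h]
      simp
    · rw [le_div_iff₀ h]
      exact mul_le_of_le_one_right (by positivity) (hy.le_one _)
  have h3 : 1 / √2 ≤ ∑ a, ‖x a‖ ^ 3 / ‖y (π a)‖ := by
    have h4 : ∑ a, ‖y (π a)‖ ^ 2 ≤ 2 := by
      have h5 : ∑ a, ‖y (π a)‖ ^ 2
          = ∑ b, ((univ.filter fun a => π a = b).card : ℝ) * ‖y b‖ ^ 2 := by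
        rw [← sum_fiberwise univ π fun a => ‖y (π a)‖ ^ 2]
        refine sum_congr rfl fun b _ => ?_
        rw [sum_congr rfl fun a ha => by rw [(mem_filter.mp ha).2], sum_const, nsmul_eq_mul]
      rw [h5]
      have h6 : ∀ b, ((univ.filter fun a => π a = b).card : ℝ) * ‖y b‖ ^ 2 ≤ 2 * ‖y b‖ ^ 2 := by
        intro b
        refine mul_le_mul_of_nonneg_right ?_ (sq_nonneg _)
        exact_mod_cast hπ b
      refine (sum_le_sum fun b _ => h6 b).trans (le_of_eq ?_)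
      rw [← mul_sum, hy.sum_sq, mul_one]
    have h5 := sum_le_sum (s := univ) fun a _ =>
      edge_term2 (norm_nonneg (x a)) (norm_nonneg (y (π a))) hr hr0 (h0 a)
    rw [sum_sub_distrib, ← mul_sum, ← mul_sum, hx.sum_sq] at h5
    have h6 : 1 / (4 * √2) * ∑ a, ‖y (π a)‖ ^ 2 ≤ 1 / (4 * √2) * 2 :=
      mul_le_mul_of_nonneg_left h4 (by positivity)
    have h7 : 1 / √2 = 3 / (2 * √2) * 1 - 1 / (4 * √2) * 2 := by
      field_simp
      norm_num
    linarith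
  rw [squR_mul hx hy]
  have hk0 := kat_nonneg y
  have hk1 := hy.kat_le
  have h4 : (1 - kat y) * (1 / √2) ≤ (1 - kat y) * ∑ a, ‖x a‖ ^ 3 / ‖y (π a)‖ :=
    mul_le_mul_of_nonneg_left h3 (by linarith)
  have h5 : kat y * kat x ≤ kat y * ∑ a, ‖x a‖ ^ 3 / ‖y (π a)‖ :=
    mul_le_mul_of_nonneg_left h2 hk0
  have h6 : (1 - kat y) / √2 = (1 - kat y) * (1 / √2) := by ring
  rw [h6]
  nlinarith

end dec

end Pool.Agent.MP_ec946a.SDA
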