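import Mathlib
import Pool.Agent.Lib.MP_ec946a_sda.Gain

/-!
# The levels of the semidefinite hierarchy
-/

set_option autoImplicit false

namespace Pool.Agent.MP_ec946a

open Finset

open Classical in
/-- A perfect solution of level `t` of the mixed hierarchy (local distributions on `t + 2` vertices,
whose conditional matrices of second moments are positive semidefinite; the sums-of-squares
hierarchy of degree `2 t + 4` contains it).  The number `y S` is the probability of all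
assignments of a label to a vertex in the set `S`; only the sets with at most `t + 2` elements
matter. -/
structure Game.LevelSolution {q : ℕ} (G : Game q) (t : ℕ) where
  y : Finset ((G.U ⊕ G.V) × Fin q) → ℝ
  empty : y ∅ = 1
  nonneg : ∀ S, S.card ≤ t + 2 → 0 ≤ y S
  sum : ∀ S x, S.card ≤ t + 1 → ∑ a, y (insert (x, a) S) = y S
  conflict : ∀ S x a b, a ≠ b → (x, a) ∈ S → (x, b) ∈ S → y S = 0
  edge : ∀ S e a b, G.proj e a ≠ b → (Sum.inl (G.src e), a) ∈ S → (Sum.inr (G.tgt e), b) ∈ S →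
    y S = 0
  psd : ∀ S, S.card ≤ t → ∀ c : (G.U ⊕ G.V) × Fin q → ℝ,
    0 ≤ ∑ i, ∑ j, c i * c j * y (insert i (insert j S))

namespace SDA

variable {q n : ℕ} {G : Game q}

section gain

variable {r m : ℕ} {ψ : Fin r → G.U → ℝ}

lemma dec_x (s : G.SDPSolution n) (u : G.U) : Dec s.x₀ (s.x u) :=
  ⟨s.norm_x₀, sdp_orth_x s u, s.sum_x u⟩

lemma dec_y (s : G.SDPSolution n) (v : G.V) : Dec s.x₀ (s.y v) :=
  ⟨s.norm_x₀, sdp_orth_y s v, s.sum_y v⟩

/-- the norms of the vectors of the end in `V` -/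
lemma norm_fibre (s : G.SDPSolution n)
    (hm : ∀ e b, ∑ a ∈ univ.filter (fun a => G.proj e a = b), s.x (G.src e) a = s.y (G.tgt e) b)
    (e : G.E) (b : Fin q) :
    ‖s.y (G.tgt e) b‖ ^ 2 = ∑ a ∈ univ.filter (fun a => G.proj e a = b), ‖s.x (G.src e) a‖ ^ 2 := by
  rw [← real_inner_self_eq_norm_sq, ← hm e b, (sdp_orth_x s _).norm_sum]

lemma inner_proj (s : G.SDPSolution n)
    (hm : ∀ e b, ∑ a ∈ univ.filter (fun a => G.proj e a = b), s.x (G.src e) a = s.y (G.tgt e) b)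
    (e : G.E) (a : Fin q) :
    inner ℝ (s.x (G.src e) a) (s.y (G.tgt e) (G.proj e a)) = ‖s.x (G.src e) a‖ ^ 2 := by
  have hmem : a ∈ univ.filter (fun a' => G.proj e a' = G.proj e a) :=
    mem_filter.mpr ⟨mem_univ _, rfl⟩
  rw [← hm, inner_sum, sum_eq_single_of_mem a hmem, real_inner_self_eq_norm_sq]
  intro b _ hb
  exact s.orth_x _ _ _ (Ne.symm hb)

/-- the lower bound for the correlation of the reduced tensors -/
lemma gain {σ : ℝ} (hσ : 0 ≤ σ)
    (h : ∀ i j, ∑ e, ψ i (G.src e) * ψ j (G.src e) = if i = j then (1 : ℝ) else 0)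
    (hG : ∀ (f : G.U → ℝ) (g : G.V → ℝ), (∀ i, ∑ e, f (G.src e) * ψ i (G.src e) = 0) →
        ∑ e, f (G.src e) * g (G.tgt e)
          ≤ σ * (√(∑ e, f (G.src e) ^ 2) * √(∑ e, g (G.tgt e) ^ 2)))
    (s : G.SDPSolution n)
    (hm : ∀ e b, ∑ a ∈ univ.filter (fun a => G.proj e a = b), s.x (G.src e) a = s.y (G.tgt e) b)
    {c : ℝ} (hc : ∑ e, kat (s.y (G.tgt e)) ≤ (Fintype.card G.E : ℝ) * c) :
    (Fintype.card G.E : ℝ) * ((1 - c) / √2 - σ)
      ≤ ∑ e', ∑ e, kern ψ e' e * ∑ t, squR s.x₀ (s.x (G.src e')) t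
        * squR s.x₀ (s.y (G.tgt e)) t := by
  set N : ℝ := (Fintype.card G.E : ℝ) with hN
  have hN0 : 0 < N := by
    rw [hN]
    exact_mod_cast Fintype.card_pos
  have h1 := expands_vec hσ h hG (fun u => squR s.x₀ (s.x u)) (fun v => squR s.x₀ (s.y v))
  have e1 : ∑ e, ∑ t, squR s.x₀ (s.x (G.src e)) t ^ 2 ≤ N := by
    refine (sum_le_sum fun e _ => squR_sq (dec_x s (G.src e))).trans (le_of_eq ?_)
    rw [sum_const, card_univ, nsmul_eq_mul, mul_one]
  have e2 : ∑ e, ∑ t, squR s.x₀ (s.y (G.tgt e)) t ^ 2 ≤ N := by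
    refine (sum_le_sum fun e _ => squR_sq (dec_y s (G.tgt e))).trans (le_of_eq ?_)
    rw [sum_const, card_univ, nsmul_eq_mul, mul_one]
  have h2 : √(∑ e, ∑ t, squR s.x₀ (s.x (G.src e)) t ^ 2)
      * √(∑ e, ∑ t, squR s.x₀ (s.y (G.tgt e)) t ^ 2) ≤ N := by
    refine (mul_le_mul (Real.sqrt_le_sqrt e1) (Real.sqrt_le_sqrt e2) (Real.sqrt_nonneg _)
      (Real.sqrt_nonneg _)).trans (le_of_eq (Real.mul_self_sqrt hN0.le))
  have h3 : N * ((1 - c) / √2) ≤ ∑ e, ∑ t, squR s.x₀ (s.x (G.src e)) t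
      * squR s.x₀ (s.y (G.tgt e)) t := by
    have h4 : ∀ e, (1 - kat (s.y (G.tgt e))) / √2 ≤ ∑ t, squR s.x₀ (s.x (G.src e)) t
      * squR s.x₀ (s.y (G.tgt e)) t := fun e =>
      edge_ineq2 (dec_x s _) (dec_y s _) (G.proj e) (proj_card e) (inner_proj s hm e)
    refine le_trans ?_ (sum_le_sum fun e _ => h4 e)
    rw [← sum_div, sum_sub_distrib, sum_const, card_univ, nsmul_eq_mul, ← hN, mul_div_assoc']
    refine div_le_div_of_nonneg_right ?_ (Real.sqrt_nonneg _)
    linarith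
  have h5 : ∑ e', ∑ e, kern ψ e' e * ∑ t, squR s.x₀ (s.x (G.src e')) t
        * squR s.x₀ (s.y (G.tgt e)) t
      = ∑ e, ∑ t, prc ψ (fun u => squR s.x₀ (s.x u) t) (G.src e)
        * squR s.x₀ (s.y (G.tgt e)) t := by
    rw [sum_comm]
    refine sum_congr rfl fun e _ => ?_
    simp only [mul_sum]
    rw [sum_comm]
    refine sum_congr rfl fun t _ => ?_
    rw [prc_eq, sum_mul]
    exact sum_congr rfl fun e' _ => by ring
  rw [h5]
  have h6 : σ * (√(∑ e, ∑ t, squR s.x₀ (s.x (G.src e)) t ^ 2)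
      * √(∑ e, ∑ t, squR s.x₀ (s.y (G.tgt e)) t ^ 2)) ≤ σ * N :=
    mul_le_mul_of_nonneg_left h2 hσ
  have h7 := h3.trans h1
  linarith

/-- the expected increase of the collision probabilities -/
lemma gain_dd {σ : ℝ} (hσ : 0 ≤ σ) (hG : G.Expands m σ) (s : G.SDPSolution n)
    (hm : ∀ e b, ∑ a ∈ univ.filter (fun a => G.proj e a = b), s.x (G.src e) a = s.y (G.tgt e) b)
    (hnn : ∀ u v a b, 0 ≤ inner ℝ (s.x u a) (s.y v b))
    {c : ℝ} (hc : ∑ e, kat (s.y (G.tgt e)) ≤ (Fintype.card G.E : ℝ) * c)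
    (hh : 0 ≤ (1 - c) / √2 - σ) :
    (Fintype.card G.E : ℝ) ^ 2 * ((1 - c) / √2 - σ) ^ 2
      ≤ 9 * m * ∑ e', ∑ e, dd (s.x (G.src e')) (s.y (G.tgt e)) := by
  obtain ⟨r, ψ, hr, h1, h2⟩ := exists_onb hG
  have h3 := gain hσ h1 h2 s hm hc
  have h5 := kern_sq ψ h1
  set N : ℝ := (Fintype.card G.E : ℝ) with hN
  have hN0 : 0 < N := by
    rw [hN]
    exact_mod_cast Fintype.card_pos
  have h6 := sum_mul_sq_le_sq_mul_sq univ (fun i : G.E × G.E => kern ψ i.1 i.2)
    (fun i => ∑ t, squR s.x₀ (s.x (G.src i.1)) t * squR s.x₀ (s.y (G.tgt i.2)) t)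
  rw [Fintype.sum_prod_type, Fintype.sum_prod_type, Fintype.sum_prod_type] at h6
  have h7 : ∑ e', ∑ e, (∑ t, squR s.x₀ (s.x (G.src e')) t * squR s.x₀ (s.y (G.tgt e)) t) ^ 2
      ≤ 9 * ∑ e', ∑ e, dd (s.x (G.src e')) (s.y (G.tgt e)) := by
    rw [mul_sum]
    refine sum_le_sum fun e' _ => ?_
    rw [mul_sum]
    refine sum_le_sum fun e _ => ?_
    exact squR_pair (dec_x s _) (dec_y s _) (fun a b => hnn _ _ a b)
  have h8 : (0 : ℝ) ≤ ∑ e', ∑ e,
      (∑ t, squR s.x₀ (s.x (G.src e')) t * squR s.x₀ (s.y (G.tgt e)) t) ^ 2 :=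
    sum_nonneg fun _ _ => sum_nonneg fun _ _ => sq_nonneg _
  calc N ^ 2 * ((1 - c) / √2 - σ) ^ 2 = (N * ((1 - c) / √2 - σ)) ^ 2 := by ring
    _ ≤ (∑ e', ∑ e, kern ψ e' e * ∑ t, squR s.x₀ (s.x (G.src e')) t
        * squR s.x₀ (s.y (G.tgt e)) t) ^ 2 := pow_le_pow_left₀ (by positivity) h3 2
    _ ≤ (r : ℝ) * ∑ e', ∑ e,
      (∑ t, squR s.x₀ (s.x (G.src e')) t * squR s.x₀ (s.y (G.tgt e)) t) ^ 2 := by
        rw [← h5]
        exact h6
    _ ≤ (m : ℝ) * (9 * ∑ e', ∑ e, dd (s.x (G.src e')) (s.y (G.tgt e))) :=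
        mul_le_mul (by exact_mod_cast hr) h7 h8 (by positivity)
    _ = 9 * m * ∑ e', ∑ e, dd (s.x (G.src e')) (s.y (G.tgt e)) := by ring

/-- independent labels satisfy many edges if the collision probabilities in `U` are large -/
lemma value_ge_kap (s : G.SDPSolution n)
    (hm : ∀ e b, ∑ a ∈ univ.filter (fun a => G.proj e a = b), s.x (G.src e) a = s.y (G.tgt e) b) :
    ∑ e, kap (s.x (G.src e)) ≤ G.value * (Fintype.card G.E : ℝ) := by
  have h1 := frac_le_value G (fun u a => ‖s.x u a‖ ^ 2) (fun v b => ‖s.y v b‖ ^ 2)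
    (fun u a => sq_nonneg _) (fun u => (sdp_sum_x s u).le) (fun v b => sq_nonneg _)
    (fun v => (sdp_sum_y s v).le) (sdp_q_pos s)
  rw [Nat.card_eq_fintype_card] at h1
  refine le_trans (sum_le_sum fun e _ => ?_) h1
  unfold kap
  refine sum_le_sum fun a _ => ?_
  rw [sq (‖s.x (G.src e) a‖ ^ 2)]
  refine mul_le_mul_of_nonneg_left ?_ (sq_nonneg _)
  rw [norm_fibre s hm]
  exact single_le_sum (f := fun a => ‖s.x (G.src e) a‖ ^ 2) (fun _ _ => sq_nonneg _)
    (mem_filter.mpr ⟨mem_univ a, rfl⟩)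

/-- independent labels satisfy many edges if the collision probabilities in `V` are large -/
lemma value_ge_kap_y (s : G.SDPSolution n)
    (hm : ∀ e b, ∑ a ∈ univ.filter (fun a => G.proj e a = b), s.x (G.src e) a = s.y (G.tgt e) b) :
    ∑ e, kap (s.y (G.tgt e)) ≤ G.value * (Fintype.card G.E : ℝ) := by
  have h1 := frac_le_value G (fun u a => ‖s.x u a‖ ^ 2) (fun v b => ‖s.y v b‖ ^ 2)
    (fun u a => sq_nonneg _) (fun u => (sdp_sum_x s u).le) (fun v b => sq_nonneg _)
    (fun v => (sdp_sum_y s v).le) (sdp_q_pos s)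
  rw [Nat.card_eq_fintype_card] at h1
  refine le_trans (le_of_eq (sum_congr rfl fun e _ => ?_)) h1
  unfold kap
  rw [← sum_fiberwise univ (G.proj e)
    fun a => ‖s.x (G.src e) a‖ ^ 2 * ‖s.y (G.tgt e) (G.proj e a)‖ ^ 2]
  refine sum_congr rfl fun b _ => ?_
  rw [sum_congr rfl fun a ha => by rw [(mem_filter.mp ha).2], ← sum_mul, ← norm_fibre s hm, sq]

/-- the inequality of Cauchy and Schwarz for the sums of the cubes -/
lemma kat_le_value (s : G.SDPSolution n)
    (hm : ∀ e b, ∑ a ∈ univ.filter (fun a => G.proj e a = b), s.x (G.src e) a = s.y (G.tgt e) b)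
    {c : ℝ} (hc0 : 0 ≤ c)
    (hc : (Fintype.card G.E : ℝ) * c ≤ ∑ e, kat (s.y (G.tgt e))) : c ^ 2 ≤ G.value := by
  set N : ℝ := (Fintype.card G.E : ℝ) with hN
  have hN0 : 0 < N := by
    rw [hN]
    exact_mod_cast Fintype.card_pos
  have h1 : (∑ e, kat (s.y (G.tgt e))) ^ 2 ≤ N * ∑ e, kat (s.y (G.tgt e)) ^ 2 := by
    have h2 := sum_mul_sq_le_sq_mul_sq univ (fun _ : G.E => (1 : ℝ))
      (fun e => kat (s.y (G.tgt e)))
    simp only [one_mul, one_pow, sum_const, card_univ, nsmul_eq_mul, mul_one] at h2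
    exact h2
  have h2 : ∑ e, kat (s.y (G.tgt e)) ^ 2 ≤ G.value * N :=
    (sum_le_sum fun e _ => (dec_y s _).kat_sq).trans (value_ge_kap_y s hm)
  have h3 : (N * c) ^ 2 ≤ (∑ e, kat (s.y (G.tgt e))) ^ 2 := pow_le_pow_left₀ (by positivity) hc 2
  have h4 : (N * c) ^ 2 ≤ N * (G.value * N) :=
    h3.trans (h1.trans (mul_le_mul_of_nonneg_left h2 hN0.le))
  have h5 : N ^ 2 * c ^ 2 ≤ N ^ 2 * G.value := by
    refine le_trans (le_of_eq ?_) (h4.trans (le_of_eq ?_)) <;> ring
  exact le_of_mul_le_mul_left h5 (by positivity)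

/-- labels which are independent given the label of one vertex -/
lemma value_ge_dd (s : G.SDPSolution n)
    (hm : ∀ e b, ∑ a ∈ univ.filter (fun a => G.proj e a = b), s.x (G.src e) a = s.y (G.tgt e) b)
    (hnn : ∀ u v a b, 0 ≤ inner ℝ (s.x u a) (s.y v b))
    (hyy : ∀ v b v' b', 0 ≤ inner ℝ (s.y v b) (s.y v' b')) (v : G.V) :
    ∑ e, dd (s.x (G.src e)) (s.y v) ≤ G.value * (Fintype.card G.E : ℝ) := by
  have hv0 : 0 ≤ G.value * (Fintype.card G.E : ℝ) :=
    (sum_nonneg fun _ _ => kap_nonneg _).trans (value_ge_kap s hm)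
  -- the labels given the label `b` of `v`
  have h1 : ∀ b, ∑ e, ∑ a, inner ℝ (s.x (G.src e) a) (s.y v b) ^ 2 / ‖s.y v b‖ ^ 2
      ≤ ‖s.y v b‖ ^ 2 * (G.value * (Fintype.card G.E : ℝ)) := by
    intro b
    rcases (sq_nonneg ‖s.y v b‖).eq_or_lt with h0 | h0
    · rw [← h0, zero_mul]
      simp
    · have h2 := frac_le_value G (fun u a => inner ℝ (s.x u a) (s.y v b) / ‖s.y v b‖ ^ 2)
        (fun v' b' => inner ℝ (s.y v' b') (s.y v b) / ‖s.y v b‖ ^ 2)
        (fun u a => div_nonneg (hnn _ _ _ _) h0.le)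
        (fun u => by
          rw [← sum_div, (dec_y s v).sum_inner_left (dec_x s u), div_self h0.ne'])
        (fun v' b' => div_nonneg (hyy _ _ _ _) h0.le)
        (fun v' => by
          rw [← sum_div, (dec_y s v).sum_inner_left (dec_y s v'), div_self h0.ne'])
        (sdp_q_pos s)
      rw [Nat.card_eq_fintype_card] at h2
      have h3 : ∀ e a, (inner ℝ (s.x (G.src e) a) (s.y v b) / ‖s.y v b‖ ^ 2) ^ 2
          ≤ inner ℝ (s.x (G.src e) a) (s.y v b) / ‖s.y v b‖ ^ 2
            * (inner ℝ (s.y (G.tgt e) (G.proj e a)) (s.y v b) / ‖s.y v b‖ ^ 2) := by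
        intro e a
        rw [sq]
        refine mul_le_mul_of_nonneg_left ?_ (div_nonneg (hnn _ _ _ _) h0.le)
        refine div_le_div_of_nonneg_right ?_ h0.le
        rw [← hm, sum_inner]
        exact single_le_sum (f := fun a => inner ℝ (s.x (G.src e) a) (s.y v b))
          (fun _ _ => hnn _ _ _ _) (mem_filter.mpr ⟨mem_univ a, rfl⟩)
      have h4 := (sum_le_sum fun e (_ : e ∈ univ) => sum_le_sum fun a (_ : a ∈ univ) =>
        h3 e a).trans h2
      have h5 : ∑ e, ∑ a, inner ℝ (s.x (G.src e) a) (s.y v b) ^ 2 / ‖s.y v b‖ ^ 2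
          = ‖s.y v b‖ ^ 2
            * ∑ e, ∑ a, (inner ℝ (s.x (G.src e) a) (s.y v b) / ‖s.y v b‖ ^ 2) ^ 2 := by
        rw [mul_sum]
        refine sum_congr rfl fun e _ => ?_
        rw [mul_sum]
        refine sum_congr rfl fun a _ => ?_
        have := h0.ne'
        field_simp
      rw [h5]
      exact mul_le_mul_of_nonneg_left h4 h0.le
  have h2 := sum_le_sum fun b (_ : b ∈ univ) => h1 b
  rw [← sum_mul, sdp_sum_y, one_mul, sum_comm] at h2
  refine le_trans (sum_le_sum fun e _ => ?_) h2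
  rw [sum_comm, dd_eq (dec_x s _) (dec_y s v) (fun a b => hnn _ _ a b)]
  linarith [kap_nonneg (s.x (G.src e))]

end gain

open scoped MatrixOrder ComplexOrder Matrix.Norms.L2Operator in
/-- vectors with a given positive semidefinite matrix of scalar products -/
lemma exists_gram {I : Type} [Fintype I] [DecidableEq I] (M : Matrix I I ℝ)
    (hs : ∀ i j, M i j = M j i) (hp : ∀ c : I → ℝ, 0 ≤ ∑ i, ∑ j, c i * c j * M i j) :
    ∃ (n : ℕ) (z : I → EE n), ∀ i j, inner ℝ (z i) (z j) = M i j := by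
  have hM : M.PosSemidef := by
    refine Matrix.PosSemidef.of_dotProduct_mulVec_nonneg ?_ ?_
    · ext i j
      exact hs j i
    · intro c
      have h1 : star c ⬝ᵥ M.mulVec c = ∑ i, ∑ j, c i * c j * M i j := by
        unfold dotProduct Matrix.mulVec dotProduct
        refine sum_congr rfl fun i _ => ?_
        rw [mul_sum]
        refine sum_congr rfl fun j _ => ?_
        simp only [star_trivial]
        ring
      rw [h1]
      exact hp c
  obtain ⟨B, hB⟩ := CStarAlgebra.nonneg_iff_eq_star_mul_self.mp hM.nonneg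
  refine ⟨Fintype.card I, fun i => WithLp.toLp 2 fun l => B ((Fintype.equivFin I).symm l) i, ?_⟩
  intro i j
  rw [inner_EE, hB]
  show ∑ l, B ((Fintype.equivFin I).symm l) i * B ((Fintype.equivFin I).symm l) j
    = (star B * B) i j
  rw [Matrix.mul_apply]
  exact Fintype.sum_equiv (Fintype.equivFin I).symm _ _ fun l => rfl

section hier

open Classical

variable {t : ℕ} (s : G.LevelSolution t)

/-- the vectors of a conditional solution -/
lemma exists_cond {S : Finset ((G.U ⊕ G.V) × Fin q)} (hS : S.card ≤ t) (hy : 0 < s.y S) :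
    ∃ (n : ℕ) (τ : G.SDPSolution n),
      (∀ e b, ∑ a ∈ univ.filter (fun a => G.proj e a = b), τ.x (G.src e) a
        = τ.y (G.tgt e) b) ∧
      (∀ u a, ‖τ.x u a‖ ^ 2 = s.y (insert (Sum.inl u, a) S) / s.y S) ∧
      (∀ v b, ‖τ.y v b‖ ^ 2 = s.y (insert (Sum.inr v, b) S) / s.y S) ∧
      (∀ u a v b, inner ℝ (τ.x u a) (τ.y v b)
        = s.y (insert (Sum.inl u, a) (insert (Sum.inr v, b) S)) / s.y S) ∧
      (∀ v b v' b', 0 ≤ inner ℝ (τ.y v b) (τ.y v' b')) := by
  have hcard : ∀ (i : (G.U ⊕ G.V) × Fin q) (R : Finset ((G.U ⊕ G.V) × Fin q)),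
      (insert i R).card ≤ R.card + 1 := fun i R => card_insert_le i R
  obtain ⟨n, z, hz⟩ := exists_gram (I := (G.U ⊕ G.V) × Fin q)
    (fun i j => s.y (insert i (insert j S)) / s.y S)
    (fun i j => by
      show s.y (insert i (insert j S)) / s.y S = s.y (insert j (insert i S)) / s.y S
      rw [Finset.insert_comm])
    (fun c => by
      have h1 := s.psd S hS c
      have h2 : ∑ i, ∑ j, c i * c j * (s.y (insert i (insert j S)) / s.y S)
          = (∑ i, ∑ j, c i * c j * s.y (insert i (insert j S))) / s.y S := by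
        rw [sum_div]
        refine sum_congr rfl fun i _ => ?_
        rw [sum_div]
        exact sum_congr rfl fun j _ => by ring
      show 0 ≤ ∑ i, ∑ j, c i * c j * (s.y (insert i (insert j S)) / s.y S)
      rw [h2]
      exact div_nonneg h1 hy.le)
  have hdiag : ∀ i, ‖z i‖ ^ 2 = s.y (insert i S) / s.y S := by
    intro i
    rw [← real_inner_self_eq_norm_sq, hz, insert_idem]
  have horth : ∀ x a b, a ≠ b → inner ℝ (z (x, a)) (z (x, b)) = (0 : ℝ) := by
    intro x a b hab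
    rw [hz, s.conflict _ x a b hab (mem_insert_self _ _)
      (mem_insert_of_mem (mem_insert_self _ _)), zero_div]
  have hsum : ∀ x j, ∑ a, inner ℝ (z (x, a)) (z j) = s.y (insert j S) / s.y S := by
    intro x j
    rw [sum_congr rfl fun a _ => hz (x, a) j, ← sum_div, s.sum]
    exact (hcard j S).trans (by omega)
  have hone : ∀ x, ∑ a, s.y (insert (x, a) S) / s.y S = 1 := by
    intro x
    rw [← sum_div, s.sum _ _ (by omega), div_self hy.ne']
  have hip : ∀ x w, inner ℝ (∑ a, z (x, a)) (∑ b, z (w, b)) = (1 : ℝ) := by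
    intro x w
    rw [inner_sum, ← hone w]
    refine sum_congr rfl fun b _ => ?_
    rw [sum_inner, hsum]
  have heq : ∀ x w, ∑ a, z (x, a) = ∑ b, z (w, b) := by
    intro x w
    have h1 : inner ℝ (∑ a, z (x, a) - ∑ b, z (w, b)) (∑ a, z (x, a) - ∑ b, z (w, b))
        = (0 : ℝ) := by
      rw [inner_sub_left, inner_sub_right, inner_sub_right, hip, hip, hip, hip]
      norm_num
    exact sub_eq_zero.mp (inner_self_eq_zero.mp h1)
  obtain ⟨e₀⟩ := G.neE
  have hnn : ∀ i j, 0 ≤ inner ℝ (z i) (z j) := by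
    intro i j
    rw [hz]
    refine div_nonneg (s.nonneg _ ?_) hy.le
    have h1 := hcard i (insert j S)
    have h2 := hcard j S
    omega
  let τ : G.SDPSolution n :=
    { x₀ := ∑ a, z (Sum.inl (G.src e₀), a)
      x := fun u a => z (Sum.inl u, a)
      y := fun v b => z (Sum.inr v, b)
      norm_x₀ := by
        have h1 := hip (Sum.inl (G.src e₀)) (Sum.inl (G.src e₀))
        rw [real_inner_self_eq_norm_sq] at h1
        exact (pow_eq_one_iff_of_nonneg (norm_nonneg _) two_ne_zero).mp h1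
      sum_x := fun u => heq _ _
      sum_y := fun v => heq _ _
      orth_x := fun u a a' h => horth _ _ _ h
      orth_y := fun v b b' h => horth _ _ _ h
      nonneg := fun e a b => hnn _ _ }
  refine ⟨n, τ, ?_, fun u a => hdiag _, fun v b => hdiag _, fun u a v b => hz _ _,
    fun v b v' b' => hnn _ _⟩
  intro e b
  have hpa : ∀ a, G.proj e a = b →
      inner ℝ (z (Sum.inl (G.src e), a)) (z (Sum.inr (G.tgt e), b))
        = ‖z (Sum.inl (G.src e), a)‖ ^ 2 := by
    intro a ha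
    rw [hdiag, ← hsum (Sum.inr (G.tgt e)) (Sum.inl (G.src e), a),
      sum_eq_single_of_mem b (mem_univ _), real_inner_comm]
    intro b' _ hb'
    rw [hz, s.edge _ e a b' (by rw [ha]; exact Ne.symm hb')
      (mem_insert_of_mem (mem_insert_self _ _)) (mem_insert_self _ _), zero_div]
  have hq : ‖z (Sum.inr (G.tgt e), b)‖ ^ 2
      = ∑ a ∈ univ.filter (fun a => G.proj e a = b), ‖z (Sum.inl (G.src e), a)‖ ^ 2 := by
    rw [hdiag, ← hsum (Sum.inl (G.src e)) (Sum.inr (G.tgt e), b), sum_filter]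
    refine sum_congr rfl fun a _ => ?_
    split_ifs with ha
    · exact hpa a ha
    · rw [hz, s.edge _ e a b ha (mem_insert_self _ _)
        (mem_insert_of_mem (mem_insert_self _ _)), zero_div]
  have h1 : inner ℝ (∑ a ∈ univ.filter (fun a => G.proj e a = b), z (Sum.inl (G.src e), a)
        - z (Sum.inr (G.tgt e), b))
      (∑ a ∈ univ.filter (fun a => G.proj e a = b), z (Sum.inl (G.src e), a)
        - z (Sum.inr (G.tgt e), b)) = (0 : ℝ) := by
    have h2 : Orth (fun a => z (Sum.inl (G.src e), a)) := fun a a' h => horth _ _ _ h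
    have h3 : inner ℝ (∑ a ∈ univ.filter (fun a => G.proj e a = b), z (Sum.inl (G.src e), a))
        (z (Sum.inr (G.tgt e), b)) = ‖z (Sum.inr (G.tgt e), b)‖ ^ 2 := by
      rw [sum_inner, hq]
      exact sum_congr rfl fun a ha => hpa a (mem_filter.mp ha).2
    have h4 := h2.norm_sum (univ.filter (fun a => G.proj e a = b))
    rw [inner_sub_left, inner_sub_right, inner_sub_right, h4, h3,
      real_inner_comm (∑ a ∈ univ.filter (fun a => G.proj e a = b), z (Sum.inl (G.src e), a))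
        (z (Sum.inr (G.tgt e), b)), h3, real_inner_self_eq_norm_sq, hq]
    ring
  exact sub_eq_zero.mp (inner_self_eq_zero.mp h1)

/-- the sum of the conditional collision probabilities -/
noncomputable def phi (S : Finset ((G.U ⊕ G.V) × Fin q)) : ℝ :=
  ∑ e, ∑ a, (s.y (insert (Sum.inl (G.src e), a) S) / s.y S) ^ 2

/-- the sum of the conditional sums of the cubes in `V` -/
noncomputable def cubes (S : Finset ((G.U ⊕ G.V) × Fin q)) : ℝ :=
  ∑ e, ∑ b, √(s.y (insert (Sum.inr (G.tgt e), b) S) / s.y S) ^ 3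

/-- one step of conditioning -/
lemma step {m : ℕ} {σ : ℝ} (hσ : 0 ≤ σ) (hG : G.Expands m σ)
    {S : Finset ((G.U ⊕ G.V) × Fin q)} (hS : S.card ≤ t) (hy : 0 < s.y S) {c : ℝ}
    (hc : cubes s S ≤ (Fintype.card G.E : ℝ) * c) (hh : 0 ≤ (1 - c) / √2 - σ) :
    ∃ S', S'.card ≤ S.card + 1 ∧ 0 < s.y S' ∧
      (Fintype.card G.E : ℝ) * ((1 - c) / √2 - σ) ^ 2 ≤ 9 * m * (phi s S' - phi s S) := by
  obtain ⟨n, τ, hm, hx, hv, hxv, -⟩ := exists_cond s hS hy
  have hcard : ∀ (i : (G.U ⊕ G.V) × Fin q) (R : Finset ((G.U ⊕ G.V) × Fin q)),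
      (insert i R).card ≤ R.card + 1 := fun i R => card_insert_le i R
  have hnn : ∀ u v a b, 0 ≤ inner ℝ (τ.x u a) (τ.y v b) := by
    intro u v a b
    rw [hxv]
    refine div_nonneg (s.nonneg _ ?_) hy.le
    have h1 := hcard (Sum.inl u, a) (insert (Sum.inr v, b) S)
    have h2 := hcard (Sum.inr v, b) S
    omega
  have hphi : phi s S = ∑ e, kap (τ.x (G.src e)) := by
    unfold phi kap
    refine sum_congr rfl fun e _ => sum_congr rfl fun a _ => ?_
    rw [hx]
  have hpsi : cubes s S = ∑ e, kat (τ.y (G.tgt e)) := by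
    unfold cubes kat
    refine sum_congr rfl fun e _ => sum_congr rfl fun b _ => ?_
    rw [← hv, Real.sqrt_sq (norm_nonneg _)]
  have hdd := gain_dd hσ hG τ hm hnn (by rw [← hpsi]; exact hc) hh
  set h : ℝ := (1 - c) / √2 - σ with hdef
  set N : ℝ := (Fintype.card G.E : ℝ) with hN
  have hN0 : 0 < N := by
    rw [hN]
    exact_mod_cast Fintype.card_pos
  -- the expected value after conditioning on the label of a vertex
  have hexp : ∀ v, ∑ b, ‖τ.y v b‖ ^ 2 * phi s (insert (Sum.inr v, b) S)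
      = ∑ e, (kap (τ.x (G.src e)) + dd (τ.x (G.src e)) (τ.y v)) := by
    intro v
    have h1 : ∀ b, ‖τ.y v b‖ ^ 2 * phi s (insert (Sum.inr v, b) S)
        = ∑ e, ∑ a, inner ℝ (τ.x (G.src e) a) (τ.y v b) ^ 2 / ‖τ.y v b‖ ^ 2 := by
      intro b
      unfold phi
      rw [mul_sum]
      refine sum_congr rfl fun e _ => ?_
      rw [mul_sum]
      refine sum_congr rfl fun a _ => ?_
      rw [hxv, hv]
      by_cases h0 : s.y (insert (Sum.inr v, b) S) = 0
      · rw [h0]
        simp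
      · have hy' := hy.ne'
        field_simp
    rw [sum_congr rfl fun b _ => h1 b, sum_comm]
    refine sum_congr rfl fun e _ => ?_
    rw [sum_comm]
    exact dd_eq (dec_x τ _) (dec_y τ v) (fun a b => hnn _ _ a b)
  by_contra hcon
  push Not at hcon
  have hlt : ∀ (e' : G.E) (b : Fin q), 0 < ‖τ.y (G.tgt e') b‖ ^ 2 →
      9 * m * (phi s (insert (Sum.inr (G.tgt e'), b) S) - phi s S) < N * h ^ 2 := by
    intro e' b hb
    refine hcon _ (hcard _ _) ?_
    rw [hv] at hb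
    have h1 := (div_pos_iff_of_pos_right hy).mp hb
    exact h1
  have h1 : ∑ e', ∑ b, ‖τ.y (G.tgt e') b‖ ^ 2
      * (9 * m * (phi s (insert (Sum.inr (G.tgt e'), b) S) - phi s S))
      < ∑ e' : G.E, ∑ b, ‖τ.y (G.tgt e') b‖ ^ 2 * (N * h ^ 2) := by
    have hle : ∀ (e' : G.E) (b : Fin q), ‖τ.y (G.tgt e') b‖ ^ 2
      * (9 * m * (phi s (insert (Sum.inr (G.tgt e'), b) S) - phi s S))
      ≤ ‖τ.y (G.tgt e') b‖ ^ 2 * (N * h ^ 2) := by
      intro e' b
      rcases (sq_nonneg ‖τ.y (G.tgt e') b‖).eq_or_lt with h0 | h0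
      · rw [← h0, zero_mul, zero_mul]
      · exact mul_le_mul_of_nonneg_left (hlt e' b h0).le h0.le
    obtain ⟨e₀⟩ := G.neE
    refine sum_lt_sum (fun e' _ => sum_le_sum fun b _ => hle e' b) ⟨e₀, mem_univ _, ?_⟩
    have hex : ∃ b, 0 < ‖τ.y (G.tgt e₀) b‖ ^ 2 := by
      by_contra hall
      push Not at hall
      have h2 := sdp_sum_y τ (G.tgt e₀)
      have h3 : ∑ b, ‖τ.y (G.tgt e₀) b‖ ^ 2 ≤ 0 := sum_nonpos fun b _ => hall b
      linarith
    obtain ⟨b, hb⟩ := hex
    exact sum_lt_sum (fun b _ => hle e₀ b)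
      ⟨b, mem_univ _, mul_lt_mul_of_pos_left (hlt e₀ b hb) hb⟩
  have h2 : ∑ e' : G.E, ∑ b, ‖τ.y (G.tgt e') b‖ ^ 2 * (N * h ^ 2) = N ^ 2 * h ^ 2 := by
    simp only [← sum_mul, sdp_sum_y, one_mul, sum_const, card_univ, nsmul_eq_mul]
    rw [← hN]
    ring
  have h3 : ∑ e', ∑ b, ‖τ.y (G.tgt e') b‖ ^ 2
      * (9 * m * (phi s (insert (Sum.inr (G.tgt e'), b) S) - phi s S))
      = 9 * m * ∑ e', ∑ e, dd (τ.x (G.src e')) (τ.y (G.tgt e)) := by
    have h4 : ∀ e', ∑ b, ‖τ.y (G.tgt e') b‖ ^ 2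
        * (9 * m * (phi s (insert (Sum.inr (G.tgt e'), b) S) - phi s S))
        = 9 * m * ∑ e, dd (τ.x (G.src e)) (τ.y (G.tgt e')) := by
      intro e'
      have h5 : ∀ b, ‖τ.y (G.tgt e') b‖ ^ 2
          * (9 * m * (phi s (insert (Sum.inr (G.tgt e'), b) S) - phi s S))
          = 9 * m * (‖τ.y (G.tgt e') b‖ ^ 2 * phi s (insert (Sum.inr (G.tgt e'), b) S)
            - ‖τ.y (G.tgt e') b‖ ^ 2 * phi s S) := fun b => by ring
      rw [sum_congr rfl fun b _ => h5 b, ← mul_sum, sum_sub_distrib, hexp, ← sum_mul, sdp_sum_y,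
        one_mul, sum_add_distrib, ← hphi, add_sub_cancel_left]
    rw [sum_congr rfl fun e' _ => h4 e', ← mul_sum, sum_comm]
  rw [h2, h3] at h1
  exact absurd hdd (not_le.mpr h1)

lemma phi_nonneg (S : Finset ((G.U ⊕ G.V) × Fin q)) : 0 ≤ phi s S :=
  sum_nonneg fun _ _ => sum_nonneg fun _ _ => sq_nonneg _

/-- many steps of conditioning -/
lemma steps {m : ℕ} {σ : ℝ} (hσ : 0 ≤ σ) (hG : G.Expands m σ) {c : ℝ}
    (hh : 0 ≤ (1 - c) / √2 - σ) (j : ℕ) (hj : j ≤ t) :
    ∃ S : Finset ((G.U ⊕ G.V) × Fin q), S.card ≤ j ∧ 0 < s.y S ∧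
      ((Fintype.card G.E : ℝ) * c ≤ cubes s S ∨
        j * ((Fintype.card G.E : ℝ) * ((1 - c) / √2 - σ) ^ 2) ≤ 9 * m * phi s S) := by
  induction j with
  | zero =>
    refine ⟨∅, by simp, by rw [s.empty]; norm_num, Or.inr ?_⟩
    have := phi_nonneg s ∅
    rw [Nat.cast_zero, zero_mul]
    positivity
  | succ j ih =>
    obtain ⟨S, hS, hy, h⟩ := ih (by omega)
    rcases h with h | h
    · exact ⟨S, hS.trans (Nat.le_succ j), hy, Or.inl h⟩
    · rcases le_total ((Fintype.card G.E : ℝ) * c) (cubes s S) with h1 | h1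
      · exact ⟨S, hS.trans (Nat.le_succ j), hy, Or.inl h1⟩
      · obtain ⟨S', hS', hy', h2⟩ := step s hσ hG (by omega) hy h1 hh
        refine ⟨S', by omega, hy', Or.inr ?_⟩
        push_cast
        linarith

omit s in
/-- there is at least one large singular value -/
lemma one_le_of_expands {m : ℕ} {σ : ℝ} (hG : G.Expands m σ)
    (hc : 0 ≤ 1 - √2 * σ) : 1 ≤ m := by
  have hr1 : 1 < √2 := by
    rw [Real.lt_sqrt (by norm_num)]
    norm_num
  set N : ℝ := (Fintype.card G.E : ℝ) with hN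
  have hN0 : 0 < N := by
    rw [hN]
    exact_mod_cast Fintype.card_pos
  by_contra hm
  have hm0 : m = 0 := by omega
  subst hm0
  obtain ⟨φ, hφ⟩ := hG
  have h1 := hφ (fun _ => 1) (fun _ => 1) (fun i => i.elim0)
  simp only [mul_one, one_pow, sum_const, card_univ, nsmul_eq_mul] at h1
  rw [← hN, Real.mul_self_sqrt hN0.le] at h1
  have h2 : 1 ≤ σ := by
    by_contra h3
    nlinarith
  nlinarith

include s in
/-- sufficiently high levels of the hierarchy approximate games with few large singular values -/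
theorem value_ge_of_level {m : ℕ} {σ ε : ℝ} (hσ : 0 ≤ σ) (hε : 0 ≤ ε) (hc : 0 ≤ 1 - √2 * σ - ε)
    (hG : G.Expands m σ) (ht : 18 * m ≤ ε ^ 2 * t) : (1 - √2 * σ - ε) ^ 2 ≤ G.value := by
  have hr : √2 ^ 2 = (2 : ℝ) := Real.sq_sqrt (by norm_num)
  have hr0 : 0 < √2 := Real.sqrt_pos.mpr (by norm_num)
  set N : ℝ := (Fintype.card G.E : ℝ) with hN
  have hN0 : 0 < N := by
    rw [hN]
    exact_mod_cast Fintype.card_pos
  have hm : 1 ≤ m := one_le_of_expands hG (by linarith)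
  have hm' : (1 : ℝ) ≤ m := by exact_mod_cast hm
  have e1 : (1 - (1 - √2 * σ - ε)) / √2 - σ = ε / √2 := by
    field_simp
    ring
  obtain ⟨S, hS, hy, hor⟩ := steps s hσ hG (c := 1 - √2 * σ - ε) (by rw [e1]; positivity) t le_rfl
  rw [e1, ← hN] at hor
  obtain ⟨n, τ, hm2, hx, hv, hxv, -⟩ := exists_cond s hS hy
  rcases hor with h1 | h1
  · have hpsi : cubes s S = ∑ e, kat (τ.y (G.tgt e)) := by
      unfold cubes kat
      refine sum_congr rfl fun e _ => sum_congr rfl fun b _ => ?_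
      rw [← hv, Real.sqrt_sq (norm_nonneg _)]
    rw [hpsi] at h1
    exact kat_le_value τ hm2 hc h1
  · have hphi : phi s S = ∑ e, kap (τ.x (G.src e)) := by
      unfold phi kap
      refine sum_congr rfl fun e _ => sum_congr rfl fun a _ => ?_
      rw [hx]
    have h2 := value_ge_kap τ hm2
    rw [← hphi, ← hN] at h2
    have h3 : (t : ℝ) * (N * (ε / √2) ^ 2) = N / 2 * (ε ^ 2 * t) := by
      rw [div_pow, hr]
      ring
    rw [h3] at h1
    have h4 : N / 2 * (18 * m) ≤ 9 * m * phi s S :=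
      (mul_le_mul_of_nonneg_left ht (by positivity)).trans h1
    have h5 : (9 * m) * N ≤ (9 * m) * phi s S := by
      refine le_trans (le_of_eq ?_) h4
      ring
    have h6 : N ≤ phi s S := le_of_mul_le_mul_left h5 (by linarith)
    have h7 : 1 * N ≤ G.value * N := by
      rw [one_mul]
      exact h6.trans h2
    have h8 : 1 ≤ G.value := le_of_mul_le_mul_right h7 hN0
    have h9 : 1 - √2 * σ - ε ≤ 1 := by
      have := mul_nonneg hr0.le hσ
      linarith
    nlinarith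

include s in
/-- the lowest level of the hierarchy -/
theorem value_ge_of_level_zero {m : ℕ} {σ : ℝ} (hσ : 0 ≤ σ) (hc : 0 ≤ 1 - √2 * σ)
    (hG : G.Expands m σ) : (1 - √2 * σ) ^ 2 ≤ 72 * m * G.value := by
  have hr : √2 ^ 2 = (2 : ℝ) := Real.sq_sqrt (by norm_num)
  have hr0 : 0 < √2 := Real.sqrt_pos.mpr (by norm_num)
  obtain ⟨n, τ, hm2, hx, hv, hxv, hyy⟩ := exists_cond s (S := ∅) (by simp)
    (by rw [s.empty]; norm_num)
  set N : ℝ := (Fintype.card G.E : ℝ) with hN
  have hN0 : 0 < N := by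
    rw [hN]
    exact_mod_cast Fintype.card_pos
  have hm' : (1 : ℝ) ≤ m := by exact_mod_cast one_le_of_expands hG hc
  have hnn : ∀ u v a b, 0 ≤ inner ℝ (τ.x u a) (τ.y v b) := by
    intro u v a b
    rw [hxv]
    refine div_nonneg (s.nonneg _ ?_) (by rw [s.empty]; norm_num)
    have h1 := card_insert_le ((Sum.inl u : G.U ⊕ G.V), a)
      (insert ((Sum.inr v : G.U ⊕ G.V), b) (∅ : Finset ((G.U ⊕ G.V) × Fin q)))
    have h2 := card_insert_le ((Sum.inr v : G.U ⊕ G.V), b)
      (∅ : Finset ((G.U ⊕ G.V) × Fin q))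
    rw [card_empty] at h2
    omega
  have hv0 : 0 ≤ G.value := by
    have h1 := (sum_nonneg fun _ _ => kap_nonneg _).trans (value_ge_kap τ hm2)
    rw [← hN] at h1
    by_contra h2
    nlinarith
  rcases le_total (N * ((1 - √2 * σ) / 2)) (∑ e, kat (τ.y (G.tgt e))) with h1 | h1
  · have h2 := kat_le_value τ hm2 (by positivity) h1
    nlinarith
  · have e1 : (1 - (1 - √2 * σ) / 2) / √2 - σ = (1 - √2 * σ) / (2 * √2) := by
      field_simp
      ring
    have h2 := gain_dd hσ hG τ hm2 hnn h1 (by rw [e1]; positivity)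
    have h3 : ∑ e', ∑ e, dd (τ.x (G.src e')) (τ.y (G.tgt e)) ≤ N * (G.value * N) := by
      rw [sum_comm]
      refine (sum_le_sum fun e _ => value_ge_dd τ hm2 hnn hyy (G.tgt e)).trans (le_of_eq ?_)
      rw [sum_const, card_univ, nsmul_eq_mul]
    rw [e1, ← hN, div_pow, mul_pow, hr] at h2
    have h4 : N ^ 2 * (1 - √2 * σ) ^ 2 ≤ N ^ 2 * (72 * m * G.value) := by
      have h5 : 9 * (m : ℝ) * ∑ e', ∑ e, dd (τ.x (G.src e')) (τ.y (G.tgt e))
          ≤ 9 * m * (N * (G.value * N)) := mul_le_mul_of_nonneg_left h3 (by positivity)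
      have h6 := h2.trans h5
      nlinarith
    exact le_of_mul_le_mul_left h4 (by positivity)

end hier

/-- a game of value one has a labeling which satisfies all edges -/
lemma exists_labeling (h : G.value = 1) : ∃ (LU : G.U → Fin q) (LV : G.V → Fin q),
    ∀ e, G.proj e (LU (G.src e)) = LV (G.tgt e) := by
  by_cases hne : Nonempty ((G.U → Fin q) × (G.V → Fin q))
  · obtain ⟨L, hL⟩ := exists_eq_ciSup_of_finite
      (f := fun L : (G.U → Fin q) × (G.V → Fin q) =>
        (Nat.card (G.satisfied L.1 L.2) : ℝ) / (Nat.card G.E : ℝ))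
    have h1 : (Nat.card (G.satisfied L.1 L.2) : ℝ) / (Nat.card G.E : ℝ) = 1 := hL.trans h
    have h2 : (0 : ℝ) < (Nat.card G.E : ℝ) := by
      exact_mod_cast Nat.card_pos
    rw [div_eq_one_iff_eq h2.ne'] at h1
    have h3 : Nat.card (G.satisfied L.1 L.2) = Nat.card G.E := by exact_mod_cast h1
    have h4 : G.satisfied L.1 L.2 = Set.univ := by
      refine Set.eq_of_subset_of_ncard_le (Set.subset_univ _) ?_ Set.finite_univ
      rw [Set.ncard_univ, ← h3, Nat.card_coe_set_eq]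
    refine ⟨L.1, L.2, fun e => ?_⟩
    have h5 : e ∈ G.satisfied L.1 L.2 := by
      rw [h4]
      exact Set.mem_univ e
    exact h5
  · rw [not_nonempty_iff] at hne
    have h1 : G.value = 0 := Real.iSup_of_isEmpty _
    rw [h1] at h
    norm_num at h

open Classical in
/-- every level accepts the games of value one -/
theorem exists_levelSolution (h : G.value = 1) (t : ℕ) : Nonempty (G.LevelSolution t) := by
  obtain ⟨LU, LV, hL⟩ := exists_labeling h
  set L : G.U ⊕ G.V → Fin q := Sum.elim LU LV with hLdef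
  have hins : ∀ (i : (G.U ⊕ G.V) × Fin q) (S : Finset ((G.U ⊕ G.V) × Fin q)),
      (∀ j ∈ insert i S, j.2 = L j.1) ↔ i.2 = L i.1 ∧ ∀ j ∈ S, j.2 = L j.1 := by
    intro i S
    exact forall_mem_insert _ _ _
  refine ⟨⟨fun S => if ∀ i ∈ S, i.2 = L i.1 then 1 else 0, ?_, ?_, ?_, ?_, ?_, ?_⟩⟩
  · simp
  · intro S _
    split_ifs <;> norm_num
  · intro S x _
    simp only [hins]
    by_cases hS : ∀ j ∈ S, j.2 = L j.1
    · rw [if_pos hS, sum_eq_single_of_mem (L x) (mem_univ _)]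
      · rw [if_pos ⟨rfl, hS⟩]
      · intro b _ hb
        rw [if_neg fun h => hb h.1]
    · rw [if_neg hS]
      exact sum_eq_zero fun a _ => if_neg fun h => hS h.2
  · intro S x a b hab ha hb
    refine if_neg fun h => hab ?_
    exact (h _ ha).trans (h _ hb).symm
  · intro S e a b hab ha hb
    refine if_neg fun h => hab ?_
    have h1 : a = LU (G.src e) := h _ ha
    have h2 : b = LV (G.tgt e) := h _ hb
    rw [h1, h2, hL e]
  · intro S _ c
    simp only [hins]
    by_cases hS : ∀ j ∈ S, j.2 = L j.1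
    · have h1 : ∑ i, ∑ j, c i * c j
          * (if i.2 = L i.1 ∧ j.2 = L j.1 ∧ ∀ k ∈ S, k.2 = L k.1 then (1 : ℝ) else 0)
          = (∑ i, c i * if i.2 = L i.1 then (1 : ℝ) else 0)
            * ∑ j, c j * if j.2 = L j.1 then (1 : ℝ) else 0 := by
        rw [sum_mul_sum]
        refine sum_congr rfl fun i _ => sum_congr rfl fun j _ => ?_
        by_cases hi : i.2 = L i.1
        · by_cases hj : j.2 = L j.1
          · rw [if_pos ⟨hi, hj, hS⟩, if_pos hi, if_pos hj]
            ring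
          · rw [if_neg fun h => hj h.2.1, if_neg hj]
            ring
        · rw [if_neg fun h => hi h.1, if_neg hi]
          ring
      rw [h1]
      exact mul_self_nonneg _
    · refine sum_nonneg fun i _ => sum_nonneg fun j _ => ?_
      rw [if_neg fun h => hS h.2.2, mul_zero]

end SDA

end Pool.Agent.MP_ec946a
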