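import Mathlib

/-!
# Averages over the fibres of a map
-/

set_option autoImplicit false

namespace Pool.Agent.MP_ec946a.SDA

open Finset Classical

variable {E X : Type} [Fintype E] (π : E → X)

/-- the kernel of the projection onto the functions of `π` -/
noncomputable def ker (e e' : E) : ℝ :=
  if π e = π e' then ((univ.filter fun e'' => π e'' = π e).card : ℝ)⁻¹ else 0

/-- the average over the elements with the same image -/
noncomputable def av (f : E → ℝ) (e : E) : ℝ := ∑ e', ker π e e' * f e'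

variable {π}

lemma ker_nonneg (e e' : E) : 0 ≤ ker π e e' := by
  unfold ker
  split_ifs
  · positivity
  · exact le_rfl

lemma ker_symm (e e' : E) : ker π e e' = ker π e' e := by
  unfold ker
  by_cases h : π e = π e'
  · rw [if_pos h, if_pos h.symm, h]
  · rw [if_neg h, if_neg fun h' => h h'.symm]

lemma ker_congr {e₁ e₂ : E} (h : π e₁ = π e₂) (e : E) : ker π e₁ e = ker π e₂ e := by
  unfold ker
  rw [h]

lemma card_fibre_pos (e : E) : (0 : ℝ) < ((univ.filter fun e'' => π e'' = π e).card : ℝ) := by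
  have h : 0 < (univ.filter fun e'' => π e'' = π e).card :=
    card_pos.mpr ⟨e, mem_filter.mpr ⟨mem_univ _, rfl⟩⟩
  exact_mod_cast h

lemma sum_ker (e : E) : ∑ e', ker π e e' = 1 := by
  unfold ker
  rw [← sum_filter, sum_const, nsmul_eq_mul]
  have h : (univ.filter fun e' => π e = π e') = univ.filter fun e'' => π e'' = π e := by
    ext e'
    simp only [mem_filter, mem_univ, true_and]
    exact eq_comm
  rw [h]
  exact mul_inv_cancel₀ (card_fibre_pos e).ne'

lemma ker_mul (e e'' : E) : ∑ e', ker π e e' * ker π e' e'' = ker π e e'' := by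
  have h1 : ∀ e', ker π e e' * ker π e' e'' = ker π e e' * ker π e e'' := by
    intro e'
    by_cases h : π e = π e'
    · rw [ker_congr h e'']
    · have h2 : ker π e e' = 0 := if_neg h
      rw [h2, zero_mul, zero_mul]
  rw [sum_congr rfl fun e' _ => h1 e', ← sum_mul, sum_ker, one_mul]

lemma av_congr {e₁ e₂ : E} (h : π e₁ = π e₂) (f : E → ℝ) : av π f e₁ = av π f e₂ := by
  unfold av
  exact sum_congr rfl fun e _ => by rw [ker_congr h]

lemma av_nonneg {f : E → ℝ} (h : ∀ e, 0 ≤ f e) (e : E) : 0 ≤ av π f e :=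
  sum_nonneg fun _ _ => mul_nonneg (ker_nonneg _ _) (h _)

lemma av_adj (f g : E → ℝ) : ∑ e, av π f e * g e = ∑ e, f e * av π g e := by
  unfold av
  simp only [sum_mul, mul_sum]
  rw [sum_comm]
  refine sum_congr rfl fun e _ => sum_congr rfl fun e' _ => ?_
  rw [ker_symm]
  ring

lemma av_av (f : E → ℝ) : av π (av π f) = av π f := by
  funext e
  unfold av
  simp only [mul_sum]
  rw [sum_comm]
  refine sum_congr rfl fun e'' _ => ?_
  rw [← ker_mul, sum_mul]
  exact sum_congr rfl fun e' _ => by ring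

lemma av_of_congr {f : E → ℝ} (h : ∀ e e', π e = π e' → f e = f e') : av π f = f := by
  funext e
  have h1 : ∀ e', ker π e e' * f e' = ker π e e' * f e := by
    intro e'
    by_cases h2 : π e = π e'
    · rw [h e e' h2]
    · have h3 : ker π e e' = 0 := if_neg h2
      rw [h3, zero_mul, zero_mul]
  unfold av
  rw [sum_congr rfl fun e' _ => h1 e', ← sum_mul, sum_ker, one_mul]

lemma sum_av (f : E → ℝ) : ∑ e, av π f e = ∑ e, f e := by
  have h1 := av_adj (π := π) f (fun _ => 1)
  rw [av_of_congr (π := π) (f := fun _ => (1 : ℝ)) fun _ _ _ => rfl] at h1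
  simpa using h1

lemma sum_av_sq (f : E → ℝ) : ∑ e, av π f e ^ 2 = ∑ e, f e * av π f e := by
  have h1 := av_adj (π := π) f (av π f)
  rw [av_av] at h1
  rw [← h1]
  exact sum_congr rfl fun e _ => sq _

lemma sum_av_sq_le (f : E → ℝ) : ∑ e, av π f e ^ 2 ≤ ∑ e, f e ^ 2 := by
  have h1 : 0 ≤ ∑ e, (f e - av π f e) ^ 2 := sum_nonneg fun _ _ => sq_nonneg _
  have h2 : ∑ e, (f e - av π f e) ^ 2
      = ∑ e, f e ^ 2 - 2 * ∑ e, f e * av π f e + ∑ e, av π f e ^ 2 := by
    rw [mul_sum, ← sum_sub_distrib, ← sum_add_distrib]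
    exact sum_congr rfl fun e _ => by ring
  rw [h2, ← sum_av_sq] at h1
  linarith

/-- the spectral decomposition of a symmetric kernel -/
lemma exists_spectral (K : E → E → ℝ) (hK : ∀ e e', K e e' = K e' e) :
    ∃ (ψ : E → E → ℝ) (l : E → ℝ),
      (∀ f g : E → ℝ, ∑ i, (∑ e, ψ i e * f e) * (∑ e, ψ i e * g e) = ∑ e, f e * g e) ∧
      (∀ i, ∑ e, ψ i e ^ 2 = 1) ∧
      (∀ i e, ∑ e', K e e' * ψ i e' = l i * ψ i e) := by
  have hA : (Matrix.of K).IsHermitian := by
    ext i j
    exact hK j i
  have hin : ∀ x y : EuclideanSpace ℝ E, inner ℝ x y = ∑ e, x e * y e := by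
    intro x y
    rw [PiLp.inner_apply]
    refine sum_congr rfl fun e _ => ?_
    simp [mul_comm]
  refine ⟨fun i e => hA.eigenvectorBasis i e, hA.eigenvalues, ?_, ?_, ?_⟩
  · intro f g
    have h1 := hA.eigenvectorBasis.sum_inner_mul_inner (WithLp.toLp 2 f) (WithLp.toLp 2 g)
    rw [hin] at h1
    rw [← h1]
    refine sum_congr rfl fun i _ => ?_
    rw [hin, hin]
    refine congrArg₂ (· * ·) (sum_congr rfl fun e _ => ?_) rfl
    exact mul_comm _ _
  · intro i
    have h1 := hA.eigenvectorBasis.orthonormal.1 i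
    have h2 : inner ℝ (hA.eigenvectorBasis i) (hA.eigenvectorBasis i) = (1 : ℝ) := by
      rw [real_inner_self_eq_norm_sq, h1, one_pow]
    rw [hin] at h2
    rw [← h2]
    exact sum_congr rfl fun e _ => sq _
  · intro i e
    have h1 := hA.mulVec_eigenvectorBasis i
    have h2 := congrFun h1 e
    exact h2

end Pool.Agent.MP_ec946a.SDA
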