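import Mathlib
import Pool.Agent.Lib.MP_ec946a_sda.Aver

/-!
# Random walks on graphs in which small sets have few inner edges
-/

set_option autoImplicit false

namespace Pool.Agent.MP_ec946a.SDA

open Finset Classical

variable {E X Y : Type} [Fintype E]

/-- small sets of vertices have few inner edges -/
def SmallSets (src : E → X) (tgt : E → Y) (γ : ℝ) : Prop :=
  ∀ (A : Set X) (B : Set Y),
    ((univ.filter fun e => src e ∈ A ∧ tgt e ∈ B).card : ℝ) * (Fintype.card E : ℝ) ^ γ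
      ≤ (((univ.filter fun e => src e ∈ A).card : ℝ)
        + ((univ.filter fun e => tgt e ∈ B).card : ℝ)) ^ (1 + γ)

variable {src : E → X} {tgt : E → Y}

lemma SmallSets.symm {γ : ℝ} (h : SmallSets src tgt γ) : SmallSets tgt src γ := by
  intro A B
  have h1 := h B A
  rw [add_comm] at h1
  refine le_trans (le_of_eq ?_) h1
  congr 3
  ext e
  simp only [mem_filter, mem_univ, true_and]
  exact and_comm

variable [Nonempty E]

/-- the squares as sums over the levels -/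
lemma sum_levels {z : ℝ} {R : ℕ} (hR : z ≤ R) :
    ∑ s ∈ range R, (if (s : ℝ) + 1 ≤ z then (2 * (s : ℝ) + 1) else 0) = (⌊z⌋₊ : ℝ) ^ 2 := by
  have h1 : ∀ n : ℕ, ∑ s ∈ range n, (2 * (s : ℝ) + 1) = (n : ℝ) ^ 2 := by
    intro n
    induction n with
    | zero => simp
    | succ n ih =>
      rw [sum_range_succ, ih]
      push_cast
      ring
  rw [← sum_filter, ← h1]
  congr 1
  ext s
  simp only [mem_filter, mem_range]
  constructor
  · rintro ⟨_, h⟩
    have h2 : s + 1 ≤ ⌊z⌋₊ := by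
      refine Nat.le_floor ?_
      push_cast
      exact h
    omega
  · intro h
    have hz : (1 : ℝ) ≤ z := by
      by_contra hz
      have h3 : ⌊z⌋₊ = 0 := Nat.floor_eq_zero.mpr (not_le.mp hz)
      omega
    have h2 : (⌊z⌋₊ : ℝ) ≤ z := Nat.floor_le (by linarith)
    have h3 : ((s + 1 : ℕ) : ℝ) ≤ (⌊z⌋₊ : ℝ) := by exact_mod_cast h
    push_cast at h3
    refine ⟨?_, by linarith⟩
    have h4 : ((s + 1 : ℕ) : ℝ) ≤ (R : ℝ) := by
      push_cast
      linarith
    have h5 : s + 1 ≤ R := by exact_mod_cast h4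
    omega

lemma floor_sq_le {z : ℝ} (hz : 0 ≤ z) : (⌊z⌋₊ : ℝ) ^ 2 ≤ z ^ 2 :=
  pow_le_pow_left₀ (Nat.cast_nonneg _) (Nat.floor_le hz) 2

lemma le_floor_sq {z : ℝ} (hz : 1 ≤ z) : z ^ 2 ≤ 4 * (⌊z⌋₊ : ℝ) ^ 2 := by
  have h1 := Nat.lt_floor_add_one z
  have h2 : (1 : ℝ) ≤ (⌊z⌋₊ : ℝ) := by
    have : 1 ≤ ⌊z⌋₊ := Nat.le_floor (by exact_mod_cast hz)
    exact_mod_cast this
  have h3 : z ≤ 2 * (⌊z⌋₊ : ℝ) := by linarith
  nlinarith

/-- pairs of large values over the edges -/
lemma sum_min_sq {γ : ℝ} (hγ : 0 ≤ γ) (hG : SmallSets src tgt γ) {x : X → ℝ} {y : Y → ℝ}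
    (hx : ∀ u, 0 ≤ x u) (hy : ∀ v, 0 ≤ y v)
    (hx1 : ∑ e, x (src e) ≤ Fintype.card E) (hy1 : ∑ e, y (tgt e) ≤ Fintype.card E)
    {h : ℝ} (hh : 1 ≤ h) :
    ∑ e, (if h ≤ min (x (src e)) (y (tgt e)) then min (x (src e)) (y (tgt e)) ^ 2 else 0)
      ≤ 4 * (2 / h) ^ γ * (∑ e, x (src e) ^ 2 + ∑ e, y (tgt e) ^ 2) := by
  set N : ℝ := (Fintype.card E : ℝ) with hN
  have hN0 : 0 < N := by
    rw [hN]
    exact_mod_cast Fintype.card_pos
  have hh0 : 0 < h := by linarith
  obtain ⟨R, hR⟩ := exists_nat_ge (∑ e, x (src e) + ∑ e, y (tgt e))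
  have hxR : ∀ e, x (src e) ≤ R := by
    intro e
    have h1 := single_le_sum (f := fun e => x (src e)) (fun e _ => hx _) (mem_univ e)
    have h2 : 0 ≤ ∑ e, y (tgt e) := sum_nonneg fun _ _ => hy _
    have h3 : x (src e) ≤ ∑ e, x (src e) := h1
    linarith
  have hyR : ∀ e, y (tgt e) ≤ R := by
    intro e
    have h1 := single_le_sum (f := fun e => y (tgt e)) (fun e _ => hy _) (mem_univ e)
    have h2 : 0 ≤ ∑ e, x (src e) := sum_nonneg fun _ _ => hx _
    have h3 : y (tgt e) ≤ ∑ e, y (tgt e) := h1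
    linarith
  -- the numbers of edges above the levels
  obtain ⟨A, hA⟩ : ∃ A : ℕ → Set X, ∀ s u, u ∈ A s ↔ h ≤ x u ∧ (s : ℝ) + 1 ≤ x u :=
    ⟨fun s => {u | h ≤ x u ∧ (s : ℝ) + 1 ≤ x u}, fun _ _ => Iff.rfl⟩
  obtain ⟨B, hB⟩ : ∃ B : ℕ → Set Y, ∀ s v, v ∈ B s ↔ h ≤ y v ∧ (s : ℝ) + 1 ≤ y v :=
    ⟨fun s => {v | h ≤ y v ∧ (s : ℝ) + 1 ≤ y v}, fun _ _ => Iff.rfl⟩
  set a : ℕ → ℝ := fun s => ((univ.filter fun e => src e ∈ A s).card : ℝ) with ha
  set b : ℕ → ℝ := fun s => ((univ.filter fun e => tgt e ∈ B s).card : ℝ) with hb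
  have hax : ∀ s, a s ≤ N / h := by
    intro s
    rw [le_div_iff₀ hh0]
    have h1 : a s * h = ∑ e ∈ univ.filter (fun e => src e ∈ A s), h := by
      rw [sum_const, nsmul_eq_mul]
    rw [h1]
    refine le_trans (sum_le_sum fun e he => ((hA _ _).mp (mem_filter.mp he).2).1)
      (le_trans ?_ hx1)
    exact sum_le_sum_of_subset_of_nonneg (filter_subset _ _) fun e _ _ => hx _
  have hbx : ∀ s, b s ≤ N / h := by
    intro s
    rw [le_div_iff₀ hh0]
    have h1 : b s * h = ∑ e ∈ univ.filter (fun e => tgt e ∈ B s), h := by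
      rw [sum_const, nsmul_eq_mul]
    rw [h1]
    refine le_trans (sum_le_sum fun e he => ((hB _ _).mp (mem_filter.mp he).2).1)
      (le_trans ?_ hy1)
    exact sum_le_sum_of_subset_of_nonneg (filter_subset _ _) fun e _ _ => hy _
  have hab : ∀ s : ℕ, ((univ.filter fun e => h ≤ min (x (src e)) (y (tgt e))
      ∧ (s : ℝ) + 1 ≤ min (x (src e)) (y (tgt e))).card : ℝ)
      ≤ (2 / h) ^ γ * (a s + b s) := by
    intro s
    have h1 := hG (A s) (B s)
    have h2 : (univ.filter fun e => h ≤ min (x (src e)) (y (tgt e))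
        ∧ (s : ℝ) + 1 ≤ min (x (src e)) (y (tgt e)))
        = univ.filter fun e => src e ∈ A s ∧ tgt e ∈ B s := by
      ext e
      simp only [mem_filter, mem_univ, true_and, le_min_iff, hA, hB]
      tauto
    rw [h2]
    have ha0 : 0 ≤ a s := Nat.cast_nonneg _
    have hb0 : 0 ≤ b s := Nat.cast_nonneg _
    have h3 : (a s + b s) ^ (1 + γ) ≤ (a s + b s) * (2 / h) ^ γ * N ^ γ := by
      rcases (add_nonneg ha0 hb0).eq_or_lt with h0 | h0
      · rw [← h0, Real.zero_rpow (by linarith)]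
        simp
      · rw [Real.rpow_add h0, Real.rpow_one, mul_assoc,
          ← Real.mul_rpow (by positivity) hN0.le]
        refine mul_le_mul_of_nonneg_left ?_ h0.le
        refine Real.rpow_le_rpow h0.le ?_ hγ
        have e1 := hax s
        have e2 := hbx s
        have e3 : 2 / h * N = N / h + N / h := by ring
        rw [e3]
        linarith
    have h4 : ((univ.filter fun e => src e ∈ A s ∧ tgt e ∈ B s).card : ℝ) * N ^ γ
        ≤ ((2 / h) ^ γ * (a s + b s)) * N ^ γ := by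
      refine h1.trans (h3.trans (le_of_eq ?_))
      ring
    exact le_of_mul_le_mul_right h4 (Real.rpow_pos_of_pos hN0 γ)
  -- the sums over the levels
  have hsa : ∑ s ∈ range R, (2 * (s : ℝ) + 1) * a s ≤ ∑ e, x (src e) ^ 2 := by
    have h1 : ∀ s ∈ range R, (2 * (s : ℝ) + 1) * a s
        ≤ ∑ e, (if (s : ℝ) + 1 ≤ x (src e) then (2 * (s : ℝ) + 1) else 0) := by
      intro s _
      rw [← sum_filter, sum_const, nsmul_eq_mul, mul_comm]
      refine mul_le_mul_of_nonneg_right (Nat.cast_le.mpr (card_le_card fun e he => ?_))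
        (by positivity)
      rw [mem_filter] at he ⊢
      exact ⟨he.1, ((hA _ _).mp he.2).2⟩
    refine (sum_le_sum h1).trans ?_
    rw [sum_comm]
    refine sum_le_sum fun e _ => ?_
    rw [sum_levels (hxR e)]
    exact floor_sq_le (hx _)
  have hsb : ∑ s ∈ range R, (2 * (s : ℝ) + 1) * b s ≤ ∑ e, y (tgt e) ^ 2 := by
    have h1 : ∀ s ∈ range R, (2 * (s : ℝ) + 1) * b s
        ≤ ∑ e, (if (s : ℝ) + 1 ≤ y (tgt e) then (2 * (s : ℝ) + 1) else 0) := by
      intro s _
      rw [← sum_filter, sum_const, nsmul_eq_mul, mul_comm]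
      refine mul_le_mul_of_nonneg_right (Nat.cast_le.mpr (card_le_card fun e he => ?_))
        (by positivity)
      rw [mem_filter] at he ⊢
      exact ⟨he.1, ((hB _ _).mp he.2).2⟩
    refine (sum_le_sum h1).trans ?_
    rw [sum_comm]
    refine sum_le_sum fun e _ => ?_
    rw [sum_levels (hyR e)]
    exact floor_sq_le (hy _)
  -- the squares of the minima
  have hmin : ∀ e, (if h ≤ min (x (src e)) (y (tgt e))
      then min (x (src e)) (y (tgt e)) ^ 2 else 0)
      ≤ 4 * ∑ s ∈ range R, (if h ≤ min (x (src e)) (y (tgt e))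
        ∧ (s : ℝ) + 1 ≤ min (x (src e)) (y (tgt e)) then (2 * (s : ℝ) + 1) else 0) := by
    intro e
    by_cases h1 : h ≤ min (x (src e)) (y (tgt e))
    · simp only [h1, true_and, if_true]
      rw [sum_levels (le_trans (min_le_left _ _) (hxR e))]
      exact le_floor_sq (hh.trans h1)
    · simp only [h1, false_and, if_false]
      simp
  calc ∑ e, (if h ≤ min (x (src e)) (y (tgt e))
        then min (x (src e)) (y (tgt e)) ^ 2 else 0)
      ≤ ∑ e, 4 * ∑ s ∈ range R, (if h ≤ min (x (src e)) (y (tgt e))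
        ∧ (s : ℝ) + 1 ≤ min (x (src e)) (y (tgt e)) then (2 * (s : ℝ) + 1) else 0) :=
        sum_le_sum fun e _ => hmin e
    _ = 4 * ∑ s ∈ range R, (2 * (s : ℝ) + 1)
        * ((univ.filter fun e => h ≤ min (x (src e)) (y (tgt e))
          ∧ (s : ℝ) + 1 ≤ min (x (src e)) (y (tgt e))).card : ℝ) := by
        rw [← mul_sum, sum_comm]
        congr 1
        refine sum_congr rfl fun s _ => ?_
        rw [← sum_filter, sum_const, nsmul_eq_mul, mul_comm]
    _ ≤ 4 * ∑ s ∈ range R, (2 * (s : ℝ) + 1) * ((2 / h) ^ γ * (a s + b s)) := by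
        refine mul_le_mul_of_nonneg_left (sum_le_sum fun s _ => ?_) (by norm_num)
        exact mul_le_mul_of_nonneg_left (hab s) (by positivity)
    _ = 4 * (2 / h) ^ γ * (∑ s ∈ range R, (2 * (s : ℝ) + 1) * a s
        + ∑ s ∈ range R, (2 * (s : ℝ) + 1) * b s) := by
        rw [← sum_add_distrib, mul_sum, mul_sum]
        exact sum_congr rfl fun s _ => by ring
    _ ≤ 4 * (2 / h) ^ γ * (∑ e, x (src e) ^ 2 + ∑ e, y (tgt e) ^ 2) :=
        mul_le_mul_of_nonneg_left (add_le_add hsa hsb) (by positivity)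

end Pool.Agent.MP_ec946a.SDA
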