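import Mathlib
import Pool.Agent.Lib.MP_ec946a_sda.Walk

/-!
# The contraction of the random walk
-/

set_option autoImplicit false

namespace Pool.Agent.MP_ec946a.SDA

open Finset Classical

variable {E X Y : Type} [Fintype E] {src : E → X} {tgt : E → Y}

lemma pair_term {X Y ε h : ℝ} (hX : 0 ≤ X) (hY : 0 ≤ Y) (hε : 0 < ε) (hh : 0 < h) :
    X * Y ≤ ε * (X ^ 2 + Y ^ 2)
      + ε⁻¹ * (h * X + if h ≤ min X Y then min X Y ^ 2 else 0) := by
  have hi : 0 < ε⁻¹ := inv_pos.mpr hε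
  -- the smaller value is not much smaller
  have key : ∀ Z W : ℝ, 0 ≤ Z → 0 ≤ W → W ≤ Z → min X Y = W → X * Y = Z * W → W ≤ X →
      X ^ 2 + Y ^ 2 = Z ^ 2 + W ^ 2 → X * Y ≤ ε * (X ^ 2 + Y ^ 2)
      + ε⁻¹ * (h * X + if h ≤ min X Y then min X Y ^ 2 else 0) := by
    intro Z W hZ hW hWZ hmin hmul hWX hsq
    rw [hsq, hmul, hmin]
    rcases le_total W (ε * Z) with h1 | h1
    · have h2 : Z * W ≤ ε * Z ^ 2 := by nlinarith
      have h3 : 0 ≤ ε * W ^ 2 := by positivity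
      have h4 : 0 ≤ ε⁻¹ * (h * X + if h ≤ W then W ^ 2 else 0) := by
        refine mul_nonneg hi.le (add_nonneg (mul_nonneg hh.le hX) ?_)
        split_ifs
        · positivity
        · exact le_rfl
      nlinarith
    · have h2 : Z ≤ ε⁻¹ * W := by
        rw [inv_mul_eq_div, le_div_iff₀ hε]
        linarith
      have h3 : Z * W ≤ ε⁻¹ * W ^ 2 := by nlinarith
      have h4 : W ^ 2 ≤ h * X + if h ≤ W then W ^ 2 else 0 := by
        split_ifs with h5
        · nlinarith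
        · push Not at h5
          nlinarith
      have h5 : 0 ≤ ε * (Z ^ 2 + W ^ 2) := by positivity
      have h6 : ε⁻¹ * W ^ 2 ≤ ε⁻¹ * (h * X + if h ≤ W then W ^ 2 else 0) :=
        mul_le_mul_of_nonneg_left h4 hi.le
      linarith
  rcases le_total X Y with h1 | h1
  · exact key Y X hY hX h1 (min_eq_left h1) (mul_comm _ _) le_rfl (add_comm _ _)
  · exact key X Y hX hY h1 (min_eq_right h1) rfl h1 rfl

omit [Fintype E] in
/-- functions of a map -/
lemma exists_rep {π : E → X} {f : E → ℝ} (h : ∀ e e', π e = π e' → f e = f e')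
    (h0 : ∀ e, 0 ≤ f e) : ∃ F : X → ℝ, (∀ x, 0 ≤ F x) ∧ ∀ e, F (π e) = f e := by
  refine ⟨fun x => |Function.extend π f 0 x|, fun x => abs_nonneg _, fun e => ?_⟩
  have h1 : Function.FactorsThrough f π := fun a b hab => h a b hab
  show |Function.extend π f 0 (π e)| = f e
  rw [h1.extend_apply, abs_of_nonneg (h0 e)]

variable [Nonempty E]

/-- the average over the edges at a vertex contracts large norms -/
lemma av_contract {γ : ℝ} (hγ : 0 ≤ γ) (hγ1 : γ ≤ 1) (hG : SmallSets src tgt γ) {f : E → ℝ}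
    (hf : ∀ e, 0 ≤ f e) (hs : ∀ e e', src e = src e' → f e = f e')
    (h1 : ∑ e, f e = Fintype.card E) {M : ℝ} (hM1 : 1 ≤ M)
    (hM : ∑ e, f e ^ 2 ≤ Fintype.card E * M) :
    ∑ e, av tgt f e ^ 2 ≤ Fintype.card E * (19 * M ^ (1 - γ / 4)) := by
  set N : ℝ := (Fintype.card E : ℝ) with hN
  have hN0 : 0 < N := by
    rw [hN]
    exact_mod_cast Fintype.card_pos
  have hM0 : 0 < M := by linarith
  obtain ⟨x, hx0, hx⟩ := exists_rep hs hf
  obtain ⟨y, hy0, hy⟩ := exists_rep (π := tgt) (f := av tgt f) (fun e e' h => av_congr h f)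
    (av_nonneg hf)
  set h : ℝ := M ^ (1 / 2 : ℝ) with hh
  set ε : ℝ := M ^ (-(γ / 4)) with hε
  have hh1 : 1 ≤ h := Real.one_le_rpow hM1 (by norm_num)
  have hε0 : 0 < ε := Real.rpow_pos_of_pos hM0 _
  have h2 := sum_min_sq hγ hG hx0 hy0 (by simp only [hx]; rw [h1])
    (by simp only [hy]; rw [sum_av, h1]) hh1
  have h3 : ∑ e, av tgt f e ^ 2 ≤ N * M := (sum_av_sq_le f).trans hM
  simp only [hx, hy] at h2
  have h4 := sum_le_sum fun e (_ : e ∈ univ) =>
    pair_term (hf e) (av_nonneg (π := tgt) hf e) hε0 (by linarith : 0 < h)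
  rw [← sum_av_sq] at h4
  rw [sum_add_distrib, ← mul_sum, sum_add_distrib, ← mul_sum, sum_add_distrib, ← mul_sum, h1]
    at h4
  have hi : ε⁻¹ = M ^ (γ / 4) := by
    rw [hε, Real.rpow_neg hM0.le, inv_inv]
  have hp : (2 / h) ^ γ ≤ 2 * M ^ (-(γ / 2)) := by
    rw [Real.div_rpow (by norm_num) (by linarith), hh, ← Real.rpow_mul hM0.le, div_eq_mul_inv,
      ← Real.rpow_neg hM0.le]
    have e1 : (2 : ℝ) ^ γ ≤ 2 := by
      calc (2 : ℝ) ^ γ ≤ 2 ^ (1 : ℝ) := Real.rpow_le_rpow_of_exponent_le (by norm_num) hγ1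
        _ = 2 := Real.rpow_one 2
    have e2 : -(1 / 2 * γ) = -(γ / 2) := by ring
    rw [e2]
    exact mul_le_mul_of_nonneg_right e1 (Real.rpow_nonneg hM0.le _)
  have t1 : ε * (∑ e, f e ^ 2 + ∑ e, av tgt f e ^ 2) ≤ 2 * N * M ^ (1 - γ / 4) := by
    have e1 : ε * (∑ e, f e ^ 2 + ∑ e, av tgt f e ^ 2) ≤ ε * (N * M + N * M) :=
      mul_le_mul_of_nonneg_left (add_le_add hM h3) hε0.le
    refine e1.trans (le_of_eq ?_)
    have e2 : M ^ (1 - γ / 4) = M * ε := by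
      rw [hε, sub_eq_add_neg, Real.rpow_add hM0, Real.rpow_one]
    rw [e2]
    ring
  have t2 : ε⁻¹ * (h * N) ≤ N * M ^ (1 - γ / 4) := by
    rw [hi, hh, ← mul_assoc, ← Real.rpow_add hM0, mul_comm]
    refine mul_le_mul_of_nonneg_left ?_ hN0.le
    refine Real.rpow_le_rpow_of_exponent_le hM1 ?_
    linarith
  have t3 : ε⁻¹ * (4 * (2 / h) ^ γ * (∑ e, f e ^ 2 + ∑ e, av tgt f e ^ 2))
      ≤ 16 * N * M ^ (1 - γ / 4) := by
    have hb : 0 ≤ ∑ e, f e ^ 2 + ∑ e, av tgt f e ^ 2 :=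
      add_nonneg (sum_nonneg fun _ _ => sq_nonneg _) (sum_nonneg fun _ _ => sq_nonneg _)
    have e1 : 4 * (2 / h) ^ γ * (∑ e, f e ^ 2 + ∑ e, av tgt f e ^ 2)
        ≤ 4 * (2 * M ^ (-(γ / 2))) * (N * M + N * M) := by
      refine mul_le_mul (mul_le_mul_of_nonneg_left hp (by norm_num)) (add_le_add hM h3) hb ?_
      positivity
    have e2 := mul_le_mul_of_nonneg_left e1 (inv_nonneg.mpr hε0.le)
    refine e2.trans (le_of_eq ?_)
    have e3 : M ^ (1 - γ / 4) = M ^ (γ / 4) * M ^ (-(γ / 2)) * M := by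
      rw [← Real.rpow_add hM0]
      nth_rewrite 3 [← Real.rpow_one M]
      rw [← Real.rpow_add hM0]
      congr 1
      ring
    rw [hi, e3]
    ring
  have t4 : ε⁻¹ * (h * N + ∑ e, if h ≤ min (f e) (av tgt f e) then
      min (f e) (av tgt f e) ^ 2 else 0)
      ≤ ε⁻¹ * (h * N) + ε⁻¹ * (4 * (2 / h) ^ γ * (∑ e, f e ^ 2 + ∑ e, av tgt f e ^ 2)) := by
    rw [← mul_add]
    exact mul_le_mul_of_nonneg_left (add_le_add le_rfl h2) (inv_nonneg.mpr hε0.le)
  linarith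

end Pool.Agent.MP_ec946a.SDA
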