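import Mathlib
import Pool.Agent.Lib.MP_ec946a_sda.Contr

/-!
# Graphs in which small sets have few inner edges have few large singular values
-/

set_option autoImplicit false

namespace Pool.Agent.MP_ec946a.SDA

open Finset Classical

variable {E X Y : Type} [Fintype E] {src : E → X} {tgt : E → Y}

/-- a step of the random walk -/
noncomputable def walk (src : E → X) (tgt : E → Y) (f : E → ℝ) : E → ℝ :=
  av src (av tgt (av src f))

lemma walk_nonneg {f : E → ℝ} (h : ∀ e, 0 ≤ f e) (e : E) : 0 ≤ walk src tgt f e :=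
  av_nonneg (av_nonneg (av_nonneg h)) e

lemma walk_adj (f g : E → ℝ) : ∑ e, walk src tgt f e * g e = ∑ e, f e * walk src tgt g e := by
  unfold walk
  rw [av_adj, av_adj, av_adj]

lemma sum_walk (f : E → ℝ) : ∑ e, walk src tgt f e = ∑ e, f e := by
  unfold walk
  rw [sum_av, sum_av, sum_av]

lemma walk_congr {e e' : E} (h : src e = src e') (f : E → ℝ) :
    walk src tgt f e = walk src tgt f e' := av_congr h _

/-- the kernel of the step -/
noncomputable def walkK (src : E → X) (tgt : E → Y) (e e' : E) : ℝ :=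
  ∑ a, ∑ b, ker src e a * ker tgt a b * ker src b e'

lemma walkK_symm (e e' : E) : walkK src tgt e e' = walkK src tgt e' e := by
  unfold walkK
  rw [sum_comm]
  refine sum_congr rfl fun a _ => sum_congr rfl fun b _ => ?_
  rw [ker_symm e b, ker_symm b a, ker_symm a e']
  ring

lemma walk_eq (f : E → ℝ) (e : E) : walk src tgt f e = ∑ e', walkK src tgt e e' * f e' := by
  unfold walk av walkK
  simp only [mul_sum, sum_mul]
  have h1 : ∀ a, ∑ b, ∑ e', ker src e a * (ker tgt a b * (ker src b e' * f e'))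
      = ∑ e', ∑ b, ker src e a * ker tgt a b * ker src b e' * f e' := by
    intro a
    rw [sum_comm]
    exact sum_congr rfl fun e' _ => sum_congr rfl fun b _ => by ring
  rw [sum_congr rfl fun a _ => h1 a, sum_comm]

/-- the unit mass at an edge, spread over the vertex -/
noncomputable def start (src : E → X) (e₀ : E) : E → ℝ :=
  av src fun e => if e = e₀ then (Fintype.card E : ℝ) else 0

lemma start_eq (e₀ e : E) : start src e₀ e = ker src e e₀ * (Fintype.card E : ℝ) := by
  unfold start av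
  simp only [mul_ite, mul_zero, sum_ite_eq', mem_univ, if_true]

variable [Nonempty E]

/-- the walk loses mass in the second norm -/
lemma walk_bound {γ : ℝ} (hγ : 0 ≤ γ) (hγ1 : γ ≤ 1) (hG : SmallSets src tgt γ) {D : ℝ}
    (hD1 : 1 ≤ D) (e₀ : E)
    (hD : (Fintype.card E : ℝ) ≤ D * ((univ.filter fun e => src e = src e₀).card : ℝ)) (j : ℕ) :
    (∀ e, 0 ≤ (walk src tgt)^[j] (start src e₀) e) ∧
    ∑ e, (walk src tgt)^[j] (start src e₀) e = Fintype.card E ∧
    ∑ e, (walk src tgt)^[j] (start src e₀) e ^ 2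
      ≤ Fintype.card E * (19 ^ j * D ^ ((1 - γ / 4) ^ j)) := by
  set N : ℝ := (Fintype.card E : ℝ) with hN
  have hN1 : 1 ≤ N := by
    rw [hN]
    exact_mod_cast Fintype.card_pos
  have hN0 : 0 < N := by linarith
  have hD0 : 0 < D := by linarith
  induction j with
  | zero =>
    refine ⟨fun e => ?_, ?_, ?_⟩
    · show 0 ≤ start src e₀ e
      rw [start_eq]
      exact mul_nonneg (ker_nonneg _ _) hN0.le
    · show ∑ e, start src e₀ e = N
      unfold start
      rw [sum_av, sum_ite_eq' univ e₀, if_pos (mem_univ _)]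
    · show ∑ e, start src e₀ e ^ 2 ≤ N * (19 ^ 0 * D ^ ((1 - γ / 4) ^ 0))
      rw [pow_zero, pow_zero, Real.rpow_one, one_mul]
      have h1 : ∑ e, start src e₀ e ^ 2 = N * start src e₀ e₀ := by
        have h2 := sum_av_sq (π := src) (fun e => if e = e₀ then N else 0)
        simp only [ite_mul, zero_mul, sum_ite_eq', mem_univ, if_true] at h2
        exact h2
      rw [h1]
      refine mul_le_mul_of_nonneg_left ?_ hN0.le
      rw [start_eq, ← hN]
      unfold ker
      rw [if_pos rfl, inv_mul_le_iff₀ (card_fibre_pos e₀), mul_comm]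
      exact hD
  | succ j ih =>
    obtain ⟨h0, h1, h2⟩ := ih
    set x := (walk src tgt)^[j] (start src e₀) with hx
    rw [Function.iterate_succ_apply', ← hx]
    refine ⟨fun e => walk_nonneg h0 e, by rw [sum_walk, h1], ?_⟩
    set M : ℝ := 19 ^ j * D ^ ((1 - γ / 4) ^ j) with hM
    have hr : 0 ≤ 1 - γ / 4 := by linarith
    have hr1 : 1 - γ / 4 ≤ 1 := by linarith
    have hA1 : (1 : ℝ) ≤ 19 ^ j := one_le_pow₀ (by norm_num)
    have hB1 : 1 ≤ D ^ ((1 - γ / 4) ^ j) := Real.one_le_rpow hD1 (pow_nonneg hr _)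
    have hM1 : 1 ≤ M := by
      rw [hM]
      nlinarith
    have h3 := av_contract hγ hγ1 hG (f := av src x) (av_nonneg h0)
      (fun e e' h => av_congr h x) (by rw [sum_av, h1]) hM1
      ((sum_av_sq_le x).trans h2)
    have h4 : ∑ e, walk src tgt x e ^ 2 ≤ ∑ e, av tgt (av src x) e ^ 2 := sum_av_sq_le _
    refine h4.trans (h3.trans ?_)
    rw [← hN]
    refine mul_le_mul_of_nonneg_left ?_ hN0.le
    have h5 : M ^ (1 - γ / 4) ≤ 19 ^ j * D ^ ((1 - γ / 4) ^ (j + 1)) := by
      rw [hM, Real.mul_rpow (by positivity) (by positivity), ← Real.rpow_mul hD0.le, ← pow_succ]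
      refine mul_le_mul_of_nonneg_right ?_ (by positivity)
      calc ((19 : ℝ) ^ j) ^ (1 - γ / 4) ≤ ((19 : ℝ) ^ j) ^ (1 : ℝ) :=
            Real.rpow_le_rpow_of_exponent_le hA1 hr1
        _ = 19 ^ j := Real.rpow_one _
    rw [pow_succ (19 : ℝ) j]
    nlinarith

/-- graphs in which small sets have few inner edges have few large singular values -/
theorem few_of_smallSets {γ σ D : ℝ} (hγ : 0 ≤ γ) (hγ1 : γ ≤ 1) (hσ : 0 < σ)
    (hG : SmallSets src tgt γ) (hD1 : 1 ≤ D)
    (hD : ∀ e₀, (Fintype.card E : ℝ) ≤ D * ((univ.filter fun e => src e = src e₀).card : ℝ))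
    {m j : ℕ} (h : 19 ^ j * D ^ ((1 - γ / 4) ^ j) < σ ^ (4 * j) * (m + 1)) :
    ∃ φ : Fin m → X → ℝ, ∀ (f : X → ℝ) (g : Y → ℝ),
      (∀ i, ∑ e, f (src e) * φ i (src e) = 0) →
      ∑ e, f (src e) * g (tgt e) ≤ σ * (√(∑ e, f (src e) ^ 2) * √(∑ e, g (tgt e) ^ 2)) := by
  set N : ℝ := (Fintype.card E : ℝ) with hN
  have hN0 : 0 < N := by
    rw [hN]
    exact_mod_cast Fintype.card_pos
  obtain ⟨ψ, l, hP, hO, hL⟩ := exists_spectral (walkK src tgt) walkK_symm
  have hW : ∀ i, walk src tgt (ψ i) = fun e => l i * ψ i e := fun i => by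
    funext e
    rw [walk_eq, hL]
  have hc : ∀ i f, ∑ e, ψ i e * walk src tgt f e = l i * ∑ e, ψ i e * f e := by
    intro i f
    rw [← walk_adj, hW, mul_sum]
    exact sum_congr rfl fun e _ => by ring
  set S : Finset E := univ.filter fun i => σ ^ 2 < l i with hS
  have hfac : ∀ i ∈ S, ∀ e e', src e = src e' → ψ i e = ψ i e' := by
    intro i hi e e' hee
    have hl : l i ≠ 0 := by
      have h1 := (mem_filter.mp hi).2
      have h2 : 0 ≤ σ ^ 2 := sq_nonneg _
      exact (lt_of_le_of_lt h2 h1).ne'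
    have h2 := congrFun (hW i) e
    have h3 := congrFun (hW i) e'
    rw [walk_congr hee, h3] at h2
    exact (mul_left_cancel₀ hl h2).symm
  rcases le_or_gt S.card m with hcard | hcard
  · -- few large singular values
    have hrep : ∀ i, ∃ F : X → ℝ, i ∈ S → ∀ e, F (src e) = ψ i e := by
      intro i
      by_cases hi : i ∈ S
      · have h1 : Function.FactorsThrough (ψ i) src := fun e e' hee => hfac i hi e e' hee
        exact ⟨Function.extend src (ψ i) 0, fun _ e => h1.extend_apply 0 e⟩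
      · exact ⟨0, fun h => absurd h hi⟩
    choose F hF using hrep
    refine ⟨fun k => if hk : (k : ℕ) < S.card then F (S.equivFin.symm ⟨k, hk⟩) else 0, ?_⟩
    intro f g hfg
    have h0 : ∀ i ∈ S, ∑ e, ψ i e * f (src e) = 0 := by
      intro i hi
      set k := S.equivFin ⟨i, hi⟩ with hk
      have h1 := hfg ⟨k, lt_of_lt_of_le k.2 hcard⟩
      have h2 : (⟨(k : ℕ), k.2⟩ : Fin S.card) = k := rfl
      simp only [k.2, dite_true, h2] at h1
      rw [hk, Equiv.symm_apply_apply] at h1
      rw [← h1]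
      refine sum_congr rfl fun e _ => ?_
      rw [hF i hi, mul_comm]
    have hfav : av src (fun e => f (src e)) = fun e => f (src e) :=
      av_of_congr fun e e' h => by rw [h]
    have hgav : av tgt (fun e => g (tgt e)) = fun e => g (tgt e) :=
      av_of_congr fun e e' h => by rw [h]
    have h1 : ∑ e, f (src e) * g (tgt e)
        = ∑ e, av tgt (fun e => f (src e)) e * g (tgt e) := by
      have h2 := av_adj (π := tgt) (fun e => f (src e)) (fun e => g (tgt e))
      rw [hgav] at h2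
      exact h2.symm
    have h2 : ∑ e, av tgt (fun e => f (src e)) e ^ 2 ≤ σ ^ 2 * ∑ e, f (src e) ^ 2 := by
      have h3 : ∑ e, av tgt (fun e => f (src e)) e ^ 2
          = ∑ e, f (src e) * walk src tgt (fun e => f (src e)) e := by
        rw [sum_av_sq]
        have h4 := av_adj (π := src) (fun e => f (src e)) (av tgt (fun e => f (src e)))
        rw [hfav] at h4
        rw [h4]
        unfold walk
        rw [hfav]
      have h4 := hP (fun e => f (src e)) (walk src tgt fun e => f (src e))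
      have h5 := hP (fun e => f (src e)) (fun e => f (src e))
      rw [h3, ← h4]
      have h6 : ∑ e, f (src e) ^ 2 = ∑ e, f (src e) * f (src e) :=
        sum_congr rfl fun e _ => sq _
      rw [h6, ← h5, mul_sum]
      refine sum_le_sum fun i _ => ?_
      rw [hc]
      by_cases hi : i ∈ S
      · rw [h0 i hi]
        simp
      · have h7 : l i ≤ σ ^ 2 := by
          by_contra h8
          exact hi (mem_filter.mpr ⟨mem_univ _, not_le.mp h8⟩)
        nlinarith [mul_self_nonneg (∑ e, ψ i e * f (src e))]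
    rw [h1]
    refine (Real.sum_mul_le_sqrt_mul_sqrt _ _ _).trans ?_
    rw [← mul_assoc]
    refine mul_le_mul_of_nonneg_right ?_ (Real.sqrt_nonneg _)
    calc √(∑ e, av tgt (fun e => f (src e)) e ^ 2) ≤ √(σ ^ 2 * ∑ e, f (src e) ^ 2) :=
          Real.sqrt_le_sqrt h2
      _ = σ * √(∑ e, f (src e) ^ 2) := by
          rw [Real.sqrt_mul (sq_nonneg _), Real.sqrt_sq hσ.le]
  · -- many large singular values
    exfalso
    have hsum : ∑ e, ∑ i ∈ S, ψ i e ^ 2 = (S.card : ℝ) := by
      rw [sum_comm, sum_congr rfl fun i _ => hO i, sum_const, nsmul_eq_mul, mul_one]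
    have hex : ∃ e₀, (m + 1 : ℝ) ≤ N * ∑ i ∈ S, ψ i e₀ ^ 2 := by
      by_contra hcon
      push Not at hcon
      have h1 : ∑ e, N * ∑ i ∈ S, ψ i e ^ 2 < ∑ _e : E, (m + 1 : ℝ) :=
        sum_lt_sum_of_nonempty univ_nonempty fun e _ => hcon e
      rw [← mul_sum, hsum, sum_const, card_univ, nsmul_eq_mul, ← hN] at h1
      have h2 := lt_of_mul_lt_mul_left h1 hN0.le
      have h3 : ((m + 1 : ℕ) : ℝ) ≤ (S.card : ℝ) := by exact_mod_cast hcard
      push_cast at h3
      linarith
    obtain ⟨e₀, he₀⟩ := hex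
    obtain ⟨-, -, h3⟩ := walk_bound hγ hγ1 hG hD1 e₀ (hD e₀) j
    rw [← hN] at h3
    have hcj : ∀ (k : ℕ), ∀ i ∈ S, ∑ e, ψ i e * (walk src tgt)^[k] (start src e₀) e
        = l i ^ k * (N * ψ i e₀) := by
      intro k i hi
      induction k with
      | zero =>
        show ∑ e, ψ i e * start src e₀ e = l i ^ 0 * (N * ψ i e₀)
        unfold start
        rw [← av_adj, av_of_congr (hfac i hi)]
        simp only [mul_ite, mul_zero, sum_ite_eq', mem_univ, if_true, pow_zero, one_mul]
        ring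
      | succ k ih =>
        rw [Function.iterate_succ_apply', hc, ih]
        ring
    have h4 := hP ((walk src tgt)^[j] (start src e₀)) ((walk src tgt)^[j] (start src e₀))
    have h5 : ∑ i ∈ S, (l i ^ j * (N * ψ i e₀)) ^ 2
        ≤ ∑ e, (walk src tgt)^[j] (start src e₀) e ^ 2 := by
      rw [sum_congr rfl fun e _ => sq ((walk src tgt)^[j] (start src e₀) e), ← h4]
      refine (sum_le_sum fun i hi => ?_).trans
        (sum_le_sum_of_subset_of_nonneg (subset_univ S) fun i _ _ => mul_self_nonneg _)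
      rw [hcj j i hi, sq]
    have h6 : σ ^ (4 * j) * (N ^ 2 * ∑ i ∈ S, ψ i e₀ ^ 2)
        ≤ ∑ i ∈ S, (l i ^ j * (N * ψ i e₀)) ^ 2 := by
      rw [mul_sum, mul_sum]
      refine sum_le_sum fun i hi => ?_
      have h7 := (mem_filter.mp hi).2
      have h8 : σ ^ (4 * j) ≤ (l i ^ j) ^ 2 := by
        have e1 : σ ^ (4 * j) = ((σ ^ 2) ^ j) ^ 2 := by
          rw [← pow_mul, ← pow_mul]
          congr 1
          ring
        rw [e1]
        exact pow_le_pow_left₀ (by positivity) (pow_le_pow_left₀ (sq_nonneg _) h7.le j) 2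
      have h9 : (l i ^ j * (N * ψ i e₀)) ^ 2 = (l i ^ j) ^ 2 * (N ^ 2 * ψ i e₀ ^ 2) := by ring
      rw [h9]
      exact mul_le_mul_of_nonneg_right h8 (by positivity)
    have h7 : N * (σ ^ (4 * j) * (m + 1)) ≤ N * (19 ^ j * D ^ ((1 - γ / 4) ^ j)) := by
      refine le_trans ?_ (h6.trans (h5.trans h3))
      have e1 : σ ^ (4 * j) * (N ^ 2 * ∑ i ∈ S, ψ i e₀ ^ 2)
          = N * (σ ^ (4 * j) * (N * ∑ i ∈ S, ψ i e₀ ^ 2)) := by ring
      rw [e1]
      exact mul_le_mul_of_nonneg_left (mul_le_mul_of_nonneg_left he₀ (by positivity)) hN0.le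
    exact absurd (le_of_mul_le_mul_left h7 hN0) (not_le.mpr h)

omit [Nonempty E] in
/-- exchanging the two sides of the graph -/
lemma few_swap {σ : ℝ} (hσ : 0 ≤ σ) {m : ℕ} (h : ∃ φ : Fin m → Y → ℝ, ∀ (f : Y → ℝ) (g : X → ℝ),
      (∀ i, ∑ e, f (tgt e) * φ i (tgt e) = 0) →
      ∑ e, f (tgt e) * g (src e) ≤ σ * (√(∑ e, f (tgt e) ^ 2) * √(∑ e, g (src e) ^ 2))) :
    ∃ φ : Fin m → X → ℝ, ∀ (f : X → ℝ) (g : Y → ℝ),
      (∀ i, ∑ e, f (src e) * φ i (src e) = 0) →
      ∑ e, f (src e) * g (tgt e) ≤ σ * (√(∑ e, f (src e) ^ 2) * √(∑ e, g (tgt e) ^ 2)) := by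
  obtain ⟨φ, hφ⟩ := h
  have hrep : ∀ i, ∃ F : X → ℝ, ∀ e, F (src e) = av src (fun e => φ i (tgt e)) e := by
    intro i
    have h1 : Function.FactorsThrough (av src fun e => φ i (tgt e)) src :=
      fun e e' hee => av_congr hee _
    exact ⟨Function.extend src (av src fun e => φ i (tgt e)) 0, fun e => h1.extend_apply 0 e⟩
  choose F hF using hrep
  refine ⟨F, fun f g hfg => ?_⟩
  have hfav : av src (fun e => f (src e)) = fun e => f (src e) :=
    av_of_congr fun e e' h => by rw [h]
  have hgav : av tgt (fun e => g (tgt e)) = fun e => g (tgt e) :=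
    av_of_congr fun e e' h => by rw [h]
  -- the average of `f` over the edges at a vertex
  obtain ⟨k, hk⟩ : ∃ k : Y → ℝ, ∀ e, k (tgt e) = av tgt (fun e => f (src e)) e := by
    have h1 : Function.FactorsThrough (av tgt fun e => f (src e)) tgt :=
      fun e e' hee => av_congr hee _
    exact ⟨Function.extend tgt (av tgt fun e => f (src e)) 0, fun e => h1.extend_apply 0 e⟩
  have h1 := hφ k f (by
    intro i
    have h2 := hfg i
    simp only [hF] at h2
    rw [← av_adj, hfav] at h2
    have h3 := av_adj (π := tgt) (fun e => f (src e)) (fun e => φ i (tgt e))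
    rw [av_of_congr (π := tgt) (f := fun e => φ i (tgt e)) fun e e' h => by rw [h], h2] at h3
    simp only [hk]
    exact h3)
  have h2 : ∑ e, k (tgt e) * f (src e) = ∑ e, k (tgt e) ^ 2 := by
    simp only [hk]
    rw [sum_av_sq]
    exact sum_congr rfl fun e _ => mul_comm _ _
  rw [h2] at h1
  have h3 : √(∑ e, k (tgt e) ^ 2) ≤ σ * √(∑ e, f (src e) ^ 2) := by
    have hK : 0 ≤ ∑ e, k (tgt e) ^ 2 := sum_nonneg fun _ _ => sq_nonneg _
    rcases (Real.sqrt_nonneg (∑ e, k (tgt e) ^ 2)).eq_or_lt with h0 | h0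
    · rw [← h0]
      positivity
    · have h4 : √(∑ e, k (tgt e) ^ 2) * √(∑ e, k (tgt e) ^ 2)
          ≤ √(∑ e, k (tgt e) ^ 2) * (σ * √(∑ e, f (src e) ^ 2)) := by
        rw [Real.mul_self_sqrt hK]
        refine h1.trans (le_of_eq ?_)
        ring
      exact le_of_mul_le_mul_left h4 h0
  have h4 : ∑ e, f (src e) * g (tgt e) = ∑ e, k (tgt e) * g (tgt e) := by
    have h5 := av_adj (π := tgt) (fun e => f (src e)) (fun e => g (tgt e))
    rw [hgav] at h5
    simp only [hk]
    exact h5.symm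
  rw [h4]
  refine (Real.sum_mul_le_sqrt_mul_sqrt _ _ _).trans ?_
  rw [← mul_assoc]
  exact mul_le_mul_of_nonneg_right h3 (Real.sqrt_nonneg _)

end Pool.Agent.MP_ec946a.SDA
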