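import Mathlib
import Pool.Agent.Lib.MP_ec946a_sda.Level
import Pool.Agent.Lib.MP_ec946a_sda.Rank

/-!
# Decomposition of a game into parts in which small sets have few inner edges
-/

set_option autoImplicit false

namespace Pool.Agent.MP_ec946a

open Finset

/-- the game with the edges in `F` only -/
def Game.sub {q : ℕ} (G : Game q) (F : Finset G.E) (hF : F.Nonempty) : Game q where
  U := G.U
  V := G.V
  E := {e // e ∈ F}
  neE := hF.to_subtype
  src e := G.src e.1
  tgt e := G.tgt e.1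
  proj e := G.proj e.1
  two_to_one e := G.two_to_one e.1

namespace SDA

open Classical

variable {q : ℕ} {G : Game q}

/-- the solutions of the hierarchy restrict to the smaller games -/
lemma sub_level {t : ℕ} (s : G.LevelSolution t) (F : Finset G.E) (hF : F.Nonempty) :
    Nonempty ((G.sub F hF).LevelSolution t) :=
  ⟨{ y := s.y
     empty := s.empty
     nonneg := s.nonneg
     sum := s.sum
     conflict := s.conflict
     edge := fun S e a b h h1 h2 => s.edge S e.1 a b h h1 h2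
     psd := s.psd }⟩

lemma card_sub_filter (F : Finset G.E) (p : G.E → Prop) [DecidablePred p]
    [DecidablePred fun e : {e // e ∈ F} => p e.1] :
    (univ.filter fun e : {e // e ∈ F} => p e.1).card = (F.filter p).card := by
  rw [← card_map (Function.Embedding.subtype fun e => e ∈ F)]
  congr 1
  ext e
  simp only [mem_map, mem_filter, mem_univ, true_and, Function.Embedding.subtype_apply,
    Subtype.exists, exists_and_left, exists_prop, exists_eq_right_right]
  tauto

lemma smallSets_sub {γ : ℝ} (F : Finset G.E) (hF : F.Nonempty)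
    (h : ∀ (A : Set G.U) (B : Set G.V),
      ((F.filter fun e => G.src e ∈ A ∧ G.tgt e ∈ B).card : ℝ) * (F.card : ℝ) ^ γ
        ≤ (((F.filter fun e => G.src e ∈ A).card : ℝ)
          + ((F.filter fun e => G.tgt e ∈ B).card : ℝ)) ^ (1 + γ)) :
    SmallSets (G.sub F hF).src (G.sub F hF).tgt γ := by
  intro A B
  have h1 := h A B
  rw [← Fintype.card_coe F] at h1
  refine le_trans (le_of_eq ?_) (h1.trans (le_of_eq ?_))
  · refine congrArg₂ (· * ·) (congrArg Nat.cast ?_) rfl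
    exact card_sub_filter F fun e => G.src e ∈ A ∧ G.tgt e ∈ B
  · refine congrArg (fun z : ℝ => z ^ (1 + γ)) (congrArg₂ (· + ·) (congrArg Nat.cast ?_)
      (congrArg Nat.cast ?_))
    · exact (card_sub_filter F fun e => G.src e ∈ A).symm
    · exact (card_sub_filter F fun e => G.tgt e ∈ B).symm

/-- the number of inner edges -/
noncomputable def nn (H : Finset G.E) (A : Set G.U) (B : Set G.V) : ℝ :=
  ((H.filter fun e => G.src e ∈ A ∧ G.tgt e ∈ B).card : ℝ)

/-- the sum of the degrees, with a weight for every vertex -/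
noncomputable def ww (H : Finset G.E) (A : Set G.U) (B : Set G.V) : ℝ :=
  ((H.filter fun e => G.src e ∈ A).card : ℝ) + ((H.filter fun e => G.tgt e ∈ B).card : ℝ)
    + (H.card : ℝ) / (Fintype.card G.U : ℝ) * ((univ.filter fun u => u ∈ A).card : ℝ)
    + (H.card : ℝ) / (Fintype.card G.V : ℝ) * ((univ.filter fun v => v ∈ B).card : ℝ)

lemma card_U_pos (G : Game q) : (0 : ℝ) < (Fintype.card G.U : ℝ) := by
  obtain ⟨e⟩ := G.neE
  have : 0 < Fintype.card G.U := Fintype.card_pos_iff.mpr ⟨G.src e⟩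
  exact_mod_cast this

lemma card_V_pos (G : Game q) : (0 : ℝ) < (Fintype.card G.V : ℝ) := by
  obtain ⟨e⟩ := G.neE
  have : 0 < Fintype.card G.V := Fintype.card_pos_iff.mpr ⟨G.tgt e⟩
  exact_mod_cast this

lemma nn_nonneg (H : Finset G.E) (A : Set G.U) (B : Set G.V) : 0 ≤ nn H A B := Nat.cast_nonneg _

lemma ww_nonneg (H : Finset G.E) (A : Set G.U) (B : Set G.V) : 0 ≤ ww H A B := by
  unfold ww
  positivity

/-- the edges at the set are counted -/
lemma edges_le_ww (H : Finset G.E) (A : Set G.U) (B : Set G.V) :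
    ((H.filter fun e => G.src e ∈ A).card : ℝ) + ((H.filter fun e => G.tgt e ∈ B).card : ℝ)
      ≤ ww H A B := by
  have h1 : 0 ≤ (H.card : ℝ) / (Fintype.card G.U : ℝ)
      * ((univ.filter fun u => u ∈ A).card : ℝ) := by positivity
  have h2 : 0 ≤ (H.card : ℝ) / (Fintype.card G.V : ℝ)
      * ((univ.filter fun v => v ∈ B).card : ℝ) := by positivity
  unfold ww
  linarith

lemma nn_le_ww (H : Finset G.E) (A : Set G.U) (B : Set G.V) : nn H A B ≤ ww H A B := by
  have h1 : (H.filter fun e => G.src e ∈ A ∧ G.tgt e ∈ B).card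
      ≤ (H.filter fun e => G.src e ∈ A).card := by
    refine card_le_card fun e he => ?_
    rw [mem_filter] at he ⊢
    exact ⟨he.1, he.2.1⟩
  have h2 : (0 : ℝ) ≤ ((H.filter fun e => G.tgt e ∈ B).card : ℝ) := Nat.cast_nonneg _
  have h3 : ((H.filter fun e => G.src e ∈ A ∧ G.tgt e ∈ B).card : ℝ)
      ≤ ((H.filter fun e => G.src e ∈ A).card : ℝ) := by exact_mod_cast h1
  refine le_trans ?_ (edges_le_ww H A B)
  unfold nn
  linarith

lemma card_split {X Z : Type} (H : Finset Z) (π : Z → X) (A A' C D : Set X)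
    (hC : ∀ x, x ∈ C ↔ x ∈ A ∧ x ∉ A') (hD : ∀ x, x ∈ D ↔ x ∈ A ∧ x ∈ A') :
    ((H.filter fun e => π e ∈ A).card : ℝ)
      = ((H.filter fun e => π e ∈ C).card : ℝ) + ((H.filter fun e => π e ∈ D).card : ℝ) := by
  rw [← Nat.cast_add, ← card_union_of_disjoint]
  · congr 2
    ext e
    simp only [mem_union, mem_filter, hC, hD]
    tauto
  · rw [disjoint_left]
    intro e he he'
    exact ((hC _).mp (mem_filter.mp he).2).2 ((hD _).mp (mem_filter.mp he').2).2

lemma ww_diff (H : Finset G.E) (A A' : Set G.U) (B B' : Set G.V) :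
    ww H (A \ A') (B \ B') = ww H A B - ww H (A ∩ A') (B ∩ B') := by
  have e1 := card_split H G.src A A' (A \ A') (A ∩ A') (fun _ => Iff.rfl) (fun _ => Iff.rfl)
  have e2 := card_split H G.tgt B B' (B \ B') (B ∩ B') (fun _ => Iff.rfl) (fun _ => Iff.rfl)
  have e3 := card_split (univ : Finset G.U) (fun u => u) A A' (A \ A') (A ∩ A')
    (fun _ => Iff.rfl) (fun _ => Iff.rfl)
  have e4 := card_split (univ : Finset G.V) (fun u => u) B B' (B \ B') (B ∩ B')
    (fun _ => Iff.rfl) (fun _ => Iff.rfl)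
  unfold ww
  rw [e1, e2, e3, e4]
  ring

lemma ww_univ (H : Finset G.E) : ww H Set.univ Set.univ = 4 * H.card := by
  have h1 := card_U_pos G
  have h2 := card_V_pos G
  unfold ww
  simp only [Set.mem_univ, filter_true, card_univ]
  field_simp
  norm_num

lemma ww_mono (H : Finset G.E) {A A' : Set G.U} {B B' : Set G.V} (hA : A ⊆ A') (hB : B ⊆ B') :
    ww H A B ≤ ww H A' B' := by
  have h1 : (H.filter fun e => G.src e ∈ A).card ≤ (H.filter fun e => G.src e ∈ A').card :=
    card_le_card fun e he => mem_filter.mpr ⟨(mem_filter.mp he).1, hA (mem_filter.mp he).2⟩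
  have h2 : (H.filter fun e => G.tgt e ∈ B).card ≤ (H.filter fun e => G.tgt e ∈ B').card :=
    card_le_card fun e he => mem_filter.mpr ⟨(mem_filter.mp he).1, hB (mem_filter.mp he).2⟩
  have h3 : (univ.filter fun u => u ∈ A).card ≤ (univ.filter fun u => u ∈ A').card :=
    card_le_card fun e he => mem_filter.mpr ⟨(mem_filter.mp he).1, hA (mem_filter.mp he).2⟩
  have h4 : (univ.filter fun u => u ∈ B).card ≤ (univ.filter fun u => u ∈ B').card :=
    card_le_card fun e he => mem_filter.mpr ⟨(mem_filter.mp he).1, hB (mem_filter.mp he).2⟩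
  unfold ww
  refine add_le_add (add_le_add (add_le_add (Nat.cast_le.mpr h1) (Nat.cast_le.mpr h2)) ?_) ?_
  · exact mul_le_mul_of_nonneg_left (Nat.cast_le.mpr h3) (by positivity)
  · exact mul_le_mul_of_nonneg_left (Nat.cast_le.mpr h4) (by positivity)

/-- every vertex has a weight -/
lemma card_le_ww_left (H : Finset G.E) {A : Set G.U} (B : Set G.V) (hA : A.Nonempty) :
    (H.card : ℝ) ≤ ww H A B * (Fintype.card G.U : ℝ) := by
  have h0 := card_U_pos G
  have h1 : (1 : ℝ) ≤ ((univ.filter fun u => u ∈ A).card : ℝ) := by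
    obtain ⟨u, hu⟩ := hA
    have : 0 < (univ.filter fun u => u ∈ A).card := card_pos.mpr ⟨u, mem_filter.mpr ⟨mem_univ _, hu⟩⟩
    exact_mod_cast this
  have h2 : (H.card : ℝ) / (Fintype.card G.U : ℝ) ≤ ww H A B := by
    have h3 : (H.card : ℝ) / (Fintype.card G.U : ℝ) * 1 ≤ (H.card : ℝ) / (Fintype.card G.U : ℝ)
        * ((univ.filter fun u => u ∈ A).card : ℝ) :=
      mul_le_mul_of_nonneg_left h1 (by positivity)
    have h4 : 0 ≤ (H.card : ℝ) / (Fintype.card G.V : ℝ)
        * ((univ.filter fun v => v ∈ B).card : ℝ) := by positivity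
    have h5 : (0 : ℝ) ≤ ((H.filter fun e => G.src e ∈ A).card : ℝ) := Nat.cast_nonneg _
    have h6 : (0 : ℝ) ≤ ((H.filter fun e => G.tgt e ∈ B).card : ℝ) := Nat.cast_nonneg _
    unfold ww
    linarith
  rwa [div_le_iff₀ h0] at h2

lemma card_le_ww_right (H : Finset G.E) (A : Set G.U) {B : Set G.V} (hB : B.Nonempty) :
    (H.card : ℝ) ≤ ww H A B * (Fintype.card G.V : ℝ) := by
  have h0 := card_V_pos G
  have h1 : (1 : ℝ) ≤ ((univ.filter fun u => u ∈ B).card : ℝ) := by
    obtain ⟨u, hu⟩ := hB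
    have : 0 < (univ.filter fun u => u ∈ B).card := card_pos.mpr ⟨u, mem_filter.mpr ⟨mem_univ _, hu⟩⟩
    exact_mod_cast this
  have h2 : (H.card : ℝ) / (Fintype.card G.V : ℝ) ≤ ww H A B := by
    have h3 : (H.card : ℝ) / (Fintype.card G.V : ℝ) * 1 ≤ (H.card : ℝ) / (Fintype.card G.V : ℝ)
        * ((univ.filter fun u => u ∈ B).card : ℝ) :=
      mul_le_mul_of_nonneg_left h1 (by positivity)
    have h4 : 0 ≤ (H.card : ℝ) / (Fintype.card G.U : ℝ)
        * ((univ.filter fun v => v ∈ A).card : ℝ) := by positivity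
    have h5 : (0 : ℝ) ≤ ((H.filter fun e => G.src e ∈ A).card : ℝ) := Nat.cast_nonneg _
    have h6 : (0 : ℝ) ≤ ((H.filter fun e => G.tgt e ∈ B).card : ℝ) := Nat.cast_nonneg _
    unfold ww
    linarith
  rwa [div_le_iff₀ h0] at h2

lemma nn_split (H : Finset G.E) (A A' C : Set G.U) (B B' D : Set G.V)
    (hC : ∀ x, x ∈ A → x ∉ A' → x ∈ C) (hD : ∀ x, x ∈ B → x ∉ B' → x ∈ D) (F : Finset G.E)
    (hF : ∀ e, e ∈ F ↔ e ∈ H ∧ G.src e ∈ A ∧ G.tgt e ∈ B) :
    (F.card : ℝ) ≤ nn H C D + (((F.filter fun e => G.src e ∈ A').card : ℝ)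
      + ((F.filter fun e => G.tgt e ∈ B').card : ℝ)) := by
  have h3 : F ⊆ (H.filter fun e => G.src e ∈ C ∧ G.tgt e ∈ D)
      ∪ ((F.filter fun e => G.src e ∈ A') ∪ (F.filter fun e => G.tgt e ∈ B')) := by
    intro e he
    have he2 := (hF e).mp he
    by_cases h4 : G.src e ∈ A'
    · exact mem_union_right _ (mem_union_left _ (mem_filter.mpr ⟨he, h4⟩))
    · by_cases h5 : G.tgt e ∈ B'
      · exact mem_union_right _ (mem_union_right _ (mem_filter.mpr ⟨he, h5⟩))
      · exact mem_union_left _ (mem_filter.mpr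
          ⟨he2.1, hC _ he2.2.1 h4, hD _ he2.2.2 h5⟩)
  have h4 := (card_le_card h3).trans ((card_union_le _ _).trans
    (Nat.add_le_add_left (card_union_le _ _) _))
  unfold nn
  exact_mod_cast h4

lemma nn_inter (H : Finset G.E) (A A' C : Set G.U) (B B' D : Set G.V)
    (hC : ∀ x, x ∈ C ↔ x ∈ A ∧ x ∈ A') (hD : ∀ x, x ∈ D ↔ x ∈ B ∧ x ∈ B') (F : Finset G.E)
    (hF : ∀ e, e ∈ F ↔ e ∈ H ∧ G.src e ∈ A ∧ G.tgt e ∈ B) :
    ((F.filter fun e => G.src e ∈ A' ∧ G.tgt e ∈ B').card : ℝ) = nn H C D := by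
  unfold nn
  congr 2
  ext e
  simp only [mem_filter, hF, hC, hD]
  tauto

/-- the part of maximal density -/
lemma exists_max_part {γ : ℝ} (hγ : 0 ≤ γ) (H : Finset G.E) (hH : H.Nonempty) :
    ∃ (A : Set G.U) (B : Set G.V) (Φ : ℝ), 0 < Φ ∧ 0 < ww H A B ∧
      1 ≤ 4 * (4 * (H.card : ℝ)) ^ γ * Φ ∧ Φ * ww H A B ^ (1 + γ) = nn H A B ∧
      ∀ A' B', nn H A' B' ≤ Φ * ww H A' B' ^ (1 + γ) := by
  have hH0 : (0 : ℝ) < H.card := by exact_mod_cast hH.card_pos
  have hg : 0 < 1 + γ := by linarith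
  obtain ⟨⟨A, B⟩, hmax⟩ := Finite.exists_max
    (fun X : Set G.U × Set G.V => nn H X.1 X.2 / ww H X.1 X.2 ^ (1 + γ))
  have hmax' : ∀ A' B', nn H A' B' / ww H A' B' ^ (1 + γ) ≤ nn H A B / ww H A B ^ (1 + γ) :=
    fun A' B' => hmax (A', B')
  have hun : nn H Set.univ Set.univ = H.card := by
    unfold nn
    simp
  have huw := ww_univ H
  have h2 : (0 : ℝ) < (4 * (H.card : ℝ)) ^ γ := Real.rpow_pos_of_pos (by linarith) _
  have hlow : 1 / (4 * (4 * (H.card : ℝ)) ^ γ) ≤ nn H A B / ww H A B ^ (1 + γ) := by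
    have h1 := hmax' Set.univ Set.univ
    rw [hun, huw] at h1
    refine le_trans (le_of_eq ?_) h1
    rw [Real.rpow_add (by linarith), Real.rpow_one]
    field_simp
  have hΦ0 : 0 < nn H A B / ww H A B ^ (1 + γ) :=
    lt_of_lt_of_le (div_pos one_pos (by linarith)) hlow
  have hw : 0 < ww H A B := by
    rcases (ww_nonneg H A B).eq_or_lt with h0 | h0
    · rw [← h0, Real.zero_rpow hg.ne', div_zero] at hΦ0
      exact absurd hΦ0 (lt_irrefl _)
    · exact h0
  refine ⟨A, B, nn H A B / ww H A B ^ (1 + γ), hΦ0, hw, ?_, ?_, ?_⟩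
  · rwa [div_le_iff₀' (by linarith)] at hlow
  · exact div_mul_cancel₀ _ (Real.rpow_pos_of_pos hw _).ne'
  · intro A' B'
    rcases (ww_nonneg H A' B').eq_or_lt with h0 | h0
    · rw [← h0, Real.zero_rpow hg.ne', mul_zero]
      exact (nn_le_ww H A' B').trans h0.symm.le
    · have h1 := hmax' A' B'
      rwa [div_le_iff₀ (Real.rpow_pos_of_pos h0 _)] at h1

/-- the inner degrees of the part of maximal density are large -/
lemma part_degree {γ : ℝ} (hγ : 0 ≤ γ) {H : Finset G.E} {A : Set G.U} {B : Set G.V} {Φ : ℝ}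
    (hΦ0 : 0 < Φ) (hwpos : 0 < ww H A B) (hnΦ : Φ * ww H A B ^ (1 + γ) = nn H A B)
    (hi : ∀ A' B', nn H A' B' ≤ Φ * ww H A' B' ^ (1 + γ)) (F : Finset G.E)
    (hF : ∀ e, e ∈ F ↔ e ∈ H ∧ G.src e ∈ A ∧ G.tgt e ∈ B) (hFn : (F.card : ℝ) = nn H A B)
    (A' : Set G.U) (B' : Set G.V) :
    nn H A B * ww H (A ∩ A') (B ∩ B') ≤ (((F.filter fun e => G.src e ∈ A').card : ℝ)
      + ((F.filter fun e => G.tgt e ∈ B').card : ℝ)) * ww H A B := by
  have hg : 0 < 1 + γ := by linarith
  have hnpos : 0 < nn H A B := by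
    rw [← hnΦ]
    exact mul_pos hΦ0 (Real.rpow_pos_of_pos hwpos _)
  have h2 := nn_split H A A' (A \ A') B B' (B \ B') (fun _ h h' => ⟨h, h'⟩)
    (fun _ h h' => ⟨h, h'⟩) F hF
  rw [hFn] at h2
  have h3 := ww_diff H A A' B B'
  have hw'0 := ww_nonneg H (A ∩ A') (B ∩ B')
  have hwd := ww_nonneg H (A \ A') (B \ B')
  have h4' := hi (A \ A') (B \ B')
  clear hi hFn hF
  generalize ((F.filter fun e => G.src e ∈ A').card : ℝ)
      + ((F.filter fun e => G.tgt e ∈ B').card : ℝ) = a at *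
  generalize nn H A B = n at *
  generalize ww H A B = w at *
  generalize ww H (A ∩ A') (B ∩ B') = w' at *
  generalize ww H (A \ A') (B \ B') = wd at *
  generalize nn H (A \ A') (B \ B') = nd at *
  subst h3
  have hw'1 : w' ≤ w := by linarith
  have h4 : nd ≤ n * (1 - w' / w) := by
    refine h4'.trans ?_
    have e1 : w - w' = w * (1 - w' / w) := by
      field_simp
    have e2 : 0 ≤ 1 - w' / w := by
      rw [sub_nonneg, div_le_one hwpos]
      exact hw'1
    have e3 : 1 - w' / w ≤ 1 := by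
      have := div_nonneg hw'0 hwpos.le
      linarith
    rw [e1, Real.mul_rpow hwpos.le e2, ← mul_assoc, hnΦ]
    refine mul_le_mul_of_nonneg_left ?_ hnpos.le
    calc (1 - w' / w) ^ (1 + γ) ≤ (1 - w' / w) ^ (1 : ℝ) := by
          rcases e2.eq_or_lt with h0 | h0
          · rw [← h0, Real.zero_rpow hg.ne', Real.zero_rpow one_ne_zero]
          · exact Real.rpow_le_rpow_of_exponent_ge h0 e3 (by linarith)
      _ = 1 - w' / w := Real.rpow_one _
  have h5 : n * (w' / w) ≤ a := by nlinarith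
  have : n * (w' / w) = n * w' / w := by ring
  rwa [this, div_le_iff₀ hwpos] at h5

/-- there is a dense part in which small sets have few inner edges -/
lemma exists_dense {γ : ℝ} (hγ : 0 ≤ γ) (H : Finset G.E) (hH : H.Nonempty) {μ : ℝ}
    (hμU : μ = Fintype.card G.U ∨ μ = Fintype.card G.V) :
    ∃ (A : Set G.U) (B : Set G.V)
      (hF : (H.filter fun e => G.src e ∈ A ∧ G.tgt e ∈ B).Nonempty),
      ww H A B ≤ 4 * (4 * μ) ^ γ * nn H A B ∧
      SmallSets (G.sub _ hF).src (G.sub _ hF).tgt γ ∧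
      (∀ e₀, (Fintype.card (G.sub _ hF).E : ℝ) ≤ 4 * (Fintype.card G.U : ℝ)
        * ((univ.filter fun e => (G.sub _ hF).src e = (G.sub _ hF).src e₀).card : ℝ)) ∧
      (∀ e₀, (Fintype.card (G.sub _ hF).E : ℝ) ≤ 4 * (Fintype.card G.V : ℝ)
        * ((univ.filter fun e => (G.sub _ hF).tgt e = (G.sub _ hF).tgt e₀).card : ℝ)) := by
  have hg : 0 < 1 + γ := by linarith
  have hH0 : (0 : ℝ) < H.card := by exact_mod_cast hH.card_pos
  have hU0 := card_U_pos G
  have hV0 := card_V_pos G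
  obtain ⟨A, B, Φ, hΦ0, hwpos, hlow, hnΦ, hi⟩ := exists_max_part hγ H hH
  have hnpos : 0 < nn H A B := by
    rw [← hnΦ]
    exact mul_pos hΦ0 (Real.rpow_pos_of_pos hwpos _)
  have hF : (H.filter fun e => G.src e ∈ A ∧ G.tgt e ∈ B).Nonempty := by
    rw [← card_pos]
    unfold nn at hnpos
    exact_mod_cast hnpos
  have hA : A.Nonempty := by
    obtain ⟨e, he⟩ := hF
    exact ⟨_, (mem_filter.mp he).2.1⟩
  have hB : B.Nonempty := by
    obtain ⟨e, he⟩ := hF
    exact ⟨_, (mem_filter.mp he).2.2⟩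
  have hwμ : (H.card : ℝ) ≤ ww H A B * μ := by
    rcases hμU with h | h
    · rw [h]
      exact card_le_ww_left H B hA
    · rw [h]
      exact card_le_ww_right H A hB
  have hμ0 : 0 < μ := by
    rcases hμU with h | h
    · rw [h]
      exact hU0
    · rw [h]
      exact hV0
  have hw4 : ww H A B ≤ 4 * H.card := by
    rw [← ww_univ H]
    exact ww_mono H (Set.subset_univ _) (Set.subset_univ _)
  set F : Finset G.E := H.filter fun e => G.src e ∈ A ∧ G.tgt e ∈ B with hFdef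
  have hmem : ∀ e, e ∈ F ↔ e ∈ H ∧ G.src e ∈ A ∧ G.tgt e ∈ B := fun e => mem_filter
  have hFn : (F.card : ℝ) = nn H A B := rfl
  have hdeg := part_degree hγ hΦ0 hwpos hnΦ hi F hmem hFn
  refine ⟨A, B, hF, ?_, smallSets_sub _ hF fun A' B' => ?_, ?_, ?_⟩
  · -- the density
    have h1 : (4 * (H.card : ℝ)) ^ γ ≤ (4 * μ) ^ γ * ww H A B ^ γ := by
      rw [← Real.mul_rpow (by positivity) hwpos.le]
      refine Real.rpow_le_rpow (by positivity) ?_ hγ
      linarith
    have h2 : ww H A B ^ (1 + γ) = ww H A B * ww H A B ^ γ := by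
      rw [Real.rpow_add hwpos, Real.rpow_one]
    have h3 : 4 * (4 * (H.card : ℝ)) ^ γ * Φ ≤ 4 * ((4 * μ) ^ γ * ww H A B ^ γ) * Φ := by
      refine mul_le_mul_of_nonneg_right ?_ hΦ0.le
      linarith
    have h4 : 1 * ww H A B ≤ 4 * ((4 * μ) ^ γ * ww H A B ^ γ) * Φ * ww H A B :=
      mul_le_mul_of_nonneg_right (hlow.trans h3) hwpos.le
    rw [← hnΦ, h2]
    linarith
  · -- small sets
    obtain ⟨a, ha⟩ : ∃ a : ℝ, a = ((F.filter fun e => G.src e ∈ A').card : ℝ)
      + ((F.filter fun e => G.tgt e ∈ B').card : ℝ) := ⟨_, rfl⟩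
    have hab : 0 ≤ a := by
      rw [ha]
      positivity
    have h1 := nn_inter H A A' (A ∩ A') B B' (B ∩ B') (fun _ => Iff.rfl) (fun _ => Iff.rfl) F hmem
    have h5 := hdeg A' B'
    rw [← ha] at h5
    rw [h1, hFn, ← ha]
    have hw'0 := ww_nonneg H (A ∩ A') (B ∩ B')
    have h6' := hi (A ∩ A') (B ∩ B')
    clear hi h1 ha hFn hmem hdeg hwμ hw4 hlow
    generalize nn H A B = n at *
    generalize ww H A B = w at *
    generalize ww H (A ∩ A') (B ∩ B') = w' at *
    generalize nn H (A ∩ A') (B ∩ B') = n' at *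
    have h6 : w' ≤ a * (w / n) := by
      rw [← mul_div_assoc, le_div_iff₀ hnpos]
      linarith
    calc n' * n ^ γ ≤ (Φ * w' ^ (1 + γ)) * n ^ γ :=
          mul_le_mul_of_nonneg_right h6' (Real.rpow_nonneg hnpos.le _)
      _ ≤ (Φ * (a * (w / n)) ^ (1 + γ)) * n ^ γ := by
          refine mul_le_mul_of_nonneg_right ?_ (Real.rpow_nonneg hnpos.le _)
          exact mul_le_mul_of_nonneg_left (Real.rpow_le_rpow hw'0 h6 hg.le) hΦ0.le
      _ = a ^ (1 + γ) := by
          rw [Real.mul_rpow hab (div_nonneg hwpos.le hnpos.le),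
            Real.div_rpow hwpos.le hnpos.le]
          have e1 : n ^ (1 + γ) = n * n ^ γ := by
            rw [Real.rpow_add hnpos, Real.rpow_one]
          have e2 : n ^ γ ≠ 0 := (Real.rpow_pos_of_pos hnpos γ).ne'
          have e3 : Φ * (a ^ (1 + γ) * (w ^ (1 + γ) / n ^ (1 + γ))) * n ^ γ
              = a ^ (1 + γ) * ((Φ * w ^ (1 + γ)) * n ^ γ / n ^ (1 + γ)) := by
            ring
          rw [e3, hnΦ, e1, div_self (mul_ne_zero hnpos.ne' e2), mul_one]
  · -- the degrees in `U`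
    intro e₀
    obtain ⟨A₁, hA₁⟩ : ∃ A₁ : Set G.U, ∀ u, u ∈ A₁ ↔ u = G.src e₀.1 :=
      ⟨{G.src e₀.1}, fun _ => Iff.rfl⟩
    obtain ⟨B₁, hB₁⟩ : ∃ B₁ : Set G.V, ∀ v, v ∉ B₁ := ⟨∅, fun _ => Set.notMem_empty _⟩
    have h1 := hdeg A₁ B₁
    have h2 : (A ∩ A₁).Nonempty := ⟨G.src e₀.1, ((hmem _).mp e₀.2).2.1, (hA₁ _).mpr rfl⟩
    have h3 := card_le_ww_left H (B ∩ B₁) h2
    have h4 : ((F.filter fun e => G.tgt e ∈ B₁).card : ℝ) = 0 := by
      rw [filter_false_of_mem fun e _ => hB₁ _]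
      simp
    have h5 : ((univ.filter fun e => (G.sub F hF).src e = (G.sub F hF).src e₀).card : ℝ)
        = ((F.filter fun e => G.src e ∈ A₁).card : ℝ) := by
      refine congrArg Nat.cast ?_
      have e1 : (F.filter fun e => G.src e ∈ A₁) = F.filter fun e => G.src e = G.src e₀.1 :=
        filter_congr fun e _ => hA₁ _
      rw [e1]
      exact card_sub_filter F fun e => G.src e = G.src e₀.1
    rw [h4, add_zero, ← h5] at h1
    have h6 : (Fintype.card (G.sub F hF).E : ℝ) = nn H A B := by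
      rw [← hFn]
      exact congrArg Nat.cast (Fintype.card_coe F)
    have hd : (0 : ℝ) ≤ ((univ.filter fun e => (G.sub F hF).src e
        = (G.sub F hF).src e₀).card : ℝ) := Nat.cast_nonneg _
    refine le_trans (le_of_eq h6) ?_
    change nn H A B ≤ 4 * (Fintype.card G.U : ℝ)
      * ((univ.filter fun e => (G.sub F hF).src e = (G.sub F hF).src e₀).card : ℝ)
    generalize ((univ.filter fun e => (G.sub F hF).src e = (G.sub F hF).src e₀).card : ℝ) = d
      at h1 hd ⊢
    have h7 : nn H A B * (H.card : ℝ) ≤ (4 * (Fintype.card G.U : ℝ) * d) * (H.card : ℝ) := by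
      calc nn H A B * (H.card : ℝ)
          ≤ nn H A B * (ww H (A ∩ A₁) (B ∩ B₁) * (Fintype.card G.U : ℝ)) :=
            mul_le_mul_of_nonneg_left h3 hnpos.le
        _ = (nn H A B * ww H (A ∩ A₁) (B ∩ B₁)) * (Fintype.card G.U : ℝ) := by ring
        _ ≤ (d * ww H A B) * (Fintype.card G.U : ℝ) :=
            mul_le_mul_of_nonneg_right h1 hU0.le
        _ ≤ (d * (4 * H.card)) * (Fintype.card G.U : ℝ) :=
            mul_le_mul_of_nonneg_right (mul_le_mul_of_nonneg_left hw4 hd) hU0.le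
        _ = (4 * (Fintype.card G.U : ℝ) * d) * (H.card : ℝ) := by ring
    exact le_of_mul_le_mul_right h7 hH0
  · -- the degrees in `V`
    intro e₀
    obtain ⟨A₁, hA₁⟩ : ∃ A₁ : Set G.U, ∀ u, u ∉ A₁ := ⟨∅, fun _ => Set.notMem_empty _⟩
    obtain ⟨B₁, hB₁⟩ : ∃ B₁ : Set G.V, ∀ v, v ∈ B₁ ↔ v = G.tgt e₀.1 :=
      ⟨{G.tgt e₀.1}, fun _ => Iff.rfl⟩
    have h1 := hdeg A₁ B₁
    have h2 : (B ∩ B₁).Nonempty := ⟨G.tgt e₀.1, ((hmem _).mp e₀.2).2.2, (hB₁ _).mpr rfl⟩
    have h3 := card_le_ww_right H (A ∩ A₁) h2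
    have h4 : ((F.filter fun e => G.src e ∈ A₁).card : ℝ) = 0 := by
      rw [filter_false_of_mem fun e _ => hA₁ _]
      simp
    have h5 : ((univ.filter fun e => (G.sub F hF).tgt e = (G.sub F hF).tgt e₀).card : ℝ)
        = ((F.filter fun e => G.tgt e ∈ B₁).card : ℝ) := by
      refine congrArg Nat.cast ?_
      have e1 : (F.filter fun e => G.tgt e ∈ B₁) = F.filter fun e => G.tgt e = G.tgt e₀.1 :=
        filter_congr fun e _ => hB₁ _
      rw [e1]
      exact card_sub_filter F fun e => G.tgt e = G.tgt e₀.1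
    rw [h4, zero_add, ← h5] at h1
    have h6 : (Fintype.card (G.sub F hF).E : ℝ) = nn H A B := by
      rw [← hFn]
      exact congrArg Nat.cast (Fintype.card_coe F)
    have hd : (0 : ℝ) ≤ ((univ.filter fun e => (G.sub F hF).tgt e
        = (G.sub F hF).tgt e₀).card : ℝ) := Nat.cast_nonneg _
    refine le_trans (le_of_eq h6) ?_
    change nn H A B ≤ 4 * (Fintype.card G.V : ℝ)
      * ((univ.filter fun e => (G.sub F hF).tgt e = (G.sub F hF).tgt e₀).card : ℝ)
    generalize ((univ.filter fun e => (G.sub F hF).tgt e = (G.sub F hF).tgt e₀).card : ℝ) = d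
      at h1 hd ⊢
    have h7 : nn H A B * (H.card : ℝ) ≤ (4 * (Fintype.card G.V : ℝ) * d) * (H.card : ℝ) := by
      calc nn H A B * (H.card : ℝ)
          ≤ nn H A B * (ww H (A ∩ A₁) (B ∩ B₁) * (Fintype.card G.V : ℝ)) :=
            mul_le_mul_of_nonneg_left h3 hnpos.le
        _ = (nn H A B * ww H (A ∩ A₁) (B ∩ B₁)) * (Fintype.card G.V : ℝ) := by ring
        _ ≤ (d * ww H A B) * (Fintype.card G.V : ℝ) :=
            mul_le_mul_of_nonneg_right h1 hV0.le
        _ ≤ (d * (4 * H.card)) * (Fintype.card G.V : ℝ) :=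
            mul_le_mul_of_nonneg_right (mul_le_mul_of_nonneg_left hw4 hd) hV0.le
        _ = (4 * (Fintype.card G.V : ℝ) * d) * (H.card : ℝ) := by ring
    exact le_of_mul_le_mul_right h7 hH0

end SDA

end Pool.Agent.MP_ec946a
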