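import Mathlib
import Pool.Agent.Lib.MP_ec946a_sda.Parts

/-!
# Small powers of the number of edges as levels
-/

set_option autoImplicit false

namespace Pool.Agent.MP_ec946a.SDA

open Finset Classical

variable {q : ℕ} {G : Game q}

/-- the value is attained -/
lemma exists_value (hq : 0 < q) : ∃ (LU : G.U → Fin q) (LV : G.V → Fin q),
    G.value * (Fintype.card G.E : ℝ)
      ≤ ((univ.filter fun e => G.proj e (LU (G.src e)) = LV (G.tgt e)).card : ℝ) := by
  have : Nonempty (Fin q) := ⟨⟨0, hq⟩⟩
  obtain ⟨L, hL⟩ := exists_eq_ciSup_of_finite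
    (f := fun L : (G.U → Fin q) × (G.V → Fin q) =>
      (Nat.card (G.satisfied L.1 L.2) : ℝ) / (Nat.card G.E : ℝ))
  have h1 : (Nat.card (G.satisfied L.1 L.2) : ℝ) / (Nat.card G.E : ℝ) = G.value := hL
  have h2 : (0 : ℝ) < (Nat.card G.E : ℝ) := by
    exact_mod_cast Nat.card_pos
  refine ⟨L.1, L.2, ?_⟩
  rw [← h1, ← Nat.card_eq_fintype_card, div_mul_cancel₀ _ h2.ne', Nat.card_coe_set_eq,
    Set.ncard_eq_toFinset_card']
  refine Nat.cast_le.mpr (card_le_card fun e he => ?_)
  have h3 : e ∈ G.satisfied L.1 L.2 := Set.mem_toFinset.mp he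
  exact mem_filter.mpr ⟨mem_univ _, h3⟩

lemma value_ge_of_labeling (LU : G.U → Fin q) (LV : G.V → Fin q) :
    ((univ.filter fun e => G.proj e (LU (G.src e)) = LV (G.tgt e)).card : ℝ)
      ≤ G.value * (Fintype.card G.E : ℝ) := by
  have h2 : (0 : ℝ) < (Nat.card G.E : ℝ) := by
    exact_mod_cast Nat.card_pos
  have h1 : (Nat.card (G.satisfied LU LV) : ℝ) / (Nat.card G.E : ℝ) ≤ G.value :=
    le_ciSup (f := fun L : (G.U → Fin q) × (G.V → Fin q) =>
      (Nat.card (G.satisfied L.1 L.2) : ℝ) / (Nat.card G.E : ℝ)) (Set.finite_range _).bddAbove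
      (LU, LV)
  rw [div_le_iff₀ h2, Nat.card_eq_fintype_card (α := G.E), Nat.card_coe_set_eq,
    Set.ncard_eq_toFinset_card'] at h1
  refine le_trans (Nat.cast_le.mpr (card_le_card fun e he => ?_)) h1
  have h3 : e ∈ G.satisfied LU LV := (mem_filter.mp he).2
  exact Set.mem_toFinset.mpr h3

/-- labelings of the parts can be put together -/
lemma exists_labeling_of_parts {γ : ℝ} (hγ : 0 ≤ γ) {v : ℝ} (hv : 0 ≤ v) (hq : 0 < q) {μ : ℝ}
    (hμ : μ = Fintype.card G.U ∨ μ = Fintype.card G.V)
    (hsub : ∀ (F : Finset G.E) (hF : F.Nonempty),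
      SmallSets (G.sub F hF).src (G.sub F hF).tgt γ →
      (∀ e₀, (Fintype.card (G.sub F hF).E : ℝ) ≤ 4 * (Fintype.card G.U : ℝ)
        * ((univ.filter fun e => (G.sub F hF).src e = (G.sub F hF).src e₀).card : ℝ)) →
      (∀ e₀, (Fintype.card (G.sub F hF).E : ℝ) ≤ 4 * (Fintype.card G.V : ℝ)
        * ((univ.filter fun e => (G.sub F hF).tgt e = (G.sub F hF).tgt e₀).card : ℝ)) →
      v ≤ (G.sub F hF).value) (H : Finset G.E) :
    ∃ (LU : G.U → Fin q) (LV : G.V → Fin q), v * (H.card : ℝ)
      ≤ 4 * (4 * μ) ^ γ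
        * ((H.filter fun e => G.proj e (LU (G.src e)) = LV (G.tgt e)).card : ℝ) := by
  have hμ0 : 0 < μ := by
    rcases hμ with h | h
    · rw [h]
      exact card_U_pos G
    · rw [h]
      exact card_V_pos G
  induction H using Finset.strongInduction with
  | H H ih =>
    rcases H.eq_empty_or_nonempty with h0 | h0
    · refine ⟨fun _ => ⟨0, hq⟩, fun _ => ⟨0, hq⟩, ?_⟩
      rw [h0]
      simp
    · obtain ⟨A, B, hF, hw, hS, hdU, hdV⟩ := exists_dense hγ H h0 hμ
      have hval := hsub _ hF hS hdU hdV
      set F : Finset G.E := H.filter fun e => G.src e ∈ A ∧ G.tgt e ∈ B with hFdef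
      set H' : Finset G.E := H.filter fun e => G.src e ∉ A ∧ G.tgt e ∉ B with hH'
      have hlt : H' ⊂ H := by
        refine ⟨filter_subset _ _, fun hsub' => ?_⟩
        obtain ⟨e, he⟩ := hF
        have h1 := hsub' (mem_of_mem_filter e he)
        exact (mem_filter.mp h1).2.1 (mem_filter.mp he).2.1
      obtain ⟨LU₂, LV₂, h2⟩ := ih H' hlt
      obtain ⟨LU₁, LV₁, h1⟩ := exists_value (G := G.sub F hF) hq
      have h1' : v * (F.card : ℝ)
          ≤ ((F.filter fun e => G.proj e (LU₁ (G.src e)) = LV₁ (G.tgt e)).card : ℝ) := by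
        have e1 : (F.card : ℝ) = (Fintype.card (G.sub F hF).E : ℝ) := by
          rw [← Fintype.card_coe F]
          rfl
        rw [e1]
        refine (mul_le_mul_of_nonneg_right hval (Nat.cast_nonneg _)).trans (h1.trans ?_)
        refine le_of_eq (congrArg Nat.cast ?_)
        exact card_sub_filter F fun e => G.proj e (LU₁ (G.src e)) = LV₁ (G.tgt e)
      refine ⟨fun u => if u ∈ A then LU₁ u else LU₂ u, fun w => if w ∈ B then LV₁ w else LV₂ w,
        ?_⟩
      -- the satisfied edges
      have hsat : (F.filter fun e => G.proj e (LU₁ (G.src e)) = LV₁ (G.tgt e)).card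
          + (H'.filter fun e => G.proj e (LU₂ (G.src e)) = LV₂ (G.tgt e)).card
          ≤ (H.filter fun e => G.proj e (if G.src e ∈ A then LU₁ (G.src e) else LU₂ (G.src e))
            = if G.tgt e ∈ B then LV₁ (G.tgt e) else LV₂ (G.tgt e)).card := by
        rw [← card_union_of_disjoint]
        · refine card_le_card fun e he => ?_
          rcases mem_union.mp he with h3 | h3
          · have h4 := mem_filter.mp h3
            have h5 := mem_filter.mp h4.1
            refine mem_filter.mpr ⟨h5.1, ?_⟩
            rw [if_pos h5.2.1, if_pos h5.2.2]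
            exact h4.2
          · have h4 := mem_filter.mp h3
            have h5 := mem_filter.mp h4.1
            refine mem_filter.mpr ⟨h5.1, ?_⟩
            rw [if_neg h5.2.1, if_neg h5.2.2]
            exact h4.2
        · rw [disjoint_left]
          intro e he he'
          exact (mem_filter.mp (mem_filter.mp he').1).2.1
            (mem_filter.mp (mem_filter.mp he).1).2.1
      have hsat' : ((F.filter fun e => G.proj e (LU₁ (G.src e)) = LV₁ (G.tgt e)).card : ℝ)
          + ((H'.filter fun e => G.proj e (LU₂ (G.src e)) = LV₂ (G.tgt e)).card : ℝ)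
          ≤ ((H.filter fun e => G.proj e (if G.src e ∈ A then LU₁ (G.src e) else LU₂ (G.src e))
            = if G.tgt e ∈ B then LV₁ (G.tgt e) else LV₂ (G.tgt e)).card : ℝ) := by
        exact_mod_cast hsat
      -- the number of edges
      have hcard : (H.card : ℝ) ≤ ww H A B + (H'.card : ℝ) := by
        have h3 : H ⊆ (H.filter fun e => G.src e ∈ A) ∪ (H.filter fun e => G.tgt e ∈ B) ∪ H' := by
          intro e he
          by_cases h4 : G.src e ∈ A
          · exact mem_union_left _ (mem_union_left _ (mem_filter.mpr ⟨he, h4⟩))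
          · by_cases h5 : G.tgt e ∈ B
            · exact mem_union_left _ (mem_union_right _ (mem_filter.mpr ⟨he, h5⟩))
            · exact mem_union_right _ (mem_filter.mpr ⟨he, h4, h5⟩)
        have h4 := (card_le_card h3).trans ((card_union_le _ _).trans
          (Nat.add_le_add_right (card_union_le _ _) _))
        have h5 : (H.card : ℝ) ≤ ((H.filter fun e => G.src e ∈ A).card : ℝ)
            + ((H.filter fun e => G.tgt e ∈ B).card : ℝ) + (H'.card : ℝ) := by
          exact_mod_cast h4
        have h6 := edges_le_ww H A B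
        linarith
      have hFn : nn H A B = (F.card : ℝ) := rfl
      rw [hFn] at hw
      set c : ℝ := 4 * (4 * μ) ^ γ with hc
      have hc0 : 0 ≤ c := by
        rw [hc]
        positivity
      have hw' : ww H A B ≤ c * (F.card : ℝ) := hw
      calc v * (H.card : ℝ) ≤ v * (ww H A B + (H'.card : ℝ)) :=
            mul_le_mul_of_nonneg_left hcard hv
        _ ≤ v * (c * (F.card : ℝ) + (H'.card : ℝ)) :=
            mul_le_mul_of_nonneg_left (by linarith) hv
        _ = c * (v * (F.card : ℝ)) + v * (H'.card : ℝ) := by ring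
        _ ≤ c * ((F.filter fun e => G.proj e (LU₁ (G.src e)) = LV₁ (G.tgt e)).card : ℝ)
            + c * ((H'.filter fun e => G.proj e (LU₂ (G.src e)) = LV₂ (G.tgt e)).card : ℝ) :=
            add_le_add (mul_le_mul_of_nonneg_left h1' hc0) h2
        _ ≤ _ := by
            rw [← mul_add]
            exact mul_le_mul_of_nonneg_left hsat' hc0

/-- the number of all singular values -/
lemma few_card {E X Y : Type} [Fintype E] [Fintype X] (src : E → X) (tgt : E → Y) :
    ∃ φ : Fin (Fintype.card X) → X → ℝ, ∀ (f : X → ℝ) (g : Y → ℝ),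
      (∀ i, ∑ e, f (src e) * φ i (src e) = 0) →
      ∑ e, f (src e) * g (tgt e) ≤ 0 * (√(∑ e, f (src e) ^ 2) * √(∑ e, g (tgt e) ^ 2)) := by
  refine ⟨fun i x => if x = (Fintype.equivFin X).symm i then 1 else 0, fun f g hfg => ?_⟩
  have h0 : ∀ e₀, f (src e₀) = 0 := by
    intro e₀
    have h1 := hfg (Fintype.equivFin X (src e₀))
    simp only [Equiv.symm_apply_apply, mul_ite, mul_one, mul_zero] at h1
    rw [← sum_filter, sum_congr rfl fun e he => by rw [(mem_filter.mp he).2], sum_const,
      nsmul_eq_mul] at h1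
    exact (mul_eq_zero.mp h1).resolve_left (card_fibre_pos e₀).ne'
  rw [sum_congr rfl fun e _ => by rw [h0 e, zero_mul], sum_const_zero, zero_mul]

/-- the lower levels -/
lemma level_zero {t : ℕ} (s : G.LevelSolution t) : Nonempty (G.LevelSolution 0) :=
  ⟨{ y := s.y
     empty := s.empty
     nonneg := fun S hS => s.nonneg S (by omega)
     sum := fun S x hS => s.sum S x (by omega)
     conflict := s.conflict
     edge := s.edge
     psd := fun S hS => s.psd S (by omega) }⟩

/-- a small power of the number of vertices, as the level, suffices for a constant value -/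
theorem value_ge_of_power {t : ℕ} (s : G.LevelSolution t) {β : ℝ} (hβ : 0 < β) (hβ1 : β ≤ 1)
    {μ : ℝ} (hμ : μ = Fintype.card G.U ∨ μ = Fintype.card G.V)
    (ht : 288 * (4 * μ) ^ β ≤ t) : (β / 2) ^ (150 / β) ≤ G.value := by
  have hq : 0 < q := by
    rcases Nat.eq_zero_or_pos q with h0 | h0
    · obtain ⟨e₀⟩ := G.neE
      have h1 := s.sum ∅ (Sum.inl (G.src e₀)) (by simp)
      subst h0
      rw [s.empty] at h1
      simp at h1
    · exact h0
  set N : ℝ := (Fintype.card G.E : ℝ) with hN
  have hN0 : 0 < N := by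
    rw [hN]
    exact_mod_cast Fintype.card_pos
  have hμ1 : 1 ≤ μ := by
    rcases hμ with h | h
    · have h1 := card_U_pos G
      rw [h]
      have h2 : 0 < Fintype.card G.U := by exact_mod_cast h1
      exact_mod_cast h2
    · have h1 := card_V_pos G
      rw [h]
      have h2 : 0 < Fintype.card G.V := by exact_mod_cast h1
      exact_mod_cast h2
  set D : ℝ := 4 * μ with hD
  have hD1 : 1 ≤ D := by linarith
  have hD0 : 0 < D := by linarith
  have hb2 : 0 < β / 2 := by linarith
  have hb21 : β / 2 ≤ 1 := by linarith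
  set L : ℝ := Real.log (2 / β) with hL
  have hLb : Real.exp (-L) = β / 2 := by
    rw [hL, ← Real.log_inv, Real.exp_log (by positivity), inv_div]
  have hL2 : Real.log 2 ≤ L := by
    rw [hL]
    refine Real.log_le_log (by norm_num) ?_
    rw [le_div_iff₀ hβ]
    linarith
  have hl2 : 0.6931 < Real.log 2 := by
    have := Real.log_two_gt_d9
    linarith
  have hL0 : 0 < L := by linarith
  set a : ℝ := 144 * L / β with ha
  have ha0 : 0 < a := by positivity
  have hexp : Real.exp (-a) = (β / 2) ^ (144 / β) := by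
    rw [← hLb, ← Real.exp_mul]
    congr 1
    rw [ha]
    ring
  have hsplit : (β / 2) ^ (150 / β) = (β / 2) ^ (6 / β) * (β / 2) ^ (144 / β) := by
    rw [← Real.rpow_add hb2]
    congr 1
    ring
  have hsmall : (β / 2) ^ (6 / β) ≤ 1 / 64 := by
    calc (β / 2) ^ (6 / β) ≤ (1 / 2 : ℝ) ^ (6 / β) :=
          Real.rpow_le_rpow hb2.le (by linarith) (by positivity)
      _ ≤ (1 / 2 : ℝ) ^ (6 : ℝ) := by
          refine Real.rpow_le_rpow_of_exponent_ge (by norm_num) (by norm_num) ?_
          rw [le_div_iff₀ hβ]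
          linarith
      _ = 1 / 64 := by
          rw [show (6 : ℝ) = ((6 : ℕ) : ℝ) by norm_num, Real.rpow_natCast]
          norm_num
  have h7 : 0 < Real.exp (-a) := Real.exp_pos _
  have h9 : (β / 2) ^ (6 / β) * Real.exp (-a) ≤ 1 / 64 * Real.exp (-a) :=
    mul_le_mul_of_nonneg_right hsmall h7.le
  have h6 : Real.exp (-a) * Real.exp a = 1 := by
    rw [← Real.exp_add]
    simp
  rw [hsplit, ← hexp]
  rcases lt_or_ge D (Real.exp a) with hcase | hcase
  · -- few vertices
    obtain ⟨s'⟩ := level_zero s
    have h1 : 1 ≤ 72 * μ * G.value := by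
      have h2 : ∀ m : ℕ, G.Expands m 0 → 1 ≤ 72 * (m : ℝ) * G.value := by
        intro m hm
        have h3 := value_ge_of_level_zero s' (le_refl (0 : ℝ)) (by simp) hm
        simpa using h3
      rcases hμ with h | h
      · rw [h]
        exact h2 _ (few_card G.src G.tgt)
      · rw [h]
        exact h2 _ (few_swap le_rfl (few_card G.tgt G.src))
    have hval0 : 0 ≤ G.value := by
      by_contra h2
      push Not at h2
      nlinarith
    have h2 : 1 ≤ 18 * Real.exp a * G.value := by
      have h3 : 72 * μ * G.value ≤ 18 * Real.exp a * G.value :=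
        mul_le_mul_of_nonneg_right (by linarith) hval0
      linarith
    have h3 : 1 * Real.exp (-a) ≤ (18 * Real.exp a * G.value) * Real.exp (-a) :=
      mul_le_mul_of_nonneg_right h2 h7.le
    have h4 : (18 * Real.exp a * G.value) * Real.exp (-a)
        = 18 * G.value * (Real.exp (-a) * Real.exp a) := by ring
    rw [h4, h6, mul_one] at h3
    linarith
  · -- many vertices
    have hlog : a ≤ Real.log D := by
      rw [Real.le_log_iff_exp_le hD0]
      exact hcase
    have hlog0 : 0 < Real.log D := by linarith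
    set γ : ℝ := a / Real.log D with hγ
    have hγ0 : 0 ≤ γ := by positivity
    have hγ1 : γ ≤ 1 := by
      rw [hγ, div_le_one hlog0]
      exact hlog
    have hDγ : D ^ γ = Real.exp a := by
      rw [Real.rpow_def_of_pos hD0]
      congr 1
      rw [hγ]
      field_simp
    have hbl : 36 ≤ β * Real.log D := by
      have h1 : β * a ≤ β * Real.log D := mul_le_mul_of_nonneg_left hlog hβ.le
      have h2 : β * a = 144 * L := by
        rw [ha]
        field_simp
      linarith
    set j : ℕ := ⌈β * Real.log D / 36⌉₊ with hj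
    have hj1 : β * Real.log D / 36 ≤ j := Nat.le_ceil _
    have hj2 : (j : ℝ) ≤ β * Real.log D / 18 := by
      have h1 := Nat.ceil_lt_add_one (by positivity : 0 ≤ β * Real.log D / 36)
      rw [← hj] at h1
      linarith
    set m : ℕ := ⌊D ^ β⌋₊ with hm
    have hm1 : (m : ℝ) ≤ D ^ β := Nat.floor_le (by positivity)
    have hm2 : D ^ β < m + 1 := Nat.lt_floor_add_one _
    set v : ℝ := (1 - √2 * (1 / 4) - 1 / 4) ^ 2 with hv
    have hr : √2 ≤ 1.42 := by
      rw [Real.sqrt_le_left (by norm_num)]
      norm_num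
    have hv1 : 1 / 16 ≤ v := by
      rw [hv]
      nlinarith
    have hnum : 19 ^ j * D ^ ((1 - γ / 4) ^ j) < (1 / 4 : ℝ) ^ (4 * j) * (m + 1) := by
      have hx : (1 - γ / 4) ^ j ≤ β / 2 := by
        have e1 : 1 - γ / 4 ≤ Real.exp (-(γ / 4)) := by
          have := Real.add_one_le_exp (-(γ / 4))
          linarith
        have e2 : (1 - γ / 4) ^ j ≤ Real.exp (-(γ / 4)) ^ j :=
          pow_le_pow_left₀ (by linarith) e1 j
        refine e2.trans ?_
        rw [← Real.exp_nat_mul, ← hLb]
        refine Real.exp_le_exp.mpr ?_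
        have e3 : γ / 4 * (β * Real.log D / 36) = L := by
          rw [hγ, ha]
          field_simp
          norm_num
        have e4 : γ / 4 * (β * Real.log D / 36) ≤ γ / 4 * j :=
          mul_le_mul_of_nonneg_left hj1 (by positivity)
        linarith
      have hy : (19 : ℝ) ^ j * 256 ^ j ≤ D ^ (β / 2) := by
        rw [← mul_pow]
        have e1 : (19 * 256 : ℝ) ≤ Real.exp 9 := by
          have h1 : Real.exp 9 = Real.exp 1 ^ 9 := by
            rw [← Real.exp_nat_mul]
            norm_num
          rw [h1]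
          have h2 : (2.7 : ℝ) ^ 9 ≤ Real.exp 1 ^ 9 := by
            refine pow_le_pow_left₀ (by norm_num) ?_ 9
            have := Real.exp_one_gt_d9
            linarith
          refine le_trans ?_ h2
          norm_num
        refine (pow_le_pow_left₀ (by norm_num) e1 j).trans ?_
        rw [← Real.exp_nat_mul, Real.rpow_def_of_pos hD0]
        refine Real.exp_le_exp.mpr ?_
        nlinarith
      have hz : D ^ ((1 - γ / 4) ^ j) ≤ D ^ (β / 2) :=
        Real.rpow_le_rpow_of_exponent_le hD1 hx
      have e3 : (1 / 4 : ℝ) ^ (4 * j) = (256 ^ j)⁻¹ := by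
        rw [pow_mul, ← inv_pow]
        norm_num
      rw [e3, inv_mul_eq_div, lt_div_iff₀ (by positivity)]
      calc 19 ^ j * D ^ ((1 - γ / 4) ^ j) * 256 ^ j
          = (19 ^ j * 256 ^ j) * D ^ ((1 - γ / 4) ^ j) := by
            ring
        _ ≤ D ^ (β / 2) * D ^ (β / 2) :=
            mul_le_mul hy hz (by positivity) (by positivity)
        _ = D ^ β := by
            rw [← Real.rpow_add hD0]
            congr 1
            ring
        _ < m + 1 := hm2
    -- the parts
    have hparts : ∀ (F : Finset G.E) (hF : F.Nonempty),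
        SmallSets (G.sub F hF).src (G.sub F hF).tgt γ →
        (∀ e₀, (Fintype.card (G.sub F hF).E : ℝ) ≤ 4 * (Fintype.card G.U : ℝ)
          * ((univ.filter fun e => (G.sub F hF).src e = (G.sub F hF).src e₀).card : ℝ)) →
        (∀ e₀, (Fintype.card (G.sub F hF).E : ℝ) ≤ 4 * (Fintype.card G.V : ℝ)
          * ((univ.filter fun e => (G.sub F hF).tgt e = (G.sub F hF).tgt e₀).card : ℝ)) →
        v ≤ (G.sub F hF).value := by
      intro F hF hS hdU hdV
      obtain ⟨s'⟩ := sub_level s F hF
      have hE : (G.sub F hF).Expands m (1 / 4) := by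
        rcases hμ with h | h
        · rw [← h, ← hD] at hdU
          exact few_of_smallSets hγ0 hγ1 (by norm_num) hS hD1 hdU hnum
        · rw [← h, ← hD] at hdV
          exact few_swap (by norm_num)
            (few_of_smallSets hγ0 hγ1 (by norm_num) hS.symm hD1 hdV hnum)
      refine value_ge_of_level s' (by norm_num) (by norm_num) ?_ hE ?_
      · linarith
      · have e1 : (288 : ℝ) * m ≤ t :=
          (mul_le_mul_of_nonneg_left hm1 (by norm_num)).trans ht
        linarith
    obtain ⟨LU, LV, h1⟩ := exists_labeling_of_parts hγ0 (by positivity : 0 ≤ v) hq hμ hparts univ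
    rw [card_univ, ← hN, ← hD, hDγ] at h1
    have h2 := value_ge_of_labeling (G := G) LU LV
    rw [← hN] at h2
    have h4 : v * N ≤ 4 * Real.exp a * (G.value * N) := by
      refine h1.trans ?_
      exact mul_le_mul_of_nonneg_left h2 (by positivity)
    have h5 : v ≤ 4 * Real.exp a * G.value := by
      have e1 : v * N ≤ (4 * Real.exp a * G.value) * N := by linarith
      exact le_of_mul_le_mul_right e1 hN0
    have h8 : v * Real.exp (-a) ≤ 4 * G.value := by
      have e1 := mul_le_mul_of_nonneg_right h5 h7.le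
      have e2 : 4 * Real.exp a * G.value * Real.exp (-a)
          = 4 * G.value * (Real.exp (-a) * Real.exp a) := by ring
      rw [e2, h6, mul_one] at e1
      exact e1
    have h10 : 1 / 16 * Real.exp (-a) ≤ v * Real.exp (-a) :=
      mul_le_mul_of_nonneg_right hv1 h7.le
    linarith

/-- the version with the smaller side -/
theorem value_ge_of_min {t : ℕ} (s : G.LevelSolution t) {β : ℝ} (hβ : 0 < β) (hβ1 : β ≤ 1)
    (ht : 1152 * (min (Nat.card G.U) (Nat.card G.V) : ℝ) ^ β ≤ t) :
    (β / 2) ^ (150 / β) ≤ G.value := by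
  rw [Nat.card_eq_fintype_card, Nat.card_eq_fintype_card] at ht
  have hmin0 : 0 < min (Fintype.card G.U : ℝ) (Fintype.card G.V : ℝ) :=
    lt_min (card_U_pos G) (card_V_pos G)
  refine value_ge_of_power s hβ hβ1 (min_choice (Fintype.card G.U : ℝ) (Fintype.card G.V : ℝ))
    (le_trans ?_ ht)
  rw [Real.mul_rpow (by norm_num) hmin0.le]
  have h1 : (4 : ℝ) ^ β ≤ 4 := by
    calc (4 : ℝ) ^ β ≤ 4 ^ (1 : ℝ) := Real.rpow_le_rpow_of_exponent_le (by norm_num) hβ1
      _ = 4 := Real.rpow_one 4
  have h2 : 0 ≤ min (Fintype.card G.U : ℝ) (Fintype.card G.V : ℝ) ^ β :=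
    Real.rpow_nonneg hmin0.le _
  nlinarith

end Pool.Agent.MP_ec946a.SDA
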