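import Mathlib
import Pool.Agent.Lib.MP_ec946a_sdp.Smooth

/-!
# Smoothness of the cubic mean for families with sum zero
-/

set_option autoImplicit false
set_option linter.unusedSectionVars false

namespace Pool.Agent.MP_ec946a.SDA

open Finset Pool.Agent.MP_ec946a.SDP

variable {D : Type}

/-- the cubic mean of `F` over the finite set `P` -/
noncomputable def n3 (P : Finset D) (F : D → ℝ) : ℝ :=
  ((P.card : ℝ)⁻¹ * ∑ d ∈ P, |F d| ^ 3) ^ (1 / 3 : ℝ)

lemma n3_base_nonneg (P : Finset D) (F : D → ℝ) :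
    0 ≤ (P.card : ℝ)⁻¹ * ∑ d ∈ P, |F d| ^ 3 :=
  mul_nonneg (by positivity) (sum_nonneg fun _ _ => by positivity)

lemma n3_nonneg (P : Finset D) (F : D → ℝ) : 0 ≤ n3 P F :=
  Real.rpow_nonneg (n3_base_nonneg P F) _

lemma nn_eq_sq (P : Finset D) (F : D → ℝ) : nn P F = n3 P F ^ 2 := by
  unfold nn n3
  rw [← Real.rpow_natCast, ← Real.rpow_mul (n3_base_nonneg P F)]
  norm_num

lemma n3_add (P : Finset D) (F G : D → ℝ) :
    n3 P (fun d => F d + G d) ≤ n3 P F + n3 P G := by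
  have h := Real.Lp_add_le P F G (p := 3) (by norm_num)
  have e : ∀ H : D → ℝ, ∑ d ∈ P, |H d| ^ (3 : ℝ) = ∑ d ∈ P, |H d| ^ 3 := by
    intro H
    refine sum_congr rfl fun d _ => ?_
    rw [← Real.rpow_natCast]
    norm_num
  rw [e F, e G, e (fun d => F d + G d)] at h
  have hc : (0 : ℝ) ≤ (P.card : ℝ)⁻¹ := by positivity
  have hs : ∀ H : D → ℝ, 0 ≤ ∑ d ∈ P, |H d| ^ 3 := fun H => sum_nonneg fun _ _ => by positivity
  unfold n3
  rw [Real.mul_rpow hc (hs _), Real.mul_rpow hc (hs _), Real.mul_rpow hc (hs _), ← mul_add]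
  exact mul_le_mul_of_nonneg_left h (Real.rpow_nonneg hc _)

lemma n3_smul (P : Finset D) (c : ℝ) (F : D → ℝ) :
    n3 P (fun d => c * F d) = |c| * n3 P F := by
  unfold n3
  have e : ∑ d ∈ P, |c * F d| ^ 3 = |c| ^ 3 * ∑ d ∈ P, |F d| ^ 3 := by
    rw [mul_sum]
    refine sum_congr rfl fun d _ => ?_
    rw [abs_mul, mul_pow]
  rw [e, mul_left_comm, Real.mul_rpow (by positivity) (n3_base_nonneg P F)]
  congr 1
  rw [← Real.rpow_natCast, ← Real.rpow_mul (abs_nonneg _)]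
  norm_num

lemma n3_zero (P : Finset D) : n3 P (fun _ => 0) = 0 := by
  have h := n3_smul P 0 (fun _ => 0)
  simpa using h

lemma n3_sum {ι : Type} (s : Finset ι) (P : Finset D) (Z : ι → D → ℝ) :
    n3 P (fun d => ∑ y ∈ s, Z y d) ≤ ∑ y ∈ s, n3 P (Z y) := by
  classical
  induction s using Finset.induction_on with
  | empty =>
    simp only [sum_empty]
    exact (n3_zero P).le
  | insert a s ha ih =>
    simp only [sum_insert ha]
    exact (n3_add P _ _).trans (add_le_add le_rfl ih)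

lemma nn_smul (P : Finset D) (c : ℝ) (F : D → ℝ) :
    nn P (fun d => c * F d) = c ^ 2 * nn P F := by
  rw [nn_eq_sq, nn_eq_sq, n3_smul, mul_pow, sq_abs]

lemma nn_neg (P : Finset D) (F : D → ℝ) : nn P (fun d => - F d) = nn P F := by
  refine nn_congr fun d _ => ?_
  rw [abs_neg]

/-- convexity -/
lemma nn_avg {ι : Type} [Fintype ι] [Nonempty ι] (P : Finset D) (Z : ι → D → ℝ) :
    nn P (fun d => (Fintype.card ι : ℝ)⁻¹ * ∑ y, Z y d)
      ≤ (Fintype.card ι : ℝ)⁻¹ * ∑ y, nn P (Z y) := by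
  have hn : (0 : ℝ) < (Fintype.card ι : ℝ) := by exact_mod_cast Fintype.card_pos
  rw [nn_smul, nn_eq_sq]
  have h1 := n3_sum univ P Z
  have h2 : n3 P (fun d => ∑ y, Z y d) ^ 2 ≤ (∑ y, n3 P (Z y)) ^ 2 :=
    pow_le_pow_left₀ (n3_nonneg _ _) h1 2
  have h3 := sq_sum_le_card_mul_sum_sq (s := (univ : Finset ι)) (f := fun y => n3 P (Z y))
  rw [card_univ] at h3
  have h4 : ∑ y, nn P (Z y) = ∑ y, n3 P (Z y) ^ 2 := sum_congr rfl fun y _ => nn_eq_sq _ _
  rw [h4]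
  calc (Fintype.card ι : ℝ)⁻¹ ^ 2 * n3 P (fun d => ∑ y, Z y d) ^ 2
      ≤ (Fintype.card ι : ℝ)⁻¹ ^ 2 * (Fintype.card ι * ∑ y, n3 P (Z y) ^ 2) :=
        mul_le_mul_of_nonneg_left (h2.trans h3) (by positivity)
    _ = (Fintype.card ι : ℝ)⁻¹ * ∑ y, n3 P (Z y) ^ 2 := by
        field_simp

lemma nn_sub_le (P : Finset D) (F G : D → ℝ) :
    nn P (fun d => F d - G d) ≤ 2 * nn P F + 2 * nn P G := by
  have h1 := n3_add P F (fun d => - G d)
  have h2 : n3 P (fun d => - G d) = n3 P G := by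
    have h := n3_smul P (-1) G
    simpa using h
  rw [h2] at h1
  have e : (fun d => F d - G d) = fun d => F d + - G d := by
    funext d
    ring
  rw [e, nn_eq_sq, nn_eq_sq, nn_eq_sq]
  have h0 := n3_nonneg P (fun d => F d + - G d)
  have hF := n3_nonneg P F
  have hG := n3_nonneg P G
  nlinarith [sq_nonneg (n3 P F - n3 P G), pow_le_pow_left₀ h0 h1 2]

/-- smoothness for a family of functions with sum zero -/
theorem smooth_zero {ι : Type} [Fintype ι] [Nonempty ι] (P : Finset D) (F : D → ℝ)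
    (Z : ι → D → ℝ) (hZ : ∀ d, ∑ y, Z y d = 0) :
    ∑ y, nn P (fun d => F d + Z y d)
      ≤ (Fintype.card ι : ℝ) * nn P F + 8 * ∑ y, nn P (Z y) := by
  set n : ℝ := (Fintype.card ι : ℝ) with hn
  have hn0 : 0 < n := by
    rw [hn]
    exact_mod_cast Fintype.card_pos
  have h1 : ∀ y, nn P (fun d => F d + Z y d)
      ≤ n⁻¹ * ∑ y', nn P (fun d => F d + (Z y d - Z y' d)) := by
    intro y
    have e : (fun d => F d + Z y d) = fun d => n⁻¹ * ∑ y', (F d + (Z y d - Z y' d)) := by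
      funext d
      rw [sum_add_distrib, sum_sub_distrib, hZ, sum_const, sum_const, card_univ, nsmul_eq_mul,
        nsmul_eq_mul, ← hn]
      field_simp
      ring
    rw [e]
    exact nn_avg P fun y' d => F d + (Z y d - Z y' d)
  have h2 : ∑ y, ∑ y', nn P (fun d => F d + (Z y d - Z y' d))
      = ∑ y, ∑ y', nn P (fun d => F d - (Z y d - Z y' d)) := by
    rw [sum_comm]
    refine sum_congr rfl fun y _ => sum_congr rfl fun y' _ => ?_
    congr 1
    funext d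
    ring
  have h3 : ∑ y, ∑ y', nn P (fun d => F d + (Z y d - Z y' d))
      ≤ n ^ 2 * nn P F + 8 * n * ∑ y, nn P (Z y) := by
    have h4 : ∑ y, ∑ y', (nn P (fun d => F d + (Z y d - Z y' d))
        + nn P (fun d => F d - (Z y d - Z y' d)))
        ≤ ∑ y, ∑ y', (2 * nn P F + 8 * nn P (Z y) + 8 * nn P (Z y')) := by
      refine sum_le_sum fun y _ => sum_le_sum fun y' _ => ?_
      have h5 := nn_smooth P F (fun d => Z y d - Z y' d)
      have h6 := nn_sub_le P (Z y) (Z y')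
      linarith
    have h7 : ∑ y : ι, ∑ y' : ι, (2 * nn P F + 8 * nn P (Z y) + 8 * nn P (Z y'))
        = 2 * (n ^ 2 * nn P F + 8 * n * ∑ y, nn P (Z y)) := by
      simp only [sum_add_distrib, sum_const, card_univ, nsmul_eq_mul, ← mul_sum, ← hn]
      ring
    have h8 : ∑ y, ∑ y', (nn P (fun d => F d + (Z y d - Z y' d))
        + nn P (fun d => F d - (Z y d - Z y' d)))
        = 2 * ∑ y, ∑ y', nn P (fun d => F d + (Z y d - Z y' d)) := by
      simp only [sum_add_distrib]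
      rw [← h2]
      ring
    rw [h7, h8] at h4
    linarith
  calc ∑ y, nn P (fun d => F d + Z y d)
      ≤ ∑ y, n⁻¹ * ∑ y', nn P (fun d => F d + (Z y d - Z y' d)) := sum_le_sum fun y _ => h1 y
    _ = n⁻¹ * ∑ y, ∑ y', nn P (fun d => F d + (Z y d - Z y' d)) := by rw [mul_sum]
    _ ≤ n⁻¹ * (n ^ 2 * nn P F + 8 * n * ∑ y, nn P (Z y)) :=
        mul_le_mul_of_nonneg_left h3 (by positivity)
    _ = n * nn P F + 8 * ∑ y, nn P (Z y) := by
        field_simp

/-- subadditivity of the power `2/3` -/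
lemma add_rpow_le {x y : ℝ} (hx : 0 ≤ x) (hy : 0 ≤ y) :
    (x + y) ^ (2 / 3 : ℝ) ≤ x ^ (2 / 3 : ℝ) + y ^ (2 / 3 : ℝ) := by
  have h := NNReal.rpow_add_le_add_rpow (p := 2 / 3) ⟨x, hx⟩ ⟨y, hy⟩ (by norm_num) (by norm_num)
  exact_mod_cast h

lemma sum_rpow_le {ι : Type} (s : Finset ι) (A : ι → ℝ) (hA : ∀ i ∈ s, 0 ≤ A i) :
    (∑ i ∈ s, A i) ^ (2 / 3 : ℝ) ≤ ∑ i ∈ s, A i ^ (2 / 3 : ℝ) := by
  classical
  induction s using Finset.induction_on with
  | empty => simp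
  | insert a s ha ih =>
    rw [sum_insert ha, sum_insert ha]
    refine (add_rpow_le (hA a (mem_insert_self _ _))
      (sum_nonneg fun i hi => hA i (mem_insert_of_mem hi))).trans ?_
    exact add_le_add le_rfl (ih fun i hi => hA i (mem_insert_of_mem hi))

lemma three_rpow_le : (3 : ℝ) * (3 : ℝ)⁻¹ ^ (2 / 3 : ℝ) ≤ 2 := by
  have h1 : (3 : ℝ)⁻¹ ^ (2 / 3 : ℝ) = (3 : ℝ) ^ (-(2 / 3) : ℝ) := by
    rw [Real.rpow_neg (by norm_num), Real.inv_rpow (by norm_num)]
  have h2 : (3 : ℝ) * (3 : ℝ) ^ (-(2 / 3) : ℝ) = (3 : ℝ) ^ (1 / 3 : ℝ) := by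
    nth_rewrite 1 [← Real.rpow_one (3 : ℝ)]
    rw [← Real.rpow_add (by norm_num)]
    norm_num
  rw [h1, h2]
  have h3 : ((3 : ℝ) ^ (1 / 3 : ℝ)) ^ 3 = 3 := by
    rw [← Real.rpow_natCast, ← Real.rpow_mul (by norm_num)]
    norm_num
  by_contra hc
  push Not at hc
  have h4 : (2 : ℝ) ^ 3 < ((3 : ℝ) ^ (1 / 3 : ℝ)) ^ 3 := pow_lt_pow_left₀ hc (by norm_num) (by norm_num)
  rw [h3] at h4
  norm_num at h4

end Pool.Agent.MP_ec946a.SDA
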