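import Mathlib
import Pool.Agent.Lib.MP_ec946a_sda.Smooth3

/-!
# Quadratic forms on functions of strings, weighted by the rank

A string has `n` coordinates with states in `Y`; the finite group `D` acts by translations through
homomorphisms `ℓ i : D → ZMod 3`.  The form `B n ℓ H w` multiplies the parts of the
Efron-Stein decomposition by `w ^ r`, where `r` is the rank on the subgroup `H` of the
homomorphisms of the coordinates of the part.
-/

set_option autoImplicit false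
set_option linter.unusedSectionVars false

namespace Pool.Agent.MP_ec946a.SDA

open Finset Pool.Agent.MP_ec946a.SDP

/-- the states of a coordinate: an affine permutation `t ↦ r + s t` of `ZMod 3` -/
abbrev Y : Type := ZMod 3 × Bool

/-- the strings -/
abbrev X (n : ℕ) : Type := Fin n → Y

lemma card_Y : Fintype.card Y = 6 := rfl

lemma sum_cons {α : Type} [Fintype α] {n : ℕ} (φ : (Fin (n + 1) → α) → ℝ) :
    ∑ x : Fin (n + 1) → α, φ x = ∑ y : α, ∑ x : Fin n → α, φ (Fin.cons y x) := by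
  rw [← Fintype.sum_prod_type' (fun y x => φ (Fin.cons y x))]
  exact (Fintype.sum_equiv (Fin.consEquiv fun _ => α) _ _ fun p => rfl).symm

/-- the mean over the strings -/
noncomputable def E (n : ℕ) (g : X n → ℝ) : ℝ := ((6 : ℝ) ^ n)⁻¹ * ∑ x, g x

lemma E_succ {n : ℕ} (g : X (n + 1) → ℝ) :
    E (n + 1) g = (1 / 6) * ∑ y, E n fun x => g (Fin.cons y x) := by
  unfold E
  rw [sum_cons, ← mul_sum, pow_succ, mul_inv]
  ring

lemma E_add {n : ℕ} (g h : X n → ℝ) : E n (fun x => g x + h x) = E n g + E n h := by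
  unfold E
  rw [sum_add_distrib, mul_add]

lemma E_sub {n : ℕ} (g h : X n → ℝ) : E n (fun x => g x - h x) = E n g - E n h := by
  unfold E
  rw [sum_sub_distrib, mul_sub]

lemma E_mul {n : ℕ} (c : ℝ) (g : X n → ℝ) : E n (fun x => c * g x) = c * E n g := by
  unfold E
  rw [← mul_sum]
  ring

lemma E_sum {n : ℕ} {ι : Type} (s : Finset ι) (g : ι → X n → ℝ) :
    E n (fun x => ∑ i ∈ s, g i x) = ∑ i ∈ s, E n (g i) := by
  unfold E
  rw [sum_comm, mul_sum]

lemma E_mono {n : ℕ} {g h : X n → ℝ} (H : ∀ x, g x ≤ h x) : E n g ≤ E n h :=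
  mul_le_mul_of_nonneg_left (sum_le_sum fun x _ => H x) (by positivity)

lemma E_nonneg {n : ℕ} {g : X n → ℝ} (H : ∀ x, 0 ≤ g x) : 0 ≤ E n g :=
  mul_nonneg (by positivity) (sum_nonneg fun x _ => H x)

lemma card_X (n : ℕ) : (Fintype.card (X n) : ℝ) = 6 ^ n := by
  rw [Fintype.card_fun, Fintype.card_fin, card_Y]
  push_cast
  rfl

lemma E_const {n : ℕ} (c : ℝ) : E n (fun _ => c) = c := by
  unfold E
  rw [sum_const, card_univ, nsmul_eq_mul, card_X, ← mul_assoc, inv_mul_cancel₀ (by positivity),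
    one_mul]

lemma E_equiv {n : ℕ} (σ : X n ≃ X n) (g : X n → ℝ) : E n (fun x => g (σ x)) = E n g := by
  unfold E
  congr 1
  exact Equiv.sum_comp σ g

/-- the mean over the first coordinate -/
noncomputable def av (n : ℕ) : (X (n + 1) → ℝ) →ₗ[ℝ] (X n → ℝ) where
  toFun g := fun x => (1 / 6) * ∑ y, g (Fin.cons y x)
  map_add' g h := by
    funext x
    simp only [Pi.add_apply, sum_add_distrib]
    ring
  map_smul' c g := by
    funext x
    simp only [Pi.smul_apply, smul_eq_mul, RingHom.id_apply, ← mul_sum]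
    ring

/-- the deviation from the mean over the first coordinate -/
noncomputable def dif (n : ℕ) (y : Y) : (X (n + 1) → ℝ) →ₗ[ℝ] (X n → ℝ) where
  toFun g := fun x => g (Fin.cons y x) - av n g x
  map_add' g h := by
    funext x
    simp only [Pi.add_apply, map_add]
    ring
  map_smul' c g := by
    funext x
    simp only [Pi.smul_apply, smul_eq_mul, RingHom.id_apply, map_smul]
    ring

lemma av_apply {n : ℕ} (g : X (n + 1) → ℝ) (x : X n) :
    av n g x = (1 / 6) * ∑ y, g (Fin.cons y x) := rfl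

lemma dif_apply {n : ℕ} (y : Y) (g : X (n + 1) → ℝ) (x : X n) :
    dif n y g x = g (Fin.cons y x) - av n g x := rfl

lemma cons_eq {n : ℕ} (y : Y) (g : X (n + 1) → ℝ) (x : X n) :
    g (Fin.cons y x) = av n g x + dif n y g x := by
  rw [dif_apply]
  ring

lemma sum_dif {n : ℕ} (g : X (n + 1) → ℝ) : ∑ y, dif n y g = 0 := by
  funext x
  rw [Finset.sum_apply]
  simp only [dif_apply, sum_sub_distrib, sum_const, card_univ, card_Y, nsmul_eq_mul, av_apply]
  simp only [Pi.zero_apply]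
  push_cast
  ring

variable {D : Type} [Fintype D] [DecidableEq D] [AddCommGroup D]

open Classical in
/-- the weight of a coordinate -/
noncomputable def wgt (H : AddSubgroup D) (u : D →+ ZMod 3) (w : ℝ) : ℝ :=
  if ∀ d ∈ H, u d = 0 then 1 else w

/-- the weighted bilinear form -/
noncomputable def B : (n : ℕ) → (Fin n → (D →+ ZMod 3)) → AddSubgroup D → ℝ →
    ((X n → ℝ) →ₗ[ℝ] (X n → ℝ) →ₗ[ℝ] ℝ)
  | 0, _, _, _ => LinearMap.mk₂ ℝ (fun g h => g default * h default)
      (fun g g' h => by simp only [Pi.add_apply]; ring)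
      (fun c g h => by simp only [Pi.smul_apply, smul_eq_mul]; ring)
      (fun g h h' => by simp only [Pi.add_apply]; ring)
      (fun c g h => by simp only [Pi.smul_apply, smul_eq_mul]; ring)
  | n + 1, ℓ, H, w =>
      (B n (Fin.tail ℓ) H w).compl₁₂ (av n) (av n)
      + (wgt H (ℓ 0) w * (1 / 6)) • ∑ y : Y,
        (B n (Fin.tail ℓ) (H ⊓ (ℓ 0).ker) w).compl₁₂ (dif n y) (dif n y)

lemma B_zero (ℓ : Fin 0 → (D →+ ZMod 3)) (H : AddSubgroup D) (w : ℝ) (g h : X 0 → ℝ) :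
    B 0 ℓ H w g h = g default * h default := rfl

lemma B_succ {n : ℕ} (ℓ : Fin (n + 1) → (D →+ ZMod 3)) (H : AddSubgroup D) (w : ℝ)
    (g h : X (n + 1) → ℝ) :
    B (n + 1) ℓ H w g h = B n (Fin.tail ℓ) H w (av n g) (av n h)
      + wgt H (ℓ 0) w * ((1 / 6) * ∑ y : Y,
        B n (Fin.tail ℓ) (H ⊓ (ℓ 0).ker) w (dif n y g) (dif n y h)) := by
  simp only [B, LinearMap.add_apply, LinearMap.smul_apply, LinearMap.sum_apply,
    LinearMap.compl₁₂_apply, smul_eq_mul]
  ring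

lemma B_symm {n : ℕ} (ℓ : Fin n → (D →+ ZMod 3)) (H : AddSubgroup D) (w : ℝ)
    (g h : X n → ℝ) : B n ℓ H w g h = B n ℓ H w h g := by
  induction n generalizing H with
  | zero => rw [B_zero, B_zero, mul_comm]
  | succ n ih =>
    rw [B_succ, B_succ, ih]
    congr 3
    exact sum_congr rfl fun y _ => ih _ _ _ _

lemma wgt_nonneg (H : AddSubgroup D) (u : D →+ ZMod 3) {w : ℝ} (hw : 0 ≤ w) : 0 ≤ wgt H u w := by
  unfold wgt
  split_ifs
  · norm_num
  · exact hw

lemma B_nonneg {n : ℕ} (ℓ : Fin n → (D →+ ZMod 3)) (H : AddSubgroup D) {w : ℝ} (hw : 0 ≤ w)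
    (g : X n → ℝ) : 0 ≤ B n ℓ H w g g := by
  induction n generalizing H with
  | zero => rw [B_zero]; exact mul_self_nonneg _
  | succ n ih =>
    rw [B_succ]
    refine add_nonneg (ih _ _ _) (mul_nonneg (wgt_nonneg _ _ hw) (mul_nonneg (by norm_num) ?_))
    exact sum_nonneg fun y _ => ih _ _ _

lemma wgt_one (H : AddSubgroup D) (u : D →+ ZMod 3) : wgt H u 1 = 1 := by
  unfold wgt
  split_ifs <;> rfl

/-- variance identity for a bilinear form -/
lemma form_split {V : Type} [AddCommGroup V] [Module ℝ V] (b : V →ₗ[ℝ] V →ₗ[ℝ] ℝ)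
    (a a' : V) (f f' : Y → V) (hf : ∑ y, f y = 0) (hf' : ∑ y, f' y = 0) :
    (1 / 6) * ∑ y, b (a + f y) (a' + f' y) = b a a' + (1 / 6) * ∑ y, b (f y) (f' y) := by
  have h1 : ∀ y, b (a + f y) (a' + f' y) = b a a' + b a (f' y) + b (f y) a' + b (f y) (f' y) := by
    intro y
    simp only [map_add, LinearMap.add_apply]
    ring
  simp only [h1, sum_add_distrib]
  have h2 : ∑ y, b a (f' y) = 0 := by rw [← map_sum, hf', map_zero]
  have h3 : ∑ y, b (f y) a' = 0 := by
    rw [← LinearMap.sum_apply, ← map_sum, hf, map_zero, LinearMap.zero_apply]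
  rw [h2, h3, sum_const, card_univ, card_Y, nsmul_eq_mul]
  push_cast
  ring

lemma B_one {n : ℕ} (ℓ : Fin n → (D →+ ZMod 3)) (H : AddSubgroup D)
    (g h : X n → ℝ) : B n ℓ H 1 g h = E n fun x => g x * h x := by
  induction n generalizing H with
  | zero =>
    rw [B_zero]
    unfold E
    rw [pow_zero, inv_one, one_mul, Fintype.sum_unique]
    exact congrArg₂ (· * ·) (congrArg g (Subsingleton.elim _ _))
      (congrArg h (Subsingleton.elim _ _))
  | succ n ih =>
    rw [B_succ, wgt_one, one_mul, E_succ, ih]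
    have h1 : ∀ y, B n (Fin.tail ℓ) (H ⊓ (ℓ 0).ker) 1 (dif n y g) (dif n y h)
        = B n (Fin.tail ℓ) H 1 (dif n y g) (dif n y h) := by
      intro y
      rw [ih, ih]
    rw [sum_congr rfl fun y _ => h1 y, ← ih (Fin.tail ℓ) H,
      ← form_split (B n (Fin.tail ℓ) H 1) (av n g) (av n h) (fun y => dif n y g)
        (fun y => dif n y h) (sum_dif g) (sum_dif h)]
    congr 1
    refine sum_congr rfl fun y _ => ?_
    rw [ih]
    congr 1
    funext x
    rw [cons_eq y g, cons_eq y h]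
    rfl

/-- comparison of the forms for different weights -/
lemma B_compare {n : ℕ} (ℓ : Fin n → (D →+ ZMod 3)) (H : AddSubgroup D) {w₁ w₂ w₃ : ℝ}
    {c₁ c₂ c₃ : ℝ} (hc : ∀ r : ℕ, c₁ * w₁ ^ r ≤ c₂ * w₂ ^ r + c₃ * w₃ ^ r) (g : X n → ℝ) :
    c₁ * B n ℓ H w₁ g g ≤ c₂ * B n ℓ H w₂ g g + c₃ * B n ℓ H w₃ g g := by
  induction n generalizing H c₁ c₂ c₃ with
  | zero =>
    rw [B_zero, B_zero, B_zero]
    have h := hc 0
    simp only [pow_zero, mul_one] at h
    nlinarith [mul_self_nonneg (g default)]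
  | succ n ih =>
    rw [B_succ, B_succ, B_succ]
    have h1 := ih (Fin.tail ℓ) H hc (av n g)
    have h2 : c₁ * (wgt H (ℓ 0) w₁ * ((1 / 6) * ∑ y : Y,
          B n (Fin.tail ℓ) (H ⊓ (ℓ 0).ker) w₁ (dif n y g) (dif n y g)))
        ≤ c₂ * (wgt H (ℓ 0) w₂ * ((1 / 6) * ∑ y : Y,
          B n (Fin.tail ℓ) (H ⊓ (ℓ 0).ker) w₂ (dif n y g) (dif n y g)))
        + c₃ * (wgt H (ℓ 0) w₃ * ((1 / 6) * ∑ y : Y,
          B n (Fin.tail ℓ) (H ⊓ (ℓ 0).ker) w₃ (dif n y g) (dif n y g))) := by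
      have h3 : ∀ r : ℕ, (c₁ * wgt H (ℓ 0) w₁) * w₁ ^ r
          ≤ (c₂ * wgt H (ℓ 0) w₂) * w₂ ^ r + (c₃ * wgt H (ℓ 0) w₃) * w₃ ^ r := by
        intro r
        unfold wgt
        split_ifs
        · have := hc r
          linarith
        · have := hc (r + 1)
          rw [pow_succ, pow_succ, pow_succ] at this
          linarith
      have h4 := sum_le_sum fun (y : Y) (_ : y ∈ univ) =>
        ih (Fin.tail ℓ) (H ⊓ (ℓ 0).ker) h3 (dif n y g)
      rw [sum_add_distrib, ← mul_sum, ← mul_sum, ← mul_sum] at h4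
      linarith
    linarith

/-- the operator with the multipliers `w ^ r` -/
noncomputable def M : (n : ℕ) → (Fin n → (D →+ ZMod 3)) → AddSubgroup D → ℝ →
    ((X n → ℝ) →ₗ[ℝ] (X n → ℝ))
  | 0, _, _, _ => LinearMap.id
  | n + 1, ℓ, H, w =>
    { toFun := fun g x => M n (Fin.tail ℓ) H w (av n g) (Fin.tail x)
        + wgt H (ℓ 0) w * M n (Fin.tail ℓ) (H ⊓ (ℓ 0).ker) w (dif n (x 0) g) (Fin.tail x)
      map_add' := fun g h => by
        funext x
        simp only [map_add, Pi.add_apply]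
        ring
      map_smul' := fun c g => by
        funext x
        simp only [map_smul, Pi.smul_apply, smul_eq_mul, RingHom.id_apply]
        ring }

lemma M_cons {n : ℕ} (ℓ : Fin (n + 1) → (D →+ ZMod 3)) (H : AddSubgroup D) (w : ℝ)
    (g : X (n + 1) → ℝ) (y : Y) (x : X n) :
    M (n + 1) ℓ H w g (Fin.cons y x) = M n (Fin.tail ℓ) H w (av n g) x
      + wgt H (ℓ 0) w * M n (Fin.tail ℓ) (H ⊓ (ℓ 0).ker) w (dif n y g) x := by
  show M n (Fin.tail ℓ) H w (av n g) (Fin.tail (Fin.cons y x : X (n + 1)))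
    + wgt H (ℓ 0) w * M n (Fin.tail ℓ) (H ⊓ (ℓ 0).ker) w
      (dif n ((Fin.cons y x : X (n + 1)) 0) g) (Fin.tail (Fin.cons y x : X (n + 1))) = _
  rw [Fin.tail_cons, Fin.cons_zero]

lemma av_M {n : ℕ} (ℓ : Fin (n + 1) → (D →+ ZMod 3)) (H : AddSubgroup D) (w : ℝ)
    (g : X (n + 1) → ℝ) :
    av n (M (n + 1) ℓ H w g) = M n (Fin.tail ℓ) H w (av n g) := by
  funext x
  rw [av_apply]
  simp only [M_cons, sum_add_distrib, sum_const, card_univ, card_Y, nsmul_eq_mul, ← mul_sum]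
  have h : ∑ y, M n (Fin.tail ℓ) (H ⊓ (ℓ 0).ker) w (dif n y g) x = 0 := by
    rw [← Finset.sum_apply, ← map_sum, sum_dif, map_zero]
    rfl
  rw [h]
  push_cast
  ring

lemma dif_M {n : ℕ} (ℓ : Fin (n + 1) → (D →+ ZMod 3)) (H : AddSubgroup D) (w : ℝ)
    (g : X (n + 1) → ℝ) (y : Y) :
    dif n y (M (n + 1) ℓ H w g)
      = wgt H (ℓ 0) w • M n (Fin.tail ℓ) (H ⊓ (ℓ 0).ker) w (dif n y g) := by
  funext x
  rw [dif_apply, av_M, M_cons, Pi.smul_apply, smul_eq_mul]
  ring

lemma B_M_left {n : ℕ} (ℓ : Fin n → (D →+ ZMod 3)) (H : AddSubgroup D) (w w' : ℝ)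
    (g h : X n → ℝ) : B n ℓ H w g (M n ℓ H w' h) = B n ℓ H (w * w') g h := by
  induction n generalizing H with
  | zero => rfl
  | succ n ih =>
    rw [B_succ, B_succ, av_M, ih]
    congr 1
    have h1 : ∀ y, B n (Fin.tail ℓ) (H ⊓ (ℓ 0).ker) w (dif n y g) (dif n y (M (n + 1) ℓ H w' h))
        = wgt H (ℓ 0) w' * B n (Fin.tail ℓ) (H ⊓ (ℓ 0).ker) (w * w') (dif n y g) (dif n y h) := by
      intro y
      rw [dif_M, map_smul, ih, smul_eq_mul]
    rw [sum_congr rfl fun y _ => h1 y, ← mul_sum]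
    have h2 : wgt H (ℓ 0) (w * w') = wgt H (ℓ 0) w * wgt H (ℓ 0) w' := by
      unfold wgt
      split_ifs
      · norm_num
      · rfl
    rw [h2]
    ring

lemma B_M_M {n : ℕ} (ℓ : Fin n → (D →+ ZMod 3)) (H : AddSubgroup D) (w w' : ℝ)
    (g : X n → ℝ) :
    B n ℓ H w (M n ℓ H w' g) (M n ℓ H w' g) = B n ℓ H (w * w' * w') g g := by
  rw [B_M_left, B_symm, B_M_left]

end Pool.Agent.MP_ec946a.SDA
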