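import Mathlib
import Pool.Agent.Lib.MP_ec946a_sda.Mult

/-!
# Bonami's inequality with ranks over the field with three elements
-/

set_option autoImplicit false
set_option linter.unusedSectionVars false

namespace Pool.Agent.MP_ec946a.SDA

open Finset Pool.Agent.MP_ec946a.SDP

/-- the sign of a state -/
def sg (b : Bool) : ZMod 3 := if b then -1 else 1

/-- translation of a state -/
def tr (u : ZMod 3) (y : Y) : Y := (y.1 + sg y.2 * u, y.2)

/-- the value of a state at a point -/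
def vw (t : ZMod 3) (y : Y) : ZMod 3 := y.1 + sg y.2 * t

/-- the other state with the same value at the point `t` -/
def sw (t : ZMod 3) (y : Y) : Y := (y.1 + 2 * (sg y.2 * t), !y.2)

lemma vw_sw (t : ZMod 3) (y : Y) : vw t (sw t y) = vw t y := by
  revert t y
  decide

lemma sw_sw (t : ZMod 3) (y : Y) : sw t (sw t y) = y := by
  revert t y
  decide

lemma tr_zero (y : Y) : tr 0 y = y := by
  revert y
  decide

lemma tr_add (u t : ZMod 3) (y : Y) : tr (u + t) y = tr u (tr t y) := by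
  revert u t y
  decide

lemma tr_neg (u : ZMod 3) (y : Y) : tr (-u) (tr u y) = y := by
  revert u y
  decide

lemma tr_neg' (u : ZMod 3) (y : Y) : tr u (tr (-u) y) = y := by
  revert u y
  decide

lemma tr_sw (u t : ZMod 3) (y : Y) : tr u (sw t y) = sw (t - u) (tr u y) := by
  revert u t y
  decide

lemma vw_eq (t : ZMod 3) (y : Y) : vw t y = (tr t y).1 := rfl

/-- translation as a permutation -/
def trE (u : ZMod 3) : Y ≃ Y where
  toFun := tr u
  invFun := tr (-u)
  left_inv := tr_neg u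
  right_inv := tr_neg' u

/-- the swap as a permutation -/
def swE (t : ZMod 3) : Y ≃ Y where
  toFun := sw t
  invFun := sw t
  left_inv := sw_sw t
  right_inv := sw_sw t

variable {D : Type} [Fintype D] [DecidableEq D] [AddCommGroup D]

/-- the action of `D` on the strings -/
def sh {n : ℕ} (ℓ : Fin n → (D →+ ZMod 3)) (d : D) (x : X n) : X n := fun i => tr (ℓ i d) (x i)

lemma sh_zero {n : ℕ} (ℓ : Fin n → (D →+ ZMod 3)) (x : X n) : sh ℓ 0 x = x := by
  funext i
  show tr (ℓ i 0) (x i) = x i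
  rw [map_zero, tr_zero]

lemma sh_add {n : ℕ} (ℓ : Fin n → (D →+ ZMod 3)) (d e : D) (x : X n) :
    sh ℓ (d + e) x = sh ℓ d (sh ℓ e x) := by
  funext i
  show tr (ℓ i (d + e)) (x i) = tr (ℓ i d) (tr (ℓ i e) (x i))
  rw [map_add, tr_add]

/-- the action by permutations -/
def shE {n : ℕ} (ℓ : Fin n → (D →+ ZMod 3)) (d : D) : X n ≃ X n where
  toFun := sh ℓ d
  invFun := sh ℓ (-d)
  left_inv x := by rw [← sh_add, neg_add_cancel, sh_zero]
  right_inv x := by rw [← sh_add, add_neg_cancel, sh_zero]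

lemma sh_cons {n : ℕ} (ℓ : Fin (n + 1) → (D →+ ZMod 3)) (d : D) (y : Y) (x : X n) :
    sh ℓ d (Fin.cons y x) = Fin.cons (tr (ℓ 0 d) y) (sh (Fin.tail ℓ) d x) := by
  funext i
  refine Fin.cases ?_ (fun j => ?_) i
  · rfl
  · rfl

open Classical in
/-- the elements of a subgroup as a finite set -/
noncomputable def fs (H : AddSubgroup D) : Finset D := univ.filter fun d => d ∈ H

lemma mem_fs {H : AddSubgroup D} {d : D} : d ∈ fs H ↔ d ∈ H := by
  simp [fs]

lemma card_fs_pos (H : AddSubgroup D) : (0 : ℝ) < ((fs H).card : ℝ) := by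
  exact_mod_cast card_pos.mpr ⟨0, mem_fs.mpr H.zero_mem⟩

/-- the three multiples of an element -/
def mul3 (e : D) (j : ZMod 3) : D := if j = 0 then 0 else if j = 1 then e else -e

lemma mul3_mem {H : AddSubgroup D} {e : D} (he : e ∈ H) (j : ZMod 3) : mul3 e j ∈ H := by
  unfold mul3
  split_ifs
  · exact H.zero_mem
  · exact he
  · exact H.neg_mem he

lemma map_mul3 {u : D →+ ZMod 3} {e : D} (he : u e = 1) (j : ZMod 3) : u (mul3 e j) = j := by
  unfold mul3
  split_ifs with h0 h1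
  · rw [map_zero, h0]
  · rw [he, h1]
  · rw [map_neg, he]
    revert j
    decide

lemma exists_eq_one {H : AddSubgroup D} {u : D →+ ZMod 3} (h : ¬ ∀ d ∈ H, u d = 0) :
    ∃ e ∈ H, u e = 1 := by
  push Not at h
  obtain ⟨d, hd, hu⟩ := h
  have h3 : ∀ a : ZMod 3, a ≠ 0 → a = 1 ∨ -a = 1 := by decide
  rcases h3 _ hu with h1 | h1
  · exact ⟨d, hd, h1⟩
  · exact ⟨-d, H.neg_mem hd, by rw [map_neg, h1]⟩

lemma sum_coset {H : AddSubgroup D} {u : D →+ ZMod 3} {e : D} (heH : e ∈ H) (he : u e = 1)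
    (φ : D → ℝ) :
    ∑ d ∈ fs H, φ d = ∑ j : ZMod 3, ∑ d ∈ fs (H ⊓ u.ker), φ (d + mul3 e j) := by
  rw [← sum_fiberwise (fs H) (fun d => u d) φ]
  refine sum_congr rfl fun j _ => ?_
  refine (sum_nbij' (fun d => d + mul3 e j) (fun d => d - mul3 e j) ?_ ?_ ?_ ?_ ?_).symm
  · intro d hd
    rw [mem_fs, AddSubgroup.mem_inf, AddMonoidHom.mem_ker] at hd
    rw [mem_filter, mem_fs]
    refine ⟨H.add_mem hd.1 (mul3_mem heH j), ?_⟩
    rw [map_add, hd.2, map_mul3 he, zero_add]
  · intro d hd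
    rw [mem_filter, mem_fs] at hd
    rw [mem_fs, AddSubgroup.mem_inf, AddMonoidHom.mem_ker]
    refine ⟨H.sub_mem hd.1 (mul3_mem heH j), ?_⟩
    rw [map_sub, hd.2, map_mul3 he, sub_self]
  · intro d _
    exact add_sub_cancel_right _ _
  · intro d _
    exact sub_add_cancel _ _
  · intro d _
    rfl

lemma card_coset {H : AddSubgroup D} {u : D →+ ZMod 3} {e : D} (heH : e ∈ H) (he : u e = 1) :
    ((fs H).card : ℝ) = 3 * ((fs (H ⊓ u.ker)).card : ℝ) := by
  have h := sum_coset heH he (fun _ => (1 : ℝ))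
  simp only [sum_const, nsmul_eq_mul, mul_one, card_univ, ZMod.card] at h
  rw [h]
  push_cast
  ring

lemma nn_split3 {H : AddSubgroup D} {u : D →+ ZMod 3} {e : D} (heH : e ∈ H) (he : u e = 1)
    (F : D → ℝ) :
    nn (fs H) F ≤ (3 : ℝ)⁻¹ ^ (2 / 3 : ℝ)
      * ∑ j : ZMod 3, nn (fs (H ⊓ u.ker)) fun d => F (d + mul3 e j) := by
  set P := fs (H ⊓ u.ker) with hP
  have hc : (0 : ℝ) < (P.card : ℝ) := card_fs_pos _
  have hnn : ∀ j : ZMod 3, 0 ≤ (P.card : ℝ)⁻¹ * ∑ d ∈ P, |F (d + mul3 e j)| ^ 3 := fun j =>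
    mul_nonneg (by positivity) (sum_nonneg fun _ _ => by positivity)
  have e1 : ((fs H).card : ℝ)⁻¹ * ∑ d ∈ fs H, |F d| ^ 3
      = (3 : ℝ)⁻¹ * ∑ j : ZMod 3, (P.card : ℝ)⁻¹ * ∑ d ∈ P, |F (d + mul3 e j)| ^ 3 := by
    rw [sum_coset heH he, card_coset heH he, ← mul_sum, mul_inv, mul_assoc]
  unfold nn
  rw [e1, Real.mul_rpow (by norm_num) (sum_nonneg fun j _ => hnn j)]
  exact mul_le_mul_of_nonneg_left (sum_rpow_le _ _ fun j _ => hnn j) (by positivity)

lemma nn_const {P : Finset D} (hP : 0 < (P.card : ℝ)) (c : ℝ) : nn P (fun _ => c) = c ^ 2 := by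
  unfold nn
  rw [sum_const, nsmul_eq_mul, ← mul_assoc, inv_mul_cancel₀ hP.ne', one_mul,
    ← Real.rpow_natCast, ← Real.rpow_mul (abs_nonneg _)]
  norm_num

/-- the mean over the strings of the squared cubic mean over the orbit -/
noncomputable def mn (n : ℕ) (ℓ : Fin n → (D →+ ZMod 3)) (H : AddSubgroup D) (g : X n → ℝ) : ℝ :=
  E n fun x => nn (fs H) fun d => g (sh ℓ d x)

lemma mn_succ {n : ℕ} (ℓ : Fin (n + 1) → (D →+ ZMod 3)) (H : AddSubgroup D)
    (g : X (n + 1) → ℝ) :
    mn (n + 1) ℓ H g = (1 / 6) * ∑ y, E n fun x => nn (fs H) fun d =>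
      av n g (sh (Fin.tail ℓ) d x) + dif n (tr (ℓ 0 d) y) g (sh (Fin.tail ℓ) d x) := by
  unfold mn
  rw [E_succ]
  congr 1
  refine sum_congr rfl fun y _ => ?_
  congr 1
  funext x
  congr 1
  funext d
  rw [sh_cons]
  exact cons_eq _ _ _

theorem bonami3 {n : ℕ} (ℓ : Fin n → (D →+ ZMod 3)) (H : AddSubgroup D) (g : X n → ℝ) :
    mn n ℓ H g ≤ B n ℓ H 16 g g := by
  induction n generalizing H with
  | zero =>
    rw [B_zero]
    unfold mn
    have h : ∀ x : X 0, (nn (fs H) fun d => g (sh ℓ d x)) = g default * g default := by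
      intro x
      have h1 : (fun d => g (sh ℓ d x)) = fun _ : D => g default := by
        funext d
        congr 1
        exact Subsingleton.elim _ _
      rw [h1, nn_const (card_fs_pos H), sq]
    simp only [h, E_const]
    exact le_refl _
  | succ n ih =>
    rw [mn_succ, B_succ]
    by_cases hex : ∀ d ∈ H, ℓ 0 d = 0
    · have hH : H ⊓ (ℓ 0).ker = H := by
        refine le_antisymm inf_le_left fun d hd => ?_
        exact AddSubgroup.mem_inf.mpr ⟨hd, AddMonoidHom.mem_ker.mpr (hex d hd)⟩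
      have hw : wgt H (ℓ 0) 16 = 1 := by
        unfold wgt
        rw [if_pos hex]
      rw [hH, hw, one_mul, ← form_split (B n (Fin.tail ℓ) H 16) (av n g) (av n g)
        (fun y => dif n y g) (fun y => dif n y g) (sum_dif g) (sum_dif g)]
      refine mul_le_mul_of_nonneg_left (sum_le_sum fun y _ => ?_) (by norm_num)
      refine le_trans (le_of_eq ?_) (ih (Fin.tail ℓ) H (av n g + dif n y g))
      unfold mn
      congr 1
      funext x
      refine nn_congr fun d hd => ?_
      rw [hex d (mem_fs.mp hd), tr_zero]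
      rfl
    · obtain ⟨e, heH, he⟩ := exists_eq_one hex
      have hw : wgt H (ℓ 0) 16 = 16 := by
        unfold wgt
        rw [if_neg hex]
      rw [hw]
      set H' := H ⊓ (ℓ 0).ker with hH'
      have h1 : ∀ x : X n, ∑ y : Y, (nn (fs H) fun d =>
          av n g (sh (Fin.tail ℓ) d x) + dif n (tr (ℓ 0 d) y) g (sh (Fin.tail ℓ) d x))
          ≤ 6 * (nn (fs H) fun d => av n g (sh (Fin.tail ℓ) d x))
            + 8 * ∑ y : Y, nn (fs H) fun d => dif n (tr (ℓ 0 d) y) g (sh (Fin.tail ℓ) d x) := by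
        intro x
        have h2 := smooth_zero (fs H) (fun d => av n g (sh (Fin.tail ℓ) d x))
          (fun (y : Y) d => dif n (tr (ℓ 0 d) y) g (sh (Fin.tail ℓ) d x)) (by
            intro d
            have h3 : ∑ y, dif n (tr (ℓ 0 d) y) g (sh (Fin.tail ℓ) d x)
                = ∑ y, dif n y g (sh (Fin.tail ℓ) d x) :=
              Equiv.sum_comp (trE (ℓ 0 d)) fun y => dif n y g (sh (Fin.tail ℓ) d x)
            rw [h3, ← Finset.sum_apply, sum_dif]
            rfl)
        rw [card_Y] at h2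
        exact_mod_cast h2
      have h2 : ∀ (y : Y) (x : X n),
          (nn (fs H) fun d => dif n (tr (ℓ 0 d) y) g (sh (Fin.tail ℓ) d x))
          ≤ (3 : ℝ)⁻¹ ^ (2 / 3 : ℝ) * ∑ j : ZMod 3, nn (fs H') fun d =>
            dif n (tr j y) g (sh (Fin.tail ℓ) d (sh (Fin.tail ℓ) (mul3 e j) x)) := by
        intro y x
        refine (nn_split3 heH he _).trans (le_of_eq ?_)
        congr 1
        refine sum_congr rfl fun j _ => ?_
        refine nn_congr fun d hd => ?_
        rw [mem_fs, AddSubgroup.mem_inf, AddMonoidHom.mem_ker] at hd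
        rw [map_add, hd.2, map_mul3 he, zero_add, sh_add]
      have h3 : ∑ y : Y, E n (fun x => nn (fs H) fun d =>
          dif n (tr (ℓ 0 d) y) g (sh (Fin.tail ℓ) d x))
          ≤ 2 * ∑ y : Y, mn n (Fin.tail ℓ) H' (dif n y g) := by
        have h4 : ∀ y : Y, E n (fun x => nn (fs H) fun d =>
            dif n (tr (ℓ 0 d) y) g (sh (Fin.tail ℓ) d x))
            ≤ (3 : ℝ)⁻¹ ^ (2 / 3 : ℝ) * ∑ j : ZMod 3, mn n (Fin.tail ℓ) H' (dif n (tr j y) g) := by
          intro y
          refine (E_mono (h2 y)).trans (le_of_eq ?_)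
          rw [E_mul, E_sum]
          congr 1
          refine sum_congr rfl fun j _ => ?_
          exact E_equiv (shE (Fin.tail ℓ) (mul3 e j)) fun x => nn (fs H') fun d =>
            dif n (tr j y) g (sh (Fin.tail ℓ) d x)
        refine (sum_le_sum fun y _ => h4 y).trans ?_
        rw [← mul_sum, sum_comm]
        have h5 : ∀ j : ZMod 3, ∑ y : Y, mn n (Fin.tail ℓ) H' (dif n (tr j y) g)
            = ∑ y : Y, mn n (Fin.tail ℓ) H' (dif n y g) := fun j =>
          Equiv.sum_comp (trE j) fun y => mn n (Fin.tail ℓ) H' (dif n y g)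
        rw [sum_congr rfl fun j _ => h5 j, sum_const, card_univ, ZMod.card, nsmul_eq_mul,
          ← mul_assoc]
        refine mul_le_mul_of_nonneg_right ?_ (sum_nonneg fun y _ => ?_)
        · have := three_rpow_le
          push_cast
          linarith
        · exact E_nonneg fun x => nn_nonneg _ _
      have h4 : ∑ y : Y, E n (fun x => nn (fs H) fun d =>
          av n g (sh (Fin.tail ℓ) d x) + dif n (tr (ℓ 0 d) y) g (sh (Fin.tail ℓ) d x))
          ≤ 6 * mn n (Fin.tail ℓ) H (av n g)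
            + 8 * ∑ y : Y, E n (fun x => nn (fs H) fun d =>
              dif n (tr (ℓ 0 d) y) g (sh (Fin.tail ℓ) d x)) := by
        have h5 := E_mono h1
        rw [E_sum, E_add, E_mul, E_mul, E_sum] at h5
        exact h5
      have h5 := ih (Fin.tail ℓ) H (av n g)
      have h6 := sum_le_sum fun (y : Y) (_ : y ∈ univ) => ih (Fin.tail ℓ) H' (dif n y g)
      linarith

end Pool.Agent.MP_ec946a.SDA
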