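import Mathlib
import Pool.Agent.Lib.MP_ec946a_sda.Bon3

/-!
# Conditional expectations and ranks
-/

set_option autoImplicit false
set_option linter.unusedSectionVars false

namespace Pool.Agent.MP_ec946a.SDA

open Finset Pool.Agent.MP_ec946a.SDP

variable {D : Type} [Fintype D] [DecidableEq D] [AddCommGroup D]

/-- swap the coordinates marked by `ε` around the values at `d` -/
def fl {n : ℕ} (ℓ : Fin n → (D →+ ZMod 3)) (d : D) (ε : Fin n → Bool) (x : X n) : X n :=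
  fun i => if ε i then sw (ℓ i d) (x i) else x i

/-- the mean over the strings with the same values at `d` -/
noncomputable def P (n : ℕ) (ℓ : Fin n → (D →+ ZMod 3)) (d : D) :
    (X n → ℝ) →ₗ[ℝ] (X n → ℝ) where
  toFun g := fun x => ((2 : ℝ) ^ n)⁻¹ * ∑ ε : Fin n → Bool, g (fl ℓ d ε x)
  map_add' g h := by
    funext x
    simp only [Pi.add_apply, sum_add_distrib]
    ring
  map_smul' c g := by
    funext x
    simp only [Pi.smul_apply, smul_eq_mul, RingHom.id_apply, ← mul_sum]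
    ring

lemma P_apply {n : ℕ} (ℓ : Fin n → (D →+ ZMod 3)) (d : D) (g : X n → ℝ) (x : X n) :
    P n ℓ d g x = ((2 : ℝ) ^ n)⁻¹ * ∑ ε : Fin n → Bool, g (fl ℓ d ε x) := rfl

lemma fl_cons {n : ℕ} (ℓ : Fin (n + 1) → (D →+ ZMod 3)) (d : D) (b : Bool) (ε : Fin n → Bool)
    (y : Y) (x : X n) :
    fl ℓ d (Fin.cons b ε) (Fin.cons y x)
      = Fin.cons (if b then sw (ℓ 0 d) y else y) (fl (Fin.tail ℓ) d ε x) := by
  funext i
  refine Fin.cases ?_ (fun j => ?_) i
  · rfl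
  · rfl

/-- half of the sum over a pair -/
noncomputable def hf {V : Type} [AddCommGroup V] [Module ℝ V] (t : ZMod 3) (f : Y → V) (y : Y) :
    V := (1 / 2 : ℝ) • (f y + f (sw t y))

lemma P_cons {n : ℕ} (ℓ : Fin (n + 1) → (D →+ ZMod 3)) (d : D) (g : X (n + 1) → ℝ) (y : Y)
    (x : X n) :
    P (n + 1) ℓ d g (Fin.cons y x)
      = P n (Fin.tail ℓ) d (av n g + hf (ℓ 0 d) (fun y => dif n y g) y) x := by
  rw [P_apply, P_apply, sum_cons]
  have h : ∀ ε : Fin n → Bool, (av n g + hf (ℓ 0 d) (fun y => dif n y g) y)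
      (fl (Fin.tail ℓ) d ε x)
      = (1 / 2) * (g (Fin.cons y (fl (Fin.tail ℓ) d ε x))
        + g (Fin.cons (sw (ℓ 0 d) y) (fl (Fin.tail ℓ) d ε x))) := by
    intro ε
    rw [cons_eq y g, cons_eq (sw (ℓ 0 d) y) g]
    show av n g (fl (Fin.tail ℓ) d ε x) + (1 / 2) * (dif n y g (fl (Fin.tail ℓ) d ε x)
      + dif n (sw (ℓ 0 d) y) g (fl (Fin.tail ℓ) d ε x)) = _
    ring
  rw [sum_congr rfl fun ε _ => h ε]
  simp only [fl_cons, Fintype.sum_bool, if_true, Bool.false_eq_true, if_false]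
  rw [← mul_sum, sum_add_distrib, pow_succ, mul_inv]
  ring

section forms

variable {V : Type} [AddCommGroup V] [Module ℝ V] (b : V →ₗ[ℝ] V →ₗ[ℝ] ℝ)

lemma sum_hf (t : ZMod 3) (f : Y → V) (hf0 : ∑ y, f y = 0) : ∑ y, hf t f y = 0 := by
  have h : ∑ y, f (sw t y) = ∑ y, f y := Equiv.sum_comp (swE t) f
  unfold hf
  rw [← smul_sum, sum_add_distrib, h, hf0, add_zero, smul_zero]

lemma form_hf (hs : ∀ v w, b v w = b w v) (t : ZMod 3) (f : Y → V) :
    ∑ y, b (hf t f y) (hf t f y)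
      = (1 / 2) * ∑ y, b (f y) (f y) + (1 / 2) * ∑ y, b (f y) (f (sw t y)) := by
  have h1 : ∀ y, b (hf t f y) (hf t f y) = (1 / 4) * b (f y) (f y)
      + (1 / 4) * b (f (sw t y)) (f (sw t y)) + (1 / 2) * b (f y) (f (sw t y)) := by
    intro y
    unfold hf
    simp only [map_smul, map_add, LinearMap.add_apply, LinearMap.smul_apply, smul_eq_mul]
    rw [hs (f (sw t y)) (f y)]
    ring
  have h2 : ∑ y, b (f (sw t y)) (f (sw t y)) = ∑ y, b (f y) (f y) :=
    Equiv.sum_comp (swE t) fun y => b (f y) (f y)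
  simp only [h1, sum_add_distrib, ← mul_sum, h2]
  ring

lemma form_hf_le (hs : ∀ v w, b v w = b w v) (hp : ∀ v, 0 ≤ b v v) (t : ZMod 3) (f : Y → V) :
    ∑ y, b (hf t f y) (hf t f y) ≤ ∑ y, b (f y) (f y) := by
  rw [form_hf b hs]
  have h1 : ∀ y, b (f y) (f (sw t y))
      ≤ (1 / 2) * b (f y) (f y) + (1 / 2) * b (f (sw t y)) (f (sw t y)) := by
    intro y
    have h := hp (f y - f (sw t y))
    simp only [map_sub, LinearMap.sub_apply] at h
    rw [hs (f (sw t y)) (f y)] at h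
    linarith
  have h2 : ∑ y, b (f (sw t y)) (f (sw t y)) = ∑ y, b (f y) (f y) :=
    Equiv.sum_comp (swE t) fun y => b (f y) (f y)
  have h3 := sum_le_sum fun (y : Y) (_ : y ∈ univ) => h1 y
  rw [sum_add_distrib, ← mul_sum, ← mul_sum, h2] at h3
  linarith

lemma sum_sw (f : Y → V) (y : Y) : ∑ t : ZMod 3, f (sw t y) = ∑ r : ZMod 3, f (r, !y.2) := by
  have hb : Function.Bijective fun t : ZMod 3 => y.1 + 2 * (sg y.2 * t) := by
    revert y
    decide
  exact (Equiv.ofBijective _ hb).sum_comp fun r => f (r, !y.2)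

lemma form_hf_sum (hs : ∀ v w, b v w = b w v) (hp : ∀ v, 0 ≤ b v v) (f : Y → V)
    (hf0 : ∑ y, f y = 0) :
    ∑ t : ZMod 3, ∑ y, b (hf t f y) (hf t f y) ≤ (3 / 2) * ∑ y, b (f y) (f y) := by
  have h1 : ∑ t : ZMod 3, ∑ y, b (f y) (f (sw t y)) ≤ 0 := by
    rw [sum_comm]
    have h2 : ∀ y, ∑ t : ZMod 3, b (f y) (f (sw t y))
        = b (f y) (∑ r : ZMod 3, f (r, !y.2)) := by
      intro y
      rw [← map_sum, sum_sw]
    rw [sum_congr rfl fun y _ => h2 y, Fintype.sum_prod_type_right]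
    simp only [Fintype.sum_bool, Bool.not_true, Bool.not_false]
    set F₁ := ∑ r : ZMod 3, f (r, true) with hF₁
    set F₀ := ∑ r : ZMod 3, f (r, false) with hF₀
    have h3 : F₀ = - F₁ := by
      have h4 : ∑ y, f y = F₁ + F₀ := by
        rw [Fintype.sum_prod_type_right]
        simp only [Fintype.sum_bool]
        rfl
      rw [hf0] at h4
      exact (neg_eq_of_add_eq_zero_right h4.symm).symm
    have h5 : ∑ r : ZMod 3, b (f (r, true)) F₀ = b F₁ F₀ := by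
      rw [hF₁, map_sum b (fun r => f (r, true)) univ, LinearMap.sum_apply]
    have h6 : ∑ r : ZMod 3, b (f (r, false)) F₁ = b F₀ F₁ := by
      rw [hF₀, map_sum b (fun r => f (r, false)) univ, LinearMap.sum_apply]
    rw [h5, h6, h3]
    simp only [map_neg, LinearMap.neg_apply]
    have := hp F₁
    linarith
  have h2 : ∀ t : ZMod 3, ∑ y, b (hf t f y) (hf t f y)
      = (1 / 2) * ∑ y, b (f y) (f y) + (1 / 2) * ∑ y, b (f y) (f (sw t y)) := fun t =>
    form_hf b hs t f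
  rw [sum_congr rfl fun t _ => h2 t, sum_add_distrib, sum_const, card_univ, ZMod.card,
    nsmul_eq_mul, ← mul_sum]
  push_cast
  linarith

end forms

/-- the mean square of the conditional mean -/
noncomputable def N2 (n : ℕ) (ℓ : Fin n → (D →+ ZMod 3)) (d : D) (g : X n → ℝ) : ℝ :=
  E n fun x => P n ℓ d g x * P n ℓ d g x

lemma N2_zero (ℓ : Fin 0 → (D →+ ZMod 3)) (d : D) (g : X 0 → ℝ) :
    N2 0 ℓ d g = g default * g default := by
  have h : ∀ x : X 0, P 0 ℓ d g x = g default := by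
    intro x
    rw [P_apply, pow_zero, inv_one, one_mul, Fintype.sum_unique]
    congr 1
    exact Subsingleton.elim _ _
  unfold N2
  simp only [h, E_const]

lemma N2_succ {n : ℕ} (ℓ : Fin (n + 1) → (D →+ ZMod 3)) (d : D) (g : X (n + 1) → ℝ) :
    N2 (n + 1) ℓ d g = (1 / 6) * ∑ y, N2 n (Fin.tail ℓ) d
      (av n g + hf (ℓ 0 d) (fun y => dif n y g) y) := by
  unfold N2
  rw [E_succ]
  simp only [P_cons]

lemma N2_split {n : ℕ} (ℓ : Fin n → (D →+ ZMod 3)) (d : D) (a : X n → ℝ) (f : Y → (X n → ℝ))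
    (hf0 : ∑ y, f y = 0) :
    (1 / 6) * ∑ y, N2 n ℓ d (a + f y) = N2 n ℓ d a + (1 / 6) * ∑ y, N2 n ℓ d (f y) := by
  have hz : ∑ y, P n ℓ d (f y) = 0 := by
    rw [← map_sum, hf0, map_zero]
  have h := form_split (B n ℓ ⊤ 1) (P n ℓ d a) (P n ℓ d a)
    (fun y => P n ℓ d (f y)) (fun y => P n ℓ d (f y)) hz hz
  simp only [B_one, ← map_add] at h
  exact h

theorem cond3 {n : ℕ} (ℓ : Fin n → (D →+ ZMod 3)) (H : AddSubgroup D) (d₀ : D) (g : X n → ℝ) :
    ∑ d ∈ fs H, N2 n ℓ (d₀ + d) g ≤ ((fs H).card : ℝ) * B n ℓ H (1 / 2) g g := by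
  induction n generalizing H d₀ with
  | zero =>
    rw [B_zero]
    simp only [N2_zero, sum_const, nsmul_eq_mul]
    exact le_refl _
  | succ n ih =>
    have hBs := fun (K : AddSubgroup D) (v w : X n → ℝ) => B_symm (Fin.tail ℓ) K (1 / 2) v w
    have hBp := fun (K : AddSubgroup D) (v : X n → ℝ) =>
      B_nonneg (Fin.tail ℓ) K (w := 1 / 2) (by norm_num) v
    set a := av n g with ha
    set f : Y → (X n → ℝ) := fun y => dif n y g with hf'
    have hf0 : ∑ y, f y = 0 := sum_dif g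
    have hE : ∀ d : D, N2 (n + 1) ℓ d g
        = (1 / 6) * ∑ y, N2 n (Fin.tail ℓ) d (a + hf (ℓ 0 d) f y) := fun d => N2_succ ℓ d g
    rw [sum_congr rfl fun d _ => hE (d₀ + d), B_succ]
    by_cases hex : ∀ d ∈ H, ℓ 0 d = 0
    · have hH : H ⊓ (ℓ 0).ker = H := by
        refine le_antisymm inf_le_left fun d hd => ?_
        exact AddSubgroup.mem_inf.mpr ⟨hd, AddMonoidHom.mem_ker.mpr (hex d hd)⟩
      have hw : wgt H (ℓ 0) (1 / 2) = 1 := by
        unfold wgt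
        rw [if_pos hex]
      rw [hH, hw, one_mul]
      have h1 : ∀ d ∈ fs H, ℓ 0 (d₀ + d) = ℓ 0 d₀ := by
        intro d hd
        rw [map_add, hex d (mem_fs.mp hd), add_zero]
      have h2 : ∑ d ∈ fs H, (1 / 6) * ∑ y, N2 n (Fin.tail ℓ) (d₀ + d)
            (a + hf (ℓ 0 (d₀ + d)) f y)
          = (1 / 6) * ∑ y, ∑ d ∈ fs H, N2 n (Fin.tail ℓ) (d₀ + d)
            (a + hf (ℓ 0 d₀) f y) := by
        rw [sum_comm, mul_sum]
        refine sum_congr rfl fun d hd => ?_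
        rw [h1 d hd]
      rw [h2]
      have h3 := sum_le_sum fun (y : Y) (_ : y ∈ univ) =>
        ih (Fin.tail ℓ) H d₀ (a + hf (ℓ 0 d₀) f y)
      rw [← mul_sum] at h3
      have h4 := form_split (B n (Fin.tail ℓ) H (1 / 2)) a a (hf (ℓ 0 d₀) f) (hf (ℓ 0 d₀) f)
        (sum_hf _ f hf0) (sum_hf _ f hf0)
      have h5 := form_hf_le (B n (Fin.tail ℓ) H (1 / 2)) (hBs H) (hBp H) (ℓ 0 d₀) f
      have hc := card_fs_pos H
      have h6 := mul_le_mul_of_nonneg_left h3 (show (0 : ℝ) ≤ 1 / 6 by norm_num)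
      refine h6.trans ?_
      rw [mul_left_comm, h4]
      refine mul_le_mul_of_nonneg_left ?_ hc.le
      linarith
    · obtain ⟨e, heH, he⟩ := exists_eq_one hex
      have hw : wgt H (ℓ 0) (1 / 2) = 1 / 2 := by
        unfold wgt
        rw [if_neg hex]
      rw [hw]
      set H' := H ⊓ (ℓ 0).ker with hH'
      have h1 : ∀ d : D, (1 / 6) * ∑ y, N2 n (Fin.tail ℓ) d (a + hf (ℓ 0 d) f y)
          = N2 n (Fin.tail ℓ) d a + (1 / 6) * ∑ y, N2 n (Fin.tail ℓ) d (hf (ℓ 0 d) f y) :=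
        fun d => N2_split (Fin.tail ℓ) d a (hf (ℓ 0 d) f) (sum_hf _ f hf0)
      rw [sum_congr rfl fun d _ => h1 (d₀ + d), sum_add_distrib, mul_add]
      refine add_le_add (ih (Fin.tail ℓ) H d₀ a) ?_
      rw [sum_coset heH he]
      have h2 : ∀ j : ZMod 3, ∑ d ∈ fs H', (1 / 6) * ∑ y, N2 n (Fin.tail ℓ)
            (d₀ + (d + mul3 e j)) (hf (ℓ 0 (d₀ + (d + mul3 e j))) f y)
          ≤ ((fs H').card : ℝ) * ((1 / 6) * ∑ y, B n (Fin.tail ℓ) H' (1 / 2)
            (hf (ℓ 0 d₀ + j) f y) (hf (ℓ 0 d₀ + j) f y)) := by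
        intro j
        have h4 := sum_le_sum fun (y : Y) (_ : y ∈ univ) =>
          ih (Fin.tail ℓ) H' (d₀ + mul3 e j) (hf (ℓ 0 d₀ + j) f y)
        rw [← mul_sum, sum_comm] at h4
        have h3 : ∀ d ∈ fs H', (1 / 6) * ∑ y, N2 n (Fin.tail ℓ)
            (d₀ + (d + mul3 e j)) (hf (ℓ 0 (d₀ + (d + mul3 e j))) f y)
            = (1 / 6) * ∑ y, N2 n (Fin.tail ℓ) ((d₀ + mul3 e j) + d) (hf (ℓ 0 d₀ + j) f y) := by
          intro d hd
          rw [mem_fs, AddSubgroup.mem_inf, AddMonoidHom.mem_ker] at hd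
          have e1 : ℓ 0 (d₀ + (d + mul3 e j)) = ℓ 0 d₀ + j := by
            rw [map_add, map_add, hd.2, map_mul3 he, zero_add]
          have e2 : d₀ + (d + mul3 e j) = (d₀ + mul3 e j) + d := by abel
          rw [e1, e2]
        rw [sum_congr rfl h3, ← mul_sum]
        linarith
      refine (sum_le_sum fun j _ => h2 j).trans ?_
      rw [← mul_sum, ← mul_sum]
      have h5 : ∑ j : ZMod 3, ∑ y, B n (Fin.tail ℓ) H' (1 / 2)
            (hf (ℓ 0 d₀ + j) f y) (hf (ℓ 0 d₀ + j) f y)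
          = ∑ t : ZMod 3, ∑ y, B n (Fin.tail ℓ) H' (1 / 2) (hf t f y) (hf t f y) :=
        Equiv.sum_comp (Equiv.addLeft (ℓ 0 d₀)) fun t => ∑ y, B n (Fin.tail ℓ) H' (1 / 2)
          (hf t f y) (hf t f y)
      rw [h5]
      have h6 := form_hf_sum (B n (Fin.tail ℓ) H' (1 / 2)) (hBs H') (hBp H') f hf0
      have hc := card_coset heH he
      rw [← hH'] at hc
      rw [hc]
      have hc0 := card_fs_pos H'
      have h7 := mul_le_mul_of_nonneg_left h6 hc0.le
      linarith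

end Pool.Agent.MP_ec946a.SDA
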