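import Mathlib
import Pool.Agent.Lib.MP_ec946a_sda.Cond

/-!
# Fractional tiles
-/

set_option autoImplicit false
set_option linter.unusedSectionVars false

namespace Pool.Agent.MP_ec946a.SDA

open Finset Pool.Agent.MP_ec946a.SDP

variable {D : Type} [Fintype D] [DecidableEq D] [AddCommGroup D]

lemma E_orbit {n : ℕ} (ℓ : Fin n → (D →+ ZMod 3)) (φ : X n → ℝ) :
    (Fintype.card D : ℝ) * E n φ = E n fun x => ∑ d : D, φ (sh ℓ d x) := by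
  rw [E_sum]
  have h : ∀ d : D, E n (fun x => φ (sh ℓ d x)) = E n φ := fun d => E_equiv (shE ℓ d) φ
  rw [sum_congr rfl fun d _ => h d, sum_const, card_univ, nsmul_eq_mul]

lemma E_sq_le {n : ℕ} (f : X n → ℝ) : E n f ^ 2 ≤ E n fun x => f x ^ 2 := by
  have h := E_nonneg (n := n) (g := fun x => (f x - E n f) ^ 2) fun x => sq_nonneg _
  have e : (fun x => (f x - E n f) ^ 2)
      = fun x => (f x ^ 2 - (2 * E n f) * f x) + E n f ^ 2 := by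
    funext x
    ring
  rw [e, E_add, E_sub, E_mul, E_const] at h
  linarith

lemma sum_sq_le_of_sum_one {ι : Type} [Fintype ι] (p g : ι → ℝ) (hp : ∀ i, 0 ≤ p i)
    (h1 : ∑ i, p i = 1) : (∑ i, p i * g i) ^ 2 ≤ ∑ i, p i * g i ^ 2 := by
  set m := ∑ i, p i * g i with hm
  have h : 0 ≤ ∑ i, p i * (g i - m) ^ 2 := sum_nonneg fun i _ => mul_nonneg (hp i) (sq_nonneg _)
  have e : ∀ m : ℝ, ∑ i, p i * (g i - m) ^ 2 = ∑ i, p i * g i ^ 2 - 2 * m * ∑ i, p i * g i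
      + m ^ 2 * ∑ i, p i := by
    intro m
    rw [mul_sum, mul_sum, ← sum_sub_distrib, ← sum_add_distrib]
    exact sum_congr rfl fun i _ => by ring
  rw [e m, h1, ← hm] at h
  linarith

lemma fs_top : fs (⊤ : AddSubgroup D) = univ := by
  ext d
  simp [mem_fs]

lemma K_pos : (0 : ℝ) < (Fintype.card D : ℝ) := by
  have : Nonempty D := ⟨0⟩
  exact_mod_cast Fintype.card_pos

variable {n : ℕ} (ℓ : Fin n → (D →+ ZMod 3)) {ψ : X n → ℝ}

theorem tile_q (h0 : ∀ x, 0 ≤ ψ x) (h1 : ∀ x, ∑ d : D, ψ (sh ℓ d x) = 1) :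
    B n ℓ ⊤ (1 / 16) ψ ψ ≤ (Fintype.card D : ℝ) ^ (-(4 / 3) : ℝ) := by
  set K : ℝ := (Fintype.card D : ℝ) with hK
  have hK0 : 0 < K := K_pos
  set Q : ℝ := B n ℓ ⊤ (1 / 16) ψ ψ with hQ
  have hQ0 : 0 ≤ Q := B_nonneg ℓ ⊤ (by norm_num) ψ
  set g : X n → ℝ := M n ℓ ⊤ (1 / 16) ψ with hg
  have hQ1 : Q = E n fun x => ψ x * g x := by
    rw [← B_one ℓ ⊤, hg, B_M_left, one_mul]
  have hQ2 : B n ℓ ⊤ 16 g g = Q := by
    rw [hg, B_M_M, hQ]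
    norm_num
  have h2 : K * Q = E n fun x => ∑ d : D, ψ (sh ℓ d x) * g (sh ℓ d x) := by
    rw [hQ1, hK, E_orbit ℓ]
  have h3 : ∀ x, (∑ d : D, ψ (sh ℓ d x) * g (sh ℓ d x)) ^ 2
      ≤ K ^ (2 / 3 : ℝ) * nn (fs (⊤ : AddSubgroup D)) fun d => g (sh ℓ d x) := by
    intro x
    have h4 : ∀ d₀ : D, g (sh ℓ d₀ x) ^ 2
        ≤ K ^ (2 / 3 : ℝ) * nn (fs (⊤ : AddSubgroup D)) fun d => g (sh ℓ d x) := by
      intro d₀
      have h5 : |g (sh ℓ d₀ x)| ^ 3 ≤ ∑ d : D, |g (sh ℓ d x)| ^ 3 :=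
        single_le_sum (f := fun d : D => |g (sh ℓ d x)| ^ 3)
          (fun d _ => by positivity) (mem_univ d₀)
      have h6 := Real.rpow_le_rpow (by positivity) h5 (show (0 : ℝ) ≤ 2 / 3 by norm_num)
      have e2 : (|g (sh ℓ d₀ x)| ^ 3) ^ (2 / 3 : ℝ) = g (sh ℓ d₀ x) ^ 2 := by
        rw [← Real.rpow_natCast, ← Real.rpow_mul (abs_nonneg _), ← sq_abs, ← Real.rpow_natCast]
        norm_num
      rw [e2] at h6
      refine h6.trans (le_of_eq ?_)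
      unfold nn
      rw [fs_top, card_univ, ← Real.mul_rpow hK0.le
        (mul_nonneg (by positivity) (sum_nonneg fun _ _ => by positivity)), ← mul_assoc,
        mul_inv_cancel₀ hK0.ne', one_mul]
    refine (sum_sq_le_of_sum_one _ _ (fun d => h0 _) (h1 x)).trans ?_
    refine (sum_le_sum fun d _ => mul_le_mul_of_nonneg_left (h4 d) (h0 _)).trans ?_
    rw [← sum_mul, h1, one_mul]
  have h4 : (K * Q) ^ 2 ≤ K ^ (2 / 3 : ℝ) * Q := by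
    rw [h2]
    refine (E_sq_le _).trans ((E_mono h3).trans ?_)
    rw [E_mul]
    refine mul_le_mul_of_nonneg_left ?_ (by positivity)
    rw [← hQ2]
    exact bonami3 ℓ ⊤ g
  rcases hQ0.eq_or_lt with h5 | h5
  · rw [← h5]
    positivity
  · have h9 : K ^ 2 * Q ≤ K ^ (2 / 3 : ℝ) := by
      have e3 : (K * Q) ^ 2 = (K ^ 2 * Q) * Q := by ring
      rw [e3] at h4
      exact le_of_mul_le_mul_right h4 h5
    have e5 : K ^ (2 / 3 : ℝ) = K ^ 2 * K ^ (-(4 / 3) : ℝ) := by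
      rw [← Real.rpow_natCast, ← Real.rpow_add hK0]
      norm_num
    rw [e5] at h9
    exact le_of_mul_le_mul_left h9 (by positivity)

theorem tile_one (h0 : ∀ x, 0 ≤ ψ x) (h1 : ∀ x, ∑ d : D, ψ (sh ℓ d x) = 1) :
    B n ℓ ⊤ 1 ψ ψ ≤ (Fintype.card D : ℝ)⁻¹ := by
  have hK0 : (0 : ℝ) < (Fintype.card D : ℝ) := K_pos
  have h2 : (Fintype.card D : ℝ) * B n ℓ ⊤ 1 ψ ψ ≤ 1 := by
    rw [B_one, E_orbit ℓ]
    have h3 : ∀ x, ∑ d : D, ψ (sh ℓ d x) * ψ (sh ℓ d x) ≤ 1 := by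
      intro x
      have h4 : ∀ d : D, ψ (sh ℓ d x) * ψ (sh ℓ d x) ≤ ψ (sh ℓ d x) := by
        intro d
        have h5 : ψ (sh ℓ d x) ≤ 1 := by
          rw [← h1 x]
          exact single_le_sum (f := fun d : D => ψ (sh ℓ d x)) (fun d _ => h0 _) (mem_univ d)
        have h6 := mul_le_mul_of_nonneg_left h5 (h0 (sh ℓ d x))
        rwa [mul_one] at h6
      exact (sum_le_sum fun d _ => h4 d).trans (h1 x).le
    exact (E_mono h3).trans (E_const 1).le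
  rw [← one_div, le_div_iff₀ hK0]
  linarith

theorem tile_half (h0 : ∀ x, 0 ≤ ψ x) (h1 : ∀ x, ∑ d : D, ψ (sh ℓ d x) = 1) :
    B n ℓ ⊤ (1 / 2) ψ ψ ≤ (Fintype.card D : ℝ) ^ (-(13 / 12) : ℝ) := by
  set K : ℝ := (Fintype.card D : ℝ) with hK
  have hK0 : 0 < K := K_pos
  have h2 := tile_q ℓ h0 h1
  have h3 := tile_one ℓ h0 h1
  rw [← hK] at h2 h3
  have h4 : ∀ r : ℕ, 1 * (1 / 2 : ℝ) ^ r
      ≤ (1 / 4 * K ^ (1 / 4 : ℝ)) * (1 / 16 : ℝ) ^ r + (3 / 4 * K ^ (-(1 / 12) : ℝ)) * 1 ^ r := by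
    intro r
    have h5 := Real.geom_mean_le_arith_mean2_weighted (w₁ := 1 / 4) (w₂ := 3 / 4)
      (p₁ := K ^ (1 / 4 : ℝ) * (1 / 16 : ℝ) ^ r) (p₂ := K ^ (-(1 / 12) : ℝ))
      (by norm_num) (by norm_num) (by positivity) (by positivity) (by norm_num)
    rw [one_mul, one_pow, mul_one]
    refine le_trans (le_of_eq ?_) (h5.trans (le_of_eq (by ring)))
    rw [Real.mul_rpow (by positivity) (by positivity), ← Real.rpow_mul hK0.le,
      ← Real.rpow_mul hK0.le, mul_right_comm, ← Real.rpow_add hK0]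
    have e1 : ((1 / 16 : ℝ) ^ r) ^ (1 / 4 : ℝ) = (1 / 2 : ℝ) ^ r := by
      have e2 : (1 / 16 : ℝ) ^ r = ((1 / 2 : ℝ) ^ r) ^ 4 := by
        rw [← pow_mul, mul_comm, pow_mul]
        norm_num
      rw [e2, ← Real.rpow_natCast, ← Real.rpow_mul (by positivity)]
      norm_num
    rw [e1]
    norm_num
  have h5 := B_compare ℓ ⊤ h4 ψ
  rw [one_mul] at h5
  refine h5.trans ?_
  calc 1 / 4 * K ^ (1 / 4 : ℝ) * B n ℓ ⊤ (1 / 16) ψ ψ
        + 3 / 4 * K ^ (-(1 / 12) : ℝ) * B n ℓ ⊤ 1 ψ ψ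
      ≤ 1 / 4 * K ^ (1 / 4 : ℝ) * K ^ (-(4 / 3) : ℝ) + 3 / 4 * K ^ (-(1 / 12) : ℝ) * K⁻¹ :=
        add_le_add (mul_le_mul_of_nonneg_left h2 (by positivity))
          (mul_le_mul_of_nonneg_left h3 (by positivity))
    _ = K ^ (-(13 / 12) : ℝ) := by
        rw [mul_assoc, mul_assoc, ← Real.rpow_add hK0, ← Real.rpow_neg_one,
          ← Real.rpow_add hK0]
        norm_num
        ring

theorem tile_cond (h0 : ∀ x, 0 ≤ ψ x) (h1 : ∀ x, ∑ d : D, ψ (sh ℓ d x) = 1) :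
    ∑ d : D, N2 n ℓ d ψ ≤ (Fintype.card D : ℝ) ^ (-(1 / 12) : ℝ) := by
  have hK0 : (0 : ℝ) < (Fintype.card D : ℝ) := K_pos
  have h2 := cond3 ℓ ⊤ 0 ψ
  simp only [zero_add, fs_top, card_univ] at h2
  refine h2.trans ((mul_le_mul_of_nonneg_left (tile_half ℓ h0 h1) hK0.le).trans (le_of_eq ?_))
  nth_rewrite 1 [← Real.rpow_one (Fintype.card D : ℝ)]
  rw [← Real.rpow_add hK0]
  norm_num

end Pool.Agent.MP_ec946a.SDA
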