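import Mathlib
import Pool.Agent.Lib.MP_ec946a_sda.Tile3

/-!
# Guessing the label of a string from its values at one point
-/

set_option autoImplicit false
set_option linter.unusedSectionVars false

namespace Pool.Agent.MP_ec946a.SDA

open Finset Pool.Agent.MP_ec946a.SDP

variable {D : Type} [Fintype D] [DecidableEq D] [AddCommGroup D]

/-- the values of the states at zero -/
def pt {n : ℕ} (x : X n) : Fin n → ZMod 3 := fun i => (x i).1

/-- the fraction of the points at which the label is guessed -/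
noncomputable def psi {n : ℕ} (ℓ : Fin n → (D →+ ZMod 3)) (L : X n → D) (y : X n) : ℝ :=
  (Fintype.card D : ℝ)⁻¹ * ((univ.filter fun b : D => L (sh ℓ (-b) y) = b).card : ℝ)

variable {n : ℕ} (ℓ : Fin n → (D →+ ZMod 3)) (L : X n → D)

lemma psi_nonneg (y : X n) : 0 ≤ psi ℓ L y := by
  unfold psi
  positivity

lemma psi_sh (y : X n) (c : D) : psi ℓ L (sh ℓ c y)
    = (Fintype.card D : ℝ)⁻¹
      * ((univ.filter fun b : D => L (sh ℓ (-b) y) - b = c).card : ℝ) := by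
  unfold psi
  congr 2
  refine card_nbij' (fun b => b - c) (fun b => b + c) ?_ ?_ ?_ ?_
  · intro b hb
    simp only [coe_filter, mem_univ, true_and, Set.mem_ofPred_eq] at hb ⊢
    rw [← sh_add] at hb
    have e : -(b - c) = -b + c := by abel
    rw [e, hb]
    abel
  · intro b hb
    simp only [coe_filter, mem_univ, true_and, Set.mem_ofPred_eq] at hb ⊢
    rw [← sh_add]
    have e : -(b + c) + c = -b := by abel
    rw [e, ← hb]
    abel
  · intro b _
    exact sub_add_cancel _ _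
  · intro b _
    exact add_sub_cancel_right _ _

lemma sum_psi (y : X n) : ∑ c : D, psi ℓ L (sh ℓ c y) = 1 := by
  have hK0 : (0 : ℝ) < (Fintype.card D : ℝ) := K_pos
  have h : ∑ c : D, (univ.filter fun b : D => L (sh ℓ (-b) y) - b = c).card
      = Fintype.card D :=
    (card_eq_sum_card_fiberwise (s := (univ : Finset D)) (t := univ)
      (f := fun b => L (sh ℓ (-b) y) - b) fun _ _ => mem_univ _).symm
  simp only [psi_sh, ← mul_sum]
  rw [← Nat.cast_sum, h, inv_mul_cancel₀ hK0.ne']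

lemma fl_sh (c : D) (ε : Fin n → Bool) (y : X n) :
    fl ℓ (-c) ε (sh ℓ c y) = sh ℓ c (fl ℓ 0 ε y) := by
  funext i
  show (if ε i then sw (ℓ i (-c)) (tr (ℓ i c) (y i)) else tr (ℓ i c) (y i))
    = tr (ℓ i c) (if ε i then sw (ℓ i 0) (y i) else y i)
  split_ifs
  · rw [tr_sw, map_zero, zero_sub, map_neg]
  · rfl

lemma fl_fl (ε : Fin n → Bool) (y : X n) : fl ℓ 0 ε (fl ℓ 0 ε y) = y := by
  funext i
  show (if ε i then sw (ℓ i 0) (if ε i then sw (ℓ i 0) (y i) else y i)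
    else (if ε i then sw (ℓ i 0) (y i) else y i)) = y i
  split_ifs
  · rw [sw_sw]
  · rfl

lemma pt_fl (ε : Fin n → Bool) (y : X n) : pt (fl ℓ 0 ε y) = pt y := by
  funext i
  show (if ε i then sw (ℓ i 0) (y i) else y i).1 = (y i).1
  split_ifs
  · rw [map_zero]
    show (y i).1 + 2 * (sg (y i).2 * 0) = (y i).1
    rw [mul_zero, mul_zero, add_zero]
  · rfl

/-- the swap of marked coordinates as a permutation -/
def flE (ε : Fin n → Bool) : X n ≃ X n where
  toFun := fl ℓ 0 ε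
  invFun := fl ℓ 0 ε
  left_inv := fl_fl ℓ ε
  right_inv := fl_fl ℓ ε

lemma E_guess (ψ : X n → ℝ) (c : (Fin n → ZMod 3) → D) :
    E n (fun y => ψ (sh ℓ (c (pt y)) y))
      = E n fun y => P n ℓ (-c (pt y)) ψ (sh ℓ (c (pt y)) y) := by
  simp only [P_apply]
  rw [E_mul, E_sum]
  have h : ∀ ε : Fin n → Bool, E n (fun y => ψ (fl ℓ (-c (pt y)) ε (sh ℓ (c (pt y)) y)))
      = E n (fun y => ψ (sh ℓ (c (pt y)) y)) := by
    intro ε
    rw [← E_equiv (flE ℓ ε) fun y => ψ (sh ℓ (c (pt y)) y)]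
    congr 1
    funext y
    show ψ (fl ℓ (-c (pt y)) ε (sh ℓ (c (pt y)) y))
      = ψ (sh ℓ (c (pt (fl ℓ 0 ε y))) (fl ℓ 0 ε y))
    rw [pt_fl, fl_sh]
  rw [sum_congr rfl fun ε _ => h ε, sum_const, card_univ, nsmul_eq_mul, Fintype.card_fun,
    Fintype.card_fin, Fintype.card_bool, ← mul_assoc]
  push_cast
  rw [inv_mul_cancel₀ (by positivity), one_mul]

theorem guess3 (c : (Fin n → ZMod 3) → D) :
    E n (fun y => psi ℓ L (sh ℓ (c (pt y)) y)) ≤ (Fintype.card D : ℝ) ^ (-(1 / 24) : ℝ) := by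
  set K : ℝ := (Fintype.card D : ℝ) with hK
  have hK0 : 0 < K := K_pos
  set ψ := psi ℓ L with hψ
  have h1 : E n (fun y => ψ (sh ℓ (c (pt y)) y)) ^ 2 ≤ K ^ (-(1 / 12) : ℝ) := by
    rw [E_guess]
    refine (E_sq_le _).trans ?_
    have h2 : ∀ y : X n, P n ℓ (-c (pt y)) ψ (sh ℓ (c (pt y)) y) ^ 2
        ≤ ∑ d : D, P n ℓ (-d) ψ (sh ℓ d y) * P n ℓ (-d) ψ (sh ℓ d y) := by
      intro y
      rw [sq]
      exact single_le_sum (f := fun d : D => P n ℓ (-d) ψ (sh ℓ d y) * P n ℓ (-d) ψ (sh ℓ d y))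
        (fun d _ => mul_self_nonneg _) (mem_univ (c (pt y)))
    refine (E_mono h2).trans ?_
    rw [E_sum]
    have h3 : ∀ d : D, E n (fun y => P n ℓ (-d) ψ (sh ℓ d y) * P n ℓ (-d) ψ (sh ℓ d y))
        = N2 n ℓ (-d) ψ := fun d =>
      E_equiv (shE ℓ d) fun y => P n ℓ (-d) ψ y * P n ℓ (-d) ψ y
    rw [sum_congr rfl fun d _ => h3 d]
    have h4 : ∑ d : D, N2 n ℓ (-d) ψ = ∑ d : D, N2 n ℓ d ψ :=
      Equiv.sum_comp (Equiv.neg D) fun d => N2 n ℓ d ψ
    rw [h4]
    exact tile_cond ℓ (psi_nonneg ℓ L) (sum_psi ℓ L)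
  have h2 : K ^ (-(1 / 12) : ℝ) = (K ^ (-(1 / 24) : ℝ)) ^ 2 := by
    rw [← Real.rpow_natCast, ← Real.rpow_mul hK0.le]
    norm_num
  rw [h2] at h1
  exact (pow_le_pow_iff_left₀ (E_nonneg fun y => psi_nonneg ℓ L _) (by positivity)
    two_ne_zero).mp h1

/-- the number of pairs of a string and a point at which the label is guessed -/
theorem count3 (c : (Fin n → ZMod 3) → D) :
    ((univ.filter fun p : X n × D => L (sh ℓ (-p.2) p.1) - p.2 = c (pt p.1)).card : ℝ)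
      ≤ (6 ^ n * (Fintype.card D : ℝ)) * (Fintype.card D : ℝ) ^ (-(1 / 24) : ℝ) := by
  have hK0 : (0 : ℝ) < (Fintype.card D : ℝ) := K_pos
  have h1 : (univ.filter fun p : X n × D => L (sh ℓ (-p.2) p.1) - p.2 = c (pt p.1)).card
      = ∑ y : X n, (univ.filter fun b : D => L (sh ℓ (-b) y) - b = c (pt y)).card := by
    simp only [card_filter]
    rw [Fintype.sum_prod_type]
  have h2 : ∀ y : X n, ((univ.filter fun b : D => L (sh ℓ (-b) y) - b = c (pt y)).card : ℝ)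
      = (Fintype.card D : ℝ) * psi ℓ L (sh ℓ (c (pt y)) y) := by
    intro y
    rw [psi_sh, ← mul_assoc, mul_inv_cancel₀ hK0.ne', one_mul]
  rw [h1]
  push_cast
  rw [sum_congr rfl fun y _ => h2 y, ← mul_sum]
  have h3 := guess3 ℓ L c
  unfold E at h3
  have h4 : (0 : ℝ) < 6 ^ n := by positivity
  rw [inv_mul_le_iff₀ h4] at h3
  calc (Fintype.card D : ℝ) * ∑ y : X n, psi ℓ L (sh ℓ (c (pt y)) y)
      ≤ (Fintype.card D : ℝ) * (6 ^ n * (Fintype.card D : ℝ) ^ (-(1 / 24) : ℝ)) :=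
        mul_le_mul_of_nonneg_left h3 hK0.le
    _ = _ := by ring

end Pool.Agent.MP_ec946a.SDA
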