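import Mathlib
import Pool.Agent.Lib.MP_ec946a_sda.Guess3
import Pool.Agent.Lib.MP_ec946a_sda.Relax3

/-!
# The reflection game

The labels are the vectors over the field with three elements.  A vertex of `U` chooses a
permutation of the field for every linear form, a vertex of `V` an element of the field for every
linear form.  The edge of a vertex of `U` and a point `b` leads to the values at `b`; it
identifies the labels `b + d` and `b - d`.
-/

set_option autoImplicit false
set_option linter.unusedSectionVars false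

namespace Pool.Agent.MP_ec946a.SDA

open Finset Pool.Agent.MP_ec946a.SDP

/-- the vectors -/
abbrev D3 (k : ℕ) : Type := Fin k → ZMod 3

/-- the linear forms -/
def lin3 (k : ℕ) (w : D3 k) : D3 k →+ ZMod 3 where
  toFun d := ∑ i, w i * d i
  map_zero' := by simp
  map_add' d e := by
    rw [← sum_add_distrib]
    exact sum_congr rfl fun i _ => mul_add _ _ _

lemma lin3_apply {k : ℕ} (w d : D3 k) : lin3 k w d = ∑ i, w i * d i := rfl

lemma lin3_comm {k : ℕ} (w d : D3 k) : lin3 k w d = lin3 k d w := by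
  rw [lin3_apply, lin3_apply]
  exact sum_congr rfl fun i _ => mul_comm _ _

lemma lin3_zero_left {k : ℕ} (d : D3 k) : lin3 k 0 d = 0 := by
  rw [lin3_apply]
  simp

lemma lin3_single {k : ℕ} (w : D3 k) (i : Fin k) (j : ZMod 3) :
    lin3 k w (Pi.single i j) = w i * j := by
  rw [lin3_apply, sum_eq_single_of_mem i (mem_univ _)]
  · rw [Pi.single_eq_same]
  · intro l _ hl
    rw [Pi.single_eq_of_ne hl, mul_zero]

lemma card_D3 (k : ℕ) : Fintype.card (D3 k) = 3 ^ k := by
  rw [Fintype.card_fun, ZMod.card, Fintype.card_fin]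

/-- the labels -/
noncomputable def lab3 (k : ℕ) : D3 k ≃ Fin (3 ^ k) := Fintype.equivFinOfCardEq (card_D3 k)

/-- sums of a function with mean zero over a nonzero linear form -/
lemma sum_lin3 {k : ℕ} {w : D3 k} (hw : w ≠ 0) (φ : ZMod 3 → ℝ) (hφ : ∑ t, φ t = 0) :
    ∑ d : D3 k, φ (lin3 k w d) = 0 := by
  obtain ⟨i, hi⟩ := Function.ne_iff.mp hw
  have h1 : ∀ j : ZMod 3, ∑ d : D3 k, φ (lin3 k w (d + Pi.single i j))
      = ∑ d : D3 k, φ (lin3 k w d) := fun j =>
    Fintype.sum_equiv (Equiv.addRight (Pi.single i j : D3 k)) _ _ fun _ => rfl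
  have h2 : ∑ j : ZMod 3, ∑ d : D3 k, φ (lin3 k w (d + Pi.single i j)) = 0 := by
    rw [sum_comm]
    refine sum_eq_zero fun d _ => ?_
    have hb : ∀ a c : ZMod 3, a ≠ 0 → Function.Bijective fun j : ZMod 3 => c + a * j := by decide
    have h3 := (Equiv.ofBijective _ (hb (w i) (lin3 k w d) hi)).sum_comp φ
    rw [← hφ, ← h3]
    refine sum_congr rfl fun j _ => ?_
    rw [map_add, lin3_single]
    rfl
  rw [sum_congr rfl fun j _ => h1 j, sum_const, card_univ, ZMod.card, nsmul_eq_mul] at h2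
  have h3 : (3 : ℝ) * ∑ d : D3 k, φ (lin3 k w d) = 0 := by exact_mod_cast h2
  linarith

section canon

variable {k : ℕ}

/-- the chosen one of `d` and `-d` -/
noncomputable def can3 (d : D3 k) : D3 k := if lab3 k d ≤ lab3 k (-d) then d else -d

lemma can3_neg (d : D3 k) : can3 (-d) = can3 d := by
  unfold can3
  rw [neg_neg]
  rcases lt_trichotomy (lab3 k d) (lab3 k (-d)) with h | h | h
  · rw [if_neg (not_le.mpr h), if_pos h.le]
  · rw [if_pos h.ge, if_pos h.le]
    exact ((lab3 k).injective h).symm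
  · rw [if_pos h.le, if_neg (not_le.mpr h)]

lemma can3_cases (d : D3 k) : can3 d = d ∨ can3 d = -d := by
  unfold can3
  split_ifs
  · exact Or.inl rfl
  · exact Or.inr rfl

lemma can3_can3 (d : D3 k) : can3 (can3 d) = can3 d := by
  rcases can3_cases d with h | h
  · rw [h, h]
  · conv_lhs => rw [h]
    exact can3_neg d

lemma can3_eq_iff {c b : D3 k} (hb : can3 b = b) : can3 c = b ↔ c = b ∨ c = -b := by
  constructor
  · intro h
    rcases can3_cases c with h1 | h1
    · left
      rw [← h, h1]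
    · right
      rw [← h, h1, neg_neg]
  · rintro (rfl | rfl)
    · exact hb
    · rw [can3_neg, hb]

lemma ne_neg {c : D3 k} (hc : c ≠ 0) : c ≠ -c := by
  intro h
  apply hc
  funext i
  have h1 := congrFun h i
  have h2 : ∀ a : ZMod 3, a = -a → a = 0 := by decide
  exact h2 _ h1

/-- the projection of the labels -/
noncomputable def prj3 (b : D3 k) (a : Fin (3 ^ k)) : Fin (3 ^ k) :=
  lab3 k (can3 ((lab3 k).symm a - b))

lemma prj3_eq_iff (b : D3 k) (a c : Fin (3 ^ k)) :
    prj3 b a = c ↔ can3 ((lab3 k).symm c) = (lab3 k).symm c ∧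
      (a = lab3 k ((lab3 k).symm c + b) ∨ a = lab3 k (-(lab3 k).symm c + b)) := by
  unfold prj3
  rw [← Equiv.eq_symm_apply]
  set c' := (lab3 k).symm c with hc'
  have h1 : ∀ v : D3 k, a = lab3 k (v + b) ↔ (lab3 k).symm a - b = v := by
    intro v
    rw [sub_eq_iff_eq_add, Equiv.symm_apply_eq]
  rw [h1, h1]
  constructor
  · intro h
    have hb : can3 c' = c' := by rw [← h, can3_can3]
    exact ⟨hb, (can3_eq_iff hb).mp h⟩
  · rintro ⟨hb, h⟩
    exact (can3_eq_iff hb).mpr h

lemma fibre3 (b : D3 k) (c : Fin (3 ^ k)) :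
    univ.filter (fun a => prj3 b a = c) = if can3 ((lab3 k).symm c) = (lab3 k).symm c then
      {lab3 k ((lab3 k).symm c + b), lab3 k (-(lab3 k).symm c + b)} else ∅ := by
  ext a
  rw [mem_filter, prj3_eq_iff]
  split_ifs with h
  · rw [mem_insert, mem_singleton]
    simp [h]
  · simp [h]

/-- the sizes of the fibres -/
noncomputable def cnt3 (c : Fin (3 ^ k)) : ℕ :=
  if can3 ((lab3 k).symm c) = (lab3 k).symm c then (if (lab3 k).symm c = 0 then 1 else 2) else 0

lemma lab3_ne (b : D3 k) {c : D3 k} (hc : c ≠ 0) : lab3 k (c + b) ≠ lab3 k (-c + b) := by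
  intro h
  exact ne_neg hc (add_right_cancel ((lab3 k).injective h))

lemma card_fibre3 (b : D3 k) (c : Fin (3 ^ k)) :
    (univ.filter fun a => prj3 b a = c).card = cnt3 c := by
  rw [fibre3]
  unfold cnt3
  split_ifs with h h0
  · rw [h0, neg_zero, pair_eq_singleton, card_singleton]
  · rw [card_pair (lab3_ne b h0)]
  · rfl

lemma card_fibre3_le (b : D3 k) (c : Fin (3 ^ k)) :
    Nat.card {a // prj3 b a = c} ≤ 2 := by
  rw [Nat.card_eq_fintype_card, Fintype.card_subtype, card_fibre3]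
  unfold cnt3
  split_ifs <;> norm_num

end canon

/-- the linear forms in a list -/
noncomputable def ell (k : ℕ) : Fin (3 ^ k) → (D3 k →+ ZMod 3) := fun i => lin3 k ((lab3 k).symm i)

/-- the reflection game -/
noncomputable def rgame (k : ℕ) : Game (3 ^ k) where
  U := X (3 ^ k)
  V := Fin (3 ^ k) → ZMod 3
  E := X (3 ^ k) × D3 k
  finU := inferInstance
  finV := inferInstance
  finE := inferInstance
  neE := ⟨(fun _ => (0, true), 0)⟩
  src := fun e => e.1
  tgt := fun e => fun i => vw (ell k i e.2) (e.1 i)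
  proj := fun e => prj3 e.2
  two_to_one := fun e c => card_fibre3_le e.2 c

theorem rgame_value (k : ℕ) :
    (rgame k).value ≤ 2 * ((3 ^ k : ℕ) : ℝ) ^ (-(1 / 24) : ℝ) := by
  classical
  have hne : Nonempty (((rgame k).U → Fin (3 ^ k)) × ((rgame k).V → Fin (3 ^ k))) := by
    have : Nonempty (Fin (3 ^ k)) := ⟨lab3 k 0⟩
    infer_instance
  refine ciSup_le fun L => ?_
  obtain ⟨LU, LV⟩ := L
  set K : ℝ := ((3 ^ k : ℕ) : ℝ) with hK
  have hKc : (Fintype.card (D3 k) : ℝ) = K := by rw [card_D3]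
  let L' : X (3 ^ k) → D3 k := fun x => (lab3 k).symm (LU x)
  let c : (Fin (3 ^ k) → ZMod 3) → D3 k := fun h => (lab3 k).symm (LV h)
  have hE : (Nat.card (rgame k).E : ℝ) = 6 ^ (3 ^ k) * K := by
    show ((Nat.card (X (3 ^ k) × D3 k) : ℕ) : ℝ) = _
    rw [Nat.card_prod, Nat.card_eq_fintype_card, Nat.card_eq_fintype_card]
    push_cast
    rw [card_X, hKc]
  have hE0 : (0 : ℝ) < (Nat.card (rgame k).E : ℝ) := by exact_mod_cast Nat.card_pos
  show (Nat.card ((rgame k).satisfied LU LV) : ℝ) / (Nat.card (rgame k).E : ℝ) ≤ _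
  rw [div_le_iff₀ hE0, hE]
  set S₁ : Finset (X (3 ^ k) × D3 k) := univ.filter fun p =>
    L' (sh (ell k) (-p.2) p.1) - p.2 = c (pt p.1) with hS₁
  set S₂ : Finset (X (3 ^ k) × D3 k) := univ.filter fun p =>
    L' (sh (ell k) (-p.2) p.1) - p.2 = -c (pt p.1) with hS₂
  have h1 : Nat.card ((rgame k).satisfied LU LV) ≤ (S₁ ∪ S₂).card := by
    have h2 : Nat.card ((rgame k).satisfied LU LV) ≤ Nat.card (S₁ ∪ S₂ : Finset _) := by
      refine Nat.card_le_card_of_injective
        (fun e => ⟨(sh (ell k) e.1.2 e.1.1, e.1.2), ?_⟩) ?_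
      · obtain ⟨⟨x, b⟩, he⟩ := e
        have he' : prj3 b (LU x) = LV (fun i => vw (ell k i b) (x i)) := he
        rw [prj3_eq_iff] at he'
        have e1 : sh (ell k) (-b) (sh (ell k) b x) = x := by
          rw [← sh_add, neg_add_cancel, sh_zero]
        have e2 : pt (sh (ell k) b x) = fun i => vw (ell k i b) (x i) := rfl
        rw [mem_union, hS₁, hS₂, mem_filter, mem_filter]
        show (_ ∧ (lab3 k).symm (LU (sh (ell k) (-b) (sh (ell k) b x))) - b
            = (lab3 k).symm (LV (pt (sh (ell k) b x))))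
          ∨ (_ ∧ (lab3 k).symm (LU (sh (ell k) (-b) (sh (ell k) b x))) - b
            = -(lab3 k).symm (LV (pt (sh (ell k) b x))))
        rw [e1, e2]
        rcases he'.2 with h3 | h3
        · left
          refine ⟨mem_univ _, ?_⟩
          rw [h3, Equiv.symm_apply_apply, add_sub_cancel_right]
        · right
          refine ⟨mem_univ _, ?_⟩
          rw [h3, Equiv.symm_apply_apply, add_sub_cancel_right]
      · rintro ⟨⟨x, b⟩, he⟩ ⟨⟨x', b'⟩, he'⟩ h
        have h3 : (sh (ell k) b x, b) = (sh (ell k) b' x', b') := congrArg Subtype.val h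
        have h4 : b = b' := congrArg Prod.snd h3
        have h5 : sh (ell k) b x = sh (ell k) b' x' := congrArg Prod.fst h3
        subst h4
        have h6 : x = x' := (shE (ell k) b).injective h5
        subst h6
        rfl
    rwa [Nat.card_eq_fintype_card (α := (S₁ ∪ S₂ : Finset _)), Fintype.card_coe] at h2
  have h2 : ((S₁ ∪ S₂).card : ℝ) ≤ (S₁.card : ℝ) + (S₂.card : ℝ) := by
    exact_mod_cast card_union_le S₁ S₂
  have h3 := count3 (ell k) L' c
  have h4 := count3 (ell k) L' (fun h => -c h)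
  rw [hKc] at h3 h4
  have h5 : (Nat.card ((rgame k).satisfied LU LV) : ℝ) ≤ ((S₁ ∪ S₂).card : ℝ) := by
    exact_mod_cast h1
  refine h5.trans (h2.trans ((add_le_add h3 h4).trans (le_of_eq ?_)))
  ring

section vectors

/-- three unit vectors of the plane with sum zero -/
noncomputable def dir (t : ZMod 3) (j : Bool) : ℝ :=
  if t = 0 then (if j then 0 else 1) else
    (if j then (if t = 1 then √3 / 2 else -(√3 / 2)) else -(1 / 2))

/-- the scalar products of the directions -/
noncomputable def chi (u : ZMod 3) : ℝ := if u = 0 then 1 else -(1 / 2)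

lemma zmod3 (t : ZMod 3) : t = 0 ∨ t = 1 ∨ t = 2 := by
  revert t
  decide

lemma dir_zero (j : Bool) : dir 0 j = if j then 0 else 1 := by simp [dir]

lemma dir_one (j : Bool) : dir 1 j = if j then √3 / 2 else -(1 / 2) := by
  have h : (1 : ZMod 3) ≠ 0 := by decide
  simp [dir, h]

lemma dir_two (j : Bool) : dir 2 j = if j then -(√3 / 2) else -(1 / 2) := by
  have h : (2 : ZMod 3) ≠ 0 := by decide
  have h' : (2 : ZMod 3) ≠ 1 := by decide
  simp [dir, h, h']

lemma sum_zmod3 (φ : ZMod 3 → ℝ) : ∑ t, φ t = φ 0 + φ 1 + φ 2 := by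
  exact Fin.sum_univ_three φ

lemma sum_dir (j : Bool) : ∑ t, dir t j = 0 := by
  rw [sum_zmod3, dir_zero, dir_one, dir_two]
  cases j
  · simp
    norm_num
  · simp

lemma sum_chi : ∑ t, chi t = 0 := by
  rw [sum_zmod3]
  have h : (1 : ZMod 3) ≠ 0 := by decide
  have h' : (2 : ZMod 3) ≠ 0 := by decide
  simp only [chi, if_true, if_neg h, if_neg h']
  norm_num

lemma dir_inner (t u : ZMod 3) : ∑ j, dir t j * dir u j = chi (t - u) := by
  have hs : √3 * √3 = (3 : ℝ) := Real.mul_self_sqrt (by norm_num)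
  have c00 : chi (0 - 0) = 1 := by simp [chi]
  have c11 : chi (1 - 1) = 1 := by simp [chi]
  have c22 : chi (2 - 2) = 1 := by simp [chi]
  have hn : ∀ t u : ZMod 3, t ≠ u → chi (t - u) = -(1 / 2) := by
    intro t u h
    unfold chi
    rw [if_neg (sub_ne_zero.mpr h)]
  rw [Fintype.sum_bool]
  rcases zmod3 t with rfl | rfl | rfl <;> rcases zmod3 u with rfl | rfl | rfl <;>
    simp only [dir_zero, dir_one, dir_two, if_true, Bool.false_eq_true, if_false]
  · rw [c00]; norm_num
  · rw [hn 0 1 (by decide)]; norm_num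
  · rw [hn 0 2 (by decide)]; norm_num
  · rw [hn 1 0 (by decide)]; norm_num
  · rw [c11]; nlinarith
  · rw [hn 1 2 (by decide)]; nlinarith
  · rw [hn 2 0 (by decide)]; norm_num
  · rw [hn 2 1 (by decide)]; nlinarith
  · rw [c22]; nlinarith

lemma dir_reflect {u : ZMod 3} (hu : u ≠ 0) (h : ZMod 3) (j : Bool) :
    dir (h + u) j + dir (h - u) j = - dir h j := by
  have h1 := sum_dir j
  have hb : ∀ u h : ZMod 3, u ≠ 0 → Function.Bijective fun t : ZMod 3 => h + u * t := by decide
  have h2 := (Equiv.ofBijective _ (hb u h hu)).sum_comp fun t => dir t j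
  rw [h1] at h2
  have h3 : ∑ t, dir (h + u * t) j = 0 := h2
  rw [sum_zmod3] at h3
  have e0 : h + u * 0 = h := by ring
  have e1 : h + u * 1 = h + u := by ring
  have e2 : h + u * 2 = h - u := by
    have h4 : ∀ u h : ZMod 3, h + u * 2 = h - u := by decide
    exact h4 u h
  rw [e0, e1, e2] at h3
  linarith

variable {k : ℕ}

/-- the block of a vector at a linear form -/
noncomputable def blk (i : Fin (3 ^ k)) (h : ZMod 3) (j : Bool) : ℝ :=
  if (lab3 k).symm i = 0 then (if j then 0 else 1) else dir h j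

/-- the vectors of the vertices of `U` -/
noncomputable def rx (x : X (3 ^ k)) (a : Fin (3 ^ k)) :
    EuclideanSpace ℝ (Fin (3 ^ k) × Bool) :=
  WithLp.toLp 2 fun p => ((3 : ℝ) ^ k)⁻¹ * blk p.1 (vw (ell k p.1 ((lab3 k).symm a)) (x p.1)) p.2

/-- the multiplier of a block -/
noncomputable def mlt (c : D3 k) (i : Fin (3 ^ k)) : ℝ :=
  if c = 0 then 1 else if ell k i c = 0 then 2 else -1

/-- the vectors of the vertices of `V` -/
noncomputable def ry (h : Fin (3 ^ k) → ZMod 3) (c : Fin (3 ^ k)) :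
    EuclideanSpace ℝ (Fin (3 ^ k) × Bool) :=
  WithLp.toLp 2 fun p => if can3 ((lab3 k).symm c) = (lab3 k).symm c then
    ((3 : ℝ) ^ k)⁻¹ * (mlt ((lab3 k).symm c) p.1 * blk p.1 (h p.1) p.2) else 0

lemma vw_add (t u : ZMod 3) (y : Y) : vw (t + u) y = vw t y + sg y.2 * u := by
  unfold vw
  ring

lemma vw_sub_vw (t u : ZMod 3) (y : Y) : vw t y - vw u y = sg y.2 * (t - u) := by
  unfold vw
  ring

lemma chi_sg (b : Bool) (u : ZMod 3) : chi (sg b * u) = chi u := by
  have h : ∀ (b : Bool) (u : ZMod 3), sg b * u = 0 ↔ u = 0 := by decide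
  unfold chi
  by_cases h0 : u = 0
  · rw [if_pos h0, if_pos ((h b u).mpr h0)]
  · rw [if_neg h0, if_neg fun h1 => h0 ((h b u).mp h1)]

lemma blk_inner (i : Fin (3 ^ k)) (y : Y) (a a' : D3 k) :
    ∑ j, blk i (vw (ell k i a) y) j * blk i (vw (ell k i a') y) j = chi (ell k i (a - a')) := by
  unfold blk
  by_cases h : (lab3 k).symm i = 0
  · simp only [if_pos h]
    rw [Fintype.sum_bool]
    have e : ell k i (a - a') = 0 := by
      show lin3 k ((lab3 k).symm i) (a - a') = 0
      rw [h, lin3_zero_left]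
    rw [e]
    simp [chi]
  · simp only [if_neg h]
    rw [dir_inner, vw_sub_vw, chi_sg, map_sub]

lemma rx_inner (x : X (3 ^ k)) {a a' : Fin (3 ^ k)} (h : a ≠ a') :
    inner ℝ (rx x a) (rx x a') = (0 : ℝ) := by
  rw [PiLp.inner_apply, Fintype.sum_prod_type]
  have h1 : ∀ i : Fin (3 ^ k), ∑ j : Bool, inner ℝ ((rx x a) (i, j)) ((rx x a') (i, j))
      = ((3 : ℝ) ^ k)⁻¹ * ((3 : ℝ) ^ k)⁻¹
        * chi (ell k i ((lab3 k).symm a - (lab3 k).symm a')) := by
    intro i
    rw [← blk_inner i (x i), mul_sum]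
    refine sum_congr rfl fun j _ => ?_
    rw [RCLike.inner_apply, conj_trivial]
    show ((3 : ℝ) ^ k)⁻¹ * blk i (vw (ell k i ((lab3 k).symm a')) (x i)) j
      * (((3 : ℝ) ^ k)⁻¹ * blk i (vw (ell k i ((lab3 k).symm a)) (x i)) j) = _
    ring
  rw [sum_congr rfl fun i _ => h1 i, ← mul_sum]
  have h2 : ∑ i : Fin (3 ^ k), chi (ell k i ((lab3 k).symm a - (lab3 k).symm a')) = 0 := by
    have hd : (lab3 k).symm a - (lab3 k).symm a' ≠ 0 := by
      intro h3
      exact h ((lab3 k).symm.injective (sub_eq_zero.mp h3))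
    rw [← sum_lin3 hd chi sum_chi]
    refine Fintype.sum_equiv (lab3 k).symm _ _ fun i => ?_
    show chi (lin3 k ((lab3 k).symm i) _) = _
    rw [lin3_comm]
  rw [h2, mul_zero]

lemma sum_rx (x : X (3 ^ k)) :
    ∑ a, rx x a = EuclideanSpace.single (lab3 k 0, false) (1 : ℝ) := by
  ext ⟨i, j⟩
  have h1 : (∑ a, rx x a) (i, j) = ∑ a, rx x a (i, j) := by
    simp only [WithLp.ofLp_sum, Finset.sum_apply]
  rw [h1]
  show ∑ a : Fin (3 ^ k), ((3 : ℝ) ^ k)⁻¹ * blk i (vw (ell k i ((lab3 k).symm a)) (x i)) j = _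
  rw [← mul_sum, PiLp.single_apply]
  have h2 : ∑ a : Fin (3 ^ k), blk i (vw (ell k i ((lab3 k).symm a)) (x i)) j
      = ∑ d : D3 k, blk i (vw (ell k i d) (x i)) j :=
    Fintype.sum_equiv (lab3 k).symm _ _ fun _ => rfl
  rw [h2]
  unfold blk
  by_cases h : (lab3 k).symm i = 0
  · simp only [if_pos h]
    rw [sum_const, card_univ, card_D3, nsmul_eq_mul]
    have hi : i = lab3 k 0 := by rw [← h, Equiv.apply_symm_apply]
    subst hi
    push_cast
    rw [← mul_assoc, inv_mul_cancel₀ (by positivity), one_mul]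
    cases j <;> simp
  · simp only [if_neg h]
    have h3 : ∑ d : D3 k, dir (vw (ell k i d) (x i)) j = 0 := by
      refine sum_lin3 h (fun t => dir (vw t (x i)) j) ?_
      have hb : ∀ y : Y, Function.Bijective fun t : ZMod 3 => vw t y := by decide
      exact ((Equiv.ofBijective _ (hb (x i))).sum_comp fun t => dir t j).trans (sum_dir j)
    rw [h3, mul_zero, if_neg]
    intro h4
    apply h
    rw [(Prod.mk.injEq _ _ _ _ ▸ h4 : i = lab3 k 0 ∧ j = false).1, Equiv.symm_apply_apply]

lemma rx_ne (x : X (3 ^ k)) (a : Fin (3 ^ k)) : rx x a ≠ 0 := by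
  intro h
  have h1 : rx x a (lab3 k 0, false) = 0 := by rw [h]; rfl
  have h2 : rx x a (lab3 k 0, false) = ((3 : ℝ) ^ k)⁻¹ := by
    show ((3 : ℝ) ^ k)⁻¹ * blk (lab3 k 0) _ false = _
    unfold blk
    rw [if_pos (Equiv.symm_apply_apply _ _)]
    simp
  rw [h2] at h1
  have : (0 : ℝ) < ((3 : ℝ) ^ k)⁻¹ := by positivity
  linarith

lemma ry_eq (x : X (3 ^ k)) (b : D3 k) (c : Fin (3 ^ k)) :
    ∑ a ∈ univ.filter (fun a => prj3 b a = c), rx x a
      = ry (fun i => vw (ell k i b) (x i)) c := by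
  rw [fibre3]
  by_cases hc : can3 ((lab3 k).symm c) = (lab3 k).symm c
  · rw [if_pos hc]
    by_cases h0 : (lab3 k).symm c = 0
    · rw [h0, neg_zero, pair_eq_singleton, sum_singleton]
      ext ⟨i, j⟩
      show ((3 : ℝ) ^ k)⁻¹ * blk i (vw (ell k i ((lab3 k).symm (lab3 k (0 + b)))) (x i)) j
        = if can3 ((lab3 k).symm c) = (lab3 k).symm c then
          ((3 : ℝ) ^ k)⁻¹ * (mlt ((lab3 k).symm c) i * blk i (vw (ell k i b) (x i)) j) else 0
      rw [if_pos hc, Equiv.symm_apply_apply, zero_add, h0]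
      unfold mlt
      rw [if_pos rfl, one_mul]
    · rw [sum_pair (lab3_ne b h0)]
      ext ⟨i, j⟩
      set c' := (lab3 k).symm c with hc'
      show ((3 : ℝ) ^ k)⁻¹ * blk i (vw (ell k i ((lab3 k).symm (lab3 k (c' + b)))) (x i)) j
        + ((3 : ℝ) ^ k)⁻¹ * blk i (vw (ell k i ((lab3 k).symm (lab3 k (-c' + b)))) (x i)) j
        = if can3 c' = c' then
          ((3 : ℝ) ^ k)⁻¹ * (mlt c' i * blk i (vw (ell k i b) (x i)) j) else 0
      rw [if_pos hc, Equiv.symm_apply_apply, Equiv.symm_apply_apply, ← mul_add]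
      congr 1
      unfold mlt
      rw [if_neg h0]
      have e1 : vw (ell k i (c' + b)) (x i) = vw (ell k i b) (x i) + sg (x i).2 * ell k i c' := by
        rw [map_add, add_comm, vw_add]
      have e2 : vw (ell k i (-c' + b)) (x i)
          = vw (ell k i b) (x i) - sg (x i).2 * ell k i c' := by
        rw [map_add, map_neg, add_comm, vw_add]
        ring
      rw [e1, e2]
      by_cases hz : ell k i c' = 0
      · rw [if_pos hz, hz, mul_zero, add_zero, sub_zero]
        ring
      · rw [if_neg hz]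
        unfold blk
        have hi : (lab3 k).symm i ≠ 0 := by
          intro h1
          apply hz
          show lin3 k ((lab3 k).symm i) c' = 0
          rw [h1, lin3_zero_left]
        rw [if_neg hi, if_neg hi, if_neg hi]
        have hs : sg (x i).2 * ell k i c' ≠ 0 := by
          have h : ∀ (b : Bool) (u : ZMod 3), sg b * u = 0 → u = 0 := by decide
          exact fun h1 => hz (h _ _ h1)
        rw [dir_reflect hs]
        ring
  · rw [if_neg hc, sum_empty]
    ext ⟨i, j⟩
    show (0 : ℝ) = if can3 ((lab3 k).symm c) = (lab3 k).symm c then _ else 0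
    rw [if_neg hc]

end vectors

/-- the perfect semidefinite solution of the reflection game -/
noncomputable def rperf (k : ℕ) : Perf (rgame k) (EuclideanSpace ℝ (Fin (3 ^ k) × Bool)) where
  x₀ := EuclideanSpace.single (lab3 k 0, false) (1 : ℝ)
  x := fun u a => rx u a
  y := fun v c => ry v c
  cnt := fun _ c => cnt3 c
  norm_x₀ := by simp
  sum_x := fun u => sum_rx u
  orth := fun u a a' h => rx_inner u h
  ne := fun u a => rx_ne u a
  surj := by
    intro h
    refine ⟨(fun i => (h i, false), 0), ?_⟩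
    funext i
    show vw (ell k i 0) (h i, false) = h i
    rw [map_zero]
    unfold vw
    rw [mul_zero, add_zero]
  marg := fun e c => ry_eq e.1 e.2 c
  card := fun e c => card_fibre3 e.2 c

end Pool.Agent.MP_ec946a.SDA
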