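import Mathlib
import Pool.Agent.Lib.MP_ec946a_sda.RGame
import Pool.Agent.Lib.MP_ec946a_sda.Sum
import Pool.Agent.Lib.MP_ec946a_sdp.HMain

/-!
# The gap of the combined relaxation
-/

set_option autoImplicit false
set_option linter.unusedSectionVars false

namespace Pool.Agent.MP_ec946a.SDA

open Finset Pool.Agent.MP_ec946a.SDP

lemma vecU_ne {k : ℕ} (z : XX k) (a : Fin (2 ^ k)) : vecU z a ≠ 0 := by
  intro h
  have h1 : vecU z a (lab k 0) = 0 := by rw [h]; rfl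
  have h2 : vecU z a (lab k 0) = (2 ^ k : ℝ)⁻¹ * sgn (z 0 + z ((lab k).symm (lab k 0))
    + SDP.lin k ((lab k).symm (lab k 0)) ((lab k).symm a)) := rfl
  rw [h2] at h1
  have h3 : (0 : ℝ) < (2 ^ k : ℝ)⁻¹ := by positivity
  rcases mul_eq_zero.mp h1 with h4 | h4
  · exact h3.ne' h4
  · rcases sgn_eq (z 0 + z ((lab k).symm (lab k 0))
      + SDP.lin k ((lab k).symm (lab k 0)) ((lab k).symm a)) with h5 | h5 <;>
      rw [h5] at h4 <;> norm_num at h4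

/-- the perfect semidefinite solution of the hyperplane game -/
noncomputable def hperf (k : ℕ) (hk : 1 ≤ k) :
    Perf (hgame k hk) (EuclideanSpace ℝ (Fin (2 ^ k))) where
  x₀ := vec0 k
  x := fun u a => vecU u.out a
  y := fun v b => vecV v.1 v.2.out b
  cnt := fun v b => if ((lab k).symm b) (i0 v.1) = 0 then 2 else 0
  norm_x₀ := norm_vec0
  sum_x := fun u => sum_vecU _
  orth := fun u a a' h => inner_vecU _ h
  ne := fun u a => vecU_ne _ _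
  surj := by
    rintro ⟨γ, c⟩
    refine ⟨(c.out, γ), ?_⟩
    show (⟨γ, Quotient.mk _ c.out⟩ : Σ γ : NZ k, Quotient (relV k γ.1)) = ⟨γ, c⟩
    rw [Quotient.out_eq]
  marg := by
    rintro ⟨x, γ⟩ b
    exact (vecV_eq x γ b).symm
  card := by
    rintro ⟨x, γ⟩ b
    show (univ.filter fun a => prj x γ a = b).card = if ((lab k).symm b) (i0 γ) = 0 then 2 else 0
    rw [fibre_eq]
    split_ifs
    · exact card_pair (lab_ne x γ b)
    · rfl

lemma exists_bezout (k : ℕ) : ∃ s t : ℤ,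
    (((2 ^ (2 * k) : ℕ)) : ℤ) * s + (((3 ^ k : ℕ)) : ℤ) * t = 1 := by
  have h : IsCoprime ((2 : ℤ) ^ (2 * k)) ((3 : ℤ) ^ k) := by
    apply IsCoprime.pow
    exact ⟨-1, 1, by norm_num⟩
  obtain ⟨s, t, hst⟩ := h
  refine ⟨s, t, ?_⟩
  push_cast
  linarith

/-- the numerical estimate -/
lemma final_bound (k : ℕ) :
    √2 * ((2 ^ (2 * k) : ℕ) : ℝ) ^ (-(1 / 8) : ℝ) + 2 * ((3 ^ k : ℕ) : ℝ) ^ (-(1 / 24) : ℝ)
      ≤ 4 * ((2 ^ (2 * k) + 3 ^ k : ℕ) : ℝ) ^ (-(1 / 32) : ℝ) := by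
  set F : ℝ := ((2 ^ (2 * k) : ℕ) : ℝ) with hF
  have hF1 : (1 : ℝ) ≤ F := by
    rw [hF]
    exact_mod_cast Nat.one_le_two_pow
  have hF0 : 0 < F := by linarith
  -- the first summand
  have h1 : F ^ (-(1 / 8) : ℝ) ≤ F ^ (-(1 / 32) : ℝ) :=
    Real.rpow_le_rpow_of_exponent_le hF1 (by norm_num)
  -- the second summand
  have h2 : ((3 ^ k : ℕ) : ℝ) ^ (-(1 / 24) : ℝ) ≤ F ^ (-(1 / 32) : ℝ) := by
    have e1 : F ^ (-(1 / 32) : ℝ) = (F ^ (3 / 4 : ℝ)) ^ (-(1 / 24) : ℝ) := by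
      rw [← Real.rpow_mul hF0.le]
      norm_num
    rw [e1]
    refine Real.rpow_le_rpow_of_nonpos (by positivity) ?_ (by norm_num)
    have e2 : F ^ (3 / 4 : ℝ) = ((4 : ℝ) ^ (3 / 4 : ℝ)) ^ k := by
      rw [hF, ← Real.rpow_natCast, ← Real.rpow_mul (by norm_num)]
      push_cast
      rw [pow_mul, ← Real.rpow_natCast, ← Real.rpow_mul (by norm_num)]
      norm_num
      ring_nf
    rw [e2]
    push_cast
    refine pow_le_pow_left₀ (by positivity) ?_ k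
    have h3 : ((4 : ℝ) ^ (3 / 4 : ℝ)) ^ 4 ≤ 3 ^ 4 := by
      rw [← Real.rpow_natCast, ← Real.rpow_mul (by norm_num)]
      norm_num
    exact (pow_le_pow_iff_left₀ (by positivity) (by norm_num) (by norm_num)).mp h3
  -- the alphabet
  have h3 : F ^ (-(1 / 32) : ℝ) ≤ (8 / 7) * ((2 ^ (2 * k) + 3 ^ k : ℕ) : ℝ) ^ (-(1 / 32) : ℝ) := by
    have hq : ((2 ^ (2 * k) + 3 ^ k : ℕ) : ℝ) ≤ 2 * F := by
      have h4 : (3 : ℝ) ^ k ≤ 4 ^ k := pow_le_pow_left₀ (by norm_num) (by norm_num) k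
      rw [hF]
      push_cast
      rw [pow_mul]
      norm_num
      linarith
    have hq0 : (0 : ℝ) < ((2 ^ (2 * k) + 3 ^ k : ℕ) : ℝ) := by
      push_cast
      positivity
    have h4 : (2 * F) ^ (-(1 / 32) : ℝ) ≤ ((2 ^ (2 * k) + 3 ^ k : ℕ) : ℝ) ^ (-(1 / 32) : ℝ) :=
      Real.rpow_le_rpow_of_nonpos hq0 hq (by norm_num)
    rw [Real.mul_rpow (by norm_num) hF0.le] at h4
    have h5 : (7 / 8 : ℝ) ≤ (2 : ℝ) ^ (-(1 / 32) : ℝ) := by
      rw [Real.rpow_neg (by norm_num)]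
      have h6 : (2 : ℝ) ^ (1 / 32 : ℝ) ≤ 8 / 7 := by
        have h7 : ((2 : ℝ) ^ (1 / 32 : ℝ)) ^ 32 ≤ (8 / 7) ^ 32 := by
          rw [← Real.rpow_natCast, ← Real.rpow_mul (by norm_num)]
          norm_num
        exact (pow_le_pow_iff_left₀ (by positivity) (by norm_num) (by norm_num)).mp h7
      rw [le_inv_comm₀ (by norm_num) (by positivity)]
      linarith
    have h6 : (7 / 8 : ℝ) * F ^ (-(1 / 32) : ℝ) ≤ (2 : ℝ) ^ (-(1 / 32) : ℝ) * F ^ (-(1 / 32) : ℝ) :=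
      mul_le_mul_of_nonneg_right h5 (by positivity)
    linarith
  have h4 : √2 ≤ 3 / 2 := by
    rw [Real.sqrt_le_left (by norm_num)]
    norm_num
  have h5 : √2 * F ^ (-(1 / 8) : ℝ) ≤ (3 / 2) * F ^ (-(1 / 32) : ℝ) :=
    mul_le_mul h4 h1 (by positivity) (by norm_num)
  have h6 : (0 : ℝ) ≤ F ^ (-(1 / 32) : ℝ) := by positivity
  linarith

theorem sda_gap (k : ℕ) (hk : 1 ≤ k) : ∃ G : Game (2 ^ (2 * k) + 3 ^ k),
    (∃ n, Nonempty (G.SDASolution n)) ∧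
    G.value ≤ 4 * ((2 ^ (2 * k) + 3 ^ k : ℕ) : ℝ) ^ (-(1 / 32) : ℝ) := by
  have hk2 : 1 ≤ 2 * k := by omega
  obtain ⟨s, t, hst⟩ := exists_bezout k
  refine ⟨(hgame (2 * k) hk2).sum (rgame k), ?_, ?_⟩
  · exact sum_sda (hperf (2 * k) hk2) (rperf k) hst
  · have h1 : NeZero (2 ^ (2 * k)) := ⟨by positivity⟩
    have h2 : NeZero (3 ^ k) := ⟨by positivity⟩
    refine (value_sum (hgame (2 * k) hk2) (rgame k)).trans ?_
    refine (add_le_add (hgame_value (2 * k) hk2) (rgame_value k)).trans ?_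
    exact final_bound k

end Pool.Agent.MP_ec946a.SDA
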