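import Mathlib
import Pool.Agent.Lib.MP_ec946a_sda.Main3

/-!
# Exactly 2-to-1 games

Every game can be turned into one whose fibres have zero or two elements: every label is doubled;
the two copies of a label which is alone in its fibre are projected to the same label, all other
copies are projected separately.
-/

set_option autoImplicit false

namespace Pool.Agent.MP_ec946a

open Finset

section maps

variable {m : ℕ} (f : Fin m → Fin m)

/-- the label `a` is alone in its fibre -/
def Alone (a : Fin m) : Prop := ∀ a', f a' = f a → a' = a

open Classical in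
/-- the projection of the doubled labels -/
noncomputable def dblMap (s : Fin m × Fin 2) : Fin m × Fin 2 :=
  if Alone f s.1 then (f s.1, 0) else (f s.1, s.2)

lemma dblMap_fst (s : Fin m × Fin 2) : (dblMap f s).1 = f s.1 := by
  unfold dblMap
  split_ifs <;> rfl

lemma dblMap_zero (a : Fin m) : dblMap f (a, 0) = (f a, 0) := by
  unfold dblMap
  split_ifs <;> rfl

/-- the number of elements of the fibre of the doubled map -/
lemma card_dbl (hf : ∀ b, (univ.filter fun a => f a = b).card ≤ 2) (t : Fin m × Fin 2) :
    (univ.filter fun s => dblMap f s = t).card = 0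
      ∨ (univ.filter fun s => dblMap f s = t).card = 2 := by
  classical
  obtain ⟨b, j⟩ := t
  rcases (Nat.le_succ_iff.mp (hf b)) with h1 | h2
  · rcases (Nat.le_one_iff_eq_zero_or_eq_one.mp h1) with h0 | h1
    · -- empty fibre
      left
      rw [card_eq_zero, filter_eq_empty_iff] at h0 ⊢
      intro s _ hs
      exact h0 (mem_univ s.1) (by rw [← dblMap_fst f s, hs])
    · -- singleton fibre
      obtain ⟨a, ha⟩ := card_eq_one.mp h1
      have hfa : f a = b := by
        have : a ∈ univ.filter fun a => f a = b := by rw [ha]; exact mem_singleton_self a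
        exact (mem_filter.mp this).2
      have hal : Alone f a := by
        intro a' h
        have : a' ∈ univ.filter fun a => f a = b := mem_filter.mpr ⟨mem_univ _, h.trans hfa⟩
        rw [ha] at this
        exact mem_singleton.mp this
      by_cases hj : j = 0
      · right
        have : (univ.filter fun s => dblMap f s = (b, j)) = {(a, 0), (a, 1)} := by
          ext ⟨c, i⟩
          rw [mem_filter, mem_insert, mem_singleton]
          constructor
          · rintro ⟨-, h⟩
            have h3 : f c = b := by rw [← dblMap_fst f (c, i), h]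
            have h4 : c = a := hal c (h3.trans hfa.symm)
            subst h4
            fin_cases i
            · exact Or.inl rfl
            · exact Or.inr rfl
          · rintro (h | h)
            · rw [Prod.mk.injEq] at h
              obtain ⟨rfl, rfl⟩ := h
              refine ⟨mem_univ _, ?_⟩
              unfold dblMap
              rw [if_pos hal, hfa, hj]
            · rw [Prod.mk.injEq] at h
              obtain ⟨rfl, rfl⟩ := h
              refine ⟨mem_univ _, ?_⟩
              unfold dblMap
              rw [if_pos hal, hfa, hj]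
        rw [this]
        exact card_pair (by simp)
      · left
        rw [card_eq_zero, filter_eq_empty_iff]
        rintro ⟨c, i⟩ _ h
        have h3 : f c = b := by rw [← dblMap_fst f (c, i), h]
        have h4 : c = a := hal c (h3.trans hfa.symm)
        subst h4
        unfold dblMap at h
        rw [if_pos hal, Prod.mk.injEq] at h
        exact hj h.2.symm
  · -- two elements
    right
    refine Eq.trans ?_ h2
    refine card_nbij' (fun s => s.1) (fun a => (a, j)) ?_ ?_ ?_ ?_
    · intro s hs
      simp only [coe_filter, mem_univ, true_and, Set.mem_ofPred_eq] at hs ⊢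
      rw [← dblMap_fst f s, hs]
    · intro a ha
      simp only [coe_filter, mem_univ, true_and, Set.mem_ofPred_eq] at ha ⊢
      have hna : ¬ Alone f a := by
        intro hal
        have : (univ.filter fun a => f a = b) ⊆ {a} := by
          intro a' ha'
          rw [mem_singleton]
          exact hal a' ((mem_filter.mp ha').2.trans ha.symm)
        have := card_le_card this
        rw [card_singleton] at this
        omega
      unfold dblMap
      rw [if_neg hna, ha]
    · rintro ⟨a, i⟩ hs
      simp only [coe_filter, mem_univ, true_and, Set.mem_ofPred_eq] at hs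
      have h3 : f a = b := by rw [← dblMap_fst f (a, i), hs]
      have hna : ¬ Alone f a := by
        intro hal
        have : (univ.filter fun a => f a = b) ⊆ {a} := by
          intro a' ha'
          rw [mem_singleton]
          exact hal a' ((mem_filter.mp ha').2.trans h3.symm)
        have := card_le_card this
        rw [card_singleton] at this
        omega
      unfold dblMap at hs
      rw [if_neg hna, Prod.mk.injEq] at hs
      rw [Prod.mk.injEq]
      exact ⟨rfl, hs.2.symm⟩
    · intro a _
      rfl

/-- the doubled map on the labels -/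
noncomputable def dbl (a : Fin (m * 2)) : Fin (m * 2) :=
  finProdFinEquiv (dblMap f (finProdFinEquiv.symm a))

/-- sums over the fibres of the doubled map of functions which vanish on the second copies -/
lemma sum_dbl {M : Type} [AddCommMonoid M] (φ : Fin m → M) (t : Fin m × Fin 2) :
    ∑ a ∈ univ.filter (fun a => dbl f a = finProdFinEquiv t),
      (if (finProdFinEquiv.symm a).2 = 0 then φ (finProdFinEquiv.symm a).1 else 0)
      = if t.2 = 0 then ∑ a ∈ univ.filter (fun a => f a = t.1), φ a else 0 := by
  rw [sum_filter, ← Equiv.sum_comp finProdFinEquiv, Fintype.sum_prod_type_right,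
    Fin.sum_univ_two]
  have h1 : ∑ x : Fin m, (if dbl f (finProdFinEquiv (x, (1 : Fin 2))) = finProdFinEquiv t then
      (if (finProdFinEquiv.symm (finProdFinEquiv (x, (1 : Fin 2)))).2 = 0 then
        φ (finProdFinEquiv.symm (finProdFinEquiv (x, (1 : Fin 2)))).1 else 0) else 0) = 0 := by
    refine sum_eq_zero fun x _ => ?_
    rw [Equiv.symm_apply_apply]
    simp
  rw [h1, add_zero]
  have h2 : ∀ x : Fin m, dbl f (finProdFinEquiv (x, (0 : Fin 2))) = finProdFinEquiv t
      ↔ f x = t.1 ∧ t.2 = 0 := by
    intro x
    unfold dbl
    rw [Equiv.symm_apply_apply, dblMap_zero, EmbeddingLike.apply_eq_iff_eq]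
    obtain ⟨b, j⟩ := t
    rw [Prod.mk.injEq]
    exact ⟨fun h => ⟨h.1, h.2.symm⟩, fun h => ⟨h.1, h.2.symm⟩⟩
  split_ifs with ht
  · rw [sum_filter]
    refine sum_congr rfl fun x _ => ?_
    rw [Equiv.symm_apply_apply]
    by_cases h : f x = t.1
    · rw [if_pos ((h2 x).mpr ⟨h, ht⟩), if_pos h]
      simp
    · rw [if_neg fun h3 => h ((h2 x).mp h3).1, if_neg h]
  · refine sum_eq_zero fun x _ => ?_
    rw [if_neg fun h3 => ht ((h2 x).mp h3).2]

lemma card_dbl_fibre (hf : ∀ b, (univ.filter fun a => f a = b).card ≤ 2) (b : Fin (m * 2)) :
    Nat.card {a // dbl f a = b} = 0 ∨ Nat.card {a // dbl f a = b} = 2 := by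
  have h1 : (univ.filter fun a => dbl f a = b).card
      = (univ.filter fun s => dblMap f s = finProdFinEquiv.symm b).card := by
    refine card_nbij' (fun a => finProdFinEquiv.symm a) (fun s => finProdFinEquiv s) ?_ ?_ ?_ ?_
    · intro a ha
      simp only [coe_filter, mem_univ, true_and, Set.mem_ofPred_eq] at ha ⊢
      rw [← ha]
      unfold dbl
      rw [Equiv.symm_apply_apply]
    · intro s hs
      simp only [coe_filter, mem_univ, true_and, Set.mem_ofPred_eq] at hs ⊢
      unfold dbl
      rw [Equiv.symm_apply_apply, hs, Equiv.apply_symm_apply]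
    · intro a _
      exact Equiv.apply_symm_apply _ _
    · intro s _
      exact Equiv.symm_apply_apply _ _
  rw [natcard_fibre, h1]
  exact card_dbl f hf _

end maps

/-- The game with doubled labels. -/
noncomputable def Game.double {m : ℕ} (G : Game m) : Game (m * 2) where
  U := G.U
  V := G.V
  E := G.E
  src := G.src
  tgt := G.tgt
  proj := fun e => dbl (G.proj e)
  two_to_one := by
    intro e b
    rcases card_dbl_fibre (G.proj e) (fun b => by
      rw [← natcard_fibre]; exact G.two_to_one e b) b with h | h
    · rw [h]
      norm_num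
    · rw [h]

namespace SDA

lemma double_exact {m : ℕ} (G : Game m) (e : G.E) (b : Fin (m * 2)) :
    Nat.card {a // G.double.proj e a = b} = 0 ∨ Nat.card {a // G.double.proj e a = b} = 2 :=
  card_dbl_fibre (G.proj e) (fun b => by rw [← natcard_fibre]; exact G.two_to_one e b) b

theorem value_double {m : ℕ} [NeZero m] (G : Game m) : G.double.value ≤ G.value := by
  have hne : Nonempty ((G.double.U → Fin (m * 2)) × (G.double.V → Fin (m * 2))) := by
    have : Nonempty (Fin (m * 2)) := ⟨finProdFinEquiv (0, 0)⟩
    infer_instance
  refine ciSup_le fun L => ?_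
  obtain ⟨LU, LV⟩ := L
  have hG : (0 : ℝ) < (Nat.card G.E : ℝ) := by exact_mod_cast Nat.card_pos
  show (Nat.card (G.double.satisfied LU LV) : ℝ) / (Nat.card G.E : ℝ) ≤ _
  rw [div_le_iff₀ hG]
  refine le_trans ?_ (sat_le G (fun u => (finProdFinEquiv.symm (LU u)).1)
    (fun v => (finProdFinEquiv.symm (LV v)).1))
  have hsub : G.double.satisfied LU LV ⊆ G.satisfied (fun u => (finProdFinEquiv.symm (LU u)).1)
      (fun v => (finProdFinEquiv.symm (LV v)).1) := by
    intro e he
    have he' : dbl (G.proj e) (LU (G.src e)) = LV (G.tgt e) := he
    show G.proj e (finProdFinEquiv.symm (LU (G.src e))).1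
      = (finProdFinEquiv.symm (LV (G.tgt e))).1
    rw [← he']
    unfold dbl
    rw [Equiv.symm_apply_apply, dblMap_fst]
  exact_mod_cast Nat.card_le_card_of_injective (Set.inclusion hsub)
    (Set.inclusion_injective hsub)

/-- the combined solution of the doubled game -/
noncomputable def doubleSDA {m n : ℕ} {G : Game m} (σ : G.SDASolution n) :
    G.double.SDASolution n where
  x₀ := σ.x₀
  x := fun u a => if (finProdFinEquiv.symm a).2 = 0 then σ.x u (finProdFinEquiv.symm a).1 else 0
  y := fun v b => if (finProdFinEquiv.symm b).2 = 0 then σ.y v (finProdFinEquiv.symm b).1 else 0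
  norm_x₀ := σ.norm_x₀
  sum_x := by
    intro u
    rw [← σ.sum_x u, ← Equiv.sum_comp finProdFinEquiv, Fintype.sum_prod_type_right,
      Fin.sum_univ_two]
    simp only [Equiv.symm_apply_apply]
    simp
  sum_y := by
    intro v
    rw [← σ.sum_y v, ← Equiv.sum_comp finProdFinEquiv, Fintype.sum_prod_type_right,
      Fin.sum_univ_two]
    simp only [Equiv.symm_apply_apply]
    simp
  orth_x := by
    intro u a a' h
    by_cases h1 : (finProdFinEquiv.symm a).2 = 0
    · by_cases h2 : (finProdFinEquiv.symm a').2 = 0
      · simp only [if_pos h1, if_pos h2]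
        refine σ.orth_x _ _ _ fun h3 => h ?_
        exact finProdFinEquiv.symm.injective (Prod.ext h3 (h1.trans h2.symm))
      · simp only [if_neg h2, inner_zero_right]
    · simp only [if_neg h1, inner_zero_left]
  orth_y := by
    intro v b b' h
    by_cases h1 : (finProdFinEquiv.symm b).2 = 0
    · by_cases h2 : (finProdFinEquiv.symm b').2 = 0
      · simp only [if_pos h1, if_pos h2]
        refine σ.orth_y _ _ _ fun h3 => h ?_
        exact finProdFinEquiv.symm.injective (Prod.ext h3 (h1.trans h2.symm))
      · simp only [if_neg h2, inner_zero_right]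
    · simp only [if_neg h1, inner_zero_left]
  nonneg := by
    intro e a b
    by_cases h1 : (finProdFinEquiv.symm a).2 = 0
    · by_cases h2 : (finProdFinEquiv.symm b).2 = 0
      · simp only [if_pos h1, if_pos h2]
        exact σ.nonneg e _ _
      · simp only [if_neg h2, inner_zero_right]
        exact le_refl _
    · simp only [if_neg h1, inner_zero_left]
      exact le_refl _
  marg := by
    intro e b
    obtain ⟨t, rfl⟩ := finProdFinEquiv.surjective b
    rw [Equiv.symm_apply_apply]
    have h := sum_dbl (G.proj e) (fun a => σ.x (G.src e) a) t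
    rw [σ.marg e t.1] at h
    exact h
  ξ := fun u a => if (finProdFinEquiv.symm a).2 = 0 then σ.ξ u (finProdFinEquiv.symm a).1 else 0
  η := fun v b => if (finProdFinEquiv.symm b).2 = 0 then σ.η v (finProdFinEquiv.symm b).1 else 0
  sum_ξ := by
    intro u
    rw [← σ.sum_ξ u, ← Equiv.sum_comp finProdFinEquiv, Fintype.sum_prod_type_right,
      Fin.sum_univ_two]
    simp only [Equiv.symm_apply_apply]
    simp
  sum_η := by
    intro v
    rw [← σ.sum_η v, ← Equiv.sum_comp finProdFinEquiv, Fintype.sum_prod_type_right,
      Fin.sum_univ_two]
    simp only [Equiv.symm_apply_apply]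
    simp
  marg_int := by
    intro e b
    obtain ⟨t, rfl⟩ := finProdFinEquiv.surjective b
    rw [Equiv.symm_apply_apply]
    have h := sum_dbl (G.proj e) (fun a => σ.ξ (G.src e) a) t
    rw [σ.marg_int e t.1] at h
    exact h
  supp_ξ := by
    intro u a h
    by_cases h1 : (finProdFinEquiv.symm a).2 = 0
    · simp only [if_pos h1] at h ⊢
      exact σ.supp_ξ _ _ h
    · simp only [if_neg h1] at h
      exact absurd rfl h
  supp_η := by
    intro v b h
    by_cases h1 : (finProdFinEquiv.symm b).2 = 0
    · simp only [if_pos h1] at h ⊢
      exact σ.supp_η _ _ h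
    · simp only [if_neg h1] at h
      exact absurd rfl h

end SDA

end Pool.Agent.MP_ec946a
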