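import Mathlib
import Pool.Agent.Lib.MP_ec946a_sda.Alg
import Pool.Agent.Lib.MP_ec946a_sda.Double

/-!
# Expansion of sums of games
-/

set_option autoImplicit false

namespace Pool.Agent.MP_ec946a

open Finset

/-- the form of expansion which is used for the examples -/
def Game.Exp2 {q : ℕ} (G : Game q) (σ : ℝ) : Prop :=
  ∀ (f : G.U → ℝ) (g : G.V → ℝ), ∑ e, f (G.src e) = 0 →
    2 * ∑ e, f (G.src e) * g (G.tgt e)
      ≤ σ * (∑ e, f (G.src e) ^ 2 + ∑ e, g (G.tgt e) ^ 2)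

namespace SDA

lemma exp2_expands {q : ℕ} {G : Game q} {σ : ℝ} (h : G.Exp2 σ) : G.Expands 1 σ := by
  refine ⟨fun _ _ => 1, fun f g hf => ?_⟩
  have hf0 : ∑ e, f (G.src e) = 0 := by
    have := hf 0
    simpa using this
  have hA : 0 ≤ ∑ e, f (G.src e) ^ 2 := sum_nonneg fun _ _ => sq_nonneg _
  have hB : 0 ≤ ∑ e, g (G.tgt e) ^ 2 := sum_nonneg fun _ _ => sq_nonneg _
  rcases hA.eq_or_lt with hA0 | hA0
  · have h1 : ∀ e, f (G.src e) = 0 := by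
      intro e
      have := (sum_eq_zero_iff_of_nonneg fun e _ => sq_nonneg (f (G.src e))).mp hA0.symm e
        (mem_univ _)
      exact pow_eq_zero_iff two_ne_zero |>.mp this
    rw [← hA0, Real.sqrt_zero, zero_mul, mul_zero]
    refine le_of_eq (sum_eq_zero fun e _ => ?_)
    rw [h1 e, zero_mul]
  rcases hB.eq_or_lt with hB0 | hB0
  · have h1 : ∀ e, g (G.tgt e) = 0 := by
      intro e
      have := (sum_eq_zero_iff_of_nonneg fun e _ => sq_nonneg (g (G.tgt e))).mp hB0.symm e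
        (mem_univ _)
      exact pow_eq_zero_iff two_ne_zero |>.mp this
    rw [← hB0, Real.sqrt_zero, mul_zero, mul_zero]
    refine le_of_eq (sum_eq_zero fun e _ => ?_)
    rw [h1 e, mul_zero]
  set a := √(∑ e, f (G.src e) ^ 2) with ha
  set b := √(∑ e, g (G.tgt e) ^ 2) with hb
  have ha0 : 0 < a := Real.sqrt_pos.mpr hA0
  have hb0 : 0 < b := Real.sqrt_pos.mpr hB0
  have ha2 : a ^ 2 = ∑ e, f (G.src e) ^ 2 := Real.sq_sqrt hA
  have hb2 : b ^ 2 = ∑ e, g (G.tgt e) ^ 2 := Real.sq_sqrt hB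
  have h1 := h (fun u => a⁻¹ * f u) (fun v => b⁻¹ * g v) (by rw [← mul_sum, hf0, mul_zero])
  have e1 : ∑ e, (a⁻¹ * f (G.src e)) ^ 2 = 1 := by
    simp only [mul_pow]
    rw [← mul_sum, ← ha2]
    field_simp
  have e2 : ∑ e, (b⁻¹ * g (G.tgt e)) ^ 2 = 1 := by
    simp only [mul_pow]
    rw [← mul_sum, ← hb2]
    field_simp
  have e3 : ∑ e, (a⁻¹ * f (G.src e)) * (b⁻¹ * g (G.tgt e))
      = (a * b)⁻¹ * ∑ e, f (G.src e) * g (G.tgt e) := by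
    rw [mul_sum]
    refine sum_congr rfl fun e _ => ?_
    rw [mul_inv]
    ring
  rw [e1, e2, e3] at h1
  have h2 : (a * b)⁻¹ * ∑ e, f (G.src e) * g (G.tgt e) ≤ σ := by linarith
  rw [inv_mul_le_iff₀ (mul_pos ha0 hb0)] at h2
  linarith

lemma exp2_double {q : ℕ} {G : Game q} {σ : ℝ} (h : G.Exp2 σ) : G.double.Exp2 σ := h

lemma exp2_sum {m n : ℕ} {G : Game m} {H : Game n} {σ : ℝ} (hG : G.Exp2 σ) (hH : H.Exp2 σ) :
    (G.sum H).Exp2 σ := by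
  intro f g hf
  have hN0 : (0 : ℝ) < (Fintype.card H.E : ℝ) := by exact_mod_cast Fintype.card_pos
  set N : ℝ := (Fintype.card H.E : ℝ) with hN
  have hs : ∀ φ : (G.sum H).E → ℝ, ∑ e, φ e = ∑ e₁ : G.E, ∑ e₂ : H.E, φ (e₁, e₂) := by
    intro φ
    exact Fintype.sum_prod_type φ
  let F : G.U → ℝ := fun u => N⁻¹ * ∑ e₂ : H.E, f (u, H.src e₂)
  let K : G.V → ℝ := fun v => N⁻¹ * ∑ e₂ : H.E, g (v, H.tgt e₂)
  have hF0 : ∑ e₁, F (G.src e₁) = 0 := by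
    rw [hs] at hf
    show ∑ e₁ : G.E, N⁻¹ * ∑ e₂ : H.E, f (G.src e₁, H.src e₂) = 0
    rw [← mul_sum]
    have : ∑ e₁ : G.E, ∑ e₂ : H.E, f (G.src e₁, H.src e₂) = 0 := hf
    rw [this, mul_zero]
  have h1 := hG F K hF0
  have hFs : ∀ u, ∑ e₂ : H.E, f (u, H.src e₂) = N * F u := by
    intro u
    show _ = N * (N⁻¹ * ∑ e₂ : H.E, f (u, H.src e₂))
    rw [← mul_assoc, mul_inv_cancel₀ hN0.ne', one_mul]
  have hKs : ∀ v, ∑ e₂ : H.E, g (v, H.tgt e₂) = N * K v := by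
    intro v
    show _ = N * (N⁻¹ * ∑ e₂ : H.E, g (v, H.tgt e₂))
    rw [← mul_assoc, mul_inv_cancel₀ hN0.ne', one_mul]
  have h2 : ∀ e₁ : G.E, 2 * ∑ e₂ : H.E, f (G.src e₁, H.src e₂) * g (G.tgt e₁, H.tgt e₂)
      ≤ 2 * N * (F (G.src e₁) * K (G.tgt e₁))
        + σ * ((∑ e₂ : H.E, f (G.src e₁, H.src e₂) ^ 2 - N * F (G.src e₁) ^ 2)
          + (∑ e₂ : H.E, g (G.tgt e₁, H.tgt e₂) ^ 2 - N * K (G.tgt e₁) ^ 2)) := by
    intro e₁
    set u := G.src e₁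
    set v := G.tgt e₁
    have h3 := hH (fun u₂ => f (u, u₂) - F u) (fun v₂ => g (v, v₂) - K v) (by
      rw [sum_sub_distrib, hFs, sum_const, card_univ, nsmul_eq_mul, ← hN, sub_self])
    have e1 : ∑ e₂ : H.E, (f (u, H.src e₂) - F u) * (g (v, H.tgt e₂) - K v)
        = ∑ e₂ : H.E, f (u, H.src e₂) * g (v, H.tgt e₂) - N * (F u * K v) := by
      have : ∀ e₂ : H.E, (f (u, H.src e₂) - F u) * (g (v, H.tgt e₂) - K v)
          = f (u, H.src e₂) * g (v, H.tgt e₂) - F u * g (v, H.tgt e₂) - K v * f (u, H.src e₂)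
            + F u * K v := fun e₂ => by ring
      rw [sum_congr rfl fun e₂ _ => this e₂, sum_add_distrib, sum_sub_distrib, sum_sub_distrib,
        ← mul_sum, ← mul_sum, hFs, hKs, sum_const, card_univ, nsmul_eq_mul, ← hN]
      ring
    have e2 : ∑ e₂ : H.E, (f (u, H.src e₂) - F u) ^ 2
        = ∑ e₂ : H.E, f (u, H.src e₂) ^ 2 - N * F u ^ 2 := by
      have : ∀ e₂ : H.E, (f (u, H.src e₂) - F u) ^ 2
          = f (u, H.src e₂) ^ 2 - 2 * F u * f (u, H.src e₂) + F u ^ 2 := fun e₂ => by ring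
      rw [sum_congr rfl fun e₂ _ => this e₂, sum_add_distrib, sum_sub_distrib,
        ← mul_sum, hFs, sum_const, card_univ, nsmul_eq_mul, ← hN]
      ring
    have e3 : ∑ e₂ : H.E, (g (v, H.tgt e₂) - K v) ^ 2
        = ∑ e₂ : H.E, g (v, H.tgt e₂) ^ 2 - N * K v ^ 2 := by
      have : ∀ e₂ : H.E, (g (v, H.tgt e₂) - K v) ^ 2
          = g (v, H.tgt e₂) ^ 2 - 2 * K v * g (v, H.tgt e₂) + K v ^ 2 := fun e₂ => by ring
      rw [sum_congr rfl fun e₂ _ => this e₂, sum_add_distrib, sum_sub_distrib,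
        ← mul_sum, hKs, sum_const, card_univ, nsmul_eq_mul, ← hN]
      ring
    rw [e1, e2, e3] at h3
    linarith
  have h3 := sum_le_sum (s := univ) fun e₁ _ => h2 e₁
  have h4 : ∑ e₁ : G.E, (2 * N * (F (G.src e₁) * K (G.tgt e₁))
        + σ * ((∑ e₂ : H.E, f (G.src e₁, H.src e₂) ^ 2 - N * F (G.src e₁) ^ 2)
          + (∑ e₂ : H.E, g (G.tgt e₁, H.tgt e₂) ^ 2 - N * K (G.tgt e₁) ^ 2)))
      = N * (2 * ∑ e₁, F (G.src e₁) * K (G.tgt e₁)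
          - σ * (∑ e₁, F (G.src e₁) ^ 2 + ∑ e₁, K (G.tgt e₁) ^ 2))
        + σ * (∑ e₁ : G.E, ∑ e₂ : H.E, f (G.src e₁, H.src e₂) ^ 2
          + ∑ e₁ : G.E, ∑ e₂ : H.E, g (G.tgt e₁, H.tgt e₂) ^ 2) := by
    simp only [sum_add_distrib, sum_sub_distrib, ← mul_sum]
    ring
  rw [h4, ← mul_sum] at h3
  have h5 : N * (2 * ∑ e₁, F (G.src e₁) * K (G.tgt e₁)
          - σ * (∑ e₁, F (G.src e₁) ^ 2 + ∑ e₁, K (G.tgt e₁) ^ 2)) ≤ 0 :=
    mul_nonpos_of_nonneg_of_nonpos hN0.le (by linarith)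
  rw [hs, hs, hs]
  refine h3.trans ?_
  have h6 : ∑ e₁ : G.E, ∑ e₂ : H.E, f ((G.sum H).src (e₁, e₂)) ^ 2
      = ∑ e₁ : G.E, ∑ e₂ : H.E, f (G.src e₁, H.src e₂) ^ 2 := rfl
  have h7 : ∑ e₁ : G.E, ∑ e₂ : H.E, g ((G.sum H).tgt (e₁, e₂)) ^ 2
      = ∑ e₁ : G.E, ∑ e₂ : H.E, g (G.tgt e₁, H.tgt e₂) ^ 2 := rfl
  rw [h6, h7]
  linarith

end SDA

end Pool.Agent.MP_ec946a
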