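import Mathlib
import Pool.Agent.Lib.MP_ec946a_sdp.Noise

/-!
# The spectral gap of the hyperplane game
-/

set_option autoImplicit false
set_option linter.unusedSectionVars false

namespace Pool.Agent.MP_ec946a.SDP

open Finset

variable {Ω D : Type} [Fintype Ω] [DecidableEq Ω] [Fintype D] [DecidableEq D] [AddCommGroup D]
  (ℓ : Ω → (D →+ ZMod 2))

lemma fou_eq_zero {F : (Ω → ZMod 2) → ℝ} {d : D} (hF : ∀ x, F (x + sh ℓ d) = F x)
    {S : Finset Ω} (hS : walsh S (sh ℓ d) = -1) : fou F S = 0 := by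
  unfold fou
  have h1 : ∑ x, F x * walsh S x = ∑ x, F (x + sh ℓ d) * walsh S (x + sh ℓ d) :=
    (Fintype.sum_equiv (Equiv.addRight (sh ℓ d)) _ _ fun _ => rfl).symm
  have h2 : ∑ x, F (x + sh ℓ d) * walsh S (x + sh ℓ d) = - ∑ x, F x * walsh S x := by
    rw [← sum_neg_distrib]
    refine sum_congr rfl fun x _ => ?_
    rw [hF, walsh_add, hS]
    ring
  rw [h2] at h1
  have h3 : ∑ x, F x * walsh S x = 0 := by linarith
  rw [h3, mul_zero]

lemma fou_empty_eq {F : (Ω → ZMod 2) → ℝ} (h0 : ∑ x, F x = 0) : fou F ∅ = 0 := by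
  unfold fou
  simp only [walsh, prod_empty, mul_one, h0, mul_zero]

lemma parseval (F : (Ω → ZMod 2) → ℝ) :
    ∑ x, F x ^ 2 = (Fintype.card (Ω → ZMod 2) : ℝ) * ∑ S : Finset Ω, fou F S ^ 2 := by
  have h1 := pairing F (fou F)
  simp only [poly_fou] at h1
  rw [sum_congr rfl fun x _ => sq (F x), h1]
  congr 1
  exact sum_congr rfl fun S _ => (sq _).symm

/-- the sum of the squared norms of the conditional expectations of an invariant function -/
theorem cexp_sum_le {F : (Ω → ZMod 2) → ℝ} (hF : ∀ x d, F (x + sh ℓ d) = F x)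
    (h0 : ∑ x, F x = 0) (h1 : ∀ i, ∃ d, ℓ i d = 1)
    (h2 : ∀ i j, i ≠ j → ∃ d, ℓ j d = 0 ∧ ℓ i d = 1) :
    ∑ γ ∈ univ.erase (0 : D), ∑ x, cexp ℓ γ F x ^ 2
      ≤ ((Fintype.card D : ℝ) - 1) / 4 * ∑ x, F x ^ 2 := by
  set K : ℝ := (Fintype.card D : ℝ) with hK
  set X : ℝ := (Fintype.card (Ω → ZMod 2) : ℝ) with hX
  have hX0 : 0 < X := cardX_pos
  have e1 : ∑ γ : D, ∑ x, cexp ℓ γ F x ^ 2
      = X * ∑ S : Finset Ω, ((ker ℓ S).card : ℝ) * fou F S ^ 2 := by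
    rw [sum_congr rfl (g := fun γ => X * ∑ S : Finset Ω, if γ ∈ ker ℓ S then fou F S ^ 2 else 0)
      fun γ _ => cexp_sq ℓ γ F, ← mul_sum, sum_comm]
    congr 1
    refine sum_congr rfl fun S _ => ?_
    rw [← sum_filter, sum_const, nsmul_eq_mul, filter_mem_eq_inter, univ_inter]
  have e2 : ∑ x, cexp ℓ 0 F x ^ 2 = X * ∑ S : Finset Ω, fou F S ^ 2 := by
    rw [cexp_sq, ← hX]
    congr 1
    refine sum_congr rfl fun S _ => ?_
    rw [if_pos (zero_mem_ker ℓ S)]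
  have e3 : ∑ γ ∈ univ.erase (0 : D), ∑ x, cexp ℓ γ F x ^ 2
      = ∑ γ : D, ∑ x, cexp ℓ γ F x ^ 2 - ∑ x, cexp ℓ 0 F x ^ 2 := by
    rw [eq_sub_iff_add_eq, sum_erase_add _ _ (mem_univ (0 : D))]
  rw [e3, e1, e2, parseval, ← hX, ← mul_sub, ← sum_sub_distrib]
  have e4 : (K - 1) / 4 * (X * ∑ S : Finset Ω, fou F S ^ 2)
      = X * ∑ S : Finset Ω, (K - 1) / 4 * fou F S ^ 2 := by
    rw [← mul_sum]
    ring
  rw [e4]
  refine mul_le_mul_of_nonneg_left (sum_le_sum fun S _ => ?_) hX0.le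
  by_cases hS : fou F S = 0
  · rw [hS]
    simp
  · have hne : S ≠ ∅ := by
      rintro rfl
      exact hS (fou_empty_eq h0)
    obtain ⟨j, hj⟩ := nonempty_iff_ne_empty.mpr hne
    have hex : ∃ i ∈ S, i ≠ j := by
      by_contra hcon
      push Not at hcon
      have hSj : S = {j} := by
        ext i
        rw [mem_singleton]
        exact ⟨hcon i, fun h => h ▸ hj⟩
      obtain ⟨d, hd⟩ := h1 j
      apply hS
      refine fou_eq_zero ℓ (d := d) (fun x => hF x d) ?_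
      rw [hSj]
      unfold walsh
      rw [prod_singleton]
      show sgn (ℓ j d) = -1
      rw [hd, sgn_one]
    obtain ⟨i, hi, hij⟩ := hex
    obtain ⟨d₁, hd₁⟩ := h1 j
    obtain ⟨d₂, hd₂, hd₂'⟩ := h2 i j hij
    have c1 := card_ker_split ℓ ∅ (j := j) (d₀ := d₁) (by rw [ker_empty]; exact mem_univ _) hd₁
    have c2 := card_ker_split ℓ (insert j ∅) (j := i) (d₀ := d₂) (by
      rw [mem_ker]
      intro l hl
      rw [mem_insert] at hl
      rcases hl with rfl | hl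
      · exact hd₂
      · exact absurd hl (notMem_empty _)) hd₂'
    rw [ker_empty, card_univ] at c1
    have c3 : ((ker ℓ S).card : ℝ) ≤ ((ker ℓ (insert i (insert j ∅))).card : ℝ) := by
      have : (ker ℓ S) ⊆ ker ℓ (insert i (insert j ∅)) := by
        intro d hd
        rw [mem_ker] at hd ⊢
        intro l hl
        rw [mem_insert, mem_insert] at hl
        rcases hl with rfl | rfl | hl
        · exact hd _ hi
        · exact hd _ hj
        · exact absurd hl (notMem_empty _)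
      exact_mod_cast card_le_card this
    have hfs : 0 ≤ fou F S ^ 2 := sq_nonneg _
    have c4 : ((ker ℓ S).card : ℝ) - 1 ≤ (K - 1) / 4 := by
      rw [← hK] at c1
      linarith
    nlinarith

/-- the correlation of an invariant function with functions of the bits fixed by `γ` -/
theorem corr_le {F : (Ω → ZMod 2) → ℝ} (hF : ∀ x d, F (x + sh ℓ d) = F x)
    (h0 : ∑ x, F x = 0) (h1 : ∀ i, ∃ d, ℓ i d = 1)
    (h2 : ∀ i j, i ≠ j → ∃ d, ℓ j d = 0 ∧ ℓ i d = 1)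
    (g : D → (Ω → ZMod 2) → ℝ) (hg : ∀ γ x u, g γ (merge ℓ γ x u) = g γ x) :
    2 * ∑ γ ∈ univ.erase (0 : D), ∑ x, F x * g γ x
      ≤ 1 / 2 * (∑ γ ∈ univ.erase (0 : D), ∑ x, F x ^ 2
        + ∑ γ ∈ univ.erase (0 : D), ∑ x, g γ x ^ 2) := by
  have hne : Nonempty D := ⟨0⟩
  have hcard : (((univ.erase (0 : D)).card : ℕ) : ℝ) = (Fintype.card D : ℝ) - 1 := by
    rw [card_erase_of_mem (mem_univ _), card_univ, Nat.cast_sub Fintype.card_pos, Nat.cast_one]
  have h3 := cexp_sum_le ℓ hF h0 h1 h2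
  have h4 : 2 * ∑ γ ∈ univ.erase (0 : D), ∑ x, F x * g γ x
      ≤ 2 * ∑ γ ∈ univ.erase (0 : D), ∑ x, cexp ℓ γ F x ^ 2
        + 1 / 2 * ∑ γ ∈ univ.erase (0 : D), ∑ x, g γ x ^ 2 := by
    rw [mul_sum, mul_sum, mul_sum, ← sum_add_distrib]
    refine sum_le_sum fun γ _ => ?_
    rw [sum_cexp_mul ℓ γ F (g γ) (hg γ), mul_sum, mul_sum, mul_sum, ← sum_add_distrib]
    refine sum_le_sum fun x _ => ?_
    nlinarith [sq_nonneg (2 * cexp ℓ γ F x - g γ x)]
  rw [sum_const, nsmul_eq_mul, hcard]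
  nlinarith

end Pool.Agent.MP_ec946a.SDP
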