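import Mathlib
import Pool.Agent.Lib.MP_ec946a_sdp.HMain
import Pool.Agent.Lib.MP_ec946a_sda.NSpec
import Pool.Agent.Lib.MP_ec946a_sda.Exp2

/-!
# The hyperplane game on the nonzero vectors

The strings assign bits to the nonzero vectors of `W = F_2^k` only; then the second singular value
of the game is at most one half.
-/

set_option autoImplicit false
set_option linter.unusedSectionVars false

namespace Pool.Agent.MP_ec946a.NG

open Finset Pool.Agent.MP_ec946a.SDP

/-- the pairing with a nonzero vector -/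
def linN (k : ℕ) (w : NZ k) : W k →+ ZMod 2 := lin k w.1

lemma single_ne {k : ℕ} (i : Fin k) : (Pi.single i 1 : W k) ≠ 0 := by
  intro h
  have h1 := congrFun h i
  rw [Pi.single_eq_same] at h1
  exact one_ne_zero h1

lemma shN_inj {k : ℕ} {d e : W k} (h : sh (linN k) d = sh (linN k) e) : d = e := by
  funext i
  have h1 : linN k ⟨Pi.single i 1, single_ne i⟩ d = linN k ⟨Pi.single i 1, single_ne i⟩ e :=
    congrFun h ⟨Pi.single i 1, single_ne i⟩
  rw [← lin_single i d, ← lin_single i e]
  exact h1

/-- the strings on the nonzero vectors -/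
abbrev XN (k : ℕ) : Type := NZ k → ZMod 2

/-- the orbits on the strings -/
def relUN (k : ℕ) : Setoid (XN k) where
  r x y := ∃ d, y = x + sh (linN k) d
  iseqv :=
    { refl := fun x => ⟨0, by
        funext w
        show x w = x w + linN k w 0
        rw [map_zero, add_zero]⟩
      symm := by
        rintro x y ⟨d, rfl⟩
        refine ⟨d, ?_⟩
        funext w
        show x w = x w + linN k w d + linN k w d
        rw [add_assoc, CharTwo.add_self_eq_zero, add_zero]
      trans := by
        rintro x y z ⟨d, rfl⟩ ⟨e, rfl⟩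
        exact ⟨d + e, by rw [sh_add, add_assoc]⟩ }

/-- the orbits on the strings restricted to the hyperplane -/
def relVN (k : ℕ) (γ : W k) : Setoid (XN k) where
  r x y := ∃ d, ∀ w, linN k w γ = 0 → y w = x w + linN k w d
  iseqv :=
    { refl := fun x => ⟨0, fun w _ => by rw [map_zero, add_zero]⟩
      symm := by
        rintro x y ⟨d, hd⟩
        refine ⟨d, fun w hw => ?_⟩
        rw [hd w hw, add_assoc, CharTwo.add_self_eq_zero, add_zero]
      trans := by
        rintro x y z ⟨d, hd⟩ ⟨e, he⟩
        refine ⟨d + e, fun w hw => ?_⟩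
        rw [he w hw, hd w hw, map_add, add_assoc] }

section

variable {k : ℕ}

/-- the representative of the orbit of `x` -/
noncomputable def ru (x : XN k) : XN k := (Quotient.mk (relUN k) x).out

lemma exists_su (x : XN k) : ∃ d, ru x = x + sh (linN k) d :=
  (relUN k).symm (Quotient.exact (Quotient.out_eq (Quotient.mk (relUN k) x)))

/-- the shift to the representative -/
noncomputable def su (x : XN k) : W k := (exists_su x).choose

lemma su_spec (x : XN k) : ru x = x + sh (linN k) (su x) := (exists_su x).choose_spec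

/-- the representative of the class of `x` on the hyperplane -/
noncomputable def rv (γ : W k) (x : XN k) : XN k := (Quotient.mk (relVN k γ) x).out

lemma mk_merge (γ : W k) (x u : XN k) :
    Quotient.mk (relVN k γ) (merge (linN k) γ x u) = Quotient.mk (relVN k γ) x := by
  apply Quotient.sound
  refine ⟨0, fun w hw => ?_⟩
  rw [map_zero, add_zero]
  unfold merge
  rw [if_pos hw]

lemma exists_sv (γ : W k) (x : XN k) :
    ∃ d, ∀ w, linN k w γ = 0 →
      rv γ (merge (linN k) γ x 0) w = merge (linN k) γ x 0 w + linN k w d :=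
  (relVN k γ).symm (Quotient.exact (Quotient.out_eq
    (Quotient.mk (relVN k γ) (merge (linN k) γ x 0))))

/-- the shift to the representative on the hyperplane -/
noncomputable def sv (γ : W k) (x : XN k) : W k := (exists_sv γ x).choose

lemma sv_merge (γ : W k) (x u : XN k) : sv γ (merge (linN k) γ x u) = sv γ x := by
  unfold sv
  congr 1
  simp only [merge_merge_left]

lemma sv_spec (γ : W k) (x : XN k) {w : NZ k} (hw : linN k w γ = 0) :
    rv γ x w = x w + linN k w (sv γ x) := by
  have h : rv γ (merge (linN k) γ x 0) w = merge (linN k) γ x 0 w + linN k w (sv γ x) :=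
    (exists_sv γ x).choose_spec w hw
  have h1 : rv γ (merge (linN k) γ x 0) = rv γ x := by
    unfold rv
    rw [mk_merge]
  rw [h1] at h
  have h2 : merge (linN k) γ x 0 w = x w := by
    unfold merge
    rw [if_pos hw]
  rw [h2] at h
  exact h

/-- the label of the restriction -/
noncomputable def prj (x : XN k) (γ : NZ k) (a : Fin (2 ^ k)) : Fin (2 ^ k) :=
  lab k (can γ ((lab k).symm a + (su x + sv γ.1 x)))

lemma prj_eq_iff (x : XN k) (γ : NZ k) (a b : Fin (2 ^ k)) :
    prj x γ a = b ↔ ((lab k).symm b) (i0 γ) = 0 ∧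
      (a = lab k ((lab k).symm b + (su x + sv γ.1 x))
        ∨ a = lab k ((lab k).symm b + γ.1 + (su x + sv γ.1 x))) := by
  unfold prj
  rw [← Equiv.eq_symm_apply]
  set r := su x + sv γ.1 x with hr
  have hadd : ∀ c d : W k, c + r = d ↔ c = d + r := by
    intro c d
    constructor
    · rintro rfl
      rw [add_assoc, add_self_W, add_zero]
    · rintro rfl
      rw [add_assoc, add_self_W, add_zero]
  constructor
  · intro h
    have hb : ((lab k).symm b) (i0 γ) = 0 := by
      rw [← h]
      exact can_i0 _ _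
    refine ⟨hb, ?_⟩
    rw [can_eq_iff γ hb, hadd, hadd] at h
    rcases h with h | h
    · left
      rw [← h, Equiv.apply_symm_apply]
    · right
      rw [← h, Equiv.apply_symm_apply]
  · rintro ⟨hb, h⟩
    rw [can_eq_iff γ hb, hadd, hadd]
    rcases h with h | h
    · left
      rw [h, Equiv.symm_apply_apply]
    · right
      rw [h, Equiv.symm_apply_apply]

lemma lab_ne (x : XN k) (γ : NZ k) (b : Fin (2 ^ k)) :
    lab k ((lab k).symm b + (su x + sv γ.1 x))
      ≠ lab k ((lab k).symm b + γ.1 + (su x + sv γ.1 x)) := by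
  intro h
  have h1 := add_right_cancel ((lab k).injective h)
  exact γ.2 (left_eq_add.mp h1)

lemma fibre_eq (x : XN k) (γ : NZ k) (b : Fin (2 ^ k)) :
    univ.filter (fun a => prj x γ a = b) = if ((lab k).symm b) (i0 γ) = 0 then
      {lab k ((lab k).symm b + (su x + sv γ.1 x)),
        lab k ((lab k).symm b + γ.1 + (su x + sv γ.1 x))} else ∅ := by
  ext a
  rw [mem_filter, prj_eq_iff]
  split_ifs with h
  · rw [mem_insert, mem_singleton]
    simp [h]
  · simp [h]

lemma card_fibre_le (x : XN k) (γ : NZ k) (b : Fin (2 ^ k)) :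
    Nat.card {a // prj x γ a = b} ≤ 2 := by
  rw [Nat.card_eq_fintype_card, Fintype.card_subtype, fibre_eq]
  split_ifs
  · exact (card_pair (lab_ne x γ b)).le
  · simp

end

/-- the hyperplane game on the nonzero vectors -/
noncomputable def ngame (k : ℕ) (hk : 1 ≤ k) : Game (2 ^ k) where
  U := Quotient (relUN k)
  V := Σ γ : NZ k, Quotient (relVN k γ.1)
  E := XN k × NZ k
  finU := Fintype.ofFinite _
  finV := Fintype.ofFinite _
  finE := inferInstance
  neE := ⟨(0, ⟨Pi.single ⟨0, hk⟩ 1, single_ne _⟩)⟩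
  src := fun e => Quotient.mk _ e.1
  tgt := fun e => ⟨e.2, Quotient.mk _ e.1⟩
  proj := fun e => prj e.1 e.2
  two_to_one := fun e b => card_fibre_le e.1 e.2 b

section vectors

variable {k : ℕ}

/-- the string with the bit zero at the vector zero -/
def ext0 (z : XN k) : XX k := fun w => if h : w ≠ 0 then z ⟨w, h⟩ else 0

lemma ext0_zero (z : XN k) : ext0 z 0 = 0 := by
  unfold ext0
  rw [dif_neg (by simp)]

lemma ext0_ru (x : XN k) (w : W k) : ext0 (ru x) w = ext0 x w + lin k w (su x) := by
  unfold ext0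
  by_cases h : w = 0
  · rw [dif_neg (by simp [h]), dif_neg (by simp [h]), h, lin_zero_left, add_zero]
  · rw [dif_pos h, dif_pos h, su_spec]
    rfl

lemma ext0_rv (γ : W k) (x : XN k) {w : W k} (hw : lin k w γ = 0) :
    ext0 (rv γ x) w = ext0 x w + lin k w (sv γ x) := by
  unfold ext0
  by_cases h : w = 0
  · rw [dif_neg (by simp [h]), dif_neg (by simp [h]), h, lin_zero_left, add_zero]
  · rw [dif_pos h, dif_pos h]
    exact sv_spec γ x (w := ⟨w, h⟩) hw

/-- the vectors at the vertices of `V` are the sums over the fibres -/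
lemma vecV_eq (x : XN k) (γ : NZ k) (b : Fin (2 ^ k)) :
    vecV γ (ext0 (rv γ.1 x)) b
      = ∑ a ∈ univ.filter (fun a => prj x γ a = b), vecU (ext0 (ru x)) a := by
  rw [fibre_eq]
  split_ifs with hb
  · rw [sum_pair (lab_ne x γ b)]
    ext i
    show (if ((lab k).symm b) (i0 γ) = 0 ∧ lin k ((lab k).symm i) γ.1 = 0 then
      (2 ^ k : ℝ)⁻¹ * (2 * sgn (ext0 (rv γ.1 x) 0 + ext0 (rv γ.1 x) ((lab k).symm i)
        + lin k ((lab k).symm i) ((lab k).symm b))) else 0)
      = (2 ^ k : ℝ)⁻¹ * sgn (ext0 (ru x) 0 + ext0 (ru x) ((lab k).symm i)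
          + lin k ((lab k).symm i)
            ((lab k).symm (lab k ((lab k).symm b + (su x + sv γ.1 x)))))
        + (2 ^ k : ℝ)⁻¹ * sgn (ext0 (ru x) 0 + ext0 (ru x) ((lab k).symm i)
          + lin k ((lab k).symm i)
            ((lab k).symm (lab k ((lab k).symm b + γ.1 + (su x + sv γ.1 x)))))
    rw [Equiv.symm_apply_apply, Equiv.symm_apply_apply]
    set w := (lab k).symm i with hw
    set c := (lab k).symm b with hc
    rw [ext0_zero, ext0_zero, zero_add, zero_add, ext0_ru]
    have e1 : lin k w (c + (su x + sv γ.1 x)) = lin k w c + lin k w (su x) + lin k w (sv γ.1 x) := by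
      rw [map_add, map_add, add_assoc]
    have e2 : lin k w (c + γ.1 + (su x + sv γ.1 x))
        = lin k w c + lin k w (su x) + lin k w (sv γ.1 x) + lin k w γ.1 := by
      rw [map_add, map_add, map_add]
      ring
    have hch : lin k w (su x) + lin k w (su x) = 0 := CharTwo.add_self_eq_zero _
    have e3 : ext0 x w + lin k w (su x) + lin k w (c + (su x + sv γ.1 x))
        = ext0 x w + lin k w c + lin k w (sv γ.1 x) := by
      rw [e1]
      linear_combination hch
    have e4 : ext0 x w + lin k w (su x) + lin k w (c + γ.1 + (su x + sv γ.1 x))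
        = ext0 x w + lin k w c + lin k w (sv γ.1 x) + lin k w γ.1 := by
      rw [e2]
      linear_combination hch
    rw [e3, e4]
    by_cases hγ : lin k w γ.1 = 0
    · rw [if_pos ⟨hb, hγ⟩, hγ, add_zero]
      have e5 : ext0 (rv γ.1 x) w + lin k w c
          = ext0 x w + lin k w c + lin k w (sv γ.1 x) := by
        rw [ext0_rv γ.1 x hγ]
        ring
      rw [e5]
      ring
    · rw [if_neg fun h => hγ h.2, (zmod2 _).resolve_left hγ, sgn_add _ 1, sgn_one]
      ring
  · rw [sum_empty]
    ext i
    show (if ((lab k).symm b) (i0 γ) = 0 ∧ lin k ((lab k).symm i) γ.1 = 0 then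
      (2 ^ k : ℝ)⁻¹ * (2 * sgn (ext0 (rv γ.1 x) 0 + ext0 (rv γ.1 x) ((lab k).symm i)
        + lin k ((lab k).symm i) ((lab k).symm b))) else 0) = 0
    rw [if_neg fun h => hb h.1]

end vectors

/-- the perfect semidefinite solution -/
noncomputable def nperf (k : ℕ) (hk : 1 ≤ k) :
    SDA.Perf (ngame k hk) (EuclideanSpace ℝ (Fin (2 ^ k))) where
  x₀ := vec0 k
  x := fun u a => vecU (ext0 u.out) a
  y := fun v b => vecV v.1 (ext0 v.2.out) b
  cnt := fun v b => if ((lab k).symm b) (i0 v.1) = 0 then 2 else 0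
  norm_x₀ := norm_vec0
  sum_x := fun u => sum_vecU _
  orth := fun u a a' h => inner_vecU _ h
  ne := fun u a => SDA.vecU_ne _ _
  surj := by
    rintro ⟨γ, c⟩
    refine ⟨(c.out, γ), ?_⟩
    show (⟨γ, Quotient.mk _ c.out⟩ : Σ γ : NZ k, Quotient (relVN k γ.1)) = ⟨γ, c⟩
    rw [Quotient.out_eq]
  marg := by
    rintro ⟨x, γ⟩ b
    exact (vecV_eq x γ b).symm
  card := by
    rintro ⟨x, γ⟩ b
    show (univ.filter fun a => prj x γ a = b).card = if ((lab k).symm b) (i0 γ) = 0 then 2 else 0
    rw [fibre_eq]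
    split_ifs
    · exact card_pair (lab_ne x γ b)
    · rfl

/-- the picked element of the orbit -/
noncomputable def pick {k : ℕ} (L : Quotient (relUN k) → Fin (2 ^ k)) (x : XN k) : W k :=
  (lab k).symm (L (Quotient.mk _ x)) + su x

lemma mk_shift {k : ℕ} (x : XN k) (d : W k) :
    Quotient.mk (relUN k) (x + sh (linN k) d) = Quotient.mk (relUN k) x :=
  Quotient.sound ((relUN k).symm ⟨d, rfl⟩)

lemma pick_shift {k : ℕ} (L : Quotient (relUN k) → Fin (2 ^ k)) (x : XN k) (d : W k) :
    pick L (x + sh (linN k) d) = pick L x + d := by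
  have h1 : su (x + sh (linN k) d) = su x + d := by
    apply shN_inj
    have h2 := su_spec x
    have h3 := su_spec (x + sh (linN k) d)
    have h4 : ru (x + sh (linN k) d) = ru x := by
      unfold ru
      rw [mk_shift]
    rw [h4, h2] at h3
    have h5 : sh (linN k) (su x) = sh (linN k) d + sh (linN k) (su (x + sh (linN k) d)) := by
      rw [add_assoc] at h3
      exact add_left_cancel h3
    have h6 : sh (linN k) d + sh (linN k) d = 0 := by
      rw [← sh_add, add_self_W]
      funext w
      exact map_zero (linN k w)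
    rw [sh_add, h5]
    calc sh (linN k) (su (x + sh (linN k) d))
        = (sh (linN k) d + sh (linN k) d) + sh (linN k) (su (x + sh (linN k) d)) := by
          rw [h6, zero_add]
      _ = _ := by abel
  unfold pick
  rw [mk_shift, h1, add_assoc]

theorem ngame_value (k : ℕ) (hk : 1 ≤ k) :
    (ngame k hk).value ≤ √2 * ((2 ^ k : ℕ) : ℝ) ^ (-(1 / 8) : ℝ) := by
  unfold Game.value
  have hne : Nonempty (((ngame k hk).U → Fin (2 ^ k)) × ((ngame k hk).V → Fin (2 ^ k))) := by
    have : Nonempty (Fin (2 ^ k)) := ⟨lab k 0⟩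
    infer_instance
  refine ciSup_le fun L => ?_
  obtain ⟨LU, LV⟩ := L
  let a : XN k → W k := pick LU
  let f : XN k → ℝ := fun x => if a x = 0 then 1 else 0
  have hp : ∀ x d, a (x + sh (linN k) d) = a x + d := fun x d => pick_shift _ x d
  have ha : ∀ x d, f (x + sh (linN k) d) = if d = a x then 1 else 0 := by
    intro x d
    show (if a (x + sh (linN k) d) = 0 then (1 : ℝ) else 0) = _
    rw [hp]
    congr 1
    apply propext
    constructor
    · intro h
      have h1 := add_self_W d
      exact (add_right_cancel (h.trans h1.symm)).symm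
    · intro h
      rw [h]
      exact add_self_W _
  let b : W k → XN k → W k := fun γ x =>
    if h : γ ≠ 0 then (lab k).symm (LV ⟨⟨γ, h⟩, Quotient.mk (relVN k γ) x⟩) + sv γ x else 0
  have hb : ∀ γ x u, b γ (merge (linN k) γ x u) = b γ x := by
    intro γ x u
    show (if h : γ ≠ 0 then (lab k).symm (LV ⟨⟨γ, h⟩,
      Quotient.mk (relVN k γ) (merge (linN k) γ x u)⟩) + sv γ (merge (linN k) γ x u) else 0) = _
    rw [mk_merge, sv_merge]
  have h1 := guess_bound (linN k) ha b hb
  have hcE : (Nat.card (ngame k hk).E : ℝ)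
      = (Fintype.card (XN k) : ℝ) * ((Fintype.card (W k) : ℝ) - 1) := by
    show ((Nat.card (XN k × NZ k) : ℕ) : ℝ) = _
    rw [Nat.card_prod, Nat.card_eq_fintype_card, Nat.card_eq_fintype_card (α := NZ k),
      Fintype.card_subtype_compl, Fintype.card_subtype_eq, Nat.cast_mul,
      Nat.cast_sub Fintype.card_pos, Nat.cast_one]
  have hE0 : (0 : ℝ) < (Nat.card (ngame k hk).E : ℝ) := by exact_mod_cast Nat.card_pos
  rw [div_le_iff₀ hE0, hcE]
  have h2 : (Nat.card ((ngame k hk).satisfied LU LV) : ℝ)
      ≤ ∑ γ ∈ univ.erase (0 : W k),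
        ((univ.filter fun x => a x = b γ x ∨ a x = b γ x + γ).card : ℝ) := by
    have h3 : ∑ γ ∈ univ.erase (0 : W k),
        (univ.filter fun x => a x = b γ x ∨ a x = b γ x + γ).card
        = ((univ.erase (0 : W k)).sigma fun γ =>
          univ.filter fun x => a x = b γ x ∨ a x = b γ x + γ).card := (card_sigma _ _).symm
    rw [← Nat.cast_sum, h3]
    have h4 : Nat.card ((ngame k hk).satisfied LU LV)
        ≤ Nat.card ((univ.erase (0 : W k)).sigma fun γ =>
          univ.filter fun x => a x = b γ x ∨ a x = b γ x + γ) := by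
      refine Nat.card_le_card_of_injective
        (fun e => ⟨⟨e.1.2.1, e.1.1⟩, ?_⟩) ?_
      · rw [mem_sigma]
        refine ⟨mem_erase.mpr ⟨e.1.2.2, mem_univ _⟩, mem_filter.mpr ⟨mem_univ _, ?_⟩⟩
        obtain ⟨⟨x, γ⟩, he⟩ := e
        show a x = b γ.1 x ∨ a x = b γ.1 x + γ.1
        have h5 : prj x γ (LU (Quotient.mk _ x)) = LV ⟨γ, Quotient.mk _ x⟩ := he
        have h6 : b γ.1 x = (lab k).symm (LV ⟨γ, Quotient.mk (relVN k γ.1) x⟩) + sv γ.1 x := by
          show (if h : γ.1 ≠ 0 then _ else _) = _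
          rw [dif_pos γ.2]
        rw [prj_eq_iff] at h5
        rw [h6]
        have hadd : ∀ c s t d : W k, c = d + (s + t) → c + s = d + t := by
          intro c s t d h
          rw [h]
          calc d + (s + t) + s = d + t + (s + s) := by abel
            _ = d + t := by rw [add_self_W, add_zero]
        rcases h5.2 with h7 | h7
        · left
          apply hadd
          rw [h7, Equiv.symm_apply_apply]
        · right
          have h8 : (lab k).symm (LU (Quotient.mk _ x))
              = (lab k).symm (LV ⟨γ, Quotient.mk (relVN k γ.1) x⟩) + γ.1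
                + (su x + sv γ.1 x) := by
            rw [h7, Equiv.symm_apply_apply]
          have h9 := hadd _ _ _ _ h8
          show (lab k).symm (LU (Quotient.mk _ x)) + su x = _
          rw [h9]
          abel
      · rintro ⟨⟨x, γ⟩, he⟩ ⟨⟨x', γ'⟩, he'⟩ h
        have h5 := congrArg Subtype.val h
        have h6 : γ.1 = γ'.1 := congrArg Sigma.fst h5
        have h7 : x = x' := by
          have := Sigma.mk.inj_iff.mp h5
          exact eq_of_heq this.2
        apply Subtype.ext
        exact Prod.ext h7 (Subtype.ext h6)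
    have h8 : Nat.card ((univ.erase (0 : W k)).sigma fun γ =>
          univ.filter fun x => a x = b γ x ∨ a x = b γ x + γ)
        = ((univ.erase (0 : W k)).sigma fun γ =>
          univ.filter fun x => a x = b γ x ∨ a x = b γ x + γ).card := Nat.card_eq_card_toFinset _ |>.trans (by simp)
    rw [h8] at h4
    exact_mod_cast h4
  refine h2.trans (h1.trans (le_of_eq ?_))
  rw [card_W]

lemma exists_lin_one {k : ℕ} (w : W k) (hw : w ≠ 0) : ∃ d, lin k w d = 1 := by
  obtain ⟨i, hi⟩ := Function.ne_iff.mp hw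
  refine ⟨Pi.single i 1, ?_⟩
  rw [lin_comm, lin_single]
  exact (zmod2 _).resolve_left hi

lemma exists_lin_two {k : ℕ} (w w' : W k) (hw : w ≠ 0) (h : w ≠ w') :
    ∃ d, lin k w' d = 0 ∧ lin k w d = 1 := by
  by_contra hcon
  push Not at hcon
  -- every `d` with `lin w' d = 0` has `lin w d = 0`
  have h0 : ∀ d, lin k w' d = 0 → lin k w d = 0 := fun d hd =>
    (zmod2 _).resolve_right (hcon d hd)
  obtain ⟨d₁, hd₁⟩ := exists_lin_one w hw
  have hd₁' : lin k w' d₁ = 1 := (zmod2 _).resolve_left fun h1 => by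
    have := h0 d₁ h1
    rw [hd₁] at this
    exact one_ne_zero this
  apply h
  funext i
  rw [← lin_single i w, ← lin_single i w', lin_comm _ w, lin_comm _ w']
  rcases zmod2 (lin k w' (Pi.single i 1)) with h1 | h1
  · rw [h1]
    exact h0 _ h1
  · rw [h1]
    have h2 : lin k w' (Pi.single i 1 + d₁) = 0 := by
      rw [map_add, h1, hd₁']
      rfl
    have h3 := h0 _ h2
    rw [map_add, hd₁] at h3
    rcases zmod2 (lin k w (Pi.single i 1)) with h4 | h4
    · rw [h4, zero_add] at h3
      exact absurd h3 one_ne_zero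
    · exact h4

/-- the second singular value of the game is at most one half -/
theorem ngame_exp2 (k : ℕ) (hk : 1 ≤ k) : (ngame k hk).Exp2 (1 / 2) := by
  intro f g hf
  let F : XN k → ℝ := fun x => f (Quotient.mk (relUN k) x)
  let g' : W k → XN k → ℝ := fun γ x =>
    if h : γ ≠ 0 then g ⟨⟨γ, h⟩, Quotient.mk (relVN k γ) x⟩ else 0
  have hs : ∀ φ : XN k → W k → ℝ, ∑ e : XN k × NZ k, φ e.1 e.2.1
      = ∑ γ ∈ univ.erase (0 : W k), ∑ x, φ x γ := by
    intro φ
    rw [Fintype.sum_prod_type_right]
    have h1 : ∑ γ ∈ univ.erase (0 : W k), ∑ x, φ x γ = ∑ γ : NZ k, ∑ x, φ x γ.1 := by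
      refine sum_bij' (fun γ hγ => ⟨γ, (mem_erase.mp hγ).1⟩) (fun γ _ => γ.1) ?_ ?_ ?_ ?_ ?_
      · intro γ hγ
        exact mem_univ _
      · intro γ _
        exact mem_erase.mpr ⟨γ.2, mem_univ _⟩
      · intro γ hγ
        rfl
      · intro γ _
        rfl
      · intro γ hγ
        rfl
    rw [h1]
  have hne : Nonempty (NZ k) := ⟨⟨Pi.single ⟨0, hk⟩ 1, single_ne _⟩⟩
  have hF0 : ∑ x, F x = 0 := by
    have h1 : ∑ e : XN k × NZ k, F e.1 = 0 := hf
    rw [Fintype.sum_prod_type] at h1
    simp only [sum_const, card_univ, nsmul_eq_mul] at h1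
    rw [← mul_sum] at h1
    have h2 : (Fintype.card (NZ k) : ℝ) ≠ 0 := by
      exact_mod_cast Fintype.card_ne_zero
    exact (mul_eq_zero.mp h1).resolve_left h2
  have h := corr_le (linN k) (F := F) (fun x d => by
      show f (Quotient.mk (relUN k) (x + sh (linN k) d)) = f (Quotient.mk (relUN k) x)
      rw [mk_shift]) hF0 (fun i => exists_lin_one i.1 i.2)
    (fun i j hij => exists_lin_two i.1 j.1 i.2 fun h => hij (Subtype.ext h)) g' (by
      intro γ x u
      show (if h : γ ≠ 0 then g ⟨⟨γ, h⟩, Quotient.mk (relVN k γ) (merge (linN k) γ x u)⟩ else 0)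
        = if h : γ ≠ 0 then g ⟨⟨γ, h⟩, Quotient.mk (relVN k γ) x⟩ else 0
      rw [mk_merge])
  have hg' : ∀ (γ : NZ k) (x : XN k), g' γ.1 x = g ⟨γ, Quotient.mk (relVN k γ.1) x⟩ := by
    intro γ x
    show (if h : γ.1 ≠ 0 then g ⟨⟨γ.1, h⟩, Quotient.mk (relVN k γ.1) x⟩ else 0) = _
    rw [dif_pos γ.2]
  rw [← hs fun x γ => F x * g' γ x, ← hs fun x _ => F x ^ 2, ← hs fun x γ => g' γ x ^ 2] at h
  have e1 : ∑ e : XN k × NZ k, F e.1 * g' e.2.1 e.1
      = ∑ e : (ngame k hk).E, f ((ngame k hk).src e) * g ((ngame k hk).tgt e) := by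
    refine sum_congr rfl fun e _ => ?_
    rw [hg']
    rfl
  have e2 : ∑ e : XN k × NZ k, g' e.2.1 e.1 ^ 2
      = ∑ e : (ngame k hk).E, g ((ngame k hk).tgt e) ^ 2 := by
    refine sum_congr rfl fun e _ => ?_
    rw [hg']
    rfl
  rw [e1, e2] at h
  exact h

end Pool.Agent.MP_ec946a.NG
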