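import Mathlib
import Pool.Agent.Lib.MP_ec946a_sda.RGame

/-!
# The spectral gap of the reflection game
-/

set_option autoImplicit false
set_option linter.unusedSectionVars false

namespace Pool.Agent.MP_ec946a.SDA

open Finset Pool.Agent.MP_ec946a.SDP

/-- sums over a group of a function with mean zero of a nonzero homomorphism -/
lemma sum_hom {A : Type} [Fintype A] [AddCommGroup A] (m : A →+ ZMod 3) (hm : ∃ a, m a ≠ 0)
    (φ : ZMod 3 → ℝ) (hφ : ∑ t, φ t = 0) (t₀ : ZMod 3) : ∑ a : A, φ (t₀ + m a) = 0 := by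
  obtain ⟨a₀, ha₀⟩ := hm
  have h1 : ∀ j : ZMod 3, ∑ a : A, φ (t₀ + m (a + j.val • a₀)) = ∑ a : A, φ (t₀ + m a) := fun j =>
    Fintype.sum_equiv (Equiv.addRight (j.val • a₀)) _ _ fun _ => rfl
  have h2 : ∑ j : ZMod 3, ∑ a : A, φ (t₀ + m (a + j.val • a₀)) = 0 := by
    rw [sum_comm]
    refine sum_eq_zero fun a _ => ?_
    have hb : ∀ a c : ZMod 3, a ≠ 0 → Function.Bijective fun j : ZMod 3 => c + a * j := by decide
    have h3 := (Equiv.ofBijective _ (hb (m a₀) (t₀ + m a) ha₀)).sum_comp φ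
    rw [← hφ, ← h3]
    refine sum_congr rfl fun j _ => ?_
    rw [map_add, map_nsmul, nsmul_eq_mul, ZMod.natCast_val, ZMod.cast_id]
    show φ (t₀ + (m a + j * m a₀)) = φ (t₀ + m a + m a₀ * j)
    congr 1
    ring
  rw [sum_congr rfl fun j _ => h1 j, sum_const, card_univ, ZMod.card, nsmul_eq_mul] at h2
  have h3 : (3 : ℝ) * ∑ a : A, φ (t₀ + m a) = 0 := by exact_mod_cast h2
  linarith

variable {n : ℕ}

/-- the scalar product of two vectors -/
def dot (c a : Fin n → ZMod 3) : ZMod 3 := ∑ i, c i * a i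

lemma dot_add (c a b : Fin n → ZMod 3) : dot c (a + b) = dot c a + dot c b := by
  unfold dot
  rw [← sum_add_distrib]
  exact sum_congr rfl fun i _ => mul_add _ _ _

lemma dot_sub (c a b : Fin n → ZMod 3) : dot c (a - b) = dot c a - dot c b := by
  unfold dot
  rw [← sum_sub_distrib]
  exact sum_congr rfl fun i _ => mul_sub _ _ _

/-- the scalar product as a homomorphism -/
def dotHom (a : Fin n → ZMod 3) : (Fin n → ZMod 3) →+ ZMod 3 where
  toFun c := dot c a
  map_zero' := by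
    unfold dot
    simp
  map_add' c c' := by
    unfold dot
    rw [← sum_add_distrib]
    exact sum_congr rfl fun i _ => add_mul _ _ _

lemma chi_zero : chi 0 = 1 := by simp [chi]

lemma sum_chi_dot (a : Fin n → ZMod 3) :
    ∑ c : Fin n → ZMod 3, chi (dot c a) = if a = 0 then (3 : ℝ) ^ n else 0 := by
  split_ifs with h
  · subst h
    have : ∀ c : Fin n → ZMod 3, chi (dot c 0) = 1 := by
      intro c
      unfold dot
      simp [chi_zero]
    rw [sum_congr rfl fun c _ => this c, sum_const, card_univ, Fintype.card_fun, ZMod.card,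
      Fintype.card_fin, nsmul_eq_mul, mul_one]
    push_cast
    rfl
  · obtain ⟨i, hi⟩ := Function.ne_iff.mp h
    have h1 := sum_hom (dotHom a) ⟨Pi.single i 1, by
      show dot (Pi.single i 1) a ≠ 0
      unfold dot
      rw [sum_eq_single_of_mem i (mem_univ _)]
      · rw [Pi.single_eq_same, one_mul]
        exact hi
      · intro j _ hj
        rw [Pi.single_eq_of_ne hj, zero_mul]⟩ chi sum_chi 0
    simp only [zero_add] at h1
    exact h1

/-- the quadratic form of a frequency -/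
noncomputable def qf (c : Fin n → ZMod 3) (g : (Fin n → ZMod 3) → ℝ) : ℝ :=
  ((3 : ℝ) ^ n)⁻¹ * ∑ h, ∑ h', g h * g h' * chi (dot c (h' - h))

lemma qf_nonneg (c : Fin n → ZMod 3) (g : (Fin n → ZMod 3) → ℝ) : 0 ≤ qf c g := by
  unfold qf
  have h1 : ∑ h, ∑ h', g h * g h' * chi (dot c (h' - h))
      = ∑ j, (∑ h, g h * dir (dot c h) j) ^ 2 := by
    have h2 : ∀ h h', g h * g h' * chi (dot c (h' - h))
        = ∑ j, (g h * dir (dot c h) j) * (g h' * dir (dot c h') j) := by
      intro h h'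
      rw [dot_sub, ← dir_inner, mul_sum]
      exact sum_congr rfl fun j _ => by ring
    simp only [h2, sq, sum_mul_sum]
    rw [sum_congr rfl fun h _ => sum_comm]
    rw [sum_comm]
  rw [h1]
  positivity

lemma sum_qf (g : (Fin n → ZMod 3) → ℝ) : ∑ c, qf c g = ∑ h, g h ^ 2 := by
  unfold qf
  have h3 : (3 : ℝ) ^ n ≠ 0 := by positivity
  rw [← mul_sum, sum_comm]
  have h1 : ∀ h, ∑ c, ∑ h', g h * g h' * chi (dot c (h' - h)) = (3 : ℝ) ^ n * g h ^ 2 := by
    intro h
    rw [sum_comm, sum_eq_single_of_mem h (mem_univ _)]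
    · rw [← mul_sum, sum_chi_dot, if_pos (sub_self h)]
      ring
    · intro h' _ hh'
      rw [← mul_sum, sum_chi_dot, if_neg (sub_ne_zero.mpr hh'), mul_zero]
  rw [sum_congr rfl fun h _ => h1 h, ← mul_sum, ← mul_assoc, inv_mul_cancel₀ h3, one_mul]

lemma qf_zero {g : (Fin n → ZMod 3) → ℝ} (hg : ∑ h, g h = 0) : qf 0 g = 0 := by
  unfold qf
  have h1 : ∀ h h', g h * g h' * chi (dot 0 (h' - h)) = g h * g h' := by
    intro h h'
    have : dot (0 : Fin n → ZMod 3) (h' - h) = 0 := by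
      unfold dot
      simp
    rw [this, chi_zero, mul_one]
  simp only [h1, ← mul_sum, hg, mul_zero, sum_const_zero]

variable {D : Type} [Fintype D] [DecidableEq D] [AddCommGroup D] (ℓ : Fin n → (D →+ ZMod 3))

/-- the string with given signs and values -/
def mkX (s : Fin n → Bool) (h : Fin n → ZMod 3) : X n := fun i => (h i, s i)

lemma sum_mkX (φ : X n → ℝ) : ∑ y, φ y = ∑ s, ∑ h, φ (mkX s h) := by
  rw [← Fintype.sum_prod_type' (fun s h => φ (mkX s h))]
  exact (Fintype.sum_equiv ((Equiv.prodComm _ _).trans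
    (Equiv.arrowProdEquivProdArrow (Fin n) (fun _ => ZMod 3) (fun _ => Bool)).symm) _ _
    fun p => rfl).symm

/-- the translation of the values -/
def vs (s : Fin n → Bool) : D →+ (Fin n → ZMod 3) where
  toFun d := fun i => sg (s i) * ℓ i d
  map_zero' := by
    funext i
    simp
  map_add' d e := by
    funext i
    show sg (s i) * ℓ i (d + e) = sg (s i) * ℓ i d + sg (s i) * ℓ i e
    rw [map_add, mul_add]

lemma sh_mkX (s : Fin n → Bool) (h : Fin n → ZMod 3) (d : D) :
    sh ℓ d (mkX s h) = mkX s (h + vs ℓ s d) := rfl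

/-- the mean over the translates -/
noncomputable def avs (s : Fin n → Bool) (g : (Fin n → ZMod 3) → ℝ) (h : Fin n → ZMod 3) : ℝ :=
  (Fintype.card D : ℝ)⁻¹ * ∑ d, g (h + vs ℓ s d)

lemma sum_avs (s : Fin n → Bool) (g F : (Fin n → ZMod 3) → ℝ)
    (hF : ∀ h d, F (h + vs ℓ s d) = F h) : ∑ h, F h * g h = ∑ h, F h * avs ℓ s g h := by
  have hK0 : (0 : ℝ) < (Fintype.card D : ℝ) := K_pos
  have h1 : ∀ d : D, ∑ h, F h * g (h + vs ℓ s d) = ∑ h, F h * g h := by
    intro d
    refine Fintype.sum_equiv (Equiv.addRight (vs ℓ s d)) _ _ fun h => ?_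
    show F h * g (h + vs ℓ s d) = F (h + vs ℓ s d) * g (h + vs ℓ s d)
    rw [hF]
  have h2 : ∑ h, F h * avs ℓ s g h
      = (Fintype.card D : ℝ)⁻¹ * ∑ d : D, ∑ h, F h * g (h + vs ℓ s d) := by
    rw [sum_comm, mul_sum]
    refine sum_congr rfl fun h _ => ?_
    unfold avs
    rw [mul_sum, mul_sum, mul_sum]
    exact sum_congr rfl fun d _ => by ring
  rw [h2, sum_congr rfl fun d _ => h1 d, sum_const, card_univ, nsmul_eq_mul, ← mul_assoc,
    inv_mul_cancel₀ hK0.ne', one_mul]

lemma avs_inv (s : Fin n → Bool) (g : (Fin n → ZMod 3) → ℝ) (h : Fin n → ZMod 3) (d : D) :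
    avs ℓ s g (h + vs ℓ s d) = avs ℓ s g h := by
  unfold avs
  congr 1
  refine Fintype.sum_equiv (Equiv.addLeft d) _ _ fun e => ?_
  show g (h + vs ℓ s d + vs ℓ s e) = g (h + vs ℓ s (d + e))
  rw [map_add, add_assoc]

lemma avs_sq (s : Fin n → Bool) (g : (Fin n → ZMod 3) → ℝ) :
    ∑ h, avs ℓ s g h ^ 2 = ∑ h, g h * avs ℓ s g h := by
  have h1 := sum_avs ℓ s g (avs ℓ s g) (avs_inv ℓ s g)
  rw [sum_congr rfl fun h _ => sq (avs ℓ s g h), ← h1]
  exact sum_congr rfl fun h _ => mul_comm _ _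

open Classical in
lemma avs_quad (s : Fin n → Bool) (g : (Fin n → ZMod 3) → ℝ) :
    ∑ h, g h * avs ℓ s g h = ∑ c, if ∀ d, dot c (vs ℓ s d) = 0 then qf c g else 0 := by
  have hK0 : (0 : ℝ) < (Fintype.card D : ℝ) := K_pos
  set K : ℝ := (Fintype.card D : ℝ) with hK
  have h3 : (3 : ℝ) ^ n ≠ 0 := by positivity
  have h1 : ∀ h, avs ℓ s g h = ∑ h', g h' * (((3 : ℝ) ^ n)⁻¹
      * ∑ c, K⁻¹ * ∑ d : D, chi (dot c (h' - h) - dot c (vs ℓ s d))) := by
    intro h
    have h4 : ∀ (h' : Fin n → ZMod 3) (d : D),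
        ∑ c : Fin n → ZMod 3, chi (dot c (h' - h) - dot c (vs ℓ s d))
        = if h' = h + vs ℓ s d then (3 : ℝ) ^ n else 0 := by
      intro h' d
      have h5 := sum_chi_dot (h' - h - vs ℓ s d)
      have h6 : ∀ c : Fin n → ZMod 3, chi (dot c (h' - h - vs ℓ s d))
          = chi (dot c (h' - h) - dot c (vs ℓ s d)) := fun c => by rw [dot_sub c (h' - h)]
      rw [sum_congr rfl fun c _ => h6 c] at h5
      rw [h5]
      have h7 : h' - h - vs ℓ s d = 0 ↔ h' = h + vs ℓ s d := by
        rw [sub_sub, sub_eq_zero]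
      by_cases h8 : h' = h + vs ℓ s d
      · rw [if_pos h8, if_pos (h7.mpr h8)]
      · rw [if_neg h8, if_neg fun h9 => h8 (h7.mp h9)]
    have h5 : ∀ h' : Fin n → ZMod 3,
        ∑ c : Fin n → ZMod 3, K⁻¹ * ∑ d : D, chi (dot c (h' - h) - dot c (vs ℓ s d))
        = K⁻¹ * ∑ d : D, if h' = h + vs ℓ s d then (3 : ℝ) ^ n else 0 := by
      intro h'
      rw [← mul_sum, sum_comm]
      simp only [h4]
    simp only [h5]
    unfold avs
    rw [← hK]
    have h6 : ∀ h' : Fin n → ZMod 3, g h' * (((3 : ℝ) ^ n)⁻¹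
        * (K⁻¹ * ∑ d : D, if h' = h + vs ℓ s d then (3 : ℝ) ^ n else 0))
        = K⁻¹ * ∑ d : D, if h' = h + vs ℓ s d then g h' else 0 := by
      intro h'
      rw [mul_sum, mul_sum, mul_sum, mul_sum]
      refine sum_congr rfl fun d _ => ?_
      split_ifs
      · field_simp
      · ring
    rw [sum_congr rfl fun h' _ => h6 h', ← mul_sum, sum_comm]
    congr 1
    refine sum_congr rfl fun d _ => ?_
    simp
  have h2 : ∀ (h h' c : Fin n → ZMod 3),
      K⁻¹ * ∑ d : D, chi (dot c (h' - h) - dot c (vs ℓ s d))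
      = if ∀ d, dot c (vs ℓ s d) = 0 then chi (dot c (h' - h)) else 0 := by
    intro h h' c
    split_ifs with hc
    · have : ∀ d : D, chi (dot c (h' - h) - dot c (vs ℓ s d)) = chi (dot c (h' - h)) := by
        intro d
        rw [hc d, sub_zero]
      rw [sum_congr rfl fun d _ => this d, sum_const, card_univ, nsmul_eq_mul, ← mul_assoc,
        ← hK, inv_mul_cancel₀ hK0.ne', one_mul]
    · push Not at hc
      obtain ⟨d₀, hd₀⟩ := hc
      let m : D →+ ZMod 3 :=
        { toFun := fun d => -dot c (vs ℓ s d)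
          map_zero' := by
            rw [map_zero]
            unfold dot
            simp
          map_add' := by
            intro d e
            rw [map_add, dot_add]
            ring }
      have h5 := sum_hom m ⟨d₀, by
        show -dot c (vs ℓ s d₀) ≠ 0
        exact neg_ne_zero.mpr hd₀⟩ chi sum_chi (dot c (h' - h))
      have h6 : ∑ d : D, chi (dot c (h' - h) - dot c (vs ℓ s d)) = 0 := by
        rw [← h5]
        refine sum_congr rfl fun d _ => ?_
        show _ = chi (dot c (h' - h) + -dot c (vs ℓ s d))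
        rw [sub_eq_add_neg]
      rw [h6, mul_zero]
  have h4 : ∀ h, g h * avs ℓ s g h = ∑ c, if ∀ d, dot c (vs ℓ s d) = 0 then
      ((3 : ℝ) ^ n)⁻¹ * ∑ h', g h * g h' * chi (dot c (h' - h)) else 0 := by
    intro h
    rw [h1 h]
    simp only [h2]
    rw [mul_sum]
    have h5 : ∀ h' : Fin n → ZMod 3, g h * (g h' * (((3 : ℝ) ^ n)⁻¹
        * ∑ c : Fin n → ZMod 3, if ∀ d, dot c (vs ℓ s d) = 0 then chi (dot c (h' - h)) else 0))
        = ∑ c : Fin n → ZMod 3, if ∀ d, dot c (vs ℓ s d) = 0 then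
          ((3 : ℝ) ^ n)⁻¹ * (g h * g h' * chi (dot c (h' - h))) else 0 := by
      intro h'
      rw [mul_sum, mul_sum, mul_sum]
      refine sum_congr rfl fun c _ => ?_
      split_ifs
      · ring
      · ring
    rw [sum_congr rfl fun h' _ => h5 h', sum_comm]
    refine sum_congr rfl fun c _ => ?_
    split_ifs
    · rw [mul_sum]
    · simp
  rw [sum_congr rfl fun h _ => h4 h, sum_comm]
  refine sum_congr rfl fun c _ => ?_
  split_ifs
  · unfold qf
    rw [mul_sum]
  · simp

open Classical in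
/-- few signs annihilate a frequency -/
lemma count_signs (hne : ∀ i, ∃ d, ℓ i d ≠ 0)
    (hind : ∀ i j, i ≠ j → ∀ a b : ZMod 3, (∀ d, a * ℓ i d + b * ℓ j d = 0) → a = 0 ∧ b = 0)
    {c : Fin n → ZMod 3} (hc : c ≠ 0) :
    ((univ.filter fun s : Fin n → Bool => ∀ d, dot c (vs ℓ s d) = 0).card : ℝ)
      ≤ (2 : ℝ) ^ n / 4 := by
  obtain ⟨i, hi⟩ := Function.ne_iff.mp hc
  have hi' : c i ≠ 0 := hi
  set Z : Finset (Fin n → Bool) := univ.filter fun s => ∀ d, dot c (vs ℓ s d) = 0 with hZ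
  by_cases hT : ∃ j, j ≠ i ∧ c j ≠ 0
  · obtain ⟨j, hji, hj⟩ := hT
    -- an injection
    let Φ : Z × (Bool × Bool) → (Fin n → Bool) := fun p =>
      Function.update (Function.update p.1.1 i (xor (p.1.1 i) p.2.1)) j (xor (p.1.1 j) p.2.2)
    have hΦ : Function.Injective Φ := by
      rintro ⟨⟨s, hs⟩, ⟨b₁, b₂⟩⟩ ⟨⟨s', hs'⟩, ⟨b₁', b₂'⟩⟩ h
      have h0 : ∀ l, l ≠ i → l ≠ j → s l = s' l := by
        intro l hli hlj
        have := congrFun h l
        show s l = s' l
        have e1 : Φ ⟨⟨s, hs⟩, ⟨b₁, b₂⟩⟩ l = s l := by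
          show Function.update (Function.update s i _) j _ l = s l
          rw [Function.update_of_ne hlj, Function.update_of_ne hli]
        have e2 : Φ ⟨⟨s', hs'⟩, ⟨b₁', b₂'⟩⟩ l = s' l := by
          show Function.update (Function.update s' i _) j _ l = s' l
          rw [Function.update_of_ne hlj, Function.update_of_ne hli]
        rw [e1, e2] at this
        exact this
      have hi1 : xor (s i) b₁ = xor (s' i) b₁' := by
        have := congrFun h i
        have e1 : Φ ⟨⟨s, hs⟩, ⟨b₁, b₂⟩⟩ i = xor (s i) b₁ := by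
          show Function.update (Function.update s i _) j _ i = _
          rw [Function.update_of_ne hji.symm, Function.update_self]
        have e2 : Φ ⟨⟨s', hs'⟩, ⟨b₁', b₂'⟩⟩ i = xor (s' i) b₁' := by
          show Function.update (Function.update s' i _) j _ i = _
          rw [Function.update_of_ne hji.symm, Function.update_self]
        rw [e1, e2] at this
        exact this
      have hj1 : xor (s j) b₂ = xor (s' j) b₂' := by
        have := congrFun h j
        have e1 : Φ ⟨⟨s, hs⟩, ⟨b₁, b₂⟩⟩ j = xor (s j) b₂ := by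
          show Function.update (Function.update s i _) j _ j = _
          rw [Function.update_self]
        have e2 : Φ ⟨⟨s', hs'⟩, ⟨b₁', b₂'⟩⟩ j = xor (s' j) b₂' := by
          show Function.update (Function.update s' i _) j _ j = _
          rw [Function.update_self]
        rw [e1, e2] at this
        exact this
      have hz : ∀ d, dot c (vs ℓ s d) = 0 := (mem_filter.mp hs).2
      have hz' : ∀ d, dot c (vs ℓ s' d) = 0 := (mem_filter.mp hs').2
      have hdiff : ∀ d, (c i * (sg (s i) - sg (s' i))) * ℓ i d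
          + (c j * (sg (s j) - sg (s' j))) * ℓ j d = 0 := by
        intro d
        have h1 : dot c (vs ℓ s d) - dot c (vs ℓ s' d) = 0 := by rw [hz, hz', sub_zero]
        have h2 : dot c (vs ℓ s d) - dot c (vs ℓ s' d)
            = ∑ l, c l * (sg (s l) - sg (s' l)) * ℓ l d := by
          unfold dot
          rw [← sum_sub_distrib]
          refine sum_congr rfl fun l _ => ?_
          show c l * (sg (s l) * ℓ l d) - c l * (sg (s' l) * ℓ l d) = _
          ring
        rw [h2, ← sum_subset (subset_univ ({i, j} : Finset (Fin n))), sum_pair hji.symm] at h1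
        · exact h1
        · intro l _ hl
          rw [mem_insert, mem_singleton] at hl
          push Not at hl
          rw [h0 l hl.1 hl.2, sub_self, mul_zero, zero_mul]
      obtain ⟨ha, hb⟩ := hind i j hji.symm _ _ hdiff
      have hsg : ∀ (x : ZMod 3) (b b' : Bool), x ≠ 0 → x * (sg b - sg b') = 0 → b = b' := by
        decide
      have hsi : s i = s' i := hsg _ _ _ hi' ha
      have hsj : s j = s' j := hsg _ _ _ hj hb
      have hss : s = s' := by
        funext l
        by_cases hli : l = i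
        · rw [hli, hsi]
        · by_cases hlj : l = j
          · rw [hlj, hsj]
          · exact h0 l hli hlj
      subst hss
      have hb1 : b₁ = b₁' := by
        have : ∀ x y z : Bool, xor x y = xor x z → y = z := by decide
        exact this _ _ _ hi1
      have hb2 : b₂ = b₂' := by
        have : ∀ x y z : Bool, xor x y = xor x z → y = z := by decide
        exact this _ _ _ hj1
      rw [hb1, hb2]
    have h1 := Fintype.card_le_of_injective Φ hΦ
    rw [Fintype.card_prod, Fintype.card_coe, Fintype.card_prod, Fintype.card_bool,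
      Fintype.card_fun, Fintype.card_bool, Fintype.card_fin] at h1
    have h2 : ((Z.card * (2 * 2) : ℕ) : ℝ) ≤ ((2 ^ n : ℕ) : ℝ) := by exact_mod_cast h1
    push_cast at h2
    linarith
  · push Not at hT
    have hempty : Z = ∅ := by
      rw [hZ, filter_eq_empty_iff]
      intro s _ hs
      obtain ⟨d, hd⟩ := hne i
      have h1 := hs d
      unfold dot at h1
      rw [sum_eq_single_of_mem i (mem_univ _)] at h1
      · have h2 : ∀ (x : ZMod 3) (b : Bool) (y : ZMod 3), x ≠ 0 → y ≠ 0 → x * (sg b * y) ≠ 0 := by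
          decide
        exact h2 _ _ _ hi' hd h1
      · intro l _ hl
        rw [hT l hl, zero_mul]
    rw [hempty, card_empty]
    push_cast
    positivity

/-- the sum of the squared norms of the means over the translates -/
theorem avs_sum_le (hne : ∀ i, ∃ d, ℓ i d ≠ 0)
    (hind : ∀ i j, i ≠ j → ∀ a b : ZMod 3, (∀ d, a * ℓ i d + b * ℓ j d = 0) → a = 0 ∧ b = 0)
    {g : (Fin n → ZMod 3) → ℝ} (hg : ∑ h, g h = 0) :
    ∑ s, ∑ h, avs ℓ s g h ^ 2 ≤ (2 : ℝ) ^ n / 4 * ∑ h, g h ^ 2 := by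
  classical
  simp only [avs_sq, avs_quad]
  rw [sum_comm, ← sum_qf g, mul_sum]
  refine sum_le_sum fun c _ => ?_
  rw [← sum_filter, sum_const, nsmul_eq_mul]
  by_cases hc : c = 0
  · rw [hc, qf_zero hg]
    simp
  · exact mul_le_mul_of_nonneg_right (count_signs ℓ hne hind hc) (qf_nonneg c g)

/-- the correlation of an invariant function with a function of the values -/
theorem corr3_le (hne : ∀ i, ∃ d, ℓ i d ≠ 0)
    (hind : ∀ i j, i ≠ j → ∀ a b : ZMod 3, (∀ d, a * ℓ i d + b * ℓ j d = 0) → a = 0 ∧ b = 0)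
    {F : X n → ℝ} (hF : ∀ y d, F (sh ℓ d y) = F y) (h0 : ∑ y, F y = 0)
    (g : (Fin n → ZMod 3) → ℝ) :
    2 * ∑ y, F y * g (pt y) ≤ 1 / 2 * (∑ y, F y ^ 2 + ∑ y, g (pt y) ^ 2) := by
  set m : ℝ := ((3 : ℝ) ^ n)⁻¹ * ∑ h, g h with hm
  have h3 : (3 : ℝ) ^ n ≠ 0 := by positivity
  have hc : (Fintype.card (Fin n → ZMod 3) : ℝ) = 3 ^ n := by
    rw [Fintype.card_fun, ZMod.card, Fintype.card_fin]
    push_cast
    rfl
  let g₀ : (Fin n → ZMod 3) → ℝ := fun h => g h - m
  have hg₀ : ∑ h, g₀ h = 0 := by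
    show ∑ h, (g h - m) = 0
    rw [sum_sub_distrib, sum_const, card_univ, nsmul_eq_mul, hc, hm, ← mul_assoc,
      mul_inv_cancel₀ h3, one_mul, sub_self]
  have hg₀2 : ∑ h, g₀ h ^ 2 ≤ ∑ h, g h ^ 2 := by
    have e : ∀ h, g₀ h ^ 2 = g h ^ 2 - 2 * m * g h + m ^ 2 := fun h => by
      show (g h - m) ^ 2 = _
      ring
    have e2 : ∑ h, g h = 3 ^ n * m := by
      rw [hm, ← mul_assoc, mul_inv_cancel₀ h3, one_mul]
    rw [sum_congr rfl fun h _ => e h, sum_add_distrib, sum_sub_distrib, ← mul_sum, e2, sum_const,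
      card_univ, nsmul_eq_mul, hc]
    have : 0 ≤ (3 : ℝ) ^ n * m ^ 2 := by positivity
    nlinarith
  have h1 : ∑ y, F y * g (pt y) = ∑ s, ∑ h, F (mkX s h) * avs ℓ s g₀ h := by
    have e1 : ∑ y, F y * g (pt y) = ∑ y, F y * g₀ (pt y) := by
      have : ∀ y, F y * g₀ (pt y) = F y * g (pt y) - m * F y := fun y => by
        show F y * (g (pt y) - m) = _
        ring
      rw [sum_congr rfl fun y _ => this y, sum_sub_distrib, ← mul_sum, h0, mul_zero, sub_zero]
    rw [e1, sum_mkX]
    refine sum_congr rfl fun s _ => ?_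
    exact sum_avs ℓ s g₀ (fun h => F (mkX s h)) fun h d => by
      show F (mkX s (h + vs ℓ s d)) = F (mkX s h)
      rw [← sh_mkX, hF]
  have h2 : ∑ y, g (pt y) ^ 2 = 2 ^ n * ∑ h, g h ^ 2 := by
    rw [sum_mkX]
    have : ∀ s : Fin n → Bool, ∑ h, g (pt (mkX s h)) ^ 2 = ∑ h, g h ^ 2 := fun s => rfl
    rw [sum_congr rfl fun s _ => this s, sum_const, card_univ, Fintype.card_fun,
      Fintype.card_bool, Fintype.card_fin, nsmul_eq_mul]
    push_cast
    rfl
  have h4 := avs_sum_le ℓ hne hind hg₀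
  have h5 : 2 * ∑ s, ∑ h, F (mkX s h) * avs ℓ s g₀ h
      ≤ 1 / 2 * ∑ s, ∑ h, F (mkX s h) ^ 2 + 2 * ∑ s, ∑ h, avs ℓ s g₀ h ^ 2 := by
    rw [mul_sum, mul_sum, mul_sum, ← sum_add_distrib]
    refine sum_le_sum fun s _ => ?_
    rw [mul_sum, mul_sum, mul_sum, ← sum_add_distrib]
    refine sum_le_sum fun h _ => ?_
    nlinarith [sq_nonneg (F (mkX s h) - 2 * avs ℓ s g₀ h)]
  rw [h1, h2, sum_mkX (fun y => F y ^ 2)]
  have h6 : (2 : ℝ) ^ n / 4 * ∑ h, g₀ h ^ 2 ≤ (2 : ℝ) ^ n / 4 * ∑ h, g h ^ 2 :=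
    mul_le_mul_of_nonneg_left hg₀2 (by positivity)
  linarith

end Pool.Agent.MP_ec946a.SDA
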