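import Mathlib
import Pool.Agent.Lib.MP_ec946a_sda.QSpec
import Pool.Agent.Lib.MP_ec946a_sda.Exp2

/-!
# The reflection game with one linear form for every line, modulo translations
-/

set_option autoImplicit false
set_option linter.unusedSectionVars false

namespace Pool.Agent.MP_ec946a.QG

open Finset Pool.Agent.MP_ec946a.SDA

variable {k : ℕ}

/-- the chosen nonzero linear forms -/
abbrev I3 (k : ℕ) : Type := {w : D3 k // w ≠ 0 ∧ can3 w = w}

/-- the number of the chosen linear forms -/
noncomputable abbrev nn3 (k : ℕ) : ℕ := Fintype.card (I3 k)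

/-- the list of the chosen linear forms -/
noncomputable def idx (k : ℕ) : I3 k ≃ Fin (nn3 k) := Fintype.equivFin _

/-- the chosen linear forms -/
noncomputable def lq (k : ℕ) : Fin (nn3 k) → (D3 k →+ ZMod 3) :=
  fun i => lin3 k ((idx k).symm i).1

lemma can3_ne {w : D3 k} (hw : w ≠ 0) : can3 w ≠ 0 := by
  rcases can3_cases w with h | h
  · rw [h]
    exact hw
  · rw [h]
    exact neg_ne_zero.mpr hw

/-- the chosen linear form of a nonzero linear form -/
noncomputable def ci (w : D3 k) (hw : w ≠ 0) : Fin (nn3 k) :=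
  idx k ⟨can3 w, can3_ne hw, can3_can3 w⟩

lemma lq_ci (w : D3 k) (hw : w ≠ 0) : lq k (ci w hw) = lin3 k (can3 w) := by
  unfold lq ci
  rw [Equiv.symm_apply_apply]

lemma lin3_neg (w d : D3 k) : lin3 k (-w) d = -lin3 k w d := by
  rw [lin3_apply, lin3_apply, ← sum_neg_distrib]
  exact sum_congr rfl fun i _ => neg_mul _ _

/-- the linear forms separate the points -/
lemma sep {d e : D3 k} (h : ∀ i, lq k i d = lq k i e) : d = e := by
  funext i
  have hs : (Pi.single i 1 : D3 k) ≠ 0 := by
    intro h0
    have h00 := congrFun h0 i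
    rw [Pi.single_eq_same] at h00
    have h01 : (1 : ZMod 3) ≠ 0 := by decide
    exact h01 h00
  have h1 := h (ci (Pi.single i 1) hs)
  rw [lq_ci] at h1
  have h2 : ∀ x : D3 k, lin3 k (Pi.single i 1) x = x i := by
    intro x
    rw [lin3_comm, lin3_single, mul_one]
  rcases can3_cases (Pi.single i 1 : D3 k) with h3 | h3
  · rw [h3, h2, h2] at h1
    exact h1
  · rw [h3, lin3_neg, lin3_neg, h2, h2] at h1
    exact neg_injective h1

lemma sh_inj3 {y : X (nn3 k)} {d e : D3 k} (h : sh (lq k) d y = sh (lq k) e y) : d = e := by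
  refine sep fun i => ?_
  have h1 := congrFun h i
  have h2 : ∀ (u t : ZMod 3) (z : Y), tr u z = tr t z → u = t := by decide
  exact h2 _ _ _ h1

/-- the orbits of the translations -/
def relQ (k : ℕ) : Setoid (X (nn3 k)) where
  r x y := ∃ d, y = sh (lq k) d x
  iseqv :=
    { refl := fun x => ⟨0, (sh_zero _ x).symm⟩
      symm := by
        rintro x y ⟨d, rfl⟩
        exact ⟨-d, by rw [← sh_add, neg_add_cancel, sh_zero]⟩
      trans := by
        rintro x y z ⟨d, rfl⟩ ⟨e, rfl⟩
        exact ⟨e + d, by rw [sh_add]⟩ }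

/-- the representative of the orbit -/
noncomputable def ru (y : X (nn3 k)) : X (nn3 k) := (Quotient.mk (relQ k) y).out

lemma exists_su (y : X (nn3 k)) : ∃ d, ru y = sh (lq k) d y :=
  (relQ k).symm (Quotient.exact (Quotient.out_eq (Quotient.mk (relQ k) y)))

/-- the shift to the representative -/
noncomputable def su (y : X (nn3 k)) : D3 k := (exists_su y).choose

lemma su_spec (y : X (nn3 k)) : ru y = sh (lq k) (su y) y := (exists_su y).choose_spec

lemma mk_sh (y : X (nn3 k)) (d : D3 k) :
    Quotient.mk (relQ k) (sh (lq k) d y) = Quotient.mk (relQ k) y :=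
  Quotient.sound ((relQ k).symm ⟨d, rfl⟩)

lemma su_sh (y : X (nn3 k)) (d : D3 k) : su (sh (lq k) d y) = su y - d := by
  have h1 : ru (sh (lq k) d y) = ru y := by
    unfold ru
    rw [mk_sh]
  rw [su_spec, su_spec, ← sh_add] at h1
  have h2 := sh_inj3 h1
  exact eq_sub_of_add_eq h2

/-- the game -/
noncomputable def qgame (k : ℕ) : Game (3 ^ k) where
  U := Quotient (relQ k)
  V := Fin (nn3 k) → ZMod 3
  E := X (nn3 k)
  finU := Fintype.ofFinite _
  finV := inferInstance
  finE := inferInstance
  neE := ⟨fun _ => (0, true)⟩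
  src := fun y => Quotient.mk _ y
  tgt := fun y => pt y
  proj := fun y => prj3 (-su y)
  two_to_one := fun y c => card_fibre3_le (-su y) c

theorem qgame_value (k : ℕ) :
    (qgame k).value ≤ 2 * ((3 ^ k : ℕ) : ℝ) ^ (-(1 / 24) : ℝ) := by
  classical
  have hne : Nonempty (((qgame k).U → Fin (3 ^ k)) × ((qgame k).V → Fin (3 ^ k))) := by
    have : Nonempty (Fin (3 ^ k)) := ⟨lab3 k 0⟩
    infer_instance
  refine ciSup_le fun L => ?_
  obtain ⟨LU, LV⟩ := L
  set K : ℝ := ((3 ^ k : ℕ) : ℝ) with hK
  have hKc : (Fintype.card (D3 k) : ℝ) = K := by rw [card_D3]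
  have hK0 : 0 < K := by
    rw [hK]
    positivity
  let L' : X (nn3 k) → D3 k := fun y => (lab3 k).symm (LU (Quotient.mk _ y)) + su y
  let c : (Fin (nn3 k) → ZMod 3) → D3 k := fun h => (lab3 k).symm (LV h)
  have hL' : ∀ y d, L' (sh (lq k) d y) = L' y - d := by
    intro y d
    show (lab3 k).symm (LU (Quotient.mk _ (sh (lq k) d y))) + su (sh (lq k) d y)
      = (lab3 k).symm (LU (Quotient.mk _ y)) + su y - d
    rw [mk_sh, su_sh, add_sub_assoc]
  have hE : (Nat.card (qgame k).E : ℝ) = 6 ^ (nn3 k) := by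
    show ((Nat.card (X (nn3 k)) : ℕ) : ℝ) = _
    rw [Nat.card_eq_fintype_card, card_X]
  have hE0 : (0 : ℝ) < (Nat.card (qgame k).E : ℝ) := by exact_mod_cast Nat.card_pos
  show (Nat.card ((qgame k).satisfied LU LV) : ℝ) / (Nat.card (qgame k).E : ℝ) ≤ _
  rw [div_le_iff₀ hE0, hE]
  -- the number of strings at which the label is guessed
  have hcount : ∀ c' : (Fin (nn3 k) → ZMod 3) → D3 k,
      ((univ.filter fun y => L' y = c' (pt y)).card : ℝ)
        ≤ 6 ^ (nn3 k) * K ^ (-(1 / 24) : ℝ) := by
    intro c'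
    have h1 := count3 (lq k) L' c'
    rw [hKc] at h1
    have h2 : (univ.filter fun p : X (nn3 k) × D3 k =>
        L' (sh (lq k) (-p.2) p.1) - p.2 = c' (pt p.1)).card
        = (univ.filter fun y => L' y = c' (pt y)).card * Fintype.card (D3 k) := by
      have h3 : (univ.filter fun p : X (nn3 k) × D3 k =>
          L' (sh (lq k) (-p.2) p.1) - p.2 = c' (pt p.1))
          = (univ.filter fun y => L' y = c' (pt y)) ×ˢ (univ : Finset (D3 k)) := by
        ext ⟨y, b⟩
        rw [mem_filter, mem_product, mem_filter]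
        simp only [hL', mem_univ, true_and, and_true]
        have : L' y - -b - b = L' y := by abel
        rw [this]
      rw [h3, card_product, card_univ]
    rw [h2, Nat.cast_mul, hKc] at h1
    have h4 : ((univ.filter fun y => L' y = c' (pt y)).card : ℝ) * K
        ≤ (6 ^ (nn3 k) * K ^ (-(1 / 24) : ℝ)) * K := by
      refine h1.trans (le_of_eq ?_)
      ring
    exact le_of_mul_le_mul_right h4 hK0
  set S₁ : Finset (X (nn3 k)) := univ.filter fun y => L' y = c (pt y) with hS₁
  set S₂ : Finset (X (nn3 k)) := univ.filter fun y => L' y = -c (pt y) with hS₂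
  have h1 : Nat.card ((qgame k).satisfied LU LV) ≤ (S₁ ∪ S₂).card := by
    have h2 : Nat.card ((qgame k).satisfied LU LV) ≤ Nat.card (S₁ ∪ S₂ : Finset _) := by
      refine Nat.card_le_card_of_injective (fun e => ⟨e.1, ?_⟩) ?_
      · obtain ⟨y, he⟩ := e
        have he' : prj3 (-su y) (LU (Quotient.mk _ y)) = LV (pt y) := he
        rw [prj3_eq_iff] at he'
        have hgoal : ∀ y : X (nn3 k), (LU (Quotient.mk _ y)
              = lab3 k ((lab3 k).symm (LV (pt y)) + -su y)
            ∨ LU (Quotient.mk _ y) = lab3 k (-(lab3 k).symm (LV (pt y)) + -su y)) →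
            y ∈ S₁ ∪ S₂ := by
          intro y hy
          rw [mem_union, hS₁, hS₂, mem_filter, mem_filter]
          show (_ ∧ (lab3 k).symm (LU (Quotient.mk _ y)) + su y = (lab3 k).symm (LV (pt y)))
            ∨ (_ ∧ (lab3 k).symm (LU (Quotient.mk _ y)) + su y = -(lab3 k).symm (LV (pt y)))
          rcases hy with h3 | h3
          · left
            refine ⟨mem_univ _, ?_⟩
            rw [h3, Equiv.symm_apply_apply, neg_add_cancel_right]
          · right
            refine ⟨mem_univ _, ?_⟩
            rw [h3, Equiv.symm_apply_apply, neg_add_cancel_right]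
        exact hgoal y he'.2
      · rintro ⟨y, he⟩ ⟨y', he'⟩ h
        have h3 : y = y' := congrArg Subtype.val h
        subst h3
        rfl
    rwa [Nat.card_eq_fintype_card (α := (S₁ ∪ S₂ : Finset _)), Fintype.card_coe] at h2
  have h2 : ((S₁ ∪ S₂).card : ℝ) ≤ (S₁.card : ℝ) + (S₂.card : ℝ) := by
    exact_mod_cast card_union_le S₁ S₂
  have h3 := hcount c
  have h4 := hcount (fun h => -c h)
  have h5 : (Nat.card ((qgame k).satisfied LU LV) : ℝ) ≤ ((S₁ ∪ S₂).card : ℝ) := by
    exact_mod_cast h1
  refine h5.trans (h2.trans ((add_le_add h3 h4).trans (le_of_eq ?_)))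
  ring

/-- the second singular value of the game is at most one half -/
theorem qgame_exp2 (k : ℕ) : (qgame k).Exp2 (1 / 2) := by
  intro f g hf
  refine corr3_le (lq k) ?_ ?_ (F := fun y => f (Quotient.mk (relQ k) y)) ?_ hf g
  · intro i
    obtain ⟨j, hj⟩ := Function.ne_iff.mp ((idx k).symm i).2.1
    refine ⟨Pi.single j 1, ?_⟩
    show lin3 k ((idx k).symm i).1 (Pi.single j 1) ≠ 0
    rw [lin3_single, mul_one]
    exact hj
  · intro i j hij a b h
    obtain ⟨⟨w, hw, hcw⟩, hwi⟩ : ∃ w, (idx k).symm i = w := ⟨_, rfl⟩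
    obtain ⟨⟨w', hw', hcw'⟩, hwj⟩ : ∃ w, (idx k).symm j = w := ⟨_, rfl⟩
    have hww : w ≠ w' := by
      rintro rfl
      exact hij ((idx k).symm.injective (hwi.trans hwj.symm))
    have hww' : w ≠ -w' := by
      intro h0
      apply hww
      rw [← hcw, h0, can3_neg, hcw']
    have h1 : ∀ l : Fin k, a * w l + b * w' l = 0 := by
      intro l
      have h2 := h (Pi.single l 1)
      have e1 : lq k i (Pi.single l 1) = w l := by
        show lin3 k ((idx k).symm i).1 (Pi.single l 1) = w l
        rw [hwi, lin3_single, mul_one]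
      have e2 : lq k j (Pi.single l 1) = w' l := by
        show lin3 k ((idx k).symm j).1 (Pi.single l 1) = w' l
        rw [hwj, lin3_single, mul_one]
      rw [e1, e2] at h2
      exact h2
    by_contra hcon
    -- some combination gives a contradiction
    have key : ∀ a b : ZMod 3, ¬(a = 0 ∧ b = 0) →
        (∀ x y : ZMod 3, a * x + b * y = 0 → x = 0) ∨ (∀ x y : ZMod 3, a * x + b * y = 0 → y = 0)
          ∨ (∀ x y : ZMod 3, a * x + b * y = 0 → x = y)
          ∨ (∀ x y : ZMod 3, a * x + b * y = 0 → x = -y) := by decide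
    rcases key a b hcon with h2 | h2 | h2 | h2
    · exact hw (funext fun l => h2 _ _ (h1 l))
    · exact hw' (funext fun l => h2 _ _ (h1 l))
    · exact hww (funext fun l => h2 _ _ (h1 l))
    · exact hww' (funext fun l => h2 _ _ (h1 l))
  · intro y d
    show f (Quotient.mk (relQ k) (sh (lq k) d y)) = f (Quotient.mk (relQ k) y)
    rw [mk_sh]

section vectors

/-- the string on all linear forms -/
noncomputable def extX (z : X (nn3 k)) : X (3 ^ k) := fun i =>
  if h : (lab3 k).symm i ≠ 0 then
    (if can3 ((lab3 k).symm i) = (lab3 k).symm i then z (ci _ h)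
      else ((z (ci _ h)).1, !(z (ci _ h)).2))
  else (0, false)

/-- the values on all linear forms -/
noncomputable def extH (h : Fin (nn3 k) → ZMod 3) : Fin (3 ^ k) → ZMod 3 := fun i =>
  if h' : (lab3 k).symm i ≠ 0 then h (ci _ h') else 0

lemma vw_not (t : ZMod 3) (y : Y) : vw (-t) (y.1, !y.2) = vw t y := by
  revert t y
  decide

lemma vw_extX (z : X (nn3 k)) (b : D3 k) :
    (fun i => vw (ell k i b) (extX z i)) = extH (pt (sh (lq k) b z)) := by
  funext i
  unfold extX extH
  by_cases h : (lab3 k).symm i = 0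
  · rw [dif_neg (by simp [h]), dif_neg (by simp [h])]
    show vw (lin3 k ((lab3 k).symm i) b) (0, false) = 0
    rw [h, lin3_zero_left]
    rfl
  · rw [dif_pos h, dif_pos h]
    show _ = (tr (lq k (ci _ h) b) (z (ci _ h))).1
    rw [lq_ci, ← vw_eq]
    split_ifs with h1
    · rw [h1]
      rfl
    · have h2 : can3 ((lab3 k).symm i) = -(lab3 k).symm i :=
        (can3_cases _).resolve_left h1
      rw [h2, lin3_neg]
      show vw (lin3 k ((lab3 k).symm i) b) _ = _
      rw [← vw_not (-lin3 k ((lab3 k).symm i) b), neg_neg]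

end vectors

/-- the perfect semidefinite solution -/
noncomputable def qperf (k : ℕ) : Perf (qgame k) (EuclideanSpace ℝ (Fin (3 ^ k) × Bool)) where
  x₀ := EuclideanSpace.single (lab3 k 0, false) (1 : ℝ)
  x := fun u a => rx (extX u.out) a
  y := fun v c => ry (extH v) c
  cnt := fun _ c => cnt3 c
  norm_x₀ := by simp
  sum_x := fun u => sum_rx _
  orth := fun u a a' h => rx_inner _ h
  ne := fun u a => rx_ne _ _
  surj := by
    intro h
    exact ⟨fun i => (h i, false), rfl⟩
  marg := by
    have hm : ∀ (y : X (nn3 k)) (c : Fin (3 ^ k)),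
        ∑ a ∈ univ.filter (fun a => prj3 (-su y) a = c), rx (extX (ru y)) a
          = ry (extH (pt y)) c := by
      intro y c
      have h1 := ry_eq (extX (ru y)) (-su y) c
      rw [vw_extX] at h1
      have h2 : sh (lq k) (-su y) (ru y) = y := by
        rw [su_spec, ← sh_add, neg_add_cancel, sh_zero]
      rw [h2] at h1
      exact h1
    exact hm
  card := fun y c => card_fibre3 (-su y) c

end Pool.Agent.MP_ec946a.QG
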