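import Mathlib
import Pool.Agent.Lib.MP_ec946a_sda.Main4
import Pool.Agent.Lib.MP_ec946a_sda.NGame
import Pool.Agent.Lib.MP_ec946a_sda.QGame

/-!
# The gap of the combined relaxation at second singular value one half
-/

set_option autoImplicit false
set_option linter.unusedSectionVars false

namespace Pool.Agent.MP_ec946a.SDA

open Finset Pool.Agent.MP_ec946a.SDP

theorem threshold_gap (k : ℕ) (hk : 1 ≤ k) : ∃ G : Game ((2 ^ (2 * k) + 3 ^ k) * 2),
    (∀ e b, Nat.card {a // G.proj e a = b} = 0 ∨ Nat.card {a // G.proj e a = b} = 2) ∧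
    G.Expands 1 (1 / 2) ∧
    (∃ n, Nonempty (G.SDASolution n)) ∧
    G.value ≤ 4 * (((2 ^ (2 * k) + 3 ^ k) * 2 : ℕ) : ℝ) ^ (-(1 / 32) : ℝ) := by
  have hk2 : 1 ≤ 2 * k := by omega
  obtain ⟨s, t, hst⟩ := exists_bezout k
  obtain ⟨n, ⟨σ⟩⟩ := sum_sda (NG.nperf (2 * k) hk2) (QG.qperf k) hst
  refine ⟨((NG.ngame (2 * k) hk2).sum (QG.qgame k)).double,
    double_exact ((NG.ngame (2 * k) hk2).sum (QG.qgame k)),
    exp2_expands (exp2_double (exp2_sum (NG.ngame_exp2 (2 * k) hk2) (QG.qgame_exp2 k))),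
    ⟨n, ⟨doubleSDA σ⟩⟩, ?_⟩
  have h1 : NeZero (2 ^ (2 * k)) := ⟨by positivity⟩
  have h2 : NeZero (3 ^ k) := ⟨by positivity⟩
  have h3 : NeZero (2 ^ (2 * k) + 3 ^ k) := ⟨by positivity⟩
  refine (value_double _).trans ((value_sum (NG.ngame (2 * k) hk2) (QG.qgame k)).trans ?_)
  refine (add_le_add (NG.ngame_value (2 * k) hk2) (QG.qgame_value k)).trans ?_
  exact final_bound_exact k

end Pool.Agent.MP_ec946a.SDA
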