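import Mathlib
import Pool.Agent.Lib.MP_ec946a_sda.NGame

/-!
# The gap of the basic relaxation at second singular value one half
-/

set_option autoImplicit false

namespace Pool.Agent.MP_ec946a.SDA

open Finset Pool.Agent.MP_ec946a.SDP

theorem basic_gap (k : ℕ) (hk : 1 ≤ k) : ∃ G : Game (2 ^ k),
    (∀ e b, Nat.card {a // G.proj e a = b} = 0 ∨ Nat.card {a // G.proj e a = b} = 2) ∧
    G.Expands 1 (1 / 2) ∧
    IsGreatest {r : ℝ | ∃ (n : ℕ) (σ : G.SDPSolution n), σ.obj = r} 1 ∧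
    G.value ≤ √2 * ((2 ^ k : ℕ) : ℝ) ^ (-(1 / 8) : ℝ) := by
  refine ⟨NG.ngame k hk, fun e b => ?_, exp2_expands (NG.ngame_exp2 k hk), ?_,
    NG.ngame_value k hk⟩
  · have h1 := (NG.nperf k hk).card e b
    rw [Nat.card_eq_fintype_card, Fintype.card_subtype, h1]
    show (if _ then 2 else 0) = 0 ∨ (if _ then 2 else 0) = 2
    split_ifs
    · exact Or.inr rfl
    · exact Or.inl rfl
  · exact isGreatest_one (G := NG.ngame k hk) (NG.nperf k hk).x₀ (NG.nperf k hk).x
      (NG.nperf k hk).y (NG.nperf k hk).norm_x₀ (NG.nperf k hk).sum_x (NG.nperf k hk).orth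
      (NG.nperf k hk).surj fun e b => ((NG.nperf k hk).marg e b).symm

end Pool.Agent.MP_ec946a.SDA
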